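import Pool.Agent.Helper68.BR.ClsG
import Pool.Agent.Helper42.PL.Final

/-!
# Project BR, part D: the reduction for groups all of whose subgroups of index prime to `p` have
admissible composition factors
-/

open scoped Pointwise IsMulCommutative

namespace Pool.Agent.Helper68.BR

open Pool.Agent.Helper42.INC Pool.Agent.Helper7.MK Pool.Agent.Helper24.S7 Pool.Agent.Helper42.PL

/-- all subgroups of `G` of index prime to `p` have admissible composition factors -/
def CCG (p : ℕ) (S : (F : Type) → [Group F] → Prop) (G : Type) [Group G] : Prop :=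
  ∀ H : Subgroup G, ¬ p ∣ H.index → ClsG p S H

variable {p : ℕ} {S : (F : Type) → [Group F] → Prop}

lemma CCG.self [Fact p.Prime] (hS : IsoCl S) {G : Type} [Group G] [Finite G] (h : CCG p S G) :
    ClsG p S G := by
  refine (h ⊤ ?_).congr hS Subgroup.topEquiv
  rw [Subgroup.index_top]
  exact fun hd => (Fact.out : p.Prime).one_lt.ne' (Nat.dvd_one.1 hd)

lemma CCG.idx [Fact p.Prime] (hS : IsoCl S) {G : Type} [Group G] [Finite G] (h : CCG p S G)
    (L : Subgroup G) (hL : ¬ p ∣ L.index) : CCG p S L := by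
  intro H hH
  have h1 : ¬ p ∣ (H.map L.subtype).index := by
    rw [Subgroup.index_map, L.ker_subtype, sup_bot_eq, L.range_subtype]
    intro hd
    rcases (Fact.out : p.Prime).dvd_mul.1 hd with h2 | h2
    · exact hH h2
    · exact hL h2
  exact (h _ h1).congr hS (H.equivMapOfInjective L.subtype L.subtype_injective).symm

theorem ccg_class (p : ℕ) [Fact p.Prime] (hS : IsoCl S) : PClass p (fun G [Group G] => CCG p S G) := by
  refine ⟨?_, ?_⟩
  · intro X Y _ _ _ _ f hf hi hY H hH
    have h1 : ¬ p ∣ (H.map f).index := by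
      rw [Subgroup.index_map]
      intro hd
      rcases (Fact.out : p.Prime).dvd_mul.1 hd with h2 | h2
      · exact hH (h2.trans (Subgroup.index_dvd_of_le le_sup_left))
      · exact hi h2
    let g : H →* Y := f.comp H.subtype
    have hg : g.range = H.map f := by
      rw [MonoidHom.range_comp, Subgroup.range_subtype]
    have hk : g.ker ≤ Subgroup.center H := by
      intro x hx
      have h2 : (x : X) ∈ Subgroup.center X := hf (MonoidHom.mem_ker.1 hx)
      rw [Subgroup.mem_center_iff] at h2 ⊢
      intro y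
      exact Subtype.ext (h2 y)
    refine ClsG.central hS g hk ?_
    rw [hg]
    exact hY _ h1
  · intro X Y _ _ _ _ f hf hX H hH
    have h1 : ¬ p ∣ (H.comap f).index := by
      rwa [Subgroup.index_comap_of_surjective H hf]
    exact (hX _ h1).surj hS (f.subgroupComap H) (f.subgroupComap_surjective_of_surjective H hf)

theorem ccg_comp [Fact p.Prime] (hS : IsoCl S) {G : Type} [Group G] [Finite G] (hG : ClsG p S G)
    (K : Subgroup G) (hK : K.Normal) (T : Subgroup G) (hT : T ≤ K) (h0 : ∀ k ∈ K, cj k T = T) :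
    ClsG p S (T ⧸ Subgroup.center T) := by
  have h1 : ClsG p S K := hG.normal hS K hK
  have hn : (T.subgroupOf K).Normal := by
    refine ⟨fun n hn k => ?_⟩
    rw [Subgroup.mem_subgroupOf] at hn ⊢
    have h2 := h0 k k.2
    rw [← h2, mem_cj]
    have h3 : (k : G)⁻¹ * ((k * n * k⁻¹ : K) : G) * k = n := by
      push_cast
      group
    rw [h3]
    exact hn
  have h4 : ClsG p S (T.subgroupOf K) := h1.normal hS _ hn
  have h5 : ClsG p S T := h4.congr hS (Subgroup.subgroupOfEquivOfLe hT)
  exact h5.surj hS (QuotientGroup.mk' _) (QuotientGroup.mk'_surjective _)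

theorem good_compG [Fact p.Prime] (hS : IsoCl S)
    (hPG : ∀ (F : Type) [Group F], IsSimpleGroup F → (¬ ∀ a b : F, a * b = b * a) → S F →
      ∀ (K : Type) [Group K] [Finite K], ⁅(⊤ : Subgroup K), (⊤ : Subgroup K)⁆ = ⊤ →
        Nonempty ((K ⧸ Subgroup.center K) ≃* F) → ¬ p ∣ Nat.card (Subgroup.center K) →
        p ∣ Nat.card K → Good p K)
    {T : Type} [Group T] [Finite T] (hC : ClsG p S (T ⧸ Subgroup.center T))
    (hperf : ⁅(⊤ : Subgroup T), (⊤ : Subgroup T)⁆ = ⊤)
    (h2 : IsSimpleGroup (T ⧸ Subgroup.center T)) (h3 : ¬ p ∣ Nat.card (Subgroup.center T))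
    (h4 : p ∣ Nat.card T) : Good p T := by
  by_cases hp2 : p ^ 2 ∣ Nat.card T
  · have hab : ¬ ∀ a b : T ⧸ Subgroup.center T, a * b = b * a := by
      intro hc
      have hle : ⁅(⊤ : Subgroup T), (⊤ : Subgroup T)⁆ ≤ Subgroup.center T := by
        rw [Subgroup.commutator_le]
        intro a _ b _
        rw [← QuotientGroup.eq_one_iff, commutatorElement_def]
        change (a : T ⧸ Subgroup.center T) * b * (a : T ⧸ Subgroup.center T)⁻¹ *
          (b : T ⧸ Subgroup.center T)⁻¹ = 1
        rw [hc (a : T ⧸ Subgroup.center T) b]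
        group
      rw [hperf, top_le_iff] at hle
      apply h3
      rw [hle, Subgroup.card_top]
      exact h4
    have hdvd : p ^ 2 ∣ Nat.card (T ⧸ Subgroup.center T) := by
      have h5 := Subgroup.card_eq_card_quotient_mul_card_subgroup (Subgroup.center T)
      rw [h5] at hp2
      have h6 : Nat.Coprime (p ^ 2) (Nat.card (Subgroup.center T)) :=
        Nat.Coprime.pow_left 2 (((Fact.out : p.Prime).coprime_iff_not_dvd).2 h3)
      exact h6.dvd_of_dvd_mul_right hp2
    rcases hC.simple hS h2 with h | h | ⟨-, h⟩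
    · exact absurd h hab
    · exact Pool.Agent.Helper42.CY.pgood_of_cyclic (T ⧸ Subgroup.center T) h hdvd T hperf
        ⟨MulEquiv.refl _⟩ h3
    · exact hPG (T ⧸ Subgroup.center T) h2 hab h T hperf ⟨MulEquiv.refl _⟩ h3 h4
  · exact Pool.Agent.Helper42.IR.F.hII T hperf h4 hp2 h3

theorem final_ccg [Fact p.Prime] (hS : IsoCl S)
    (hPG : ∀ (F : Type) [Group F], IsSimpleGroup F → (¬ ∀ a b : F, a * b = b * a) → S F →
      ∀ (K : Type) [Group K] [Finite K], ⁅(⊤ : Subgroup K), (⊤ : Subgroup K)⁆ = ⊤ →
        Nonempty ((K ⧸ Subgroup.center K) ≃* F) → ¬ p ∣ Nat.card (Subgroup.center K) →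
        p ∣ Nat.card K → Good p K)
    (G : Type) [Group G] [Finite G] (hG : CCG p S G) : McKayCongr p G := by
  refine induct (fun G [Group G] => CCG p S G → McKayCongr p G) ?_ G hG
  intro G _ _ ih hG
  by_contra hn
  have hcore : Core p G := one_stepP (ccg_class p hS) G hG (fun X _ _ hX hs => ih X hs hX) hn
  obtain ⟨K, hKn, hperf, hne, hmin, hpK⟩ := exists_minK hcore hn
  obtain ⟨P⟩ : Nonempty (Sylow p G) := inferInstance
  haveI := hKn
  obtain ⟨L, hL, hNL, hcnt⟩ := stage3P K hperf hne hmin hcore.coprime hpK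
    (fun T hTK h0 h1 h2 h3 h4 => good_compG hS hPG (ccg_comp hS (hG.self hS) K hKn T hTK h0) (by
      apply Subgroup.map_injective T.subtype_injective
      have h5 := Subgroup.map_subtype_commutator T
      rw [_root_.commutator_def] at h5
      rw [h5, h1, ← MonoidHom.range_eq_map, Subgroup.range_subtype]) h2 h3 h4) P
  have hPL : (P : Subgroup G) ≤ L := Subgroup.le_normalizer.trans hNL
  have hLc : CCG p S L := by
    apply hG.idx hS L
    intro hd
    exact P.not_dvd_index (hd.trans (Subgroup.index_dvd_of_le hPL))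
  have hLM : McKayCongr p L := ih L (smaller_sub L hL) hLc
  apply hn
  rw [mcKay_iff P]
  intro s hs
  rw [hcnt s hs, (mcKay_iff (P.subtype hPL)).1 hLM s hs]
  exact cnt_congr (normSubEquiv P L hPL hNL) s

end Pool.Agent.Helper68.BR
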