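import Pool.Agent.Helper68.BR.Stab
import Pool.Agent.Helper42.INC.Schur

/-!
# BR-A11: the averaging identity in matrix form

For `A` let `F : V → V'` be the composition of `pr θ : V → VT θ`, the linear map `VT θ → VT' θ'` with matrix `A` in
the bases `Λ.b θ`, `Λ'.b θ'` and the inclusion `VT' θ' ≤ V'`. `avgMap ρ ρ' F = ∑ g, ρ' g ∘ F ∘ ρ g⁻¹`
(INC/Schur.lean) is `0` if the characters are different (`avgMap_zero`) and the scalar `|G| tr F / χ(1)` if
`ρ' = ρ` (`avgMap_scalar`; `χ(1) = finrank V`). Apply it to `Λ.b η j` and then `pr η'`: the coordinates in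
`Λ'.b η'` are the entries of `∑ g, Λ'.C η' θ' g * A * Λ.C θ η g⁻¹` (`M_spec`). For `ρ' = ρ`, `η' = η`, `θ' = θ`:
`tr F = tr A` (the trace of `F` is the trace of its restriction to `VT θ`), `pr η (b η j) = b η j`.
-/

namespace Pool.Agent.Helper68.BR

open Pool.Agent.Helper42.INC Pool.Agent.Helper42.IR

variable {G : Type} [Group G] [Finite G] {p : ℕ} [Fact p.Prime] {P U : Subgroup G}
  {θ η : G → ℂ} {V : Type} [AddCommGroup V] [Module ℂ V] [FiniteDimensional ℂ V]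
  {ρ : Representation ℂ G V} {V' : Type} [AddCommGroup V'] [Module ℂ V'] [FiniteDimensional ℂ V']
  {ρ' : Representation ℂ G V'}

private noncomputable def avFF (hB : Bru p P U) (Λ : Lat p P U ρ) (Λ' : Lat p P U ρ')
    (hθ : θ ∈ Lin P) (A : Matrix (Fin (Λ'.d θ)) (Fin (Λ.d θ)) ℂ) : V →ₗ[ℂ] V' :=
  (VT P U ρ' θ).subtype ∘ₗ (Matrix.toLin (Λ.b θ) (Λ'.b θ) A) ∘ₗ
    (pr P U ρ θ).codRestrict (VT P U ρ θ) (fun v => pr_mem hB hθ v)

private lemma avFF_apply (hB : Bru p P U) (Λ : Lat p P U ρ) (Λ' : Lat p P U ρ')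
    (hθ : θ ∈ Lin P) (A : Matrix (Fin (Λ'.d θ)) (Fin (Λ.d θ)) ℂ) (v : V)
    (c : Fin (Λ.d θ) → ℂ) (hc : pr P U ρ θ v = ∑ i, c i • (Λ.b θ i : V)) :
    avFF hB Λ Λ' hθ A v = ∑ i, (A.mulVec c) i • (Λ'.b θ i : V') := by
  have h1 : (pr P U ρ θ).codRestrict (VT P U ρ θ) (fun v => pr_mem hB hθ v) v =
      ∑ i, c i • Λ.b θ i := by
    apply Subtype.ext
    rw [LinearMap.codRestrict_apply, hc]
    simp
  unfold avFF
  rw [LinearMap.comp_apply, LinearMap.comp_apply, h1, Matrix.toLin_apply]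
  have h2 : ⇑((Λ.b θ).repr (∑ i, c i • Λ.b θ i)) = c := (Λ.b θ).repr_sum_self c
  rw [h2]
  simp

private lemma av_core (hB : Bru p P U) [Fintype G] (Λ : Lat p P U ρ) (Λ' : Lat p P U ρ')
    (hθ : θ ∈ Lin P) (hη : η ∈ Lin P) (A : Matrix (Fin (Λ'.d θ)) (Fin (Λ.d θ)) ℂ)
    (j : Fin (Λ.d η)) :
    pr P U ρ' η (avgMap ρ ρ' (avFF hB Λ Λ' hθ A) (Λ.b η j)) =
      ∑ k, (∑ g : G, Λ'.C η θ g * A * Λ.C θ η g⁻¹) k j • (Λ'.b η k : V') := by
  unfold avgMap
  rw [LinearMap.sum_apply, map_sum]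
  have h1 : ∀ g : G, pr P U ρ' η ((ρ' g ∘ₗ avFF hB Λ Λ' hθ A ∘ₗ ρ g⁻¹) (Λ.b η j : V)) =
      ∑ k, (Λ'.C η θ g * A * Λ.C θ η g⁻¹) k j • (Λ'.b η k : V') := by
    intro g
    rw [LinearMap.comp_apply, LinearMap.comp_apply,
      avFF_apply hB Λ Λ' hθ A _ (fun i => Λ.C θ η g⁻¹ i j) (M_spec hB Λ hη hθ g⁻¹ j),
      map_sum, map_sum]
    have h2 : ∀ i, pr P U ρ' η (ρ' g (A.mulVec (fun i => Λ.C θ η g⁻¹ i j) i • (Λ'.b θ i : V'))) =
        ∑ k, (A.mulVec (fun i => Λ.C θ η g⁻¹ i j) i * Λ'.C η θ g k i) • (Λ'.b η k : V') := by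
      intro i
      rw [map_smul, map_smul, M_spec hB Λ' hθ hη g i, Finset.smul_sum]
      exact Finset.sum_congr rfl fun k _ => by rw [smul_smul]
    rw [Finset.sum_congr rfl fun i _ => h2 i, Finset.sum_comm]
    refine Finset.sum_congr rfl fun k _ => ?_
    rw [← Finset.sum_smul]
    congr 1
    rw [Matrix.mul_assoc, Matrix.mul_apply]
    refine Finset.sum_congr rfl fun i _ => ?_
    rw [mul_comm, Matrix.mul_apply]
    rfl
  rw [Finset.sum_congr rfl fun g _ => h1 g, Finset.sum_comm]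
  refine Finset.sum_congr rfl fun k _ => ?_
  rw [← Finset.sum_smul, Matrix.sum_apply]

private lemma av_coord (Λ' : Lat p P U ρ') {c c' : Fin (Λ'.d η) → ℂ}
    (h : ∑ k, c k • (Λ'.b η k : V') = ∑ k, c' k • (Λ'.b η k : V')) : c = c' := by
  have h1 : ∑ k, c k • Λ'.b η k = ∑ k, c' k • Λ'.b η k := by
    apply Subtype.ext
    simpa using h
  have h2 := congrArg (fun v => ⇑((Λ'.b η).repr v)) h1
  simp only [Module.Basis.repr_sum_self] at h2
  exact h2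

theorem avg_same (hB : Bru p P U) (hρ : ρ.IsIrreducible) (Λ : Lat p P U ρ) (hθ : θ ∈ Lin P)
    (hη : η ∈ Lin P) (A : Matrix (Fin (Λ.d θ)) (Fin (Λ.d θ)) ℂ) :
    ∑ᶠ g, Λ.C η θ g * A * Λ.C θ η g⁻¹ =
      ((Nat.card G : ℂ) * A.trace / ρ.character 1) • (1 : Matrix _ _ ℂ) := by
  classical
  have := Fintype.ofFinite G
  have := hρ
  rw [finsum_eq_sum_of_fintype]
  have htr : LinearMap.trace ℂ V (avFF hB Λ Λ hθ A) = A.trace := by
    unfold avFF
    rw [LinearMap.trace_comp_comm', LinearMap.comp_assoc]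
    have h1 : (pr P U ρ θ).codRestrict (VT P U ρ θ) (fun v => pr_mem hB hθ v) ∘ₗ
        (VT P U ρ θ).subtype = LinearMap.id := by
      ext v
      rw [LinearMap.comp_apply, LinearMap.codRestrict_apply]
      exact pr_eq hB hθ v.2
    rw [h1, LinearMap.comp_id, LinearMap.trace_eq_matrix_trace ℂ (Λ.b θ),
      LinearMap.toMatrix_toLin]
  have hch : ρ.character 1 = (Module.finrank ℂ V : ℂ) := Representation.char_one ρ
  ext k j
  have h1 := av_core (θ := θ) (η := η) hB Λ Λ hθ hη A j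
  rw [avgMap_scalar, htr, LinearMap.smul_apply, LinearMap.id_apply, map_smul,
    pr_eq hB hη (Λ.b η j).2, ← hch] at h1
  have h2 : ((Nat.card G : ℂ) * A.trace / ρ.character 1) • (Λ.b η j : V) =
      ∑ k, ((((Nat.card G : ℂ) * A.trace / ρ.character 1) • (1 : Matrix _ _ ℂ)) k j) •
        (Λ.b η k : V) := by
    rw [Finset.sum_eq_single j]
    · simp
    · intro k _ hk
      simp [Matrix.one_apply_ne hk]
    · intro h
      exact absurd (Finset.mem_univ _) h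
  rw [h2] at h1
  exact (congrFun (av_coord Λ h1) k).symm

theorem avg_diff (hB : Bru p P U) (hρ : ρ.IsIrreducible) (hρ' : ρ'.IsIrreducible)
    (hne : ρ.character ≠ ρ'.character) (Λ : Lat p P U ρ) (Λ' : Lat p P U ρ') (hθ : θ ∈ Lin P)
    (A : Matrix (Fin (Λ'.d θ)) (Fin (Λ.d θ)) ℂ) :
    ∑ᶠ g, Λ'.C θ θ g * A * Λ.C θ θ g⁻¹ = 0 := by
  classical
  have := Fintype.ofFinite G
  have := hρ
  have := hρ'
  rw [finsum_eq_sum_of_fintype]
  ext k j
  have h1 := av_core (θ := θ) (η := θ) hB Λ Λ' hθ hθ A j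
  rw [avgMap_zero ρ ρ' hne, LinearMap.zero_apply, map_zero] at h1
  have h2 : (0 : V') = ∑ k, ((0 : Fin (Λ'.d θ) → ℂ) k) • (Λ'.b θ k : V') := by simp
  rw [h2] at h1
  exact (congrFun (av_coord Λ' h1) k).symm

end Pool.Agent.Helper68.BR
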