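import Pool.Agent.Helper68.BR.Grp

/-!
# BR-B03: `Bru` for a group containing `K` as a normal subgroup of index prime to `p`

`P' = P.map ι`, `U' = U.map ι`. `pgroup`, `comm`, `norm`, `fix`: transport along the injection `ι`. `index`:
`|C : P'| = |C : ι K| |K : P|`. `cover`: let `c ∈ C`. Conjugation by `c` on `ι K` is `β c`; `β c` maps `P` to a Sylow `p`-subgroup of `K`,
so there is `k ∈ K` with `β c (P) = k P k⁻¹`; so `m = (ι k)⁻¹ c` normalizes `P'`, and it acts on `ι K` as the automorphism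
`β m = conj k⁻¹ ∘ β c`, which preserves `P`. By `Frat` there is `n ∈ Nm P` with `β m (U) = n U n⁻¹`; so
`m' = (ι n)⁻¹ m` normalizes `P'` and `U'` (its action on `ι K` is `x ↦ n⁻¹ (β m x) n`). Then `c = ι (k n) m'`; write
`k n = u n₁ u'` (`Bru.cover` for `K`): `c = ι u * (ι n₁ * m') * (m'⁻¹ * ι u' * m')`, with `m'⁻¹ ι u' m' ∈ U'`.
-/

namespace Pool.Agent.Helper68.BR

open Pool.Agent.Helper42.INC Pool.Agent.Helper42.IR

/-- an automorphism maps the Sylow subgroup `P` to a conjugate of `P` -/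
private theorem exists_conj {K : Type} [Group K] [Finite K] {p : ℕ} [Fact p.Prime]
    {P : Subgroup K} (h1 : IsPGroup p P) (h2 : ¬ p ∣ P.index) (α : MulAut K) :
    ∃ k : K, ∀ x, k⁻¹ * α x * k ∈ P ↔ x ∈ P := by
  obtain ⟨k, hk⟩ := MulAction.exists_smul_eq K (h1.toSylow h2) (α • h1.toSylow h2)
  refine ⟨k, fun x => ?_⟩
  have h3 : ∀ y, y ∈ (k • h1.toSylow h2 : Sylow p K) ↔ k⁻¹ * y * k ∈ P := by
    intro y
    rw [Sylow.smul_def, ← SetLike.mem_coe, ← Sylow.coe_coe, SetLike.mem_coe]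
    rw [Sylow.pointwise_smul_def, Subgroup.mem_pointwise_smul_iff_inv_smul_mem]
    rw [MulAut.smul_def, ← map_inv, MulAut.conj_apply, inv_inv]
    exact Iff.rfl
  have h4 : α x ∈ (α • h1.toSylow h2 : Sylow p K) ↔ x ∈ P := by
    rw [← SetLike.mem_coe, ← Sylow.coe_coe, SetLike.mem_coe]
    rw [Sylow.pointwise_smul_def, Subgroup.mem_pointwise_smul_iff_inv_smul_mem]
    rw [MulAut.smul_def, MulAut.inv_apply_self]
    exact Iff.rfl
  rw [← h3, hk, h4]

theorem bru_cover {K C : Type} [Group K] [Group C] [Finite K] [Finite C] {p : ℕ} [Fact p.Prime]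
    {P U : Subgroup K} (hB : Bru p P U) (hFr : Frat P U) (ι : K →* C)
    (hι : Function.Injective ι) (β : C → MulAut K) (hconj : ∀ c k, c * ι k * c⁻¹ = ι (β c k))
    (hidx : ¬ p ∣ ι.range.index) : Bru p (P.map ι) (U.map ι) where
  pgroup := hB.pgroup.map ι
  index := by
    rw [Subgroup.index_map_of_injective _ hι]
    intro h
    rcases (Nat.Prime.dvd_mul (Fact.out (p := p.Prime))).1 h with h | h
    · exact hB.index h
    · exact hidx h
  comm := by
    rintro _ ⟨a, ha, rfl⟩ _ ⟨b, hb, rfl⟩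
    rw [← map_mul, ← map_mul, hB.comm a ha b hb]
  norm := by
    rintro _ ⟨a, ha, rfl⟩ _ ⟨b, hb, rfl⟩
    refine ⟨a * b * a⁻¹, hB.norm a ha b hb, ?_⟩
    rw [map_mul, map_mul, map_inv]
  fix := by
    rintro _ ⟨u, hu, rfl⟩ h
    have h1 : u = 1 := by
      refine hB.fix u hu fun x hx => hι ?_
      rw [map_mul, map_mul]
      exact h (ι x) ⟨x, hx, rfl⟩
    rw [h1, map_one]
  cover := by
    intro c
    obtain ⟨k, hk⟩ := exists_conj hB.pgroup hB.index (β c)
    obtain ⟨α, hα⟩ : ∃ α : MulAut K, ∀ x, α x = k⁻¹ * β c x * k := by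
      refine ⟨(MulAut.conj k)⁻¹ * β c, fun x => ?_⟩
      rw [MulAut.mul_apply, ← map_inv, MulAut.conj_apply, inv_inv]
    obtain ⟨n, hn, hnU⟩ := hFr α (fun x => by rw [hα]; exact hk x)
    obtain ⟨m, hm⟩ : ∃ m : C, m = (ι n)⁻¹ * ((ι k)⁻¹ * c) := ⟨_, rfl⟩
    have hmx : ∀ x, m * ι x * m⁻¹ = ι (n⁻¹ * α x * n) := by
      intro x
      rw [hα, hm]
      have e : (ι n)⁻¹ * ((ι k)⁻¹ * c) * ι x * ((ι n)⁻¹ * ((ι k)⁻¹ * c))⁻¹ =
          (ι n)⁻¹ * ((ι k)⁻¹ * (c * ι x * c⁻¹) * ι k) * ι n := by group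
      rw [e, hconj]
      simp only [map_mul, map_inv]
    have hinv : ∀ y, m⁻¹ * ι y * m = ι (α⁻¹ (n * y * n⁻¹)) := by
      intro y
      have h1 := hmx (α⁻¹ (n * y * n⁻¹))
      rw [MulAut.apply_inv_self] at h1
      have e : n⁻¹ * (n * y * n⁻¹) * n = y := by group
      rw [e] at h1
      rw [← h1]
      group
    have hPn : ∀ x, n⁻¹ * α x * n ∈ P ↔ x ∈ P := by
      intro x
      rw [← hk x, ← hα x]
      have h1 := Subgroup.mem_normalizer_iff.1 ((Nm P).inv_mem hn) (α x)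
      rw [inv_inv] at h1
      exact h1.symm
    have hmN : m ∈ Nm (P.map ι) := by
      rw [Subgroup.mem_normalizer_iff]
      intro h
      constructor
      · rintro ⟨x, hx, rfl⟩
        rw [hmx]
        exact ⟨_, (hPn x).2 hx, rfl⟩
      · rintro ⟨y, hy, hyh⟩
        have h1 : h = m⁻¹ * ι y * m := by rw [hyh]; group
        rw [h1, hinv]
        refine ⟨_, ?_, rfl⟩
        have h2 := hPn (α⁻¹ (n * y * n⁻¹))
        rw [MulAut.apply_inv_self] at h2
        have e : n⁻¹ * (n * y * n⁻¹) * n = y := by group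
        rw [e] at h2
        exact h2.1 hy
    obtain ⟨u, hu, n₁, hn₁, u', hu', hknu⟩ := hB.cover (k * n)
    refine ⟨ι u, ⟨u, hu, rfl⟩, ι n₁ * m, ?_, m⁻¹ * ι u' * m, ?_, ?_⟩
    · exact (Nm (P.map ι)).mul_mem (Subgroup.le_normalizer_map ι ⟨n₁, hn₁, rfl⟩) hmN
    · rw [hinv]
      refine ⟨_, ?_, rfl⟩
      have h2 := hnU (α⁻¹ (n * u' * n⁻¹))
      rw [MulAut.apply_inv_self] at h2
      have e : n⁻¹ * (n * u' * n⁻¹) * n = u' := by group
      rw [e] at h2
      exact h2.1 hu'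
    · have h1 : c = ι (k * n) * m := by
        rw [hm, map_mul]
        group
      have h2 : ι u * (ι n₁ * m) * (m⁻¹ * ι u' * m) = ι (u * n₁ * u') * m := by
        simp only [map_mul]
        group
      rw [h2, ← hknu]
      exact h1

end Pool.Agent.Helper68.BR
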