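import Pool.Agent.Helper68.BR.UTMem

/-!
# BR-C02: Bruhat decomposition of `SL_n(k)`

Induction on `c ≤ n`: there are `u, u' ∈ UT` such that `h = u g u'` has for every column `j < c` a row `r j` such that `(r j, j)` is the only
nonzero entry in its row and in its column. Step: column `c` of the invertible matrix `h` is nonzero; let `i` be the lowest row
(largest index) with `h i c ≠ 0`. `i ≠ r j` for `j < c` (row `r j` has its only nonzero entry in column `j`). Add multiples of row `i`
to the rows above (left multiplication by `tv (i' < i) s`): column `c` gets its only nonzero entry at `(i, c)`; the columns `j < c`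
do not change, since `h i j = 0` (the only nonzero entry of column `j` is in row `r j ≠ i`). Then add multiples of column `c` to
the columns on its right (right multiplication by `tv (c < c') s`): row `i` gets its only nonzero entry at `(i, c)` (its entries in columns
`j < c` are `0`); the rows `r j` do not change, as `h (r j) c = 0`, and the columns `< c` do not change. For `c = n`: `r` is injective
(two columns with the same row `r j` would give two nonzero entries in it), so bijective, and `h` is monomial with `σ = r⁻¹`.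
It may be convenient to work with matrices of nonzero determinant and to use that elementary operations are multiplications with
transvections, or to define for a fixed `h` the unitriangular matrix `1 + ∑_{i' < i} s_{i'} E_{i' i}` directly (`mem_UT`).
-/

namespace Pool.Agent.Helper68.BR

open Matrix

variable {n : ℕ} {k : Type} [Field k]

/-- the unitriangular matrix `1 + ∑ s_a E_ai` (column `i`) -/
private def Lm (i : Fin n) (s : Fin n → k) : Matrix (Fin n) (Fin n) k :=
  fun a b => if a = b then 1 else if b = i ∧ a < i then s a else 0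

/-- the unitriangular matrix `1 + ∑ s_b E_ib` (row `i`) -/
private def Rm (i : Fin n) (s : Fin n → k) : Matrix (Fin n) (Fin n) k :=
  fun a b => if a = b then 1 else if a = i ∧ i < b then s b else 0

private lemma det_Lm (i : Fin n) (s : Fin n → k) : (Lm i s).det = 1 := by
  rw [Matrix.det_of_isUpperTriangular]
  · exact Finset.prod_eq_one fun a _ => by simp [Lm]
  · intro a b hab
    have hab' : b < a := hab
    unfold Lm
    rw [if_neg hab'.ne', if_neg]
    rintro ⟨h1, h2⟩
    subst h1
    exact absurd h2 (not_lt.mpr hab'.le)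

private lemma det_Rm (i : Fin n) (s : Fin n → k) : (Rm i s).det = 1 := by
  rw [Matrix.det_of_isUpperTriangular]
  · exact Finset.prod_eq_one fun a _ => by simp [Rm]
  · intro a b hab
    have hab' : b < a := hab
    unfold Rm
    rw [if_neg hab'.ne', if_neg]
    rintro ⟨h1, h2⟩
    subst h1
    exact absurd h2 (not_lt.mpr hab'.le)

private lemma Lm_mul (i : Fin n) (s : Fin n → k) (h : Matrix (Fin n) (Fin n) k) (a b : Fin n) :
    (Lm i s * h) a b = h a b + (if a < i then s a * h i b else 0) := by
  have h1 : Lm i s = 1 + (Matrix.of fun a b => if b = i ∧ a < i then s a else 0) := by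
    ext a b
    change (if a = b then (1 : k) else if b = i ∧ a < i then s a else 0) =
      (1 : Matrix (Fin n) (Fin n) k) a b + (if b = i ∧ a < i then s a else 0)
    by_cases hab : a = b
    · subst hab
      rw [if_pos rfl, Matrix.one_apply_eq, if_neg, add_zero]
      rintro ⟨h1, h2⟩
      exact absurd h1 h2.ne
    · rw [if_neg hab, Matrix.one_apply_ne hab, zero_add]
  rw [h1, add_mul, one_mul, Matrix.add_apply, Matrix.mul_apply]
  congr 1
  by_cases hai : a < i
  · rw [if_pos hai, Finset.sum_eq_single i]
    · simp [hai]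
    · intro b _ hb
      simp [hb]
    · intro h; exact absurd (Finset.mem_univ _) h
  · rw [if_neg hai]
    exact Finset.sum_eq_zero fun b _ => by simp [hai]

private lemma mul_Rm (i : Fin n) (s : Fin n → k) (h : Matrix (Fin n) (Fin n) k) (a b : Fin n) :
    (h * Rm i s) a b = h a b + (if i < b then h a i * s b else 0) := by
  have h1 : Rm i s = 1 + (Matrix.of fun a b => if a = i ∧ i < b then s b else 0) := by
    ext a b
    change (if a = b then (1 : k) else if a = i ∧ i < b then s b else 0) =
      (1 : Matrix (Fin n) (Fin n) k) a b + (if a = i ∧ i < b then s b else 0)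
    by_cases hab : a = b
    · subst hab
      rw [if_pos rfl, Matrix.one_apply_eq, if_neg, add_zero]
      rintro ⟨h1, h2⟩
      exact absurd h1 h2.ne'
    · rw [if_neg hab, Matrix.one_apply_ne hab, zero_add]
  rw [h1, mul_add, mul_one, Matrix.add_apply, Matrix.mul_apply]
  congr 1
  by_cases hai : i < b
  · rw [if_pos hai, Finset.sum_eq_single i]
    · simp [hai]
    · intro b _ hb
      simp [hb]
    · intro h; exact absurd (Finset.mem_univ _) h
  · rw [if_neg hai]
    exact Finset.sum_eq_zero fun b _ => by simp [hai]

private def LS (i : Fin n) (s : Fin n → k) : SpecialLinearGroup (Fin n) k := ⟨Lm i s, det_Lm i s⟩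

private def RS (i : Fin n) (s : Fin n → k) : SpecialLinearGroup (Fin n) k := ⟨Rm i s, det_Rm i s⟩

private lemma Lm_mem (i : Fin n) (s : Fin n → k) : LS i s ∈ UT n k := by
  rw [mem_UT]
  refine ⟨fun a => by change Lm i s a a = 1; simp [Lm], fun a b hab => ?_⟩
  change Lm i s a b = 0
  unfold Lm
  rw [if_neg hab.ne', if_neg]
  rintro ⟨h1, h2⟩
  subst h1
  exact absurd h2 (not_lt.mpr hab.le)

private lemma Rm_mem (i : Fin n) (s : Fin n → k) : RS i s ∈ UT n k := by
  rw [mem_UT]
  refine ⟨fun a => by change Rm i s a a = 1; simp [Rm], fun a b hab => ?_⟩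
  change Rm i s a b = 0
  unfold Rm
  rw [if_neg hab.ne', if_neg]
  rintro ⟨h1, h2⟩
  subst h1
  exact absurd h2 (not_lt.mpr hab.le)

private lemma step_aux (g : SpecialLinearGroup (Fin n) k) (c : ℕ) (hc : c ≤ n) :
    ∃ u ∈ UT n k, ∃ u' ∈ UT n k, ∃ r : Fin n → Fin n, ∀ j : Fin n, j.val < c →
      (u * g * u').1 (r j) j ≠ 0 ∧ (∀ i, i ≠ r j → (u * g * u').1 i j = 0) ∧
      ∀ j', j' ≠ j → (u * g * u').1 (r j) j' = 0 := by
  induction c with
  | zero =>
    exact ⟨1, Subgroup.one_mem _, 1, Subgroup.one_mem _, id, fun j hj => absurd hj (Nat.not_lt_zero _)⟩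
  | succ c ih =>
    obtain ⟨u, hu, u', hu', r, hr⟩ := ih (Nat.le_of_succ_le hc)
    set h := u * g * u' with hh
    set jc : Fin n := ⟨c, hc⟩ with hjc
    have hne : ∃ i, h.1 i jc ≠ 0 := by
      by_contra hcon
      push Not at hcon
      have h0 : h.1.det = 0 := Matrix.det_eq_zero_of_column_eq_zero jc hcon
      rw [h.2] at h0
      exact one_ne_zero h0
    classical
    obtain ⟨i, hi1, hi2⟩ : ∃ i, h.1 i jc ≠ 0 ∧ ∀ a, i < a → h.1 a jc = 0 := by
      obtain ⟨i0, hi0⟩ := hne
      have hS : (Finset.univ.filter fun a => h.1 a jc ≠ 0).Nonempty :=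
        ⟨i0, Finset.mem_filter.mpr ⟨Finset.mem_univ _, hi0⟩⟩
      refine ⟨(Finset.univ.filter fun a => h.1 a jc ≠ 0).max' hS, ?_, ?_⟩
      · exact (Finset.mem_filter.mp (Finset.max'_mem _ hS)).2
      · intro a ha
        by_contra hcon
        have hmem : a ∈ Finset.univ.filter fun a => h.1 a jc ≠ 0 :=
          Finset.mem_filter.mpr ⟨Finset.mem_univ _, hcon⟩
        exact absurd ha (not_lt.mpr (Finset.le_max' _ a hmem))
    have hir : ∀ j : Fin n, j.val < c → i ≠ r j := by
      intro j hj hij
      have h1 : jc ≠ j := by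
        intro h1
        rw [← h1] at hj
        exact absurd hj (lt_irrefl _)
      exact hi1 (hij ▸ (hr j hj).2.2 jc h1)
    -- row operations
    set sL : Fin n → k := fun a => -(h.1 a jc / h.1 i jc) with hsL
    set L : SpecialLinearGroup (Fin n) k := LS i sL with hL
    have hLm : ∀ a b, (L * h).1 a b = h.1 a b + (if a < i then sL a * h.1 i b else 0) :=
      fun a b => Lm_mul i sL h.1 a b
    set h1 := L * h with hh1
    have h1i : ∀ b, h1.1 i b = h.1 i b := fun b => by rw [hLm, if_neg (lt_irrefl _), add_zero]
    have h1c : ∀ a, a ≠ i → h1.1 a jc = 0 := by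
      intro a ha
      rw [hLm]
      rcases lt_or_gt_of_ne ha with h2 | h2
      · rw [if_pos h2, hsL]
        field_simp
        ring
      · rw [if_neg (not_lt.mpr h2.le), hi2 a h2, add_zero]
    have h1j : ∀ j : Fin n, j.val < c → ∀ a, h1.1 a j = h.1 a j := by
      intro j hj a
      rw [hLm, (hr j hj).2.1 i (hir j hj), mul_zero, ite_self, add_zero]
    have h1r : ∀ j : Fin n, j.val < c → ∀ b, h1.1 (r j) b = h.1 (r j) b := by
      intro j hj b
      have h2 : jc ≠ j := by
        intro h1
        rw [← h1] at hj
        exact absurd hj (lt_irrefl _)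
      rw [hLm, hsL]
      simp only
      rw [(hr j hj).2.2 jc h2, zero_div, neg_zero, zero_mul, ite_self, add_zero]
    -- column operations
    set sR : Fin n → k := fun b => -(h1.1 i b / h1.1 i jc) with hsR
    set R : SpecialLinearGroup (Fin n) k := RS jc sR with hR
    have hRm : ∀ a b, (h1 * R).1 a b = h1.1 a b + (if jc < b then h1.1 a jc * sR b else 0) :=
      fun a b => mul_Rm jc sR h1.1 a b
    set h2 := h1 * R with hh2
    have hh3 : (L * u) * g * (u' * R) = h2 := by
      rw [hh2, hh1, hh]
      simp only [mul_assoc]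
    refine ⟨L * u, Subgroup.mul_mem _ (Lm_mem i sL) hu, u' * R, Subgroup.mul_mem _ hu' (Rm_mem jc sR),
      Function.update r jc i, ?_⟩
    rw [hh3]
    intro j hj
    by_cases hjj : j = jc
    · rw [hjj, Function.update_self]
      refine ⟨?_, ?_, ?_⟩
      · rw [hRm, if_neg (lt_irrefl _), add_zero, h1i]
        exact hi1
      · intro a ha
        rw [hRm, if_neg (lt_irrefl _), add_zero]
        exact h1c a ha
      · intro b hb
        rw [hRm]
        rcases lt_or_gt_of_ne hb with h3 | h3
        · rw [if_neg (not_lt.mpr h3.le), add_zero, h1i]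
          exact (hr b h3).2.1 i (hir b h3)
        · rw [if_pos h3, hsR]
          have : h1.1 i jc ≠ 0 := by rw [h1i]; exact hi1
          field_simp
          ring
    · have hj' : j.val < c := by
        rcases Nat.lt_succ_iff_lt_or_eq.mp hj with h3 | h3
        · exact h3
        · exact absurd (Fin.ext h3) hjj
      have hjc' : jc ≠ j := fun h3 => hjj h3.symm
      have hnl : ¬ jc < j := by
        intro h3
        exact absurd (Fin.lt_def.mp h3) (not_lt.mpr hj'.le)
      rw [Function.update_of_ne hjj]
      refine ⟨?_, ?_, ?_⟩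
      · rw [hRm, if_neg hnl, add_zero, h1j j hj']
        exact (hr j hj').1
      · intro a ha
        rw [hRm, if_neg hnl, add_zero, h1j j hj']
        exact (hr j hj').2.1 a ha
      · intro b hb
        rw [hRm, h1r j hj', h1r j hj', (hr j hj').2.2 b hb, (hr j hj').2.2 jc hjc', zero_mul, ite_self,
          add_zero]

theorem bruhat (g : SpecialLinearGroup (Fin n) k) :
    ∃ u ∈ UT n k, ∃ m, IsMon m ∧ ∃ u' ∈ UT n k, g = u * m * u' := by
  obtain ⟨u, hu, u', hu', r, hr⟩ := step_aux g n le_rfl
  have hr' : ∀ j : Fin n, (u * g * u').1 (r j) j ≠ 0 ∧ (∀ i, i ≠ r j → (u * g * u').1 i j = 0) ∧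
      ∀ j', j' ≠ j → (u * g * u').1 (r j) j' = 0 := fun j => hr j j.2
  have hinj : Function.Injective r := by
    intro j j' hjj
    by_contra hne
    exact (hr' j').1 (hjj ▸ (hr' j).2.2 j' (fun h => hne h.symm))
  have hbij : Function.Bijective r := Finite.injective_iff_bijective.mp hinj
  refine ⟨u⁻¹, Subgroup.inv_mem _ hu, u * g * u', ⟨(Equiv.ofBijective r hbij).symm, ?_⟩, u'⁻¹,
    Subgroup.inv_mem _ hu', by group⟩
  intro i j hij
  have h1 : r ((Equiv.ofBijective r hbij).symm i) = i :=
    Equiv.ofBijective_apply_symm_apply r hbij i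
  have h2 := (hr' ((Equiv.ofBijective r hbij).symm i)).2.2 j hij
  rw [h1] at h2
  exact h2

end Pool.Agent.Helper68.BR
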