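import Pool.Agent.Helper68.BR.XXb

/-!
# BR-C14: the canonical lift of the unitriangular group

`uu_down`, `uu_up`, `uu_conj`: closure induction with `xx_le`, `xx_up`, `xx_conj` (`UT` is the closure of the upper transvections, every one of
which has a lift in `UU`). `uu_W`: for `w` lifting `g ∈ UT`: `w = u c`, `u ∈ UU` lifting `g`, `c ∈ f.ker`.
`uu_ker`: let `Cm` be generated by the `XX f P (i < m)`, `i < m` (column `m`), and `D m` by all `XX f P (i < j)`, `i < j < m` (as numbers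
`m ≤ n`). `Cm` is commutative (`comm_diff`, `comm_same`), and every element of `Cm` is a product `∏_{i < m} c_i` with
`c_i ∈ XX f P (i < m)`; it lifts `∏ tv (s_i)`, the matrix `1 + ∑ s_i E_im`; if it is in `f.ker` this matrix is central, so `1` (`UT_center`), all
`s_i = 0`, `c_i ∈ f.ker`, `c_i = 1` (`xx_ker`). So `Cm ⊓ f.ker = ⊥`. `D m` normalizes `Cm`: for `y ∈ XX (a < b)`, `b < m`, `c ∈ XX (i < m)`:
`y c y⁻¹ c⁻¹` is `1` if `b ≠ i` (`comm_diff`: `b ≠ i`, `a ≠ m`) and in `XX (a < m)` if `b = i` (`xx_xx`). So `D (m+1) = D m ⊔ Cm` consists of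
products `d c`. Induction on `m`: `D m ⊓ f.ker = ⊥`. If `d c ∈ f.ker`: `d` lifts some `g₁ ∈ UT` with trivial columns `≥ m`, `c` lifts some
`g₂ ∈ UT` with trivial columns `≠ m` (closure inductions), `g₁ g₂` is central in `UT`, so `g₁ g₂ = 1`, so `g₁ = g₂⁻¹ = 1` (compare columns: `g₁` and
`g₂⁻¹` have different supports), so `d ∈ D m ⊓ f.ker = ⊥` and `c ∈ Cm ⊓ f.ker = ⊥`.
-/

namespace Pool.Agent.Helper68.BR

open Matrix

variable {n : ℕ} {k : Type} [Field k] [Finite k] {K : Type} [Group K] {p : ℕ} [Fact p.Prime]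
  {f : K →* ProjectiveSpecialLinearGroup (Fin n) k} {P : Subgroup K}

/-- the group generated by the `XX f P (i < j)` with `j n + i < N` -/
private def DN (f : K →* ProjectiveSpecialLinearGroup (Fin n) k) (P : Subgroup K) (N : ℕ) :
    Subgroup K :=
  Subgroup.closure {y | ∃ (i j : Fin n) (h : i < j), (j : ℕ) * n + i < N ∧ y ∈ XX f P h.ne}

private theorem mem_dn {N : ℕ} {i j : Fin n} (h : i < j) (hN : (j : ℕ) * n + i < N) {y : K}
    (hy : y ∈ XX f P h.ne) : y ∈ DN f P N :=
  Subgroup.subset_closure ⟨i, j, h, hN, hy⟩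

private theorem idx_lt {a b t m : Fin n} (h : (b : ℕ) * n + a < (m : ℕ) * n + t) :
    b < m ∨ (b = m ∧ a < t) := by
  rcases lt_trichotomy b m with h1 | h1 | h1
  · exact Or.inl h1
  · right
    refine ⟨h1, ?_⟩
    rw [h1] at h
    exact Fin.lt_def.2 (by omega)
  · exfalso
    have h2 : (m : ℕ) + 1 ≤ b := Fin.lt_def.1 h1
    have h3 := Nat.mul_le_mul_right n h2
    have h4 := t.isLt
    rw [add_mul, one_mul] at h3
    omega

private theorem dn_norm (hn : 3 ≤ n) (hp : 5 ≤ p) (hq : p ∣ Nat.card k - 1)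
    (hf : Function.Surjective f) (hc : f.ker ≤ Subgroup.center K) (hP : PData p f P)
    {t m : Fin n} (htm : t < m) {y : K} (hy : y ∈ XX f P htm.ne) {d : K}
    (hd : d ∈ DN f P ((m : ℕ) * n + t)) : y * d * y⁻¹ ∈ DN f P ((m : ℕ) * n + t) := by
  have hyY := xx_le hP htm.ne hy
  unfold DN at hd
  induction hd using Subgroup.closure_induction with
  | mem d hd =>
    obtain ⟨a, b, hab, hN, hd⟩ := hd
    have hdY := xx_le hP hab.ne hd
    have hcomm : y * d = d * y → y * d * y⁻¹ ∈ DN f P ((m : ℕ) * n + t) := by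
      intro h
      rw [h, mul_assoc, mul_inv_cancel, mul_one]
      exact mem_dn hab hN hd
    rcases idx_lt hN with h1 | ⟨h1, h2⟩
    · by_cases hbt : b = t
      · subst hbt
        have ham : a < m := hab.trans htm
        have h3 := xx_xx hn hp hq hf hc hP hab.ne htm.ne ham.ne hd hy
        have h4 : y * d * y⁻¹ = (d * y * d⁻¹ * y⁻¹)⁻¹ * d := by group
        rw [h4]
        refine Subgroup.mul_mem _ (Subgroup.inv_mem _ (mem_dn ham ?_ h3)) (mem_dn hab hN hd)
        have := Fin.lt_def.1 hab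
        omega
      · refine hcomm (comm_diff hp hq hf hc htm.ne hab.ne ?_ ?_ ?_ hyY hdY)
        · exact (hab.trans h1).ne'
        · exact fun h => hbt h.symm
        · rintro ⟨-, h⟩
          exact h1.ne h.symm
    · subst h1
      refine hcomm (comm_diff hp hq hf hc htm.ne hab.ne ?_ ?_ ?_ hyY hdY)
      · exact hab.ne'
      · exact htm.ne
      · rintro ⟨h, -⟩
        exact h2.ne h.symm
  | one =>
    rw [mul_one, mul_inv_cancel]
    exact Subgroup.one_mem _
  | mul a b _ _ ha hb =>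
    have h1 : y * (a * b) * y⁻¹ = (y * a * y⁻¹) * (y * b * y⁻¹) := by group
    rw [h1]
    exact Subgroup.mul_mem _ ha hb
  | inv a _ ha =>
    have h1 : y * a⁻¹ * y⁻¹ = (y * a * y⁻¹)⁻¹ := by group
    rw [h1]
    exact Subgroup.inv_mem _ ha

private def Col (t m : Fin n) (g : SpecialLinearGroup (Fin n) k) : Prop :=
  ∀ l, t ≤ l → l < m → g.1 l m = 0

private theorem col_mul {t m : Fin n} {g g' : SpecialLinearGroup (Fin n) k} (hg : g ∈ UT n k)
    (hg' : g' ∈ UT n k) (h : Col t m g) (h' : Col t m g') : Col t m (g * g') := by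
  intro l htl hlm
  have hu := mem_UT.1 hg
  have hu' := mem_UT.1 hg'
  change (g.1 * g'.1) l m = 0
  rw [Matrix.mul_apply]
  refine Finset.sum_eq_zero fun r _ => ?_
  rcases lt_or_ge r l with h1 | h1
  · rw [hu.2 l r h1, zero_mul]
  · rcases lt_trichotomy r m with h2 | h2 | h2
    · rw [h' r (htl.trans h1) h2, mul_zero]
    · subst h2
      rw [h l htl hlm, zero_mul]
    · rw [hu'.2 r m h2, mul_zero]

private theorem tv_apply' {i j : Fin n} (h : i ≠ j) (s : k) (a b : Fin n) :
    (tv h s).1 a b = (if a = b then 1 else 0) + (if i = a ∧ j = b then s else 0) := by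
  rw [SpecialLinearGroup.transvection_coe, Matrix.add_apply, Matrix.one_apply, Matrix.single_apply]

private theorem col_tv {t m a b : Fin n} (hab : a < b)
    (h : b < m ∨ (b = m ∧ a < t)) (s : k) : Col t m (tv hab.ne s) := by
  intro l htl hlm
  rw [tv_apply', if_neg hlm.ne, if_neg, add_zero]
  rintro ⟨h1, h2⟩
  rcases h with h | ⟨-, h⟩
  · exact h.ne h2
  · rw [h1] at h
    exact absurd h (not_lt.2 htl)

private theorem dn_lift (hP : PData p f P) {t m : Fin n} {d : K}
    (hd : d ∈ DN f P ((m : ℕ) * n + t)) :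
    ∃ g ∈ UT n k, Lf f d g ∧ Col t m g ∧ Col t m g⁻¹ := by
  unfold DN at hd
  induction hd using Subgroup.closure_induction with
  | mem d hd =>
    obtain ⟨a, b, hab, hN, hd⟩ := hd
    obtain ⟨s, hs⟩ := xx_le hP hab.ne hd
    refine ⟨tv hab.ne s, Subgroup.subset_closure ⟨a, b, hab, s, rfl⟩, hs,
      col_tv hab (idx_lt hN) s, ?_⟩
    have h1 : (tv hab.ne s)⁻¹ = tv hab.ne (-s) := SpecialLinearGroup.transvection_inv _ _
    rw [h1]
    exact col_tv hab (idx_lt hN) (-s)
  | one =>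
    have h1 : Col t m (1 : SpecialLinearGroup (Fin n) k) := by
      intro l _ hlm
      exact Matrix.one_apply_ne hlm.ne
    refine ⟨1, Subgroup.one_mem _, lf_one.2 (Subgroup.one_mem _), h1, ?_⟩
    rw [inv_one]
    exact h1
  | mul a b _ _ ha hb =>
    obtain ⟨g, hg, h1, h2, h3⟩ := ha
    obtain ⟨g', hg', h1', h2', h3'⟩ := hb
    refine ⟨g * g', Subgroup.mul_mem _ hg hg', h1.mul h1', col_mul hg hg' h2 h2', ?_⟩
    rw [_root_.mul_inv_rev]
    exact col_mul (Subgroup.inv_mem _ hg') (Subgroup.inv_mem _ hg) h3' h3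
  | inv a _ ha =>
    obtain ⟨g, hg, h1, h2, h3⟩ := ha
    refine ⟨g⁻¹, Subgroup.inv_mem _ hg, h1.inv, h3, ?_⟩
    rw [inv_inv]
    exact h2

private theorem dn_split (hn : 3 ≤ n) (hp : 5 ≤ p) (hq : p ∣ Nat.card k - 1)
    (hf : Function.Surjective f) (hc : f.ker ≤ Subgroup.center K) (hP : PData p f P)
    {t m : Fin n} (htm : t < m) {u : K} (hu : u ∈ DN f P ((m : ℕ) * n + t + 1)) :
    ∃ d ∈ DN f P ((m : ℕ) * n + t), ∃ y ∈ XX f P htm.ne, u = d * y := by
  unfold DN at hu
  induction hu using Subgroup.closure_induction with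
  | mem u hu =>
    obtain ⟨a, b, hab, hN, hu⟩ := hu
    rcases Nat.lt_succ_iff_lt_or_eq.1 hN with h1 | h1
    · exact ⟨u, mem_dn hab h1 hu, 1, Subgroup.one_mem _, (mul_one _).symm⟩
    · have hbm : b = m := by
        rcases lt_trichotomy b m with h2 | h2 | h2
        · exfalso
          have h3 : (b : ℕ) + 1 ≤ m := Fin.lt_def.1 h2
          have h4 := Nat.mul_le_mul_right n h3
          have h5 := a.isLt
          rw [add_mul, one_mul] at h4
          omega
        · exact h2
        · exfalso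
          have h3 : (m : ℕ) + 1 ≤ b := Fin.lt_def.1 h2
          have h4 := Nat.mul_le_mul_right n h3
          have h5 := t.isLt
          rw [add_mul, one_mul] at h4
          omega
      subst hbm
      have hat : a = t := Fin.ext (by omega)
      subst hat
      exact ⟨1, Subgroup.one_mem _, u, hu, (one_mul _).symm⟩
  | one => exact ⟨1, Subgroup.one_mem _, 1, Subgroup.one_mem _, (mul_one _).symm⟩
  | mul a b _ _ ha hb =>
    obtain ⟨d, hd, y, hy, rfl⟩ := ha
    obtain ⟨d', hd', y', hy', rfl⟩ := hb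
    refine ⟨d * (y * d' * y⁻¹), Subgroup.mul_mem _ hd (dn_norm hn hp hq hf hc hP htm hy hd'),
      y * y', Subgroup.mul_mem _ hy hy', ?_⟩
    group
  | inv a _ ha =>
    obtain ⟨d, hd, y, hy, rfl⟩ := ha
    refine ⟨y⁻¹ * d⁻¹ * (y⁻¹)⁻¹, dn_norm hn hp hq hf hc hP htm (Subgroup.inv_mem _ hy)
      (Subgroup.inv_mem _ hd), y⁻¹, Subgroup.inv_mem _ hy, ?_⟩
    group

private theorem dn_ker (hn : 3 ≤ n) (hp : 5 ≤ p) (hq : p ∣ Nat.card k - 1)
    (hf : Function.Surjective f) (hc : f.ker ≤ Subgroup.center K) (hP : PData p f P) (N : ℕ) :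
    ∀ u ∈ DN f P N, u ∈ f.ker → u = 1 := by
  induction N with
  | zero =>
    intro u hu _
    have h1 : DN f P 0 = ⊥ := by
      unfold DN
      rw [Subgroup.closure_eq_bot_iff]
      rintro y ⟨i, j, h, hN, -⟩
      exact absurd hN (Nat.not_lt_zero _)
    rw [h1] at hu
    exact Subgroup.mem_bot.1 hu
  | succ N ih =>
    intro u hu hk
    by_cases hN : ∃ t m : Fin n, t < m ∧ (m : ℕ) * n + t = N
    · obtain ⟨t, m, htm, rfl⟩ := hN
      obtain ⟨d, hd, y, hy, rfl⟩ := dn_split hn hp hq hf hc hP htm hu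
      obtain ⟨g, hg, hl, hcol, -⟩ := dn_lift hP hd
      obtain ⟨s, hs⟩ := xx_le hP htm.ne hy
      have h1 := hl.mul hs
      have h2 := (lf_one (f := f)).2 hk
      obtain ⟨c, hcc, hgc⟩ := Lf.center h1 h2
      rw [one_mul] at hgc
      have htv : tv htm.ne s ∈ UT n k := Subgroup.subset_closure ⟨t, m, htm, s, rfl⟩
      have h3 : g * tv htm.ne s ∈ UT n k := Subgroup.mul_mem _ hg htv
      have h4 := UT_center h3 (by rw [hgc]; exact hcc)
      have h5 : (g * tv htm.ne s).1 t m = 0 := by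
        rw [h4]
        exact Matrix.one_apply_ne htm.ne
      have h6 : (g * tv htm.ne s).1 t m = s := by
        change (g.1 * (tv htm.ne s).1) t m = s
        rw [Matrix.mul_apply]
        have hgu := mem_UT.1 hg
        have h7 : ∀ r, g.1 t r * (tv htm.ne s).1 r m = if r = t then s else 0 := by
          intro r
          rw [tv_apply']
          by_cases hrt : r = t
          · subst hrt
            rw [if_neg htm.ne, if_pos ⟨rfl, rfl⟩, if_pos rfl, zero_add, hgu.1, one_mul]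
          · rw [if_neg hrt, if_neg (fun h : t = r ∧ m = m => hrt h.1.symm), add_zero]
            by_cases hrm : r = m
            · subst hrm
              rw [hcol t le_rfl htm, zero_mul]
            · rw [if_neg hrm, mul_zero]
        rw [Finset.sum_congr rfl fun r _ => h7 r, Finset.sum_ite_eq' Finset.univ t,
          if_pos (Finset.mem_univ _)]
      have hs0 : s = 0 := h6.symm.trans h5
      have hyk : y ∈ f.ker := by
        rw [← lf_one (f := f)]
        rw [hs0] at hs
        have h7 : tv htm.ne (0 : k) = 1 := SpecialLinearGroup.transvection_coeff_zero _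
        rwa [h7] at hs
      have hy1 := xx_ker hn hp hq hf hc hP htm.ne hy hyk
      rw [hy1, mul_one] at hk ⊢
      exact ih d hd hk
    · refine ih u ?_ hk
      have h1 : DN f P (N + 1) ≤ DN f P N := by
        unfold DN
        refine Subgroup.closure_mono ?_
        rintro y ⟨i, j, h, hij, hy⟩
        refine ⟨i, j, h, ?_, hy⟩
        rcases Nat.lt_succ_iff_lt_or_eq.1 hij with h2 | h2
        · exact h2
        · exact absurd ⟨i, j, h, h2⟩ hN
      exact h1 hu

theorem uu_down (hP : PData p f P) {u : K} (hu : u ∈ UU f P) : ∃ g ∈ UT n k, Lf f u g := by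
  unfold UU at hu
  induction hu using Subgroup.closure_induction with
  | mem u hu =>
    obtain ⟨i, j, h, hu⟩ := hu
    obtain ⟨s, hs⟩ := xx_le hP h.ne hu
    exact ⟨tv h.ne s, Subgroup.subset_closure ⟨i, j, h, s, rfl⟩, hs⟩
  | one => exact ⟨1, Subgroup.one_mem _, lf_one.2 (Subgroup.one_mem _)⟩
  | mul a b _ _ ha hb =>
    obtain ⟨g, hg, h1⟩ := ha
    obtain ⟨g', hg', h1'⟩ := hb
    exact ⟨g * g', Subgroup.mul_mem _ hg hg', h1.mul h1'⟩
  | inv a _ ha =>
    obtain ⟨g, hg, h1⟩ := ha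
    exact ⟨g⁻¹, Subgroup.inv_mem _ hg, h1.inv⟩

theorem uu_up (hn : 3 ≤ n) (hp : 5 ≤ p) (hq : p ∣ Nat.card k - 1)
    (hf : Function.Surjective f) (hc : f.ker ≤ Subgroup.center K) (hP : PData p f P)
    {g : SpecialLinearGroup (Fin n) k} (hg : g ∈ UT n k) : ∃ u ∈ UU f P, Lf f u g := by
  unfold UT at hg
  induction hg using Subgroup.closure_induction with
  | mem g hg =>
    obtain ⟨i, j, h, s, rfl⟩ := hg
    obtain ⟨y, hy, hl⟩ := xx_up hn hp hq hf hc hP h.ne s
    exact ⟨y, Subgroup.subset_closure ⟨i, j, h, hy⟩, hl⟩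
  | one => exact ⟨1, Subgroup.one_mem _, lf_one.2 (Subgroup.one_mem _)⟩
  | mul a b _ _ ha hb =>
    obtain ⟨u, hu, h1⟩ := ha
    obtain ⟨u', hu', h1'⟩ := hb
    exact ⟨u * u', Subgroup.mul_mem _ hu hu', h1.mul h1'⟩
  | inv a _ ha =>
    obtain ⟨u, hu, h1⟩ := ha
    exact ⟨u⁻¹, Subgroup.inv_mem _ hu, h1.inv⟩

theorem uu_conj (hn : 3 ≤ n) (hp : 5 ≤ p) (hq : p ∣ Nat.card k - 1)
    (hf : Function.Surjective f) (hc : f.ker ≤ Subgroup.center K) (hP : PData p f P)
    {x u : K} (hx : x ∈ P) (hu : u ∈ UU f P) : x * u * x⁻¹ ∈ UU f P := by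
  unfold UU at hu ⊢
  induction hu using Subgroup.closure_induction with
  | mem u hu =>
    obtain ⟨i, j, h, hu⟩ := hu
    exact Subgroup.subset_closure ⟨i, j, h, xx_conj hn hp hq hf hc hP h.ne hx hu⟩
  | one =>
    rw [mul_one, mul_inv_cancel]
    exact Subgroup.one_mem _
  | mul a b _ _ ha hb =>
    have h1 : x * (a * b) * x⁻¹ = (x * a * x⁻¹) * (x * b * x⁻¹) := by group
    rw [h1]
    exact Subgroup.mul_mem _ ha hb
  | inv a _ ha =>
    have h1 : x * a⁻¹ * x⁻¹ = (x * a * x⁻¹)⁻¹ := by group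
    rw [h1]
    exact Subgroup.inv_mem _ ha

theorem uu_ker (hn : 3 ≤ n) (hp : 5 ≤ p) (hq : p ∣ Nat.card k - 1)
    (hf : Function.Surjective f) (hc : f.ker ≤ Subgroup.center K) (hP : PData p f P)
    {u : K} (hu : u ∈ UU f P) (hk : u ∈ f.ker) : u = 1 := by
  refine dn_ker hn hp hq hf hc hP (n * n) u ?_ hk
  have h1 : UU f P ≤ DN f P (n * n) := by
    unfold UU DN
    refine Subgroup.closure_mono ?_
    rintro y ⟨i, j, h, hy⟩
    refine ⟨i, j, h, ?_, hy⟩
    have h2 := i.isLt
    have h3 : (j : ℕ) + 1 ≤ n := j.isLt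
    have h4 := Nat.mul_le_mul_right n h3
    rw [add_mul, one_mul] at h4
    omega
  exact h1 hu

end Pool.Agent.Helper68.BR
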