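import Pool.Agent.Helper68.BR.Defs
import Pool.Agent.Helper68.BR.UUa
import Pool.Agent.Helper68.BR.Elim

/-!
# BR-C15: `Bru` for `K`

`pgroup`, `index`, `comm`: `PData`. `norm`: `uu_conj`. `fix`: let `u ∈ UU` commute with `P` and lift `g ∈ UT` (`uu_down`). For `z ∈ TP` let `x ∈ P`
lift it (`PData.up`): `x u = u x` gives `g z = z g c` with `c` central (`Lf.center`), so by `dg_of_comm` `g i j = 0` whenever
`z i i ≠ z j j`; with `exists_wt'` all off-diagonal entries vanish, so `g = 1` (`mem_UT`), `u ∈ f.ker` (`lf_one`), `u = 1` (`uu_ker`).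
`cover`: `y ∈ K` lifts some `g` (`exists_lf'`); `g = v m v'` (`bruhat`); `u, u' ∈ UU` lift `v, v'` (`uu_up`); `u⁻¹ y u'⁻¹` lifts `m`, so it
normalizes `P` (`PData.mon`).
-/

namespace Pool.Agent.Helper68.BR

open Matrix

variable {n : ℕ} {k : Type} [Field k] [Finite k] {K : Type} [Group K] {p : ℕ} [Fact p.Prime]
  {f : K →* ProjectiveSpecialLinearGroup (Fin n) k} {P : Subgroup K}

theorem bru_psl (hn : 3 ≤ n) (hp : 5 ≤ p) (hq : p ∣ Nat.card k - 1)
    (hf : Function.Surjective f) (hc : f.ker ≤ Subgroup.center K) (hP : PData p f P) :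
    Bru p P (UU f P) where
  pgroup := hP.pgroup
  index := hP.index
  comm := hP.comm
  norm := fun _ hx _ hu => uu_conj hn hp hq hf hc hP hx hu
  fix := by
    intro u hu hcomm
    obtain ⟨g, hg, hug⟩ := uu_down hP hu
    have hoff : ∀ i j, i ≠ j → g.1 i j = 0 := by
      intro i j hij
      obtain ⟨z, hz, hne⟩ := exists_wt' (n := n) (k := k) hp hq hij
      obtain ⟨x, hx, hxz⟩ := hP.up z hz
      have h1 : Lf f (u * x) (g * z) := hug.mul hxz
      have h2 : Lf f (u * x) (z * g) := by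
        rw [← hcomm x hx]
        exact hxz.mul hug
      obtain ⟨c, hcc, he⟩ := h1.center h2
      exact dg_of_comm hz.1 hg hcc he i j hne
    have hg1 : g = 1 := by
      apply Subtype.ext
      ext i j
      change g.1 i j = (1 : Matrix (Fin n) (Fin n) k) i j
      by_cases hij : i = j
      · subst hij
        rw [(mem_UT.1 hg).1, Matrix.one_apply_eq]
      · rw [hoff i j hij, Matrix.one_apply_ne hij]
    rw [hg1] at hug
    exact uu_ker hn hp hq hf hc hP hu (lf_one.1 hug)
  cover := by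
    intro y
    obtain ⟨g, hg⟩ := exists_lf' f y
    obtain ⟨v, hv, m, hm, v', hv', he⟩ := bruhat g
    obtain ⟨u, hu, huv⟩ := uu_up hn hp hq hf hc hP hv
    obtain ⟨u', hu', huv'⟩ := uu_up hn hp hq hf hc hP hv'
    have h1 : Lf f (u⁻¹ * y * u'⁻¹) (v⁻¹ * g * v'⁻¹) := (huv.inv.mul hg).mul huv'.inv
    have h2 : v⁻¹ * g * v'⁻¹ = m := by
      rw [he]
      group
    rw [h2] at h1
    exact ⟨u, hu, u⁻¹ * y * u'⁻¹, hP.mon _ m hm h1, u', hu', by group⟩

end Pool.Agent.Helper68.BR
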