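import Mathlib

/-!
# Project BR, part C: definitions for `SL_n(k)` and for groups `K` with a homomorphism onto `PSL_n(k)`
-/

namespace Pool.Agent.Helper68.BR

open Matrix

section sl

variable (n : ℕ) (k : Type) [Field k]

/-- the subgroup generated by the upper transvections `1 + s E_ij`, `i < j` -/
def UT : Subgroup (SpecialLinearGroup (Fin n) k) :=
  Subgroup.closure {g | ∃ (i j : Fin n) (h : i < j) (s : k),
    g = SpecialLinearGroup.transvection h.ne s}

/-- the diagonal matrices -/
def DG : Subgroup (SpecialLinearGroup (Fin n) k) where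
  carrier := {g | ∀ i j, i ≠ j → g.1 i j = 0}
  one_mem' := by
    intro i j h
    exact Matrix.one_apply_ne h
  mul_mem' := by
    intro a b ha hb i j h
    change (a.1 * b.1) i j = 0
    rw [Matrix.mul_apply]
    refine Finset.sum_eq_zero fun l _ => ?_
    by_cases h1 : i = l
    · subst h1
      rw [hb i j h, mul_zero]
    · rw [ha i l h1, zero_mul]
  inv_mem' := by
    intro a ha i j h
    have h1 : a.1 = Matrix.diagonal (fun i => a.1 i i) := by
      ext r s
      by_cases hrs : r = s
      · subst hrs; rw [Matrix.diagonal_apply_eq]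
      · rw [Matrix.diagonal_apply_ne _ hrs]; exact ha r s hrs
    have h2 : (a⁻¹).1 = a.1.adjugate := rfl
    have h3 : (a⁻¹).1 i j = a.1.adjugate i j := congrFun (congrFun h2 i) j
    refine h3.trans ?_
    rw [h1, Matrix.adjugate_diagonal]
    exact Matrix.diagonal_apply_ne _ h

/-- the diagonal matrices of `p`-power order -/
def TP (p : ℕ) : Subgroup (SpecialLinearGroup (Fin n) k) where
  carrier := {g | g ∈ DG n k ∧ ∃ N : ℕ, g ^ p ^ N = 1}
  one_mem' := ⟨Subgroup.one_mem _, 0, by simp⟩
  mul_mem' := by
    rintro a b ⟨ha, N, hN⟩ ⟨hb, M, hM⟩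
    refine ⟨Subgroup.mul_mem _ ha hb, N + M, ?_⟩
    have hab : Commute a b := by
      apply Subtype.ext
      change a.1 * b.1 = b.1 * a.1
      have h1 : ∀ c : SpecialLinearGroup (Fin n) k, c ∈ DG n k →
          c.1 = Matrix.diagonal (fun i => c.1 i i) := by
        intro c hc
        ext r s
        by_cases hrs : r = s
        · subst hrs; rw [Matrix.diagonal_apply_eq]
        · rw [Matrix.diagonal_apply_ne _ hrs]; exact hc r s hrs
      rw [h1 a ha, h1 b hb, Matrix.diagonal_mul_diagonal, Matrix.diagonal_mul_diagonal]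
      congr 1
      funext i
      exact mul_comm _ _
    rw [hab.mul_pow, pow_add, pow_mul, hN, one_pow, one_mul, mul_comm (p ^ N), pow_mul, hM,
      one_pow]
  inv_mem' := by
    rintro a ⟨ha, N, hN⟩
    exact ⟨Subgroup.inv_mem _ ha, N, by rw [inv_pow, hN, inv_one]⟩

end sl

/-- monomial matrices -/
def IsMon {n : ℕ} {k : Type} [Field k] (g : SpecialLinearGroup (Fin n) k) : Prop :=
  ∃ σ : Equiv.Perm (Fin n), ∀ i j, j ≠ σ i → g.1 i j = 0

/-- the transvection `1 + s E_ij` -/
noncomputable abbrev tv {n : ℕ} {k : Type} [Field k] {i j : Fin n} (h : i ≠ j) (s : k) :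
    SpecialLinearGroup (Fin n) k := SpecialLinearGroup.transvection h s

section lift

variable {n : ℕ} {k : Type} [Field k] {K : Type} [Group K]

/-- `y ∈ K` lifts the image of `g` in `PSL_n(k)` -/
def Lf (f : K →* ProjectiveSpecialLinearGroup (Fin n) k) (y : K)
    (g : SpecialLinearGroup (Fin n) k) : Prop := f y = QuotientGroup.mk g

/-- the lifts of the transvections `1 + s E_ij` -/
def YY (f : K →* ProjectiveSpecialLinearGroup (Fin n) k) {i j : Fin n} (h : i ≠ j) :
    Subgroup K where
  carrier := {y | ∃ s : k, Lf f y (tv h s)}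
  one_mem' := by
    refine ⟨0, ?_⟩
    change f 1 = QuotientGroup.mk (SpecialLinearGroup.transvection h (0 : k))
    rw [map_one, SpecialLinearGroup.transvection_coeff_zero]
    rfl
  mul_mem' := by
    rintro a b ⟨s, hs⟩ ⟨t, ht⟩
    refine ⟨s + t, ?_⟩
    change f (a * b) = QuotientGroup.mk (SpecialLinearGroup.transvection h (s + t))
    have hs' : f a = QuotientGroup.mk (SpecialLinearGroup.transvection h s) := hs
    have ht' : f b = QuotientGroup.mk (SpecialLinearGroup.transvection h t) := ht
    rw [map_mul, hs', ht', SpecialLinearGroup.transvection_add]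
    rfl
  inv_mem' := by
    rintro a ⟨s, hs⟩
    refine ⟨-s, ?_⟩
    change f a⁻¹ = QuotientGroup.mk (SpecialLinearGroup.transvection h (-s))
    have hs' : f a = QuotientGroup.mk (SpecialLinearGroup.transvection h s) := hs
    rw [map_inv, hs', ← SpecialLinearGroup.transvection_inv]
    rfl

/-- what we need to know about the Sylow `p`-subgroup `P` of `K` lifting `TP` -/
structure PData (p : ℕ) (f : K →* ProjectiveSpecialLinearGroup (Fin n) k) (P : Subgroup K) :
    Prop where
  pgroup : IsPGroup p P
  index : ¬ p ∣ P.index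
  comm : ∀ a ∈ P, ∀ b ∈ P, a * b = b * a
  down : ∀ x ∈ P, ∃ z ∈ TP n k p, Lf f x z
  up : ∀ z ∈ TP n k p, ∃ x ∈ P, Lf f x z
  mon : ∀ m : K, ∀ g, IsMon g → Lf f m g → m ∈ Subgroup.normalizer (P : Set K)

/-- the canonical lift of the root subgroup `X_ij` -/
def XX (f : K →* ProjectiveSpecialLinearGroup (Fin n) k) (P : Subgroup K) {i j : Fin n}
    (h : i ≠ j) : Subgroup K :=
  Subgroup.closure {y | ∃ x ∈ P, ∃ v ∈ YY f h, y = x * v * x⁻¹ * v⁻¹}

/-- the canonical lift of the group of unitriangular matrices -/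
def UU (f : K →* ProjectiveSpecialLinearGroup (Fin n) k) (P : Subgroup K) : Subgroup K :=
  Subgroup.closure {y | ∃ (i j : Fin n) (h : i < j), y ∈ XX f P h.ne}

end lift

end Pool.Agent.Helper68.BR
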