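import Pool.Agent.Helper68.BR.CDefs

/-!
# BR-C03: the order of `SL_n(k)`

`Matrix.card_GL_field`: `|GL_n| = ∏_{i < n} (q ^ n - q ^ i)`; the determinant `GL_n → kˣ` is surjective (`n > 0`: diagonal matrices)
with kernel isomorphic to `SL_n` (or: `GL_n ≃ SL_n × kˣ` as sets, via `g ↦ (g with first row divided by det g, det g)`), so
`|GL_n| = |SL_n| (q - 1)`. `q ^ n - q ^ i = q ^ i (q ^ (n-i) - 1) = q ^ i (q - 1) ∑_{j < n - i} q ^ j`. Reorder the product
(`Finset.prod_range_reflect`) and cancel `q - 1 > 0`.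
-/

namespace Pool.Agent.Helper68.BR

open Matrix

theorem card_SL {n : ℕ} (hn : 0 < n) (k : Type) [Field k] [Finite k] :
    Nat.card (SpecialLinearGroup (Fin n) k) =
      (Nat.card k - 1) ^ (n - 1) * Nat.card k ^ (n * (n - 1) / 2) *
        ∏ i ∈ Finset.range n, ∑ j ∈ Finset.range (i + 1), Nat.card k ^ j := by
  classical
  haveI : Fintype k := Fintype.ofFinite k
  haveI : Nonempty (Fin n) := ⟨⟨0, hn⟩⟩
  have hq : 1 < Nat.card k := Finite.one_lt_card
  have hrange : (SpecialLinearGroup.toGL : SpecialLinearGroup (Fin n) k →* GL (Fin n) k).range =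
      (GeneralLinearGroup.det : GL (Fin n) k →* kˣ).ker := by
    ext g
    rw [MonoidHom.mem_range, MonoidHom.mem_ker]
    constructor
    · rintro ⟨s, rfl⟩
      ext
      simp
    · intro h
      have h' : (g : Matrix (Fin n) (Fin n) k).det = 1 := by
        have := congrArg (fun u : kˣ => (u : k)) h
        simpa using this
      refine ⟨⟨(g : Matrix (Fin n) (Fin n) k), h'⟩, ?_⟩
      ext i j
      rfl
  have hSL : Nat.card (SpecialLinearGroup (Fin n) k) =
      Nat.card (GeneralLinearGroup.det : GL (Fin n) k →* kˣ).ker := by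
    rw [← hrange]
    exact Nat.card_congr (MonoidHom.ofInjective SpecialLinearGroup.toGL_injective).toEquiv
  have hidx : (GeneralLinearGroup.det : GL (Fin n) k →* kˣ).ker.index = Nat.card k - 1 := by
    rw [Subgroup.index_ker, MonoidHom.range_eq_top.mpr GeneralLinearGroup.det_surjective,
      Subgroup.card_top, Nat.card_units]
  have hmul : Nat.card (SpecialLinearGroup (Fin n) k) * (Nat.card k - 1) =
      Nat.card (GL (Fin n) k) := by
    rw [hSL, ← hidx]
    exact Subgroup.card_mul_index _
  have hGL : Nat.card (GL (Fin n) k) =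
      ∏ i ∈ Finset.range n, (Nat.card k ^ n - Nat.card k ^ i) := by
    rw [Matrix.card_GL_field, Finset.prod_range, Nat.card_eq_fintype_card]
  have hfac : ∀ i ∈ Finset.range n, Nat.card k ^ n - Nat.card k ^ i =
      Nat.card k ^ i * ((Nat.card k - 1) * ∑ j ∈ Finset.range (n - 1 - i + 1), Nat.card k ^ j) := by
    intro i hi
    have hi' : i < n := Finset.mem_range.mp hi
    have e1 : n - 1 - i + 1 = n - i := by omega
    rw [e1]
    have hg : (Nat.card k - 1) * ∑ j ∈ Finset.range (n - i), Nat.card k ^ j =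
        Nat.card k ^ (n - i) - 1 := by
      rw [mul_comm]
      have := Nat.geomSum_eq hq (n - i)
      rw [this]
      exact Nat.div_mul_cancel (Nat.sub_one_dvd_pow_sub_one _ _)
    rw [hg, Nat.mul_sub, ← pow_add, mul_one]
    congr 2
    omega
  have hprod : ∏ i ∈ Finset.range n, (Nat.card k ^ n - Nat.card k ^ i) =
      Nat.card k ^ (n * (n - 1) / 2) * ((Nat.card k - 1) ^ n *
        ∏ i ∈ Finset.range n, ∑ j ∈ Finset.range (i + 1), Nat.card k ^ j) := by
    rw [Finset.prod_congr rfl hfac, Finset.prod_mul_distrib, Finset.prod_mul_distrib,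
      Finset.prod_const, Finset.card_range, Finset.prod_pow_eq_pow_sum, Finset.sum_range_id,
      Finset.prod_range_reflect (fun i => ∑ j ∈ Finset.range (i + 1), Nat.card k ^ j) n]
  have hpos : 0 < Nat.card k - 1 := by omega
  refine Nat.eq_of_mul_eq_mul_right hpos ?_
  rw [hmul, hGL, hprod]
  have hn1 : (Nat.card k - 1) ^ n = (Nat.card k - 1) ^ (n - 1) * (Nat.card k - 1) := by
    rw [← pow_succ]
    congr 1
    omega
  rw [hn1]
  ring

end Pool.Agent.Helper68.BR
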