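import Pool.Agent.Helper68.BR.UTMem

/-!
# BR-C04: the orders of the unitriangular group and of the diagonal group

`card_UT`: by `mem_UT` `UT n k` is in bijection with the functions `{(i, j) : i < j} → k` (a unitriangular matrix has determinant `1`:
`Matrix.det_of_upperTriangular`), and there are `n (n - 1) / 2` pairs (`Finset.card_...`: e.g. `∑ j : Fin n, (j : ℕ)`, `Finset.sum_range_id`,
`Fin.sum_univ_eq_sum_range`). `card_DG`: a diagonal matrix of determinant `1` is determined by its first `n - 1` diagonal entries,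
which are arbitrary nonzero elements of `k`; `|kˣ| = |k| - 1`.
-/

namespace Pool.Agent.Helper68.BR

open Matrix

private theorem card_pairs (n : ℕ) :
    Nat.card {x : Fin n × Fin n // x.1 < x.2} = n * (n - 1) / 2 := by
  rw [Nat.card_eq_fintype_card, Fintype.card_subtype, Finset.card_filter,
    Fintype.sum_prod_type_right]
  have h1 : ∀ j : Fin n, (∑ i : Fin n, if i < j then 1 else 0) = (j : ℕ) := by
    intro j
    rw [← Finset.card_filter, ← Fin.card_Iio j]
    congr 1
    ext i
    simp
  rw [Finset.sum_congr rfl fun j _ => h1 j, Fin.sum_univ_eq_sum_range (fun j => j),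
    Finset.sum_range_id]

private theorem card_unitri (n : ℕ) (k : Type) [Field k] [Finite k] :
    Nat.card (UT n k) = Nat.card ({x : Fin n × Fin n // x.1 < x.2} → k) := by
  classical
  refine Nat.card_congr (Equiv.ofBijective
    (fun g : UT n k => fun x : {x : Fin n × Fin n // x.1 < x.2} => g.1.1 x.1.1 x.1.2) ⟨?_, ?_⟩)
  · intro g g' h
    apply Subtype.ext
    apply Subtype.ext
    ext i j
    obtain ⟨h1, h2⟩ := mem_UT.1 g.2
    obtain ⟨h3, h4⟩ := mem_UT.1 g'.2
    rcases lt_trichotomy i j with hij | hij | hij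
    · exact congrFun h ⟨(i, j), hij⟩
    · subst hij
      rw [h1, h3]
    · rw [h2 i j hij, h4 i j hij]
  · intro f
    let A : Matrix (Fin n) (Fin n) k := fun i j =>
      if h : i < j then f ⟨(i, j), h⟩ else if i = j then 1 else 0
    have hA1 : ∀ i, A i i = 1 := by
      intro i
      simp only [A, lt_irrefl, dite_false, if_true]
    have hA2 : ∀ i j, j < i → A i j = 0 := by
      intro i j h
      simp only [A, dif_neg (not_lt_of_gt h), if_neg h.ne']
    have hdet : A.det = 1 := by
      rw [Matrix.det_of_isUpperTriangular (fun i j h => hA2 i j h)]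
      exact Finset.prod_eq_one fun i _ => hA1 i
    refine ⟨⟨⟨A, hdet⟩, mem_UT.2 ⟨hA1, hA2⟩⟩, ?_⟩
    funext x
    exact dif_pos x.2

theorem card_UT (n : ℕ) (k : Type) [Field k] [Finite k] :
    Nat.card (UT n k) = Nat.card k ^ (n * (n - 1) / 2) := by
  rw [card_unitri, Nat.card_fun, card_pairs]

private theorem dg_eq {n : ℕ} {k : Type} [Field k] {g : SpecialLinearGroup (Fin n) k}
    (hg : g ∈ DG n k) : g.1 = Matrix.diagonal (fun i => g.1 i i) := by
  ext r s
  by_cases hrs : r = s
  · subst hrs; rw [Matrix.diagonal_apply_eq]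
  · rw [Matrix.diagonal_apply_ne _ hrs]; exact hg r s hrs

private theorem dg_prod {n : ℕ} {k : Type} [Field k] {g : SpecialLinearGroup (Fin n) k}
    (hg : g ∈ DG n k) : ∏ i, g.1 i i = 1 := by
  have h1 := g.2
  rw [dg_eq hg, Matrix.det_diagonal] at h1
  exact h1

private theorem dg_ne {n : ℕ} {k : Type} [Field k] {g : SpecialLinearGroup (Fin n) k}
    (hg : g ∈ DG n k) (i : Fin n) : g.1 i i ≠ 0 := by
  intro h
  have h1 := dg_prod hg
  have h2 : ∏ i, g.1 i i = 0 := Finset.prod_eq_zero (f := fun i => g.1 i i) (Finset.mem_univ i) h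
  rw [h2] at h1
  exact zero_ne_one h1

private theorem card_dg (m : ℕ) (k : Type) [Field k] [Finite k] :
    Nat.card (DG (m + 1) k) = Nat.card (Fin m → kˣ) := by
  classical
  refine Nat.card_congr (Equiv.ofBijective
    (fun g : DG (m + 1) k => fun i : Fin m =>
      Units.mk0 (g.1.1 i.castSucc i.castSucc) (dg_ne g.2 _)) ⟨?_, ?_⟩)
  · intro g g' h
    have h1 : ∀ i : Fin m, g.1.1 i.castSucc i.castSucc = g'.1.1 i.castSucc i.castSucc := by
      intro i
      exact congrArg Units.val (congrFun h i)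
    have h2 := dg_prod g.2
    have h3 := dg_prod g'.2
    rw [Fin.prod_univ_castSucc] at h2 h3
    rw [Finset.prod_congr rfl fun i _ => h1 i] at h2
    have h4 : (∏ i : Fin m, g'.1.1 i.castSucc i.castSucc) ≠ 0 :=
      Finset.prod_ne_zero_iff.2 fun i _ => dg_ne g'.2 _
    have h5 : g.1.1 (Fin.last m) (Fin.last m) = g'.1.1 (Fin.last m) (Fin.last m) :=
      mul_left_cancel₀ h4 (h2.trans h3.symm)
    apply Subtype.ext
    apply Subtype.ext
    rw [dg_eq g.2, dg_eq g'.2]
    congr 1
    funext i
    refine Fin.lastCases h5 (fun j => h1 j) i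
  · intro u
    let w : Fin (m + 1) → k := Fin.snoc (fun i => (u i : k)) (∏ i, (u i : k))⁻¹
    have hw1 : ∀ i : Fin m, w i.castSucc = u i := fun i => by
      simp only [w, Fin.snoc_castSucc]
    have hw2 : w (Fin.last m) = (∏ i, (u i : k))⁻¹ := by
      simp only [w, Fin.snoc_last]
    have h0 : (∏ i, (u i : k)) ≠ 0 := Finset.prod_ne_zero_iff.2 fun i _ => (u i).ne_zero
    have hdet : (Matrix.diagonal w).det = 1 := by
      rw [Matrix.det_diagonal, Fin.prod_univ_castSucc, hw2, Finset.prod_congr rfl fun i _ => hw1 i,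
        mul_inv_cancel₀ h0]
    refine ⟨⟨⟨Matrix.diagonal w, hdet⟩, fun i j h => Matrix.diagonal_apply_ne _ h⟩, ?_⟩
    funext i
    apply Units.ext
    change Matrix.diagonal w i.castSucc i.castSucc = u i
    rw [Matrix.diagonal_apply_eq, hw1]

theorem card_DG {n : ℕ} (hn : 0 < n) (k : Type) [Field k] [Finite k] :
    Nat.card (DG n k) = (Nat.card k - 1) ^ (n - 1) := by
  obtain ⟨m, rfl⟩ : ∃ m, n = m + 1 := ⟨n - 1, by omega⟩
  have h1 : Nat.card (Fin m) = m := by rw [Nat.card_eq_fintype_card, Fintype.card_fin]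
  rw [card_dg, Nat.card_fun, Nat.card_units, h1, Nat.add_sub_cancel]

end Pool.Agent.Helper68.BR
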