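import Pool.Agent.Helper68.BR.Corr

/-!
# BR-B01: a character of the normalizer determined by its reductions and its degree

`η` is a character of `N = Nm P` (`CharS`), so `η = ∑ a_i ψ_i` over `IrrS N` with natural numbers `a_i` (`B_char`, `expand`
in INC/Basic for the group `N`; translate). Claim: the multiplicity `a` of `ψ` is not `0`. Then `η(1) = ψ(1)` and
`η(1) = ∑ a_i ψ_i(1)` with positive degrees give `η = ψ`.
Proof of the claim: choose `θ` with `tt P ⊥ ψ θ 1 ≠ 0` (`exists_theta`), `L` (`exists_cmp`), `summ_nm`, and `d, T` from `Summ.rep θ`.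
If `a = 0`: `tt P ⊥ η θ l = ∑ a_i tt P ⊥ ψ_i θ l` has residue `∑ a_i (T ψ_i l).trace` (sum over `ψ_i ≠ ψ`), and it is congruent to
`tt P ⊥ ψ θ l`, with residue `(T ψ l).trace`. So `∑_l (T ψ l).trace * (T ψ l⁻¹).trace = ∑_i a_i ∑_l (T ψ_i l).trace * (T ψ l⁻¹).trace = 0`
(`trace_orth` and the last clause of `rep`), contradicting `trace_self` (`d ψ > 0`).
-/

namespace Pool.Agent.Helper68.BR

open Pool.Agent.Helper42.INC Pool.Agent.Helper42.IR

variable {G : Type} [Group G] [Finite G] {p : ℕ} [Fact p.Prime] {P U : Subgroup G}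

open Classical in
private noncomputable def ce_ext {G : Type} [Group G] (H : Subgroup G) (f : H → ℂ) : G → ℂ :=
  fun x => if h : x ∈ H then f ⟨x, h⟩ else 0

private theorem ce_ext_coe {G : Type} [Group G] (H : Subgroup G) (f : H → ℂ) (x : H) :
    ce_ext H f x = f x := by
  unfold ce_ext
  rw [dif_pos x.2]

private theorem ce_ext_off {G : Type} [Group G] (H : Subgroup G) (f : H → ℂ) {x : G}
    (hx : x ∉ H) : ce_ext H f x = 0 := by
  unfold ce_ext
  rw [dif_neg hx]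

private theorem ce_ext_irrS {G : Type} [Group G] {H : Subgroup G} {f : H → ℂ} (hf : f ∈ Irr H) :
    ce_ext H f ∈ IrrS H := by
  refine ⟨?_, fun x hx => ce_ext_off H f hx⟩
  have h : (fun h : H => ce_ext H f h) = f := funext fun x => ce_ext_coe H f x
  rw [h]
  exact hf

private theorem ce_tt_sum {ι : Type} (s : Finset ι) (a : ι → ℂ) (F : ι → G → ℂ) (θ : G → ℂ)
    (n : G) : tt P U (fun x => ∑ i ∈ s, a i * F i x) θ n = ∑ i ∈ s, a i * tt P U (F i) θ n := by
  have : Fintype P := Fintype.ofFinite P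
  have : Fintype U := Fintype.ofFinite U
  unfold tt
  simp only [finsum_eq_sum_of_fintype]
  have h1 : ∑ x : P, ∑ u : U, θ ((x : G)⁻¹) * ∑ i ∈ s, a i * F i ((u : G) * (x : G) * n) =
      ∑ i ∈ s, a i * ∑ x : P, ∑ u : U, θ ((x : G)⁻¹) * F i ((u : G) * (x : G) * n) := by
    simp only [Finset.mul_sum]
    rw [Finset.sum_congr rfl (fun x _ => Finset.sum_comm), Finset.sum_comm]
    refine Finset.sum_congr rfl fun i _ => Finset.sum_congr rfl fun x _ =>
      Finset.sum_congr rfl fun u _ => by ring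
  rw [h1, Finset.mul_sum]
  refine Finset.sum_congr rfl fun i _ => by ring

theorem char_eq (hB : Bru p P U) {ψ η : G → ℂ} (hψ : ψ ∈ IrrS (Nm P)) (hη : η ∈ CharS (Nm P))
    (h1 : η 1 = ψ 1)
    (h : ∀ θ ∈ Lin P, ∀ n ∈ NT P θ, Cg p (tt P ⊥ η θ n) (tt P ⊥ ψ θ n)) : η = ψ := by
  classical
  obtain ⟨⟨V, _, _, _, ρ, hρ⟩, hoff⟩ := hη
  have hfin : Fintype (Irr (Nm P)) := Fintype.ofFinite _
  -- the expansion of `η`
  have hcl : IsClass (fun h : Nm P => η h) := by
    rw [hρ]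
    exact char_isClass ρ
  have hexp := expand (fun h : Nm P => η h) hcl
  have hnat : ∀ χ : Irr (Nm P), ∃ n : ℕ, B (fun h : Nm P => η h) χ.1 = n := by
    rintro ⟨χ, W, _, _, _, σ, hσ, rfl⟩
    rw [hρ]
    exact B_char ρ σ
  choose a ha using hnat
  have hη' : η = fun x => ∑ χ : Irr (Nm P), (a χ : ℂ) * ce_ext (Nm P) χ.1 x := by
    funext x
    by_cases hx : x ∈ Nm P
    · have h2 := congrFun hexp ⟨x, hx⟩
      simp only [Finset.sum_apply, Pi.smul_apply, smul_eq_mul] at h2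
      rw [h2]
      refine Finset.sum_congr rfl fun χ _ => ?_
      rw [ha χ]
      have h3 := ce_ext_coe (Nm P) χ.1 ⟨x, hx⟩
      rw [← h3]
    · rw [hoff x hx]
      symm
      refine Finset.sum_eq_zero fun χ _ => ?_
      rw [ce_ext_off (Nm P) χ.1 hx, mul_zero]
  -- `ψ` as an irreducible character of the normalizer
  obtain ⟨ψ0, hψ0⟩ : ∃ ψ0 : Irr (Nm P), ψ0.1 = fun h : Nm P => ψ h := ⟨⟨_, hψ.1⟩, rfl⟩
  have hψe : ce_ext (Nm P) ψ0.1 = ψ := by
    funext x
    by_cases hx : x ∈ Nm P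
    · have h3 := ce_ext_coe (Nm P) ψ0.1 ⟨x, hx⟩
      rw [hψ0] at h3 ⊢
      exact h3
    · rw [ce_ext_off (Nm P) ψ0.1 hx, hψ.2 x hx]
  have hinj : ∀ χ : Irr (Nm P), ce_ext (Nm P) χ.1 = ψ → χ = ψ0 := by
    intro χ hχ
    apply Subtype.ext
    rw [hψ0]
    funext x
    rw [← ce_ext_coe (Nm P) χ.1 x, hχ]
  -- the multiplicity is positive
  obtain ⟨L, hL⟩ := exists_cmp hB
  obtain ⟨κ, hS⟩ := summ_nm hB hL
  obtain ⟨θ, hθ, hne⟩ := exists_theta hB hψ
  obtain ⟨d, T, hT⟩ := hS.rep θ hθ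
  have hpos : a ψ0 ≠ 0 := by
    intro h0
    have : Fintype ↥(L ⊓ stab θ) := Fintype.ofFinite _
    have hH : ¬ p ∣ Nat.card ↥(L ⊓ stab θ) := fun hd =>
      hL.card (hd.trans (Subgroup.card_dvd_of_le inf_le_left))
    obtain ⟨hT1, hT2, hT3, hT4⟩ := hT ψ hψ
    have hd : 0 < d ψ := by
      rcases Nat.eq_zero_or_pos (d ψ) with h | h
      · rw [h, Nat.cast_zero] at hT1
        exact absurd hT1 hne
      · exact h
    have key : ∀ l : ↥(L ⊓ stab θ),
        (T ψ l).trace = ∑ χ : Irr (Nm P), (a χ : kk p) * (T (ce_ext (Nm P) χ.1) l).trace := by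
      intro l
      have hlN : (l : G) ∈ NT P θ := ⟨hL.le l.2.1, l.2.2⟩
      have e1 : Red p (tt P ⊥ η θ l) (T ψ l).trace := (hT2 l).of_cg (h θ hθ l hlN)
      have e2 : Red p (tt P ⊥ η θ l)
          (∑ χ : Irr (Nm P), (a χ : kk p) * (T (ce_ext (Nm P) χ.1) l).trace) := by
        rw [hη', ce_tt_sum]
        refine Red.sum _ fun χ _ => (Red.nat (a χ)).mul ?_
        exact (hT _ (ce_ext_irrS χ.2)).2.1 l
      exact e1.unique e2
    have hsum : ∑ l : ↥(L ⊓ stab θ), (T ψ l).trace * (T ψ l⁻¹).trace = 0 := by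
      have e1 : ∑ l : ↥(L ⊓ stab θ), (T ψ l).trace * (T ψ l⁻¹).trace =
          ∑ χ : Irr (Nm P), (a χ : kk p) *
            ∑ l : ↥(L ⊓ stab θ), (T (ce_ext (Nm P) χ.1) l).trace * (T ψ l⁻¹).trace := by
        simp only [Finset.mul_sum]
        rw [Finset.sum_comm]
        refine Finset.sum_congr rfl fun l _ => ?_
        rw [key l, Finset.sum_mul]
        exact Finset.sum_congr rfl fun χ _ => by ring
      rw [e1]
      refine Finset.sum_eq_zero fun χ _ => ?_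
      by_cases hχ : χ = ψ0
      · rw [hχ, h0, Nat.cast_zero, zero_mul]
      · have hne' : ψ ≠ ce_ext (Nm P) χ.1 := fun he => hχ (hinj χ he.symm)
        have e2 := trace_orth (T (ce_ext (Nm P) χ.1)) (T ψ)
          (hT4 _ (ce_ext_irrS χ.2) hne')
        rw [finsum_eq_sum_of_fintype] at e2
        rw [e2, mul_zero]
    have e3 := (trace_self (p := p) hH (T ψ) hd hT3).2
    rw [finsum_eq_sum_of_fintype] at e3
    exact e3 hsum
  -- degrees
  have hdeg : ∑ χ : Irr (Nm P), a χ * deg χ.1 = deg ψ0.1 := by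
    have e1 : η 1 = ∑ χ : Irr (Nm P), (a χ : ℂ) * ce_ext (Nm P) χ.1 1 := congrFun hη' 1
    have e2 : ψ 1 = (deg ψ0.1 : ℂ) := by
      rw [deg_cast ψ0.2, hψ0]
      rfl
    have e3 : ∀ χ : Irr (Nm P), ce_ext (Nm P) χ.1 1 = (deg χ.1 : ℂ) := by
      intro χ
      rw [deg_cast χ.2]
      exact ce_ext_coe (Nm P) χ.1 1
    rw [h1, e2] at e1
    have e4 : (deg ψ0.1 : ℂ) = ((∑ χ : Irr (Nm P), a χ * deg χ.1 : ℕ) : ℂ) := by
      rw [e1]
      push_cast
      exact Finset.sum_congr rfl fun χ _ => by rw [e3]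
    exact_mod_cast e4.symm
  have hsplit := Finset.sum_erase_add Finset.univ (fun χ : Irr (Nm P) => a χ * deg χ.1)
    (Finset.mem_univ ψ0)
  have hd0 := deg_pos ψ0.2
  have hle : deg ψ0.1 ≤ a ψ0 * deg ψ0.1 :=
    Nat.le_mul_of_pos_left _ (Nat.pos_of_ne_zero hpos)
  have hz : ∑ χ ∈ Finset.univ.erase ψ0, a χ * deg χ.1 = 0 := by
    omega
  have ha1 : a ψ0 = 1 := by
    have e1 : a ψ0 * deg ψ0.1 = 1 * deg ψ0.1 := by
      omega
    exact Nat.eq_of_mul_eq_mul_right hd0 e1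
  have haz : ∀ χ : Irr (Nm P), χ ≠ ψ0 → a χ = 0 := by
    intro χ hχ
    have e1 := (Finset.sum_eq_zero_iff.1 hz) χ (Finset.mem_erase.2 ⟨hχ, Finset.mem_univ _⟩)
    rcases Nat.mul_eq_zero.1 e1 with e2 | e2
    · exact e2
    · exact absurd e2 (deg_pos χ.2).ne'
  rw [hη']
  funext x
  rw [Finset.sum_eq_single ψ0]
  · rw [ha1, Nat.cast_one, one_mul, hψe]
  · intro χ _ hχ
    rw [haz χ hχ, Nat.cast_zero, zero_mul]
  · intro hn
    exact absurd (Finset.mem_univ _) hn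

end Pool.Agent.Helper68.BR
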