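import Pool.Agent.Helper42.PL.Cls

/-!
# Project BR, part D: classes of groups defined by their composition factors

Copy of Helper42/PL/Cls.lean with a general class `𝒮` of simple groups instead of the groups `PSL(2, k)`.
-/

open scoped Pointwise

namespace Pool.Agent.Helper68.BR

open Pool.Agent.Helper42.PL

/-- the admissible factors: abelian groups, groups with cyclic Sylow `p`-subgroups, and simple
groups of the class `S` -/
def FacG (p : ℕ) (S : (F : Type) → [Group F] → Prop) (F : Type) [Group F] : Prop :=
  (∀ a b : F, a * b = b * a) ∨ (∀ P : Sylow p F, IsCyclic P) ∨ (IsSimpleGroup F ∧ S F)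

/-- the groups with a subnormal series with admissible factors -/
inductive ClsG (p : ℕ) (S : (F : Type) → [Group F] → Prop) : (G : Type) → [Group G] → Prop
  | triv (G : Type) [Group G] [Subsingleton G] : ClsG p S G
  | ext (G : Type) [Group G] (N : Subgroup G) [N.Normal]
      (hN : ClsG p S N) (hQ : FacG p S (G ⧸ N)) : ClsG p S G

variable {p : ℕ} {S : (F : Type) → [Group F] → Prop}

/-- `S` is closed under isomorphisms -/
def IsoCl (S : (F : Type) → [Group F] → Prop) : Prop :=
  ∀ (X Y : Type) [Group X] [Group Y], (X ≃* Y) → S X → S Y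

lemma FacG.surj [Fact p.Prime] (hS : IsoCl S) {X Y : Type} [Group X] [Group Y] [Finite X]
    (f : X →* Y) (hf : Function.Surjective f) (h : FacG p S X) : FacG p S Y := by
  rcases h with h | h | ⟨hX, h⟩
  · left
    intro a b
    obtain ⟨a, rfl⟩ := hf a
    obtain ⟨b, rfl⟩ := hf b
    rw [← map_mul, h, map_mul]
  · right; left
    exact cyc_of_surj f hf h
  · rcases hX.eq_bot_or_eq_top_of_normal f.ker inferInstance with hk | hk
    · right; right
      let e : X ≃* Y := MulEquiv.ofBijective f ⟨(MonoidHom.ker_eq_bot_iff f).1 hk, hf⟩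
      have hn : Nontrivial Y := e.symm.toEquiv.nontrivial
      exact ⟨IsSimpleGroup.isSimpleGroup_of_surjective f hf, hS X Y e h⟩
    · left
      intro a b
      obtain ⟨a, rfl⟩ := hf a
      obtain ⟨b, rfl⟩ := hf b
      have ha : f a = 1 := by rw [← MonoidHom.mem_ker, hk]; trivial
      have hb : f b = 1 := by rw [← MonoidHom.mem_ker, hk]; trivial
      rw [ha, hb]

lemma FacG.congr [Fact p.Prime] (hS : IsoCl S) {X Y : Type} [Group X] [Group Y] [Finite X]
    (e : X ≃* Y) (h : FacG p S X) : FacG p S Y := h.surj hS e.toMonoidHom e.surjective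

lemma ClsG.surj_aux [Fact p.Prime] (hS : IsoCl S) {X : Type} [Group X] (h : ClsG p S X) :
    Finite X → ∀ (Y : Type) [Group Y] (f : X →* Y), Function.Surjective f → ClsG p S Y := by
  induction h with
  | triv X =>
    intro _ Y _ f hf
    have : Subsingleton Y := hf.subsingleton
    exact ClsG.triv Y
  | ext X N hN hQ ih =>
    intro hfin Y _ f hf
    have hN' : (N.map f).Normal := Subgroup.Normal.map inferInstance f hf
    have h1 : ClsG p S (N.map f) :=
      ih inferInstance _ (f.subgroupMap N) (f.subgroupMap_surjective N)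
    refine ClsG.ext Y (N.map f) h1 ?_
    refine hQ.surj hS (QuotientGroup.map N (N.map f) f (Subgroup.le_comap_map f N)) ?_
    intro y
    obtain ⟨y, rfl⟩ := QuotientGroup.mk'_surjective _ y
    obtain ⟨x, rfl⟩ := hf y
    exact ⟨QuotientGroup.mk' N x, rfl⟩

theorem ClsG.surj [Fact p.Prime] (hS : IsoCl S) {X Y : Type} [Group X] [Group Y] [Finite X]
    (f : X →* Y) (hf : Function.Surjective f) (h : ClsG p S X) : ClsG p S Y :=
  h.surj_aux hS inferInstance Y f hf

theorem ClsG.congr [Fact p.Prime] (hS : IsoCl S) {X Y : Type} [Group X] [Group Y] [Finite X]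
    (e : X ≃* Y) (h : ClsG p S X) : ClsG p S Y := h.surj hS e.toMonoidHom e.surjective

lemma ClsG.of_fac [Fact p.Prime] (hS : IsoCl S) {X : Type} [Group X] [Finite X]
    (h : FacG p S X) : ClsG p S X := by
  refine ClsG.ext X ⊥ (ClsG.triv _) ?_
  exact h.congr hS (QuotientGroup.quotientBot).symm

lemma ClsG.of_comm [Fact p.Prime] (hS : IsoCl S) {X : Type} [Group X] [Finite X]
    (h : ∀ a b : X, a * b = b * a) : ClsG p S X := ClsG.of_fac hS (Or.inl h)

lemma ClsG.extn_aux [Fact p.Prime] (hS : IsoCl S) {Q : Type} [Group Q] (h : ClsG p S Q) :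
    ∀ (X : Type) [Group X] [Finite X] (f : X →* Q), Function.Surjective f → ClsG p S f.ker →
      ClsG p S X := by
  induction h with
  | triv Q =>
    intro X _ _ f hf hk
    have h1 : f.ker = ⊤ := by
      rw [eq_top_iff]
      intro x _
      exact Subsingleton.elim _ _
    rw [h1] at hk
    exact hk.congr hS Subgroup.topEquiv
  | ext Q M hM hQ ih =>
    intro X _ _ f hf hk
    have h1 : ClsG p S (M.comap f) := by
      refine ih (M.comap f) (f.subgroupComap M) (f.subgroupComap_surjective_of_surjective M hf) ?_
      have e : f.ker ≃* (f.subgroupComap M).ker :=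
        { toFun := fun x => ⟨⟨x.1, by
            rw [Subgroup.mem_comap, MonoidHom.mem_ker.1 x.2]; exact M.one_mem⟩, by
            rw [MonoidHom.mem_ker]; exact Subtype.ext (MonoidHom.mem_ker.1 x.2)⟩
          invFun := fun x => ⟨x.1.1, by
            rw [MonoidHom.mem_ker]; exact congrArg Subtype.val (MonoidHom.mem_ker.1 x.2)⟩
          left_inv := fun x => rfl
          right_inv := fun x => rfl
          map_mul' := fun x y => rfl }
      exact hk.congr hS e
    have hfinQ : Finite Q := Finite.of_surjective f hf
    refine ClsG.ext X (M.comap f) h1 ?_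
    let g : X →* Q ⧸ M := (QuotientGroup.mk' M).comp f
    have hg : Function.Surjective g := (QuotientGroup.mk'_surjective M).comp hf
    have hker : g.ker = M.comap f := by
      ext x
      rw [MonoidHom.mem_ker, Subgroup.mem_comap]
      exact QuotientGroup.eq_one_iff (f x)
    have e2 : X ⧸ M.comap f ≃* Q ⧸ M :=
      (QuotientGroup.quotientMulEquivOfEq hker.symm).trans
        (QuotientGroup.quotientKerEquivOfSurjective g hg)
    exact hQ.congr hS e2.symm

theorem ClsG.extn [Fact p.Prime] (hS : IsoCl S) {X Q : Type} [Group X] [Group Q] [Finite X]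
    (f : X →* Q) (hf : Function.Surjective f) (hk : ClsG p S f.ker) (h : ClsG p S Q) :
    ClsG p S X := h.extn_aux hS X f hf hk

/-- normal subgroups -/
theorem ClsG.normal_aux [Fact p.Prime] (hS : IsoCl S) {G : Type} [Group G] (h : ClsG p S G) :
    Finite G → ∀ M : Subgroup G, M.Normal → ClsG p S M := by
  induction h with
  | triv G =>
    intro _ M _
    exact ClsG.triv M
  | ext G N hN hQ ih =>
    intro hfin H hH
    have hA : ClsG p S (H.subgroupOf N) := ih inferInstance _ (hH.subgroupOf N)
    have hm : (H.map (QuotientGroup.mk' N)).Normal := hH.map _ (QuotientGroup.mk'_surjective N)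
    have hB : ClsG p S (H.map (QuotientGroup.mk' N)) := by
      rcases hQ with hF | hF | ⟨hX, hF⟩
      · apply ClsG.of_comm hS
        intro a b
        exact Subtype.ext (hF a b)
      · apply ClsG.of_fac hS
        right; left
        exact cyc_of_inj (H.map (QuotientGroup.mk' N)).subtype
          (H.map (QuotientGroup.mk' N)).subtype_injective hF
      · rcases hX.eq_bot_or_eq_top_of_normal _ hm with h | h
        · rw [h]
          exact ClsG.triv _
        · rw [h]
          exact (ClsG.of_fac hS (Or.inr (Or.inr ⟨hX, hF⟩))).congr hS Subgroup.topEquiv.symm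
    let f : H →* H.map (QuotientGroup.mk' N) := (QuotientGroup.mk' N).subgroupMap H
    refine hB.extn_aux hS H f (MonoidHom.subgroupMap_surjective _ _) ?_
    have e : H.subgroupOf N ≃* f.ker :=
      { toFun := fun x => ⟨⟨x.1.1, x.2⟩, by
          rw [MonoidHom.mem_ker]
          apply Subtype.ext
          exact (QuotientGroup.eq_one_iff (x.1.1)).2 x.1.2⟩
        invFun := fun x => ⟨⟨x.1.1, by
          have := congrArg Subtype.val (MonoidHom.mem_ker.1 x.2)
          exact (QuotientGroup.eq_one_iff (x.1.1)).1 this⟩, x.1.2⟩
        left_inv := fun x => rfl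
        right_inv := fun x => rfl
        map_mul' := fun x y => rfl }
    exact hA.congr hS e

theorem ClsG.normal [Fact p.Prime] (hS : IsoCl S) {G : Type} [Group G] [Finite G]
    (h : ClsG p S G) (M : Subgroup G) (hM : M.Normal) : ClsG p S M :=
  h.normal_aux hS inferInstance M hM

/-- simple groups in the class -/
theorem ClsG.simple [Fact p.Prime] (hS : IsoCl S) {T : Type} [Group T] [Finite T]
    (h : ClsG p S T) (hT : IsSimpleGroup T) : FacG p S T := by
  have key : ∀ (G : Type) [Group G], ClsG p S G → Finite G → G ≃* T → FacG p S T := by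
    intro G _ h
    induction h with
    | triv G =>
      intro _ e
      have : Subsingleton T := e.symm.toEquiv.subsingleton
      exact absurd hT.toNontrivial (not_nontrivial T)
    | ext G N hN hQ ih =>
      intro hfin e
      have hG : IsSimpleGroup G := by
        have : Nontrivial G := e.toEquiv.nontrivial
        exact IsSimpleGroup.isSimpleGroup_of_surjective e.symm.toMonoidHom e.symm.surjective
      rcases hG.eq_bot_or_eq_top_of_normal N inferInstance with h | h
      · subst h
        exact hQ.congr hS (QuotientGroup.quotientBot.trans e)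
      · subst h
        exact ih inferInstance (Subgroup.topEquiv.trans e)
  exact key T h inferInstance (MulEquiv.refl T)

/-- central kernels -/
theorem ClsG.central [Fact p.Prime] (hS : IsoCl S) {X Y : Type} [Group X] [Group Y] [Finite X]
    (f : X →* Y) (hf : f.ker ≤ Subgroup.center X) (h : ClsG p S f.range) : ClsG p S X := by
  refine ClsG.extn hS f.rangeRestrict f.rangeRestrict_surjective ?_ h
  apply ClsG.of_comm hS
  intro a b
  apply Subtype.ext
  have h1 : (a : X) ∈ f.ker := by
    rw [← MonoidHom.ker_rangeRestrict]
    exact a.2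
  exact (Subgroup.mem_center_iff.1 (hf h1) (b : X)).symm

end Pool.Agent.Helper68.BR
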