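import Pool.Agent.Helper68.BR.RelSL

/-!
# BR-C07: weights

`p ≥ 5` prime, `p ∣ |k| - 1`: there is `ζ ∈ k` with `ζ ^ p = 1`, `ζ ≠ 1` (cyclic group `kˣ`, Cauchy); `ζ² ≠ 1`, `ζ³ ≠ 1`.
`exists_wt'`: `z = diag(ζ at i, ζ⁻¹ at j, 1 elsewhere)`.
`exists_wt`: the pair `{a, b}` is different from `{i, j}`. If `{a, b}` is disjoint from `{i, j}`: the same `z`. If they have exactly one common
element, `i` say (`{a, b} = {i, c}`, `c ≠ j`): `z = diag(ζ at i and c, ζ⁻² at j, 1 elsewhere)`, `ζ ≠ ζ⁻²`; if the common element is `j`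
(`{a, b} = {j, c}`, `c ≠ i`): `ζ` at `j` and `c`, `ζ⁻²` at `i`. All these have determinant `1` and order `p`.
-/

namespace Pool.Agent.Helper68.BR

open Matrix

variable {n : ℕ} {k : Type} [Field k] [Finite k] {p : ℕ} [Fact p.Prime] {i j a b : Fin n}

omit [Finite k] [Fact p.Prime] in
private theorem mk_wt (u : kˣ) (hu : u ^ p = 1) (e : Fin n → ℤ) (he : ∑ l, e l = 0) :
    ∃ z ∈ TP n k p, ∀ l, z.1 l l = ((u ^ (e l) : kˣ) : k) := by
  classical
  have hdet : (Matrix.diagonal fun l => ((u ^ (e l) : kˣ) : k)).det = 1 := by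
    rw [Matrix.det_diagonal]
    have h1 : ((∏ l, u ^ (e l) : kˣ) : k) = ∏ l, ((u ^ (e l) : kˣ) : k) := by
      rw [Units.coe_prod]
    have h2 : ∀ s : Finset (Fin n), ∏ l ∈ s, u ^ (e l) = u ^ (∑ l ∈ s, e l) := by
      intro s
      induction s using Finset.induction_on with
      | empty => simp
      | insert x s hx ih =>
        rw [Finset.prod_insert hx, Finset.sum_insert hx, ih, ← _root_.zpow_add]
    rw [← h1, h2, he, zpow_zero, Units.val_one]
  let z : SpecialLinearGroup (Fin n) k := ⟨_, hdet⟩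
  refine ⟨z, ⟨fun r s hrs => Matrix.diagonal_apply_ne _ hrs, 1, ?_⟩, fun l => ?_⟩
  · apply Subtype.ext
    rw [pow_one]
    change (z ^ p).1 = (1 : Matrix (Fin n) (Fin n) k)
    rw [show (z ^ p).1 = z.1 ^ p from Matrix.SpecialLinearGroup.coe_pow z p]
    change (Matrix.diagonal fun l => ((u ^ (e l) : kˣ) : k)) ^ p = 1
    rw [Matrix.diagonal_pow, ← Matrix.diagonal_one]
    congr 1
    funext l
    rw [Pi.pow_apply, ← Units.val_pow_eq_pow_val, ← zpow_natCast, ← _root_.zpow_mul, mul_comm, _root_.zpow_mul,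
      zpow_natCast, hu, _root_.one_zpow, Units.val_one]
  · exact Matrix.diagonal_apply_eq _ _

private theorem exists_u (hp : 5 ≤ p) (hq : p ∣ Nat.card k - 1) :
    ∃ u : kˣ, u ^ p = 1 ∧ u ≠ u⁻¹ ∧ u ≠ u ^ (-2 : ℤ) := by
  classical
  have : Fintype k := Fintype.ofFinite k
  have h1 : p ∣ Nat.card kˣ := by
    rw [Nat.card_units]
    exact hq
  obtain ⟨u, hu⟩ := exists_prime_orderOf_dvd_card' p h1
  refine ⟨u, by rw [← hu, pow_orderOf_eq_one], fun h => ?_, fun h => ?_⟩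
  · have h2 : u ^ 2 = 1 := by
      rw [pow_two]
      nth_rewrite 2 [h]
      exact mul_inv_cancel u
    have h3 := Nat.le_of_dvd (by norm_num) (orderOf_dvd_of_pow_eq_one h2)
    omega
  · have h2 : u ^ 3 = 1 := by
      have h4 : u ^ (3 : ℤ) = 1 := by
        have h5 : u * u ^ (2 : ℤ) = 1 := by
          nth_rewrite 1 [h]
          rw [← _root_.zpow_add]
          norm_num
        rw [show (3 : ℤ) = 1 + 2 by norm_num, _root_.zpow_add, zpow_one]
        exact h5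
      exact_mod_cast h4
    have h3 := Nat.le_of_dvd (by norm_num) (orderOf_dvd_of_pow_eq_one h2)
    omega

private theorem wt2 (hp : 5 ≤ p) (hq : p ∣ Nat.card k - 1) (h : i ≠ j) :
    ∃ z ∈ TP n k p, z.1 i i ≠ z.1 j j ∧ ∀ l, l ≠ i → l ≠ j → z.1 l l = 1 := by
  obtain ⟨u, hu, hu1, hu2⟩ := exists_u (k := k) hp hq
  obtain ⟨z, hz, hzl⟩ := mk_wt (n := n) u hu
    (fun l => (if l = i then 1 else 0) + (if l = j then -1 else 0)) (by
      rw [Finset.sum_add_distrib]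
      simp)
  refine ⟨z, hz, ?_, fun l h1 h2 => ?_⟩
  · rw [hzl, hzl]
    simp only [if_true, if_neg h, if_neg h.symm, add_zero, zero_add, zpow_one]
    exact fun h' => hu1 ((Units.ext h').trans (zpow_neg_one u))
  · rw [hzl]
    simp only [if_neg h1, if_neg h2, add_zero, zpow_zero, Units.val_one]

private theorem wt3 (hp : 5 ≤ p) (hq : p ∣ Nat.card k - 1) {c : Fin n} (h : i ≠ j) (h1 : c ≠ i)
    (h2 : c ≠ j) : ∃ z ∈ TP n k p, z.1 i i = z.1 c c ∧ z.1 i i ≠ z.1 j j := by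
  obtain ⟨u, hu, hu1, hu2⟩ := exists_u (k := k) hp hq
  obtain ⟨z, hz, hzl⟩ := mk_wt (n := n) u hu
    (fun l => (if l = i then 1 else 0) + (if l = c then 1 else 0) + (if l = j then -2 else 0)) (by
      rw [Finset.sum_add_distrib, Finset.sum_add_distrib]
      simp)
  refine ⟨z, hz, ?_, ?_⟩
  · rw [hzl, hzl]
    simp only [if_true, if_neg h, if_neg h1, if_neg h1.symm, if_neg h2, add_zero, zero_add]
  · rw [hzl, hzl]
    simp only [if_true, if_neg h, if_neg h.symm, if_neg h1.symm, if_neg h2.symm, add_zero, zero_add,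
      zpow_one]
    exact fun h' => hu2 (Units.ext h')

theorem exists_wt' (hp : 5 ≤ p) (hq : p ∣ Nat.card k - 1) (h : i ≠ j) :
    ∃ z ∈ TP n k p, z.1 i i ≠ z.1 j j := by
  obtain ⟨z, hz, h1, -⟩ := wt2 (k := k) hp hq h
  exact ⟨z, hz, h1⟩

theorem exists_wt (hp : 5 ≤ p) (hq : p ∣ Nat.card k - 1) (h : i ≠ j) (h' : a ≠ b)
    (h1 : ¬ (i = a ∧ j = b)) (h2 : ¬ (i = b ∧ j = a)) :
    ∃ z ∈ TP n k p, z.1 a a = z.1 b b ∧ z.1 i i ≠ z.1 j j := by
  by_cases hai : a = i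
  · subst hai
    have hbj : b ≠ j := fun e => h1 ⟨rfl, e.symm⟩
    obtain ⟨z, hz, h3, h4⟩ := wt3 (k := k) hp hq h h'.symm hbj
    exact ⟨z, hz, h3, h4⟩
  by_cases hbi : b = i
  · subst hbi
    have haj : a ≠ j := fun e => h2 ⟨rfl, e.symm⟩
    obtain ⟨z, hz, h3, h4⟩ := wt3 (k := k) hp hq h h' haj
    exact ⟨z, hz, h3.symm, h4⟩
  by_cases haj : a = j
  · subst haj
    obtain ⟨z, hz, h3, h4⟩ := wt3 (k := k) hp hq h.symm h'.symm hbi
    exact ⟨z, hz, h3, fun e => h4 e.symm⟩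
  by_cases hbj : b = j
  · subst hbj
    obtain ⟨z, hz, h3, h4⟩ := wt3 (k := k) hp hq h.symm h' hai
    exact ⟨z, hz, h3.symm, fun e => h4 e.symm⟩
  obtain ⟨z, hz, h3, h4⟩ := wt2 (k := k) hp hq h
  exact ⟨z, hz, (h4 a hai haj).trans (h4 b hbi hbj).symm, h3⟩

end Pool.Agent.Helper68.BR
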