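import Pool.Agent.Helper68.BR.LfB
import Pool.Agent.Helper68.BR.Wt

/-!
# BR-C10: lifts of commuting root subgroups commute (`p ≥ 5`)

By `exists_wt` (note `¬ (i = b ∧ j = a)` as `j ≠ a`) there is `z ∈ TP` with `z a a = z b b` and `lam = z i i / z j j ≠ 1`; let `x ∈ K` lift `z`.
`y` lifts `tv h s`; let `y₁` lift `tv h (s / (lam - 1))`. Then `x y₁ x⁻¹ y₁⁻¹` lifts `tv h s` (`lf_conj`, `transvection_add`), so
`y = (x y₁ x⁻¹ y₁⁻¹) c` with `c ∈ f.ker` central, and it is enough that `x y₁ x⁻¹ y₁⁻¹` commutes with `w`. `e = y₁ w y₁⁻¹ w⁻¹ ∈ f.ker`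
(`tv_commute`), so central. `x w x⁻¹ = w c'` with `c'` central (`lf_conj` with `z a a (z b b)⁻¹ = 1`). Conjugating `y₁ w y₁⁻¹ = e w` by `x`:
`(x y₁ x⁻¹) w (x y₁ x⁻¹)⁻¹ = e w`. And `y₁⁻¹ w y₁ = e⁻¹ w`. So `(x y₁ x⁻¹ y₁⁻¹) w (x y₁ x⁻¹ y₁⁻¹)⁻¹ = e⁻¹ e w = w`.
-/

namespace Pool.Agent.Helper68.BR

open Matrix

variable {n : ℕ} {k : Type} [Field k] [Finite k] {K : Type} [Group K] {p : ℕ} [Fact p.Prime]
  {f : K →* ProjectiveSpecialLinearGroup (Fin n) k} {i j a b : Fin n}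

private theorem comm_aux {G : Type} [Group G] {x y w e c : G} (he : ∀ g : G, g * e = e * g)
    (hc : ∀ g : G, g * c = c * g) (h1 : y * w = e * w * y) (h2 : x * w = w * c * x) :
    x * y * x⁻¹ * y⁻¹ * w = w * (x * y * x⁻¹ * y⁻¹) := by
  have ce : ∀ g : G, SemiconjBy g e e := fun g => he g
  have cc : ∀ g : G, SemiconjBy g c c := fun g => hc g
  have ce' : ∀ g : G, SemiconjBy g e⁻¹ e⁻¹ := fun g => (ce g).inv_right
  have cc' : ∀ g : G, SemiconjBy g c⁻¹ c⁻¹ := fun g => (cc g).inv_right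
  have S1 : SemiconjBy y w (e * w) := h1
  have S2 : SemiconjBy x w (w * c) := h2
  have T1 : SemiconjBy y⁻¹ w (e⁻¹ * w) := by
    have := (ce' y⁻¹).mul_right S1.inv_symm_left
    rwa [inv_mul_cancel_left] at this
  have T2 : SemiconjBy x⁻¹ w (w * c⁻¹) := by
    have := (S2.inv_symm_left).mul_right (cc' x⁻¹)
    rwa [mul_inv_cancel_right] at this
  have A2 : SemiconjBy x⁻¹ (e⁻¹ * w) (e⁻¹ * (w * c⁻¹)) := (ce' x⁻¹).mul_right T2
  have A3 : SemiconjBy y (e⁻¹ * (w * c⁻¹)) (w * c⁻¹) := by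
    have := (ce' y).mul_right (S1.mul_right (cc' y))
    rwa [mul_assoc e w c⁻¹, inv_mul_cancel_left] at this
  have A4 : SemiconjBy x (w * c⁻¹) w := by
    have := S2.mul_right (cc' x)
    rwa [mul_inv_cancel_right] at this
  have h := A4.mul_left (A3.mul_left (A2.mul_left T1))
  have h' : x * (y * (x⁻¹ * y⁻¹)) * w = w * (x * (y * (x⁻¹ * y⁻¹))) := h
  simpa only [mul_assoc] using h'

theorem comm_diff (hp : 5 ≤ p) (hq : p ∣ Nat.card k - 1) (hf : Function.Surjective f)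
    (hc : f.ker ≤ Subgroup.center K) (h : i ≠ j) (h' : a ≠ b) (h1 : j ≠ a) (h2 : i ≠ b)
    (hne : ¬ (i = a ∧ j = b)) {y w : K} (hy : y ∈ YY f h) (hw : w ∈ YY f h') :
    y * w = w * y := by
  obtain ⟨s, hs⟩ := hy
  obtain ⟨t, ht⟩ := hw
  obtain ⟨z, hz, hab, hij⟩ := exists_wt (n := n) (k := k) hp hq h h' hne (fun hh => h2 hh.1)
  have hzD : z ∈ DG n k := hz.1
  obtain ⟨x, hx⟩ := exists_lf hf z
  have hjj : z.1 j j ≠ 0 := dg_ne hzD j
  have hbb : z.1 b b ≠ 0 := dg_ne hzD b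
  have hlam : z.1 i i * (z.1 j j)⁻¹ - 1 ≠ 0 := by
    intro h0
    apply hij
    have h3 : z.1 i i * (z.1 j j)⁻¹ = 1 := sub_eq_zero.1 h0
    have h4 := congrArg (fun u => u * z.1 j j) h3
    simpa only [mul_assoc, inv_mul_cancel₀ hjj, mul_one, one_mul] using h4
  obtain ⟨y₁, hy₁⟩ := exists_lf hf (tv h (s / (z.1 i i * (z.1 j j)⁻¹ - 1)))
  have hcen : ∀ c ∈ f.ker, ∀ g : K, g * c = c * g := fun c hc' g =>
    Subgroup.mem_center_iff.1 (hc hc') g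
  have hu : Lf f (x * y₁ * x⁻¹ * y₁⁻¹) (tv h s) := by
    have h3 := (lf_conj h hx hzD hy₁).mul hy₁.inv
    have h4 : tv h (z.1 i i * (z.1 j j)⁻¹ * (s / (z.1 i i * (z.1 j j)⁻¹ - 1))) *
        (tv h (s / (z.1 i i * (z.1 j j)⁻¹ - 1)))⁻¹ = tv h s := by
      rw [SpecialLinearGroup.transvection_inv, ← SpecialLinearGroup.transvection_add]
      congr 1
      field_simp
      ring
    rwa [h4] at h3
  obtain ⟨c, hck, hyc⟩ := hs.ker hu
  have he : y₁ * w * y₁⁻¹ * w⁻¹ ∈ f.ker := by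
    have h3 := ((hy₁.mul ht).mul hy₁.inv).mul ht.inv
    rw [tv_commute h h' h1 h2, mul_inv_cancel_right, mul_inv_cancel] at h3
    exact lf_one.1 h3
  have hw' : Lf f (x * w * x⁻¹) (tv h' t) := by
    have h3 := lf_conj h' hx hzD ht
    rwa [hab, mul_inv_cancel₀ hbb, one_mul] at h3
  obtain ⟨c', hck', hwc⟩ := hw'.ker ht
  have e1 : y₁ * w = y₁ * w * y₁⁻¹ * w⁻¹ * w * y₁ := by
    rw [inv_mul_cancel_right, inv_mul_cancel_right]
  have e2 : x * w = w * c' * x := by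
    rw [← hwc, inv_mul_cancel_right]
  have h5 := comm_aux (hcen _ he) (hcen _ hck') e1 e2
  rw [hyc, mul_assoc, ← hcen c hck w, ← mul_assoc, h5, mul_assoc]

end Pool.Agent.Helper68.BR
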