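import Pool.Agent.Helper68.BR.LfB

/-!
# BR-C09: the lifts of a root subgroup commute (`n ≥ 3`)

Choose `m ∉ {i, j}`. `A = YY f (i ≠ m)`, `B = YY f (m ≠ j)`, `C = YY f (i ≠ j)`. `⁅A, C⁆ ≤ f.ker` (`tv_commute`: `m ≠ i`, `i ≠ j`), so
`⁅⁅A, C⁆, B⁆ = ⊥` as `f.ker` is central; `⁅B, C⁆ ≤ f.ker` (`j ≠ i`, `m ≠ j`), so `⁅⁅B, C⁆, A⁆ = ⊥`. Three subgroups lemma
(`Subgroup.commutator_commutator_eq_bot_of_rotate`): `⁅⁅A, B⁆, C⁆ = ⊥`. Every `y ∈ C`, a lift of `tv s`, is `⁅a, b⁆ c` with `a` a lift of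
`1 + s E_im`, `b` of `1 + E_mj` (`tv_comm`, surjectivity of `f`, `Lf.ker`), `c ∈ f.ker` central; so `y` commutes with `C`.
-/

namespace Pool.Agent.Helper68.BR

open Matrix
open scoped commutatorElement

variable {n : ℕ} {k : Type} [Field k] {K : Type} [Group K]
  {f : K →* ProjectiveSpecialLinearGroup (Fin n) k} {i j : Fin n}

/-- lifts of commuting transvections commute modulo the kernel -/
private theorem comm_ker {a b c d : Fin n} (h : a ≠ b) (h' : c ≠ d) (h1 : b ≠ c) (h2 : a ≠ d) :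
    ⁅YY f h, YY f h'⁆ ≤ f.ker := by
  rw [Subgroup.commutator_le]
  rintro x ⟨s, hs⟩ y ⟨t, ht⟩
  have hxy : Lf f ⁅x, y⁆ (tv h s * tv h' t * (tv h s)⁻¹ * (tv h' t)⁻¹) := by
    rw [commutatorElement_def]
    exact ((hs.mul ht).mul hs.inv).mul ht.inv
  have h3 : tv h s * tv h' t * (tv h s)⁻¹ * (tv h' t)⁻¹ = 1 := by
    rw [tv_commute h h' h1 h2 s t]
    group
  rw [h3] at hxy
  exact lf_one.1 hxy

private theorem comm_bot (hc : f.ker ≤ Subgroup.center K) {H X : Subgroup K} (hH : H ≤ f.ker) :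
    ⁅H, X⁆ = ⊥ := by
  rw [Subgroup.commutator_eq_bot_iff_le_centralizer]
  exact (hH.trans hc).trans (Subgroup.center_le_centralizer _)

theorem comm_same (hn : 3 ≤ n) (hf : Function.Surjective f) (hc : f.ker ≤ Subgroup.center K)
    (h : i ≠ j) {y y' : K} (hy : y ∈ YY f h) (hy' : y' ∈ YY f h) : y * y' = y' * y := by
  obtain ⟨m, hmi, hmj⟩ := Fin.exists_ne_and_ne_of_two_lt i j (show 2 < n by omega)
  have h1 : ⁅⁅YY f hmj, YY f h⁆, YY f hmi.symm⁆ = ⊥ :=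
    comm_bot hc (comm_ker hmj h h.symm hmj)
  have h2 : ⁅⁅YY f h, YY f hmi.symm⁆, YY f hmj⁆ = ⊥ :=
    comm_bot hc (comm_ker h hmi.symm h.symm hmi.symm)
  have h3 : ⁅⁅YY f hmi.symm, YY f hmj⁆, YY f h⁆ = ⊥ :=
    Subgroup.commutator_commutator_eq_bot_of_rotate h1 h2
  rw [Subgroup.commutator_eq_bot_iff_le_centralizer] at h3
  obtain ⟨s, hs⟩ := hy
  obtain ⟨a, ha⟩ := exists_lf hf (tv hmi.symm s)
  obtain ⟨b, hb⟩ := exists_lf hf (tv hmj (1 : k))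
  have hab : Lf f ⁅a, b⁆ (tv h s) := by
    have h4 := tv_comm hmi.symm hmj h s (1 : k)
    rw [mul_one] at h4
    rw [← h4, commutatorElement_def]
    exact ((ha.mul hb).mul ha.inv).mul hb.inv
  obtain ⟨c, hck, hyc⟩ := hs.ker hab
  have hcen := Subgroup.mem_center_iff.1 (hc hck) y'
  have hmem : ⁅a, b⁆ ∈ ⁅YY f hmi.symm, YY f hmj⁆ :=
    Subgroup.commutator_mem_commutator (show a ∈ YY f hmi.symm from ⟨s, ha⟩)
      (show b ∈ YY f hmj from ⟨1, hb⟩)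
  have h5 := (Subgroup.mem_centralizer_iff.1 (h3 hmem)) y' hy'
  rw [hyc, mul_assoc, ← hcen, ← mul_assoc, ← h5, mul_assoc]

end Pool.Agent.Helper68.BR
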