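import Pool.Agent.Helper68.BR.Pr

/-!
# BR-A06: traces and the functions `tt`

* `trace_pr`: `tt P U ρ.character θ n` is the trace of `pr θ ∘ ρ n` (linearity of the trace,
  `ρ (u x) ρ n = ρ (u x n)`, `Representation.character`).
* `tt_shift`: substitute `x ↦ x y⁻¹` in the sum over `P` (`y ∈ P`): `θ ((x y⁻¹)⁻¹) = θ (y x⁻¹) = θ y θ (x⁻¹)`.
* `tt_sum`: exchange the sums; `∑_θ θ (x⁻¹)` is `|P|` for `x = 1` and `0` otherwise (`lin_card`, `lin_sum`).
* `tt_nonneg`: `tt P U ρ.character θ 1` is the trace of the projection `pr θ`, so the dimension of its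
  range `VT` (`LinearMap.IsProj.trace` or `LinearMap.IsIdempotentElem...`).
-/

namespace Pool.Agent.Helper68.BR

open Pool.Agent.Helper42.INC Pool.Agent.Helper42.IR

variable {G : Type} [Group G] [Finite G] {p : ℕ} [Fact p.Prime] {P U : Subgroup G} {θ : G → ℂ}

theorem trace_pr {V : Type} [AddCommGroup V] [Module ℂ V] [FiniteDimensional ℂ V]
    (ρ : Representation ℂ G V) (θ : G → ℂ) (n : G) :
    LinearMap.trace ℂ V (pr P U ρ θ ∘ₗ ρ n) = tt P U ρ.character θ n := by
  have : Fintype P := Fintype.ofFinite P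
  have : Fintype U := Fintype.ofFinite U
  have h1 : pr P U ρ θ ∘ₗ ρ n = ((Nat.card P : ℂ) * (Nat.card U : ℂ))⁻¹ •
      ∑ x : P, ∑ u : U, θ ((x : G)⁻¹) • ρ ((u : G) * (x : G) * n) := by
    unfold pr
    simp only [finsum_eq_sum_of_fintype]
    ext v
    simp only [LinearMap.comp_apply, LinearMap.smul_apply, LinearMap.sum_apply, map_mul,
      Module.End.mul_apply]
  rw [h1]
  unfold tt
  simp only [finsum_eq_sum_of_fintype, smul_eq_mul, map_sum, map_smul]
  rfl

theorem tt_shift (χ : G → ℂ) (hθ : θ ∈ Lin P) {y : G} (hy : y ∈ P) (n : G) :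
    tt P U χ θ (y * n) = θ y * tt P U χ θ n := by
  have : Fintype P := Fintype.ofFinite P
  have : Fintype U := Fintype.ofFinite U
  unfold tt
  simp only [finsum_eq_sum_of_fintype]
  rw [← Equiv.sum_comp (Equiv.mulRight ((⟨y, hy⟩ : P)⁻¹)) (fun x : P =>
    ∑ u : U, θ ((x : G)⁻¹) * χ ((u : G) * (x : G) * (y * n))), mul_left_comm]
  congr 1
  rw [Finset.mul_sum]
  refine Finset.sum_congr rfl fun x _ => ?_
  rw [Finset.mul_sum]
  refine Finset.sum_congr rfl fun u _ => ?_
  have h1 : ((Equiv.mulRight ((⟨y, hy⟩ : P)⁻¹) x : P) : G) = (x : G) * y⁻¹ := rfl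
  rw [h1, mul_inv_rev, inv_inv, hθ.2.1 y hy _ (P.inv_mem x.2), mul_assoc (θ y)]
  congr 3
  group

theorem tt_sum (hB : Bru p P U) (f : G → ℂ) :
    ∑ᶠ θ : Lin P, tt P U f θ.1 1 = (Nat.card U : ℂ)⁻¹ * ∑ᶠ u : U, f u := by
  classical
  have : Fintype P := Fintype.ofFinite P
  have : Fintype U := Fintype.ofFinite U
  have : Finite (Lin P) := (lin_finite (P := P)).to_subtype
  have : Fintype (Lin P) := Fintype.ofFinite (Lin P)
  unfold tt
  simp only [finsum_eq_sum_of_fintype]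
  rw [← Finset.mul_sum, Finset.sum_comm]
  have h1 : ∀ x : P, ∑ θ : Lin P, ∑ u : U, θ.1 ((x : G)⁻¹) * f ((u : G) * (x : G) * 1) =
      if x = 1 then (Nat.card P : ℂ) * ∑ u : U, f u else 0 := by
    intro x
    have h2 : ∑ θ : Lin P, ∑ u : U, θ.1 ((x : G)⁻¹) * f ((u : G) * (x : G) * 1) =
        (∑ θ : Lin P, θ.1 ((x : G)⁻¹)) * ∑ u : U, f ((u : G) * (x : G) * 1) := by
      rw [Finset.sum_mul]
      refine Finset.sum_congr rfl fun θ _ => ?_
      rw [Finset.mul_sum]
    rw [h2]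
    split_ifs with hx
    · subst hx
      have h3 : ∀ θ : Lin P, θ.1 (((1 : P) : G)⁻¹) = 1 := fun θ => by
        rw [Subgroup.coe_one, inv_one]
        exact θ.2.1
      rw [Finset.sum_congr rfl fun θ _ => h3 θ]
      simp only [Finset.sum_const, Finset.card_univ, nsmul_eq_mul, mul_one, Subgroup.coe_one]
      rw [← Nat.card_eq_fintype_card, lin_card hB.comm]
    · have h3 := lin_sum (P := P) hB.comm x.2 (fun h => hx (Subtype.ext h))
      rw [finsum_eq_sum_of_fintype] at h3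
      rw [h3, zero_mul]
  rw [Finset.sum_congr rfl fun x _ => h1 x, Finset.sum_ite_eq' Finset.univ (1 : P),
    if_pos (Finset.mem_univ _), ← mul_assoc]
  congr 1
  have h4 : (Nat.card P : ℂ) ≠ 0 := by
    have : 0 < Nat.card P := Nat.card_pos
    exact_mod_cast this.ne'
  have h5 : (Nat.card U : ℂ) ≠ 0 := by
    have : 0 < Nat.card U := Nat.card_pos
    exact_mod_cast this.ne'
  field_simp

theorem tt_dim (hB : Bru p P U) {V : Type} [AddCommGroup V] [Module ℂ V] [FiniteDimensional ℂ V]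
    (ρ : Representation ℂ G V) (hθ : θ ∈ Lin P) :
    tt P U ρ.character θ 1 = (Module.finrank ℂ (VT P U ρ θ) : ℂ) := by
  have h1 : LinearMap.IsProj (VT P U ρ θ) (pr P U ρ θ) :=
    ⟨fun v => pr_mem hB hθ v, fun v hv => pr_eq hB hθ hv⟩
  rw [← trace_pr, map_one, Module.End.one_eq_id, LinearMap.comp_id, h1.trace]

end Pool.Agent.Helper68.BR
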