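import Pool.Agent.Helper68.BR.Stab
import Pool.Agent.Helper68.BR.Tr

/-!
# BR-A10: the trace of `M θ θ n`

`C θ θ n` is the matrix in the basis `b θ` of the restriction of `pr θ ∘ ρ n` to `VT θ` (`M_spec`), and the
range of `pr θ ∘ ρ n` is contained in `VT θ` (`pr_mem`), so its trace on `V` is the trace of the restriction
(Mathlib: `LinearMap.trace_restrict_eq_of_forall_mem` or similar); `trace_pr`.
`d_eq`: `tt_dim` and the basis `b θ`.
-/

namespace Pool.Agent.Helper68.BR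

open Pool.Agent.Helper42.INC Pool.Agent.Helper42.IR

variable {G : Type} [Group G] [Finite G] {p : ℕ} [Fact p.Prime] {P U : Subgroup G}
  {θ : G → ℂ} {V : Type} [AddCommGroup V] [Module ℂ V] [FiniteDimensional ℂ V]
  {ρ : Representation ℂ G V}

theorem trace_C (hB : Bru p P U) (Λ : Lat p P U ρ) (hθ : θ ∈ Lin P) (n : G) :
    (Λ.C θ θ n).trace = tt P U ρ.character θ n := by
  rw [← trace_pr]
  have h1 : ∀ v, (pr P U ρ θ ∘ₗ ρ n) v ∈ VT P U ρ θ := fun v => pr_mem hB hθ (ρ n v)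
  rw [← LinearMap.trace_restrict_eq_of_forall_mem (VT P U ρ θ) (pr P U ρ θ ∘ₗ ρ n) h1,
    LinearMap.trace_eq_matrix_trace ℂ (Λ.b θ)]
  congr 1
  ext i j
  rw [LinearMap.toMatrix_apply]
  have h2 : ((pr P U ρ θ ∘ₗ ρ n).restrict fun x _ => h1 x) (Λ.b θ j) =
      ∑ i, Λ.C θ θ n i j • Λ.b θ i := by
    apply Subtype.ext
    rw [LinearMap.coe_restrict_apply]
    change pr P U ρ θ (ρ n (Λ.b θ j : V)) = _
    rw [M_spec hB Λ hθ hθ n j, Submodule.coe_sum]
    rfl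
  rw [h2, Module.Basis.repr_sum_self]

theorem trace_K (hB : Bru p P U) (Λ : Lat p P U ρ) (hθ : θ ∈ Lin P) (n : G) :
    Red p (tt P U ρ.character θ n) (Λ.K θ θ n).trace := by
  refine ⟨(Λ.M θ θ n).trace, ?_, ?_⟩
  · rw [← trace_C hB Λ hθ n]
    unfold Lat.C Matrix.trace
    exact map_sum (algebraMap (OO p) ℂ) _ _
  · unfold Lat.K Matrix.trace
    rw [map_sum]
    rfl

theorem d_eq (hB : Bru p P U) (Λ : Lat p P U ρ) (hθ : θ ∈ Lin P) :
    tt P U ρ.character θ 1 = Λ.d θ := by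
  rw [tt_dim hB ρ hθ, Module.finrank_eq_card_basis (Λ.b θ), Fintype.card_fin]

theorem d_zero (hB : Bru p P U) (Λ : Lat p P U ρ) (hθ : θ ∈ Lin P)
    (h : tt P U ρ.character θ 1 = 0) (n : G) : tt P U ρ.character θ n = 0 := by
  rw [d_eq hB Λ hθ] at h
  have h1 : Λ.d θ = 0 := by exact_mod_cast h
  have : IsEmpty (Fin (Λ.d θ)) := by
    rw [h1]
    exact Fin.isEmpty
  rw [← trace_C hB Λ hθ n]
  exact Finset.sum_of_isEmpty _

end Pool.Agent.Helper68.BR
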