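import Pool.Agent.Helper68.BR.Mul
import Pool.Agent.Helper68.BR.Trace

/-!
# BR-A14: conjugation by elements of the normalizer

`g ∈ N`, `η = cnj g θ`. `X = K η θ g`, `Y = K θ η g⁻¹`. By `K_mul`, `K_one`: `Y X = 1` (`cnj (g⁻¹ g) θ = θ`) and
`X Y = 1`; so the sizes agree: `d η = d θ` (rank, or `Matrix` with left and right inverse are square). For `n ∈ NT P θ`
(`cnj n θ = θ`): `K η η (g n g⁻¹) X = K η θ (g n) = X K θ θ n`, so `K η η (g n g⁻¹) = X K θ θ n Y` and the traces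
agree (`Matrix.trace_mul_comm`). Then `trace_K` and `d_eq`.
-/

namespace Pool.Agent.Helper68.BR

open Pool.Agent.Helper42.INC Pool.Agent.Helper42.IR

variable {G : Type} [Group G] [Finite G] {p : ℕ} [Fact p.Prime] {P U : Subgroup G}
  {θ : G → ℂ} {V : Type} [AddCommGroup V] [Module ℂ V] [FiniteDimensional ℂ V]
  {ρ : Representation ℂ G V}

theorem conj_tt (hB : Bru p P U) (Λ : Lat p P U ρ) (hθ : θ ∈ Lin P) {g : G} (hg : g ∈ Nm P) :
    tt P U ρ.character (cnj g θ) 1 = tt P U ρ.character θ 1 ∧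
      ∀ n ∈ NT P θ, Cg p (tt P U ρ.character (cnj g θ) (g * n * g⁻¹))
        (tt P U ρ.character θ n) := by
  obtain ⟨η, hη⟩ : ∃ η, cnj g θ = η := ⟨_, rfl⟩
  have hη' : η ∈ Lin P := by
    rw [← hη]
    exact lin_cnj hθ hg
  have hinv : cnj g⁻¹ η = θ := by
    rw [← hη]
    exact cnj_inv_cnj g θ
  have hg' : g⁻¹ ∈ Nm P := inv_mem hg
  rw [hη]
  -- `Y X = 1`
  have hYX : Λ.K θ η g⁻¹ * Λ.K η θ g = 1 := by
    rw [← K_mul hB Λ hθ hg' hg hη hinv, inv_mul_cancel]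
    exact K_one hB Λ hθ
  have hXY : Λ.K η θ g * Λ.K θ η g⁻¹ = 1 := by
    rw [← K_mul hB Λ hη' hg hg' hinv hη, mul_inv_cancel]
    exact K_one hB Λ hη'
  have hd : Λ.d η = Λ.d θ := by
    have e := Matrix.toLin'OfInv hYX hXY
    have h := LinearEquiv.finrank_eq e
    simpa using h.symm
  refine ⟨by rw [d_eq hB Λ hη', d_eq hB Λ hθ, hd], fun n hn => ?_⟩
  obtain ⟨hn1, hn2⟩ := hn
  have hn2' : cnj n θ = θ := hn2
  have h1 : Λ.K η θ (g * n) = Λ.K η θ g * Λ.K θ θ n := K_mul hB Λ hθ hg hn1 hn2' hη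
  have h2 : cnj (g * n) θ = η := by
    rw [← cnj_cnj, hn2', hη]
  have h3 : Λ.K η η (g * n * g⁻¹) = Λ.K η θ (g * n) * Λ.K θ η g⁻¹ :=
    K_mul hB Λ hη' (mul_mem hg hn1) hg' hinv h2
  have h4 : (Λ.K η η (g * n * g⁻¹)).trace = (Λ.K θ θ n).trace := by
    rw [h3, h1, Matrix.trace_mul_comm, ← Matrix.mul_assoc, hYX, Matrix.one_mul]
  have h5 := trace_K hB Λ hη' (g * n * g⁻¹)
  rw [h4] at h5
  exact h5.cg (trace_K hB Λ hθ n)

end Pool.Agent.Helper68.BR
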