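import Pool.Agent.Helper68.BR.Inj

/-!
# BR-A22: which characters have degree prime to `p`

(⇒) If all `tt χ θ 1 = 0` then `hS.sum` gives `Cg (χ 1) 0`, so `(n : kk p) = 0`, so `p ∣ n` (`CharP`).
(⇐) Let `tt χ θ₀ 1 = d ≠ 0`, `p ∤ d` (`Summ.dk`). By `hS.orbit`, `hS.conj` the set of the `θ ∈ Lin P` with `tt χ θ 1 ≠ 0` is
`{cnj g θ₀ : g ∈ N} = {cnj l θ₀ : l ∈ L}` (`n = x l`, write `g = l x'` with `x' = l⁻¹ x l`; `cnj x' θ₀ = θ₀`), and
`tt χ θ 1 = d` for these. Its number `m` is the index of `L ⊓ stab θ₀` in `L` (orbit-stabilizer for the action of `L` by `cnj`;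
`cnj_cnj`), so divides `|L|` and `p ∤ m`. So `∑ᶠ θ, tt χ θ 1 = m d` and `Cg n (m d)`; so `p ∤ n`.
-/

namespace Pool.Agent.Helper68.BR

open Pool.Agent.Helper42.INC Pool.Agent.Helper42.IR

variable {G : Type} [Group G] [Finite G] {p : ℕ} [Fact p.Prime] {P U L : Subgroup G}
  {S : Set (G → ℂ)} {κ : ℕ} {χ : G → ℂ}

theorem Summ.deg_iff (hc : ∀ a ∈ P, ∀ b ∈ P, a * b = b * a) (hS : Summ p P U L S κ)
    (hL : Cmp p P L) (hχ : χ ∈ S) {n : ℕ} (hn : χ 1 = n) :
    ¬ p ∣ n ↔ ∃ θ ∈ Lin P, tt P U χ θ 1 ≠ 0 := by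
  classical
  have hfin : Finite (Lin P) := (lin_finite (P := P)).to_subtype
  have : Fintype (Lin P) := Fintype.ofFinite (Lin P)
  have hp : p.Prime := Fact.out
  have hsum := hS.sum χ hχ
  rw [hn, finsum_eq_sum_of_fintype] at hsum
  constructor
  · intro hpn
    by_contra hne
    push Not at hne
    refine hpn ?_
    have h0 : ∑ θ : Lin P, tt P U χ θ.1 1 = 0 := Finset.sum_eq_zero fun θ _ => hne θ.1 θ.2
    rw [h0] at hsum
    have h1 : (n : kk p) = 0 := (Red.nat n).unique (Red.zero.of_cg hsum)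
    exact (CharP.cast_eq_zero_iff (kk p) p n).1 h1
  · rintro ⟨θ₀, hθ₀, hne⟩
    obtain ⟨d, hd, hpd⟩ := Summ.dk hS hL hχ hθ₀ hne
    let act : MulAction L (G → ℂ) :=
      { smul := fun l f => cnj (l : G) f
        one_smul := fun f => cnj_one f
        mul_smul := fun a b f => (cnj_cnj (a : G) (b : G) f).symm }
    have hval : ∀ l ∈ Nm P, tt P U χ (cnj l θ₀) 1 = d := fun l hl => by
      rw [(hS.conj χ hχ θ₀ hθ₀ l hl).1, hd]
    have horb : ∀ θ : G → ℂ, (θ ∈ Lin P ∧ tt P U χ θ 1 ≠ 0) ↔ θ ∈ MulAction.orbit L θ₀ := by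
      intro θ
      constructor
      · rintro ⟨hθ, hθne⟩
        obtain ⟨g, hg, hgθ⟩ := hS.orbit χ hχ θ₀ hθ₀ θ hθ hne hθne
        obtain ⟨l, hl, x, hx, rfl⟩ := hL.sup g hg
        have h1 : cnj l θ₀ ∈ Lin P := lin_cnj hθ₀ (hL.le hl)
        have h2 : cnj x (cnj l θ₀) = cnj l θ₀ := (P_le_NT hc h1 hx).2
        rw [← cnj_cnj, h2] at hgθ
        exact ⟨⟨l, hl⟩, hgθ⟩
      · rintro ⟨l, rfl⟩
        refine ⟨lin_cnj hθ₀ (hL.le l.2), ?_⟩
        have h1 := hval l (hL.le l.2)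
        have h2 : tt P U χ ((fun m : L => m • θ₀) l) 1 = d := h1
        rw [h2, ← hd]
        exact hne
    have hm : Nat.card (MulAction.orbit L θ₀) ∣ Nat.card L := by
      rw [Nat.card_congr (MulAction.orbitEquivQuotientStabilizer L θ₀)]
      exact Subgroup.card_quotient_dvd_card _
    have hpm : ¬ p ∣ Nat.card (MulAction.orbit L θ₀) := fun h => hL.card (h.trans hm)
    have hval' : ∀ θ : Lin P, tt P U χ θ.1 1 = if tt P U χ θ.1 1 ≠ 0 then (d : ℂ) else 0 := by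
      intro θ
      by_cases h : tt P U χ θ.1 1 ≠ 0
      · rw [if_pos h]
        obtain ⟨l, hl⟩ := (horb θ.1).1 ⟨θ.2, h⟩
        have h1 : cnj (l : G) θ₀ = θ.1 := hl
        rw [← h1]
        exact hval l (hL.le l.2)
      · rw [if_neg h]
        exact not_not.1 h
    have hcard : (Finset.univ.filter fun θ : Lin P => tt P U χ θ.1 1 ≠ 0).card =
        Nat.card (MulAction.orbit L θ₀) := by
      rw [← Fintype.card_subtype, ← Nat.card_eq_fintype_card]
      refine Nat.card_congr ((Equiv.subtypeSubtypeEquivSubtypeInter (fun θ => θ ∈ Lin P)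
        (fun θ => tt P U χ θ 1 ≠ 0)).trans (Equiv.subtypeEquivRight horb))
    have hs : ∑ θ : Lin P, tt P U χ θ.1 1 =
        ((Nat.card (MulAction.orbit L θ₀) * d : ℕ) : ℂ) := by
      rw [Finset.sum_congr rfl fun θ _ => hval' θ, ← Finset.sum_filter, Finset.sum_const, hcard,
        nsmul_eq_mul]
      push_cast
      rfl
    rw [hs] at hsum
    have h1 : (n : kk p) = ((Nat.card (MulAction.orbit L θ₀) * d : ℕ) : kk p) :=
      (Red.nat n).unique ((Red.nat _).of_cg hsum)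
    intro hpn
    rw [(CharP.cast_eq_zero_iff (kk p) p n).2 hpn, eq_comm, CharP.cast_eq_zero_iff (kk p) p] at h1
    exact (hp.dvd_mul.1 h1).elim hpm hpd

end Pool.Agent.Helper68.BR
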