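import Pool.Agent.Helper68.BR.Inj

/-!
# BR-A21: extension of the matching from one `θ` to all

Let `θ' ∈ Lin P`. Case 1: `tt χ θ' 1 ≠ 0`. By `hS.orbit` `θ' = cnj g θ`, `g ∈ N`. For `n ∈ NT P θ'` put `n₀ = g⁻¹ n g ∈ NT P θ`
and `n₀ = x l` (`Cmp.sup`, `l ∈ L`, `x ∈ P`); `cnj x θ = θ` (`P_le_NT`), so `cnj l θ = θ`. By `tt_shift`
`tt χ θ n₀ = θ x * tt χ θ l`, the same for `ψ`, and `θ x ∈ OO p` (`lin_red`), so `Cg (tt χ θ n₀) (tt ψ θ n₀)`. By `hS.conj` and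
`hS'.conj` `Cg (tt χ θ' n) (tt χ θ n₀)` and the same for `ψ` (`n = g n₀ g⁻¹`); `Cg.trans`. The values at `1`: `hS.conj`,
`hS'.conj`, `h1`. Case 2: `tt χ θ' 1 = 0`. Then `tt ψ θ' 1 = 0` as well: otherwise `hS'.orbit` (`tt ψ θ 1 ≠ 0` by `h1`) gives
`θ' = cnj g θ`, and `hS.conj` gives `tt χ θ' 1 = tt χ θ 1 ≠ 0`. So all values are `0` (`Summ.zero`).
-/

namespace Pool.Agent.Helper68.BR

open Pool.Agent.Helper42.INC Pool.Agent.Helper42.IR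

variable {G : Type} [Group G] [Finite G] {p : ℕ} [Fact p.Prime] {P U U' L : Subgroup G}
  {S S' : Set (G → ℂ)} {κ κ' : ℕ} {χ ψ θ : G → ℂ}

private theorem rel_of_cgmul {a b c : ℂ} (hc : Red p c 1) (h : Cg p a b) :
    Cg p (c * a) (c * b) := by
  obtain ⟨z, rfl, -⟩ := hc
  obtain ⟨m, hm, h⟩ := h
  exact ⟨z * m, Ideal.mul_mem_left _ _ hm, by rw [← mul_sub, h]; push_cast; rfl⟩

theorem rel_of (hP : IsPGroup p P) (hc : ∀ a ∈ P, ∀ b ∈ P, a * b = b * a)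
    (hS : Summ p P U L S κ) (hS' : Summ p P U' L S' κ') (hL : Cmp p P L)
    (hχ : χ ∈ S) (hψ : ψ ∈ S') (hθ : θ ∈ Lin P) (hne : tt P U χ θ 1 ≠ 0)
    (h1 : tt P U' ψ θ 1 = tt P U χ θ 1)
    (h : ∀ l ∈ L, cnj l θ = θ → Cg p (tt P U χ θ l) (tt P U' ψ θ l)) {θ' : G → ℂ}
    (hθ' : θ' ∈ Lin P) :
    tt P U χ θ' 1 = tt P U' ψ θ' 1 ∧
      ∀ n ∈ NT P θ', Cg p (tt P U χ θ' n) (tt P U' ψ θ' n) := by
  by_cases hz : tt P U χ θ' 1 = 0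
  · have hz' : tt P U' ψ θ' 1 = 0 := by
      by_contra hne'
      obtain ⟨g, hg, hgθ⟩ := hS'.orbit ψ hψ θ hθ θ' hθ' (by rw [h1]; exact hne) hne'
      have h2 := (hS.conj χ hχ θ hθ g hg).1
      rw [hgθ, hz] at h2
      exact hne h2.symm
    refine ⟨by rw [hz, hz'], fun n _ => ?_⟩
    rw [hS.zero χ hχ θ' hθ' hz n, hS'.zero ψ hψ θ' hθ' hz' n]
    exact Cg.refl 0
  · obtain ⟨g, hg, rfl⟩ := hS.orbit χ hχ θ hθ θ' hθ' hne hz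
    obtain ⟨e1, c1⟩ := hS.conj χ hχ θ hθ g hg
    obtain ⟨e2, c2⟩ := hS'.conj ψ hψ θ hθ g hg
    refine ⟨by rw [e1, e2, h1], fun n hn => ?_⟩
    have hn0 : g⁻¹ * n * g ∈ NT P θ := by
      refine ⟨(Nm P).mul_mem ((Nm P).mul_mem ((Nm P).inv_mem hg) hn.1) hg, ?_⟩
      show cnj (g⁻¹ * n * g) θ = θ
      have h3 : cnj n (cnj g θ) = cnj g θ := hn.2
      rw [← cnj_cnj, ← cnj_cnj, h3, cnj_inv_cnj]
    have en : n = g * (g⁻¹ * n * g) * g⁻¹ := by group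
    have key : Cg p (tt P U χ θ (g⁻¹ * n * g)) (tt P U' ψ θ (g⁻¹ * n * g)) := by
      obtain ⟨l, hl, x, hx, e⟩ := hL.sup _ hn0.1
      rw [e, tt_shift χ hθ hx, tt_shift ψ hθ hx]
      refine rel_of_cgmul (lin_red hP hθ hx) (h l hl ?_)
      have h4 : cnj (x * l) θ = θ := by rw [← e]; exact hn0.2
      have h5 : cnj x θ = θ := (P_le_NT hc hθ hx).2
      have h6 : cnj x⁻¹ θ = θ := by
        have h7 := cnj_inv_cnj x θ
        rwa [h5] at h7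
      rw [← cnj_cnj] at h4
      rw [← cnj_inv_cnj x (cnj l θ), h4, h6]
    have k1 := c1 _ hn0
    have k2 := c2 _ hn0
    rw [← en] at k1 k2
    exact (k1.trans key).trans k2.symm

end Pool.Agent.Helper68.BR
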