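import Pool.Agent.Helper68.BR.Trans
import Pool.Agent.Helper68.BR.RelOf
import Pool.Agent.Helper68.BR.DegS

/-!
# BR-A23: the correspondence

`L` from `exists_cmp`, `κ` from `exists_kappa`; `hS : Summ p P U L (Irr G) κ` (`summ_top`) and
`hS' : Summ p P ⊥ L (IrrS (Nm P)) κ'` (`summ_nm`).
* For `ψ ∈ IrrS (Nm P)`: `∑ᶠ θ, tt P ⊥ ψ θ 1 = ψ 1` (exactly: `tt P ⊥ ψ θ 1 = |P|⁻¹ ∑ θ(x⁻¹) ψ x`, `lin_sum`, `lin_card`; or `tt_sum`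
  with `Bru` of `N`; I suggest the direct computation), `ψ 1 ≠ 0`, so some `tt P ⊥ ψ θ 1 ≠ 0`: `exists_theta`. By
  `Summ.deg_iff` `p ∤ deg ψ` (`pdeg`).
* For `χ ∈ PI p G` some `tt P U χ θ 1 ≠ 0` (`Summ.deg_iff`); `Summ.exists_at` gives `ψ`, `rel_of` gives `Rel` and `dim`. Put `F χ = ψ`.
* `uniq`: if `Rel p P U χ ψ'` then `Cg (tt P ⊥ (F χ) θ l) (tt P ⊥ ψ' θ l)` for `l ∈ L`, `cnj l θ = θ` (`l ∈ NT P θ`), and
  `tt P ⊥ (F χ) θ 1 = tt P U χ θ 1 ≠ 0` for some `θ`: `Summ.inj` for `hS'`.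
* injectivity of `F`: `F χ = F χ'` gives `Cg (tt χ θ l) (tt χ' θ l)`: `Summ.inj` for `hS`.
* surjectivity: `ψ ∈ IrrS (Nm P)`, `θ` with `tt P ⊥ ψ θ 1 ≠ 0`; `Summ.exists_at` from `hS'` to `hS` gives `χ ∈ Irr G` with
  `tt P U χ θ 1 ≠ 0`, so `χ ∈ PI p G` (`Summ.deg_iff`); `rel_of` (roles exchanged, `Cg.symm`) gives `Rel p P U χ ψ`; so `F χ = ψ` by
  `uniq`.
* `cg`: `Cg (χ 1) (∑ᶠ θ, tt P U χ θ 1)` (`hS.sum`), `= ∑ᶠ θ, tt P ⊥ (F χ) θ 1 = F χ 1`.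
-/

namespace Pool.Agent.Helper68.BR

open Pool.Agent.Helper42.INC Pool.Agent.Helper42.IR

variable {G : Type} [Group G] [Finite G] {p : ℕ} [Fact p.Prime] {P U L : Subgroup G}

theorem tt_bot_sum (hc : ∀ a ∈ P, ∀ b ∈ P, a * b = b * a) (f : G → ℂ) :
    ∑ᶠ θ : Lin P, tt P ⊥ f θ.1 1 = f 1 := by
  classical
  have : Fintype P := Fintype.ofFinite P
  have : Finite (Lin P) := (lin_finite (P := P)).to_subtype
  have : Fintype (Lin P) := Fintype.ofFinite (Lin P)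
  have hb : ∀ (θ : G → ℂ), tt P ⊥ f θ 1 =
      ((Nat.card P : ℂ))⁻¹ * ∑ x : P, θ ((x : G)⁻¹) * f (x : G) := by
    intro θ
    unfold tt
    rw [Subgroup.card_bot, Nat.cast_one, mul_one, finsum_eq_sum_of_fintype]
    congr 1
    refine Finset.sum_congr rfl fun x _ => ?_
    rw [finsum_eq_single _ (1 : (⊥ : Subgroup G)) (fun u hu => absurd (Subsingleton.elim u 1) hu)]
    simp
  have hb' : ∀ θ : Lin P, tt P ⊥ f θ.1 1 =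
      ((Nat.card P : ℂ))⁻¹ * ∑ x : P, θ.1 ((x : G)⁻¹) * f (x : G) := fun θ => hb θ.1
  rw [finsum_eq_sum_of_fintype, Finset.sum_congr rfl fun θ _ => hb' θ, ← Finset.mul_sum,
    Finset.sum_comm]
  have h1 : ∀ x : P, ∑ θ : Lin P, θ.1 ((x : G)⁻¹) * f (x : G) =
      if x = 1 then (Nat.card P : ℂ) * f 1 else 0 := by
    intro x
    rw [← Finset.sum_mul]
    split_ifs with hx
    · subst hx
      have h3 : ∀ θ : Lin P, θ.1 (((1 : P) : G)⁻¹) = 1 := fun θ => by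
        rw [Subgroup.coe_one, inv_one]
        exact θ.2.1
      rw [Finset.sum_congr rfl fun θ _ => h3 θ]
      simp only [Finset.sum_const, Finset.card_univ, nsmul_eq_mul, mul_one, Subgroup.coe_one]
      rw [← Nat.card_eq_fintype_card, lin_card hc]
    · have h3 := lin_sum (P := P) hc x.2 (fun h => hx (Subtype.ext h))
      rw [finsum_eq_sum_of_fintype] at h3
      rw [h3, zero_mul]
  rw [Finset.sum_congr rfl fun x _ => h1 x, Finset.sum_ite_eq' Finset.univ (1 : P),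
    if_pos (Finset.mem_univ _)]
  have h4 : (Nat.card P : ℂ) ≠ 0 := by
    have : 0 < Nat.card P := Nat.card_pos
    exact_mod_cast this.ne'
  field_simp

theorem exists_theta (hB : Bru p P U) {ψ : G → ℂ} (hψ : ψ ∈ IrrS (Nm P)) :
    ∃ θ ∈ Lin P, tt P ⊥ ψ θ 1 ≠ 0 := by
  by_contra hcon
  push Not at hcon
  obtain ⟨n, hn, h1⟩ := irr_one hψ.1
  have h2 : ψ 1 = n := h1
  have h3 := tt_bot_sum hB.comm ψ
  rw [finsum_eq_zero_of_forall_eq_zero (fun θ : Lin P => hcon θ.1 θ.2), h2] at h3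
  exact hn.ne' (by exact_mod_cast h3.symm)

theorem exists_corF (hB : Bru p P U) : ∃ F, CorF p P U F := by
  classical
  obtain ⟨L, hL⟩ := exists_cmp hB
  obtain ⟨κ, hκ, hG⟩ := exists_kappa hB
  have hS := summ_top hB hL hκ hG
  obtain ⟨κ', hS'⟩ := summ_nm hB hL
  have hdG : ∀ χ ∈ Irr G, ¬ p ∣ deg χ ↔ ∃ θ ∈ Lin P, tt P U χ θ 1 ≠ 0 := fun χ hχ =>
    hS.deg_iff hB.comm hL hχ (deg_cast hχ).symm
  have hdN : ∀ ψ ∈ IrrS (Nm P), ¬ p ∣ deg ψ ↔ ∃ θ ∈ Lin P, tt P ⊥ ψ θ 1 ≠ 0 := by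
    intro ψ hψ
    obtain ⟨n, hn⟩ := hS'.nat ψ hψ
    rw [deg_eq hn]
    exact hS'.deg_iff hB.comm hL hψ hn
  have key : ∀ χ ∈ PI p G, ∃ ψ ∈ IrrS (Nm P), Rel p P U χ ψ ∧
      ∀ θ ∈ Lin P, tt P U χ θ 1 = tt P ⊥ ψ θ 1 := by
    intro χ hχ
    obtain ⟨θ, hθ, hne⟩ := (hdG χ hχ.1).1 hχ.2
    obtain ⟨ψ, hψ, h1, h2⟩ := hS.exists_at hS' hL hχ.1 hθ hne
    exact ⟨ψ, hψ, fun θ' hθ' => (rel_of hB.pgroup hB.comm hS hS' hL hχ.1 hψ hθ hne h1 h2 hθ').2,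
      fun θ' hθ' => (rel_of hB.pgroup hB.comm hS hS' hL hχ.1 hψ hθ hne h1 h2 hθ').1⟩
  choose! F hF1 hF2 hF3 using key
  have huniq : ∀ χ ∈ PI p G, ∀ ψ ∈ IrrS (Nm P), Rel p P U χ ψ → ψ = F χ := by
    intro χ hχ ψ hψ hr
    obtain ⟨θ, hθ, hne⟩ := (hdG χ hχ.1).1 hχ.2
    refine (hS'.inj hL (hF1 χ hχ) hψ hθ (by rwa [← hF3 χ hχ θ hθ]) fun l hl hc => ?_).symm
    have hNT : l ∈ NT P θ := ⟨hL.le hl, hc⟩
    exact (hF2 χ hχ θ hθ l hNT).symm.trans (hr θ hθ l hNT)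
  refine ⟨F, ⟨⟨fun χ hχ => hF1 χ hχ, ?_, ?_⟩, hF2, huniq, hF3, ?_, ?_⟩⟩
  · intro χ hχ χ' hχ' he
    obtain ⟨θ, hθ, hne⟩ := (hdG χ hχ.1).1 hχ.2
    refine hS.inj hL hχ.1 hχ'.1 hθ hne fun l hl hc => ?_
    have hNT : l ∈ NT P θ := ⟨hL.le hl, hc⟩
    have h1 := hF2 χ' hχ' θ hθ l hNT
    rw [← he] at h1
    exact (hF2 χ hχ θ hθ l hNT).trans h1.symm
  · intro ψ hψ
    obtain ⟨θ, hθ, hne⟩ := exists_theta hB hψ
    obtain ⟨χ, hχ, h1, h2⟩ := hS'.exists_at hS hL hψ hθ hne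
    have hPI : χ ∈ PI p G := ⟨hχ, (hdG χ hχ).2 ⟨θ, hθ, by rwa [h1]⟩⟩
    refine ⟨χ, hPI, (huniq χ hPI ψ hψ fun θ' hθ' n hn => ?_).symm⟩
    exact ((rel_of hB.pgroup hB.comm hS' hS hL hψ hχ hθ hne h1 h2 hθ').2 n hn).symm
  · intro χ hχ
    have h1 := hS.sum χ hχ.1
    rw [finsum_congr (fun θ : Lin P => hF3 χ hχ θ.1 θ.2), tt_bot_sum hB.comm] at h1
    exact h1
  · intro ψ hψ
    exact (hdN ψ hψ).2 (exists_theta hB hψ)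

end Pool.Agent.Helper68.BR
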