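import Pool.Agent.Helper68.BR.Grp

/-!
# BR-A03: sums over `G` of functions invariant under `U P` on both sides

`H = {u x : u ∈ U, x ∈ P}` is a subgroup of order `|U| |P|` (`inf_PU`). `Ψ` is constant on the cosets `g H`, so
it induces `f : G ⧸ H → V` and `∑ Ψ = |H| ∑ f`. `P` acts on `G ⧸ H` by left multiplication and `f` is
invariant (`hl`). Fixed points: if `x g H = g H` for all `x ∈ P` then `g⁻¹ P g ≤ H`; `P` and `g⁻¹ P g` are
Sylow `p`-subgroups of `H` (`|H| = |U| |P|`, `not_dvd_card_U`), so `g⁻¹ P g = h P h⁻¹` with `h ∈ H`; so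
`g h ∈ N`, `g h = x l = l (l⁻¹ x l)` (`Cmp.sup`, `l ≤ N`) and `g H = l H`. Conversely `l H` is fixed. The
map `l ↦ l H` is injective on `L`: `l' = l h`, `h = u x ∈ N` gives `u = 1` (`inf_NUP`), so
`l⁻¹ l' ∈ P ∩ L = 1`. So `sum_fixed` (with `Q = P`, `F` = the image of `L`) gives the claim.
-/

namespace Pool.Agent.Helper68.BR

open Pool.Agent.Helper42.INC Pool.Agent.Helper42.IR

variable {G : Type} [Group G] [Finite G] {p : ℕ} [Fact p.Prime] {P U L : Subgroup G}

/-- the subgroup `U P` -/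
private def upG (hB : Bru p P U) : Subgroup G where
  carrier := {g | ∃ u ∈ U, ∃ x ∈ P, g = u * x}
  one_mem' := ⟨1, U.one_mem, 1, P.one_mem, (mul_one 1).symm⟩
  mul_mem' := by
    rintro a b ⟨u, hu, x, hx, rfl⟩ ⟨v, hv, y, hy, rfl⟩
    refine ⟨u * (x * v * x⁻¹), U.mul_mem hu (hB.norm x hx v hv), x * y, P.mul_mem hx hy, ?_⟩
    group
  inv_mem' := by
    rintro a ⟨u, hu, x, hx, rfl⟩
    refine ⟨x⁻¹ * u⁻¹ * x, ?_, x⁻¹, P.inv_mem hx, ?_⟩
    · have := hB.norm x⁻¹ (P.inv_mem hx) u⁻¹ (U.inv_mem hu)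
      rwa [inv_inv] at this
    · group

private theorem mem_upG (hB : Bru p P U) {g : G} :
    g ∈ upG hB ↔ ∃ u ∈ U, ∃ x ∈ P, g = u * x := Iff.rfl

private theorem le_upG (hB : Bru p P U) : P ≤ upG hB := fun x hx =>
  (mem_upG hB).2 ⟨1, U.one_mem, x, hx, (one_mul x).symm⟩

private theorem card_upG (hB : Bru p P U) : Nat.card (upG hB) = Nat.card P * Nat.card U := by
  rw [mul_comm, ← Nat.card_prod]
  symm
  refine Nat.card_congr (Equiv.ofBijective
    (fun q : U × P => (⟨(q.1 : G) * (q.2 : G), (mem_upG hB).2 ⟨q.1, q.1.2, q.2, q.2.2, rfl⟩⟩ : upG hB))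
    ⟨?_, ?_⟩)
  · rintro ⟨u, x⟩ ⟨v, y⟩ h
    have h : (u : G) * (x : G) = (v : G) * (y : G) := congrArg Subtype.val h
    have h1 : (v : G)⁻¹ * (u : G) = (y : G) * (x : G)⁻¹ := by
      rw [inv_mul_eq_iff_eq_mul, ← mul_assoc, ← h]
      group
    have h2 : (v : G)⁻¹ * (u : G) = 1 :=
      inf_PU hB (h1 ▸ P.mul_mem y.2 (P.inv_mem x.2)) (U.mul_mem (U.inv_mem v.2) u.2)
    have h3 : (u : G) = v := (inv_mul_eq_one.1 h2).symm
    have h4 : (x : G) = y := by
      rw [h3] at h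
      exact mul_left_cancel h
    exact Prod.ext (Subtype.ext h3) (Subtype.ext h4)
  · rintro ⟨g, hg⟩
    obtain ⟨u, hu, x, hx, rfl⟩ := (mem_upG hB).1 hg
    exact ⟨(⟨u, hu⟩, ⟨x, hx⟩), rfl⟩

open scoped Pointwise in
/-- a fixed coset contains an element of the normalizer -/
private theorem fixed_norm (hB : Bru p P U) {g : G} (h : ∀ x ∈ P, g⁻¹ * x * g ∈ upG hB) :
    ∃ k ∈ upG hB, g * k ∈ Nm P := by
  set H := upG hB with hH
  let P2 : Subgroup G := P.map (MulAut.conj g⁻¹ : G ≃* G).toMonoidHom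
  have hmem2 : ∀ y : G, y ∈ P2 ↔ g * y * g⁻¹ ∈ P := by
    intro y
    constructor
    · rintro ⟨x, hx, rfl⟩
      have : g * ((MulAut.conj g⁻¹ : G ≃* G).toMonoidHom x) * g⁻¹ = x := by
        simp only [MulEquiv.toMonoidHom_eq_coe, MonoidHom.coe_coe, MulAut.conj_apply]
        group
      rw [this]
      exact hx
    · intro hy
      refine ⟨g * y * g⁻¹, hy, ?_⟩
      simp only [MulEquiv.toMonoidHom_eq_coe, MonoidHom.coe_coe, MulAut.conj_apply]
      group
  have hP2H : P2 ≤ H := by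
    rintro _ ⟨x, hx, rfl⟩
    have h1 := h x hx
    simpa only [MulEquiv.toMonoidHom_eq_coe, MonoidHom.coe_coe, MulAut.conj_apply, inv_inv] using h1
  have hi1 : ¬ p ∣ (P.subgroupOf H).index := fun hd => hB.index (by
    rw [← Subgroup.relIndex_mul_index (le_upG hB)]
    exact Dvd.dvd.mul_right hd _)
  have hi2 : ¬ p ∣ (P2.subgroupOf H).index := fun hd => hB.index (by
    have e : P2.index = P.index := Subgroup.index_map_equiv P (MulAut.conj g⁻¹ : G ≃* G)
    rw [← e, ← Subgroup.relIndex_mul_index hP2H]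
    exact Dvd.dvd.mul_right hd _)
  have hp1 : IsPGroup p (P.subgroupOf H) := hB.pgroup.comap_subtype
  have hp2 : IsPGroup p (P2.subgroupOf H) := (hB.pgroup.map _).comap_subtype
  obtain ⟨k, hk⟩ := MulAction.exists_smul_eq H (hp1.toSylow hi1) (hp2.toSylow hi2)
  have hk' : MulAut.conj k • (P.subgroupOf H) = P2.subgroupOf H := by
    have := congrArg (fun S : Sylow p H => (S : Subgroup H)) hk
    exact this
  have key : ∀ x : H, x ∈ P.subgroupOf H ↔ k * x * k⁻¹ ∈ P2.subgroupOf H := by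
    intro x
    rw [← hk', ← Subgroup.smul_mem_pointwise_smul_iff (a := MulAut.conj k)]
    rfl
  refine ⟨k, k.2, ?_⟩
  rw [Subgroup.mem_normalizer_iff]
  intro x
  constructor
  · intro hx
    have h1 := (key ⟨x, le_upG hB hx⟩).1 (Subgroup.mem_subgroupOf.2 hx)
    have h2 := (hmem2 _).1 (Subgroup.mem_subgroupOf.1 h1)
    have e : g * ((k * ⟨x, le_upG hB hx⟩ * k⁻¹ : H) : G) * g⁻¹ = g * k * x * (g * k)⁻¹ := by
      push_cast
      group
    rwa [e] at h2
  · intro hx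
    have h2 : (k : G) * x * (k : G)⁻¹ ∈ P2 := by
      rw [hmem2]
      have e : g * ((k : G) * x * (k : G)⁻¹) * g⁻¹ = g * k * x * (g * k)⁻¹ := by group
      rwa [e]
    have h3 : x ∈ H := by
      have h4 := H.mul_mem (H.mul_mem (H.inv_mem k.2) (hP2H h2)) k.2
      have e : (k : G)⁻¹ * ((k : G) * x * (k : G)⁻¹) * (k : G) = x := by group
      rwa [e] at h4
    exact Subgroup.mem_subgroupOf.1 ((key ⟨x, h3⟩).2 (Subgroup.mem_subgroupOf.2 h2))

theorem coset_sum (hB : Bru p P U) (hL : Cmp p P L) {V : Type} [AddCommGroup V] (Ψ : G → V)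
    (hl : ∀ u ∈ U, ∀ x ∈ P, ∀ g, Ψ (u * x * g) = Ψ g)
    (hr : ∀ u ∈ U, ∀ x ∈ P, ∀ g, Ψ (g * (u * x)) = Ψ g) :
    ∃ a : V, ∑ᶠ g, Ψ g = (Nat.card P * Nat.card U) • ((∑ᶠ l : L, Ψ l) + p • a) := by
  classical
  have : Fintype G := Fintype.ofFinite G
  have hmk : ∀ g : G, Ψ ((QuotientGroup.mk g : G ⧸ upG hB).out) = Ψ g := by
    intro g
    obtain ⟨k, hk⟩ := QuotientGroup.mk_out_eq_mul (upG hB) g
    rw [hk]
    obtain ⟨u, hu, x, hx, e⟩ := (mem_upG hB).1 k.2
    rw [e]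
    exact hr u hu x hx g
  -- the sum over the cosets
  have hsum : ∑ g, Ψ g = (Nat.card P * Nat.card U) • ∑ q : G ⧸ upG hB, Ψ q.out := by
    have e : Function.Bijective
        (fun z : (G ⧸ upG hB) × upG hB => z.1.out * (z.2 : G)) := by
      constructor
      · rintro ⟨q, k⟩ ⟨q', k'⟩ h
        have h : q.out * (k : G) = q'.out * (k' : G) := h
        have h1 : q = q' := by
          have h2 : (QuotientGroup.mk (q.out * (k : G)) : G ⧸ upG hB) =
              QuotientGroup.mk (q'.out * (k' : G)) := by rw [h]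
          rw [QuotientGroup.mk_mul_of_mem _ k.2, QuotientGroup.mk_mul_of_mem _ k'.2] at h2
          simpa using h2
        subst h1
        exact Prod.ext rfl (Subtype.ext (mul_left_cancel h))
      · intro g
        have h1 : (QuotientGroup.mk g : G ⧸ upG hB).out⁻¹ * g ∈ upG hB := by
          rw [← QuotientGroup.eq]
          simp
        exact ⟨((QuotientGroup.mk g : G ⧸ upG hB), ⟨_, h1⟩), by simp⟩
    rw [← e.sum_comp Ψ, Fintype.sum_prod_type, Finset.smul_sum]
    refine Finset.sum_congr rfl fun q _ => ?_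
    rw [Finset.sum_congr rfl (g := fun _ => Ψ q.out), Finset.sum_const, Finset.card_univ,
      ← Nat.card_eq_fintype_card, card_upG hB]
    rintro k _
    obtain ⟨u, hu, x, hx, e⟩ := (mem_upG hB).1 k.2
    rw [e]
    exact hr u hu x hx _
  -- the action of `P`
  have hact : ∀ (x : P) (g : G), x • (QuotientGroup.mk g : G ⧸ upG hB) =
      QuotientGroup.mk ((x : G) * g) := fun x g => rfl
  have hinv : ∀ (x : P) (q : G ⧸ upG hB), Ψ (x • q).out = Ψ q.out := by
    intro x q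
    obtain ⟨g, rfl⟩ := QuotientGroup.mk_surjective q
    rw [hact, hmk, hmk]
    have := hl 1 U.one_mem x x.2 g
    rwa [one_mul] at this
  have hinj : Function.Injective (fun l : L => (QuotientGroup.mk (l : G) : G ⧸ upG hB)) := by
    intro l l' h
    have h1 : (l : G)⁻¹ * (l' : G) ∈ upG hB := QuotientGroup.eq.1 h
    obtain ⟨u, hu, x, hx, e⟩ := (mem_upG hB).1 h1
    have hLl : (l : G)⁻¹ * (l' : G) ∈ L := L.mul_mem (L.inv_mem l.2) l'.2
    have h2 : u = 1 := inf_NUP hB hu hx (e ▸ hL.le hLl)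
    rw [h2, one_mul] at e
    have h3 : (l : G)⁻¹ * (l' : G) = 1 := hL.inf _ hLl (e ▸ hx)
    exact Subtype.ext (inv_mul_eq_one.1 h3)
  have hF : ∀ q : G ⧸ upG hB,
      q ∈ Finset.univ.image (fun l : L => (QuotientGroup.mk (l : G) : G ⧸ upG hB)) ↔
        ∀ x : P, x • q = q := by
    intro q
    constructor
    · intro hq x
      obtain ⟨l, -, rfl⟩ := Finset.mem_image.1 hq
      rw [hact, eq_comm, QuotientGroup.eq]
      refine le_upG hB ?_
      have h1 := (Subgroup.mem_normalizer_iff.1 ((Nm P).inv_mem (hL.le l.2)) (x : G)).1 x.2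
      rw [inv_inv] at h1
      rwa [← mul_assoc]
    · intro hq
      obtain ⟨g, rfl⟩ := QuotientGroup.mk_surjective q
      have h1 : ∀ x ∈ P, g⁻¹ * x * g ∈ upG hB := by
        intro x hx
        have h2 := hq ⟨x, hx⟩
        rw [hact, eq_comm, QuotientGroup.eq] at h2
        rwa [mul_assoc]
      obtain ⟨k, hk, hgk⟩ := fixed_norm hB h1
      obtain ⟨l, hl', x, hx, e⟩ := hL.sup _ hgk
      refine Finset.mem_image.2 ⟨⟨l, hl'⟩, Finset.mem_univ _, ?_⟩
      rw [QuotientGroup.eq]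
      have h3 : l⁻¹ * x * l ∈ P := by
        have h1 := (Subgroup.mem_normalizer_iff.1 ((Nm P).inv_mem (hL.le hl')) x).1 hx
        rwa [inv_inv] at h1
      have h4 : (l : G)⁻¹ * g = (l⁻¹ * x * l) * k⁻¹ := by
        have : g = x * l * k⁻¹ := by rw [← e]; group
        rw [this]; group
      change l⁻¹ * g ∈ upG hB
      rw [h4]
      exact (upG hB).mul_mem (le_upG hB h3) ((upG hB).inv_mem hk)
  obtain ⟨a, ha⟩ := sum_fixed hB.pgroup (fun q : G ⧸ upG hB => Ψ q.out) hinv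
    (Finset.univ.image (fun l : L => (QuotientGroup.mk (l : G) : G ⧸ upG hB))) hF
  refine ⟨a, ?_⟩
  rw [finsum_eq_sum_of_fintype, finsum_eq_sum_of_fintype, hsum, ha,
    Finset.sum_image (fun l _ l' _ h => hinj h)]
  congr 2
  exact Finset.sum_congr rfl fun l _ => hmk l

end Pool.Agent.Helper68.BR
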