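import Pool.Agent.Helper68.BR.CardSL
import Pool.Agent.Helper68.BR.CardUT

/-!
# BR-C05: `TP` and `UT` are Sylow subgroups of `SL_n(k)`

`q = |k| ≡ 1 mod p`, `n < p`. `|SL_n| / |DG| = q ^ (n (n-1) / 2) ∏_{i ≤ n} (1 + q + ... + q ^ (i-1))` (`card_SL`, `card_DG`); the factors are
`≡ 1` and `≡ i mod p` with `1 ≤ i ≤ n < p`, so `p ∤ |SL_n : DG|`. `DG` is abelian and `TP` is the set of its elements of `p`-power order, so
`p ∤ |DG : TP|` (an element of order `p` of `DG ⧸ TP`: if `g ^ p ∈ TP` then `g ∈ TP`; Cauchy). `UT`: `|UT| = q ^ (n (n-1) / 2)`, a power of the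
characteristic `r` (`FiniteField.card` or `Nat.card k` is a prime power of `r`), and `|SL_n| / |UT| = (q - 1) ^ (n-1) ∏ (1 + ... )` with
`q ≡ 0 mod r`: the factors are `≡ ± 1 mod r`.
-/

namespace Pool.Agent.Helper68.BR

open Matrix

variable {n : ℕ} {k : Type} [Field k] [Finite k] {p : ℕ} [Fact p.Prime]

instance finite_SL_c05 : Finite (SpecialLinearGroup (Fin n) k) :=
  Finite.of_injective (fun g => g.1) Subtype.val_injective

theorem TP_pgroup : IsPGroup p (TP n k p) := by
  rintro ⟨g, hg, N, hN⟩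
  exact ⟨N, Subtype.ext (by simpa using hN)⟩

theorem DG_comm_c05 {a b : SpecialLinearGroup (Fin n) k} (ha : a ∈ DG n k) (hb : b ∈ DG n k) :
    a * b = b * a := by
  apply Subtype.ext
  change a.1 * b.1 = b.1 * a.1
  have h1 : ∀ c : SpecialLinearGroup (Fin n) k, c ∈ DG n k →
      c.1 = Matrix.diagonal (fun i => c.1 i i) := by
    intro c hc
    ext r s
    by_cases hrs : r = s
    · subst hrs; rw [Matrix.diagonal_apply_eq]
    · rw [Matrix.diagonal_apply_ne _ hrs]; exact hc r s hrs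
  rw [h1 a ha, h1 b hb, Matrix.diagonal_mul_diagonal, Matrix.diagonal_mul_diagonal]
  congr 1
  funext i
  exact mul_comm _ _

theorem DG_index_c05 (hn : 0 < n) :
    (DG n k).index = Nat.card k ^ (n * (n - 1) / 2) *
        ∏ i ∈ Finset.range n, ∑ j ∈ Finset.range (i + 1), Nat.card k ^ j := by
  have hq : 1 < Nat.card k := Finite.one_lt_card
  have h1 := (DG n k).card_mul_index
  rw [card_DG hn k, card_SL hn k, mul_assoc] at h1
  exact Nat.eq_of_mul_eq_mul_left (Nat.pow_pos (by omega)) h1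

theorem UT_index_c05 (hn : 0 < n) :
    (UT n k).index = (Nat.card k - 1) ^ (n - 1) *
        ∏ i ∈ Finset.range n, ∑ j ∈ Finset.range (i + 1), Nat.card k ^ j := by
  have hq : 1 < Nat.card k := Finite.one_lt_card
  have h1 := (UT n k).card_mul_index
  rw [card_UT n k, card_SL hn k, mul_comm ((Nat.card k - 1) ^ (n - 1)), mul_assoc] at h1
  exact Nat.eq_of_mul_eq_mul_left (Nat.pow_pos (by omega)) h1

theorem TP_index (hn : 0 < n) (hnp : n < p) (hq : p ∣ Nat.card k - 1) :
    ¬ p ∣ (TP n k p).index := by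
  have hp : p.Prime := Fact.out
  have hq1 : 1 < Nat.card k := Finite.one_lt_card
  have hle : TP n k p ≤ DG n k := fun g hg => hg.1
  have hqp : ((Nat.card k : ℕ) : ZMod p) = 1 := by
    have h2 : ((Nat.card k - 1 : ℕ) : ZMod p) = 0 := (ZMod.natCast_eq_zero_iff _ _).2 hq
    have h3 : ((Nat.card k : ℕ) : ZMod p) = ((Nat.card k - 1 : ℕ) : ZMod p) + 1 := by
      have h4 : Nat.card k = (Nat.card k - 1) + 1 := by omega
      conv_lhs => rw [h4]
      push_cast
      rfl
    rw [h3, h2, zero_add]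
  rw [← Subgroup.relIndex_mul_index hle, hp.dvd_mul, not_or]
  constructor
  · intro hdvd
    rw [Subgroup.relIndex, Subgroup.index] at hdvd
    have hnorm : ((TP n k p).subgroupOf (DG n k)).Normal := by
      constructor
      intro a ha g
      have h5 : g * a * g⁻¹ = a := by
        have h6 : g * a = a * g := Subtype.ext (DG_comm_c05 g.2 a.2)
        rw [h6, mul_assoc, mul_inv_cancel, mul_one]
      rw [h5]
      exact ha
    obtain ⟨x, hx⟩ := exists_prime_orderOf_dvd_card' p hdvd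
    obtain ⟨g, rfl⟩ := QuotientGroup.mk_surjective x
    have h7 : ((g : DG n k ⧸ (TP n k p).subgroupOf (DG n k))) ^ p = 1 :=
      orderOf_dvd_iff_pow_eq_one.1 (dvd_of_eq hx)
    have h8 : g ^ p ∈ (TP n k p).subgroupOf (DG n k) := by
      rw [← QuotientGroup.eq_one_iff]
      exact h7
    have h9 : g ∈ (TP n k p).subgroupOf (DG n k) := by
      rw [Subgroup.mem_subgroupOf] at h8 ⊢
      obtain ⟨-, N, hN⟩ := h8
      refine ⟨g.2, N + 1, ?_⟩
      rw [pow_succ', pow_mul]
      simpa using hN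
    have h10 : (g : DG n k ⧸ (TP n k p).subgroupOf (DG n k)) = 1 :=
      (QuotientGroup.eq_one_iff _).2 h9
    rw [h10, orderOf_one] at hx
    exact hp.one_lt.ne hx
  · rw [DG_index_c05 hn, hp.dvd_mul, not_or]
    constructor
    · intro h
      have h1 := hp.dvd_of_dvd_pow h
      rw [← ZMod.natCast_eq_zero_iff, hqp] at h1
      exact one_ne_zero h1
    · intro h
      obtain ⟨i, hi, hd⟩ := (Prime.dvd_finsetProd_iff hp.prime _).1 h
      rw [← ZMod.natCast_eq_zero_iff] at hd
      push_cast at hd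
      rw [hqp] at hd
      simp only [one_pow, Finset.sum_const, Finset.card_range, nsmul_eq_mul, mul_one] at hd
      rw [ZMod.natCast_eq_zero_iff] at hd
      have := Nat.le_of_dvd (Nat.succ_pos i) hd
      rw [Finset.mem_range] at hi
      omega

theorem card_pow_c05 {r : ℕ} [Fact r.Prime] [CharP k r] : ∃ m : ℕ, 0 < m ∧ Nat.card k = r ^ m := by
  have := Fintype.ofFinite k
  obtain ⟨m, -, hm⟩ := FiniteField.card k r
  exact ⟨m, m.2, by rw [Nat.card_eq_fintype_card, hm]⟩

theorem UT_pgroup {r : ℕ} [Fact r.Prime] [CharP k r] : IsPGroup r (UT n k) := by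
  obtain ⟨m, -, hm⟩ := card_pow_c05 (k := k) (r := r)
  refine IsPGroup.of_card (n := m * (n * (n - 1) / 2)) ?_
  rw [card_UT, hm, ← pow_mul]

theorem UT_index (hn : 0 < n) {r : ℕ} [Fact r.Prime] [CharP k r] : ¬ r ∣ (UT n k).index := by
  have hr : r.Prime := Fact.out
  obtain ⟨m, hm0, hm⟩ := card_pow_c05 (k := k) (r := r)
  have hq1 : 1 < Nat.card k := Finite.one_lt_card
  have hqr : ((Nat.card k : ℕ) : ZMod r) = 0 := by
    rw [ZMod.natCast_eq_zero_iff, hm]
    exact dvd_pow_self r hm0.ne'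
  rw [UT_index_c05 hn, hr.dvd_mul, not_or]
  constructor
  · intro h
    have h1 := hr.dvd_of_dvd_pow h
    have h2 : r ∣ Nat.card k := (ZMod.natCast_eq_zero_iff _ _).1 hqr
    have h3 := Nat.dvd_sub h2 h1
    have h4 : Nat.card k - (Nat.card k - 1) = 1 := by omega
    rw [h4] at h3
    exact hr.one_lt.ne' (Nat.dvd_one.1 h3)
  · intro h
    obtain ⟨i, hi, hd⟩ := (Prime.dvd_finsetProd_iff hr.prime _).1 h
    rw [← ZMod.natCast_eq_zero_iff] at hd
    push_cast at hd
    rw [hqr, Finset.sum_range_succ'] at hd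
    simp at hd

end Pool.Agent.Helper68.BR
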