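import Pool.Agent.Helper68.BR.LfB
import Pool.Agent.Helper68.BR.SylT

/-!
# BR-C11: the Sylow `p`-subgroup of `K`

`T = (TP n k p).map mk` is a `p`-subgroup of `PSL_n(k)` of index prime to `p` (`TP_pgroup`, `TP_index`; the index divides
that of `TP`), so a Sylow `p`-subgroup. Let `P₀` be a Sylow `p`-subgroup of `K`; `P₀.map f` is a Sylow `p`-subgroup (`Sylow.mapSurjective`), so
conjugate to `T`; conjugating `P₀` by a preimage gives `P` with `P.map f = T`: `down`, `up`. `comm`: for `a, b ∈ P` the element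
`a b a⁻¹ b⁻¹` is in `P` and in `f.ker` (`T` is abelian, `dg_comm`), and `|f.ker|` is prime to `p`: so it is `1`. `mon`: let `m` lift the
monomial `g`, `x ∈ P`. `f (m x m⁻¹) ∈ T` (`mon_TP`), so `m x m⁻¹ = x' c` with `x' ∈ P`, `c ∈ f.ker` central; `c` has `p`-power order (as
`m x m⁻¹` and `x'` have, and `c` is central: `(x' c) ^ N = x' ^ N c ^ N`), so `c = 1`. So `m P m⁻¹ ≤ P`, with equality as `P` is finite.
-/

namespace Pool.Agent.Helper68.BR

open Matrix

variable {n : ℕ} {k : Type} [Field k] [Finite k] {K : Type} [Group K] [Finite K] {p : ℕ}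
  [Fact p.Prime] {f : K →* ProjectiveSpecialLinearGroup (Fin n) k}

omit [Finite k] [Finite K] in
private theorem eq_one_of_ker (hz : ¬ p ∣ Nat.card f.ker) {c : K} (hc : c ∈ f.ker) {N : ℕ}
    (hN : c ^ p ^ N = 1) : c = 1 := by
  have hp : p.Prime := Fact.out
  have h1 : orderOf c ∣ p ^ N := orderOf_dvd_of_pow_eq_one hN
  have h2 : orderOf c ∣ Nat.card f.ker := by
    have h3 : orderOf (⟨c, hc⟩ : f.ker) ∣ Nat.card f.ker := orderOf_dvd_natCard _
    rwa [Subgroup.orderOf_mk] at h3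
  have h4 : Nat.Coprime (p ^ N) (Nat.card f.ker) :=
    Nat.Coprime.pow_left N ((Nat.Prime.coprime_iff_not_dvd hp).2 hz)
  have h5 : orderOf c = 1 := Nat.dvd_one.1 (h4 ▸ Nat.dvd_gcd h1 h2)
  exact orderOf_eq_one_iff.1 h5

theorem exists_P (hn : 0 < n) (hnp : n < p) (hq : p ∣ Nat.card k - 1)
    (hf : Function.Surjective f) (hc : f.ker ≤ Subgroup.center K) (hz : ¬ p ∣ Nat.card f.ker) :
    ∃ P : Subgroup K, PData p f P := by
  have hp : p.Prime := Fact.out
  have hT1 : IsPGroup p ((TP n k p).map (QuotientGroup.mk'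
      (Subgroup.center (SpecialLinearGroup (Fin n) k)))) := TP_pgroup.map _
  have hT2 : ¬ p ∣ ((TP n k p).map (QuotientGroup.mk'
      (Subgroup.center (SpecialLinearGroup (Fin n) k)))).index := by
    intro h
    exact TP_index hn hnp hq (h.trans
      ((TP n k p).index_map_dvd (QuotientGroup.mk'_surjective _)))
  obtain ⟨P, hP⟩ := Sylow.mapSurjective_surjective hf p (hT1.toSylow hT2)
  have hmap : (P : Subgroup K).map f = (TP n k p).map (QuotientGroup.mk'
      (Subgroup.center (SpecialLinearGroup (Fin n) k))) := by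
    have h := congrArg (fun Q : Sylow p (ProjectiveSpecialLinearGroup (Fin n) k) =>
      (Q : Subgroup (ProjectiveSpecialLinearGroup (Fin n) k))) hP
    exact h
  have hdown : ∀ x ∈ (P : Subgroup K), ∃ z ∈ TP n k p, Lf f x z := by
    intro x hx
    have h1 : f x ∈ (P : Subgroup K).map f := Subgroup.mem_map_of_mem f hx
    rw [hmap] at h1
    obtain ⟨z, hz1, hz2⟩ := Subgroup.mem_map.1 h1
    exact ⟨z, hz1, hz2.symm⟩
  have hup : ∀ z ∈ TP n k p, ∃ x ∈ (P : Subgroup K), Lf f x z := by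
    intro z hz1
    have h1 : QuotientGroup.mk' (Subgroup.center (SpecialLinearGroup (Fin n) k)) z ∈
        (TP n k p).map (QuotientGroup.mk' (Subgroup.center (SpecialLinearGroup (Fin n) k))) :=
      Subgroup.mem_map_of_mem _ hz1
    rw [← hmap] at h1
    obtain ⟨x, hx1, hx2⟩ := Subgroup.mem_map.1 h1
    exact ⟨x, hx1, hx2⟩
  have hpow : ∀ x ∈ (P : Subgroup K), ∃ N : ℕ, x ^ p ^ N = 1 := by
    intro x hx
    obtain ⟨N, hN⟩ := P.isPGroup' ⟨x, hx⟩
    exact ⟨N, congrArg Subtype.val hN⟩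
  refine ⟨(P : Subgroup K), ⟨P.isPGroup', P.not_dvd_index, ?_, hdown, hup, ?_⟩⟩
  · intro a ha b hb
    obtain ⟨z, hz1, hza⟩ := hdown a ha
    obtain ⟨w, hw1, hwb⟩ := hdown b hb
    have hcP : a * b * a⁻¹ * b⁻¹ ∈ (P : Subgroup K) :=
      mul_mem (mul_mem (mul_mem ha hb) (inv_mem ha)) (inv_mem hb)
    have hL : Lf f (a * b * a⁻¹ * b⁻¹) (z * w * z⁻¹ * w⁻¹) :=
      ((hza.mul hwb).mul hza.inv).mul hwb.inv
    have h1 : z * w * z⁻¹ * w⁻¹ = 1 := by
      rw [dg_comm hz1.1 hw1.1]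
      group
    rw [h1] at hL
    have hk : a * b * a⁻¹ * b⁻¹ ∈ f.ker := lf_one.1 hL
    obtain ⟨N, hN⟩ := hpow _ hcP
    have h2 := eq_one_of_ker hz hk hN
    have h3 : a * b * a⁻¹ = b := by
      have := mul_inv_eq_one.1 h2
      exact this
    exact mul_inv_eq_iff_eq_mul.1 h3
  · intro m g hg hm
    apply Subgroup.mem_normalizer_fintype
    intro x hx
    obtain ⟨z, hz1, hzx⟩ := hdown x hx
    have hL : Lf f (m * x * m⁻¹) (g * z * g⁻¹) := (hm.mul hzx).mul hm.inv
    obtain ⟨x', hx'1, hx'2⟩ := hup _ (mon_TP hg hz1)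
    obtain ⟨c, hcker, hceq⟩ := hL.ker hx'2
    have hcomm : Commute x' c := by
      have := Subgroup.mem_center_iff.1 (hc hcker) x'
      exact this
    obtain ⟨N, hN⟩ := hpow x hx
    obtain ⟨M, hM⟩ := hpow x' hx'1
    have h1 : (m * x * m⁻¹) ^ p ^ (N + M) = 1 := by
      rw [conj_pow, pow_add, pow_mul, hN, one_pow, mul_one, mul_inv_cancel]
    have h2 : x' ^ p ^ (N + M) = 1 := by
      rw [pow_add, mul_comm (p ^ N), pow_mul, hM, one_pow]
    have h3 : c ^ p ^ (N + M) = 1 := by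
      rw [hceq, hcomm.mul_pow, h2, one_mul] at h1
      exact h1
    have h4 : c = 1 := eq_one_of_ker hz hcker h3
    rw [h4, mul_one] at hceq
    rw [hceq]
    exact hx'1

end Pool.Agent.Helper68.BR
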