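import Pool.Agent.Helper68.BR.BruP
import Pool.Agent.Helper68.BR.FratG
import Pool.Agent.Helper68.BR.PSyl

/-!
# BR-C17: central extensions of `PSL_n(k)`

`f : K →* PSL_n(k)` is the composition of `K → K ⧸ Z(K)` and `e`: surjective, with kernel `Z(K)`. `5 ≤ p` as `3 ≤ n < p` and `p` is prime.
`exists_P` gives `P`, `bru_psl` gives `Bru p P (UU f P)`. `Frat`: `frat_of` with `r` the characteristic of `k`,
`W = ((UT n k).map mk).comap f`, i.e. `w ∈ W` iff `w` lifts some `g ∈ UT` (up to the center of `SL_n`). `hZ`: the kernel. `hWr`: `UT_pgroup`. `hWi`: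
`|K : W| = |PSL_n : mk UT|` divides `|SL_n : UT|` (`UT_index`; `Subgroup.index_comap_of_surjective`, `Subgroup.index_map_dvd`...).
`hPW`: `PData.down`, `dg_UT`. `hU : UU f P = ⁅W, P⁆`: `≤`: the generators of `XX` are `x v x⁻¹ v⁻¹` with `x ∈ P`, `v ∈ YY f h ≤ W` (`i < j`), the inverse of
`⁅v, x⁆`; `≥`: `w = u c` with `u ∈ UU` (`uu_up`, `Lf.ker`), `c ∈ f.ker` central; `⁅w, x⁆ = u (x u⁻¹ x⁻¹) ∈ UU` (`uu_conj`).
-/

namespace Pool.Agent.Helper68.BR

open Matrix
open scoped commutatorElement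

theorem bru_of_psl {n : ℕ} {k : Type} [Field k] [Finite k] {K : Type} [Group K] [Finite K] {p : ℕ}
    [Fact p.Prime] (hn : 3 ≤ n) (hnp : n < p) (hq : p ∣ Nat.card k - 1)
    (hz : ¬ p ∣ Nat.card (Subgroup.center K))
    (e : (K ⧸ Subgroup.center K) ≃* ProjectiveSpecialLinearGroup (Fin n) k) :
    ∃ P U : Subgroup K, Bru p P U ∧ Frat P U := by
  classical
  set f : K →* ProjectiveSpecialLinearGroup (Fin n) k :=
    e.toMonoidHom.comp (QuotientGroup.mk' (Subgroup.center K)) with hfdef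
  have hf : Function.Surjective f := e.surjective.comp (QuotientGroup.mk'_surjective _)
  have hker : f.ker = Subgroup.center K := by
    ext x
    rw [MonoidHom.mem_ker]
    change e (QuotientGroup.mk' (Subgroup.center K) x) = 1 ↔ _
    rw [map_eq_one_iff e e.injective, ← MonoidHom.mem_ker, QuotientGroup.ker_mk']
  have hp5 : 5 ≤ p := by
    have h4 : 4 ≤ p := by omega
    have hpp : p.Prime := Fact.out
    rcases Nat.lt_or_ge 4 p with h | h
    · exact h
    · have h5 : p = 4 := by omega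
      rw [h5] at hpp
      exact absurd hpp (by decide)
  obtain ⟨P, hP⟩ := exists_P (f := f) (p := p) (by omega) hnp hq hf hker.le (by rw [hker]; exact hz)
  have hB := bru_psl hn hp5 hq hf hker.le hP
  refine ⟨P, UU f P, hB, ?_⟩
  obtain ⟨r, hr⟩ := CharP.exists k
  have : Fintype k := Fintype.ofFinite k
  have : Fact r.Prime := ⟨CharP.char_is_prime k r⟩
  set W : Subgroup K := ((UT n k).map (QuotientGroup.mk'
    (Subgroup.center (SpecialLinearGroup (Fin n) k)))).comap f with hW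
  have memW : ∀ w, w ∈ W ↔ ∃ g ∈ UT n k, Lf f w g := by
    intro w
    constructor
    · rintro ⟨g, hg, h⟩
      exact ⟨g, hg, h.symm⟩
    · rintro ⟨g, hg, h⟩
      exact ⟨g, hg, h.symm⟩
  have hPW : ∀ x ∈ P, ∀ w ∈ W, x * w * x⁻¹ ∈ W := by
    intro x hx w hw
    obtain ⟨g, hg, hwg⟩ := (memW w).1 hw
    obtain ⟨z, hz1, hxz⟩ := hP.down x hx
    exact (memW _).2 ⟨z * g * z⁻¹, dg_UT hz1.1 hg, (hxz.mul hwg).mul hxz.inv⟩
  have hZ : Subgroup.center K ≤ W := by
    intro c hc
    rw [← hker] at hc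
    exact (memW c).2 ⟨1, Subgroup.one_mem _, lf_one.2 hc⟩
  refine frat_of (r := r) (W := W) hP.pgroup hP.index hZ ?_ ?_ hPW ?_
  · intro w hw
    obtain ⟨g, hg, hwg⟩ := (memW w).1 hw
    obtain ⟨N, hN⟩ := UT_pgroup (n := n) (k := k) (r := r) ⟨g, hg⟩
    have hN' : g ^ r ^ N = 1 := congrArg Subtype.val hN
    refine ⟨N, ?_⟩
    rw [← hker, MonoidHom.mem_ker, map_pow]
    have h1 : f w = QuotientGroup.mk g := hwg
    rw [h1, ← QuotientGroup.mk_pow, hN']
    rfl
  · rw [hW, Subgroup.index_comap_of_surjective _ hf]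
    intro h
    exact UT_index (n := n) (k := k) (r := r) (by omega)
      (h.trans (Subgroup.index_map_dvd _ (QuotientGroup.mk'_surjective _)))
  · refine le_antisymm ?_ ?_
    · refine (Subgroup.closure_le _).2 ?_
      rintro y ⟨i, j, h, hy⟩
      have hXX : XX f P h.ne ≤ ⁅W, P⁆ := by
        refine (Subgroup.closure_le _).2 ?_
        rintro y ⟨x, hx, v, hv, rfl⟩
        obtain ⟨s, hs⟩ := hv
        have hvW : v ∈ W := (memW v).2 ⟨tv h.ne s, Subgroup.subset_closure ⟨i, j, h, s, rfl⟩, hs⟩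
        have h1 : ⁅v, x⁆ ∈ ⁅W, P⁆ := Subgroup.commutator_mem_commutator hvW hx
        have h2 := Subgroup.inv_mem _ h1
        have h3 : (⁅v, x⁆)⁻¹ = x * v * x⁻¹ * v⁻¹ := by
          rw [commutatorElement_def]
          group
        rw [h3] at h2
        exact h2
      exact hXX hy
    · refine Subgroup.commutator_le.2 ?_
      intro w hw x hx
      obtain ⟨g, hg, hwg⟩ := (memW w).1 hw
      obtain ⟨u, hu, hug⟩ := uu_up hn hp5 hq hf hker.le hP hg
      obtain ⟨c, hc, hwc⟩ := hwg.ker hug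
      have hcc : c ∈ Subgroup.center K := hker ▸ hc
      have hcx : x * c = c * x := Subgroup.mem_center_iff.1 hcc x
      have h1 : ⁅w, x⁆ = u * (x * u⁻¹ * x⁻¹) := by
        rw [commutatorElement_def, hwc, _root_.mul_inv_rev]
        calc u * c * x * (c⁻¹ * u⁻¹) * x⁻¹ = u * (c * x) * c⁻¹ * u⁻¹ * x⁻¹ := by group
          _ = u * (x * c) * c⁻¹ * u⁻¹ * x⁻¹ := by rw [hcx]
          _ = u * (x * u⁻¹ * x⁻¹) := by group
      rw [h1]
      exact Subgroup.mul_mem _ hu (uu_conj hn hp5 hq hf hker.le hP hx (Subgroup.inv_mem _ hu))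

end Pool.Agent.Helper68.BR
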