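import Pool.Agent.Helper68.BR.CharEq
import Pool.Agent.Helper68.BR.BruCover

/-!
# BR-B04: the correspondence for the cover extends the one for `K`

`P' = P.map ι`, `U' = U.map ι`, `N' = Nm P'`; `Bru p P' U'` by `bru_cover`, `F'` from `exists_corF`. `χh ∈ PI p C`
(`χh 1 = χ 1`). `ψh = F' χh`. `tt_ez`: for a function `f` on `C`, `θ ∈ Lin P`, `n ∈ K`:
`tt P' U' f (ez ι θ) (ι n) = tt P U (f ∘ ι) θ n` (sums over `P.map ι` and `P`; `ez_apply`); the same for `⊥`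
(`(⊥ : Subgroup K).map ι = ⊥`). `ez ι θ ∈ Lin P'`, and `n ∈ NT P θ → ι n ∈ NT P' (ez ι θ)`
(`ι n` normalizes `P'` iff `n` normalizes `P`).
Let `η k = ψh (ι k)` for `k ∈ Nm P` and `0` otherwise (in fact `ψh (ι k) = 0` for `k ∉ Nm P`): a character of `Nm P`
(restriction of a representation of `N'` along `Nm P → N'`), so `η ∈ CharS (Nm P)`. For `θ ∈ Lin P`, `n ∈ NT P θ`:
`tt P ⊥ η θ n = tt P' ⊥ ψh (ez ι θ) (ι n) ≡ tt P' U' χh (ez ι θ) (ι n) = tt P U χ θ n ≡ tt P ⊥ (F χ) θ n`.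
`η 1 = ψh 1 = ∑ᶠ θ' ∈ Lin P', tt P' ⊥ ψh θ' 1 = ∑ᶠ tt P' U' χh θ' 1 = ∑ᶠ_{θ ∈ Lin P} tt P U χ θ 1 = ∑ᶠ tt P ⊥ (F χ) θ 1 = F χ 1`
(`tt_bot_sum`, `CorF.dim`, `θ ↦ ez ι θ` is a bijection `Lin P → Lin P'`). `char_eq` gives `η = F χ`.
-/

namespace Pool.Agent.Helper68.BR

open Pool.Agent.Helper42.INC Pool.Agent.Helper42.IR Pool.Agent.Helper42.IR.F

section aux

variable {K C : Type} [Group K] [Group C] {P U : Subgroup K} {ι : K →* C}

private theorem mem_map (hι : Function.Injective ι) {H : Subgroup K} {k : K} :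
    ι k ∈ H.map ι ↔ k ∈ H := by
  constructor
  · rintro ⟨y, hy, hyk⟩
    exact hι hyk ▸ hy
  · intro hk
    exact ⟨k, hk, rfl⟩

private theorem nm_map {n : K} (hn : n ∈ Nm P) : ι n ∈ Nm (P.map ι) := by
  rw [Subgroup.mem_normalizer_iff]
  intro h
  constructor
  · rintro ⟨y, hy, rfl⟩
    exact ⟨n * y * n⁻¹, (Subgroup.mem_normalizer_iff.1 hn y).1 hy, by simp⟩
  · rintro ⟨y, hy, hyh⟩
    refine ⟨n⁻¹ * y * n, (Subgroup.mem_normalizer_iff''.1 hn y).1 hy, ?_⟩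
    rw [map_mul, map_mul, hyh, map_inv]
    group

private theorem nt_map (hι : Function.Injective ι) {θ : K → ℂ} {n : K} (hn : n ∈ NT P θ) :
    ι n ∈ NT (P.map ι) (ez ι θ) := by
  refine ⟨nm_map hn.1, ?_⟩
  change cnj (ι n) (ez ι θ) = ez ι θ
  have h1 : ∀ k, ι n * ι k * (ι n)⁻¹ = ι (MulAut.conj n k) := by
    intro k
    simp [MulAut.conj_apply]
  rw [cnj_ez hι h1]
  congr 1
  funext k
  have h2 : cnj n θ = θ := hn.2
  have h3 := congrFun h2 k
  rw [cnj_apply] at h3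
  rw [← h3]
  congr 1

private theorem lin_ez (hι : Function.Injective ι) {θ : K → ℂ} (hθ : θ ∈ Lin P) :
    ez ι θ ∈ Lin (P.map ι) := by
  refine ⟨?_, ?_, ?_⟩
  · have h := ez_apply hι θ 1
    rw [map_one] at h
    rw [h]
    exact hθ.1
  · rintro _ ⟨a, ha, rfl⟩ _ ⟨b, hb, rfl⟩
    rw [← map_mul, ez_apply hι, ez_apply hι, ez_apply hι]
    exact hθ.2.1 a ha b hb
  · intro x hx
    by_cases hr : x ∈ ι.range
    · obtain ⟨k, rfl⟩ := hr
      rw [ez_apply hι]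
      exact hθ.2.2 k fun hk => hx ⟨k, hk, rfl⟩
    · exact ez_off ι θ hr

private theorem lin_map (hι : Function.Injective ι) {θ : C → ℂ} (hθ : θ ∈ Lin (P.map ι)) :
    (fun k => θ (ι k)) ∈ Lin P ∧ ez ι (fun k => θ (ι k)) = θ := by
  refine ⟨⟨?_, ?_, ?_⟩, ?_⟩
  · simp only [map_one]
    exact hθ.1
  · intro x hx y hy
    simp only [map_mul]
    exact hθ.2.1 _ ⟨x, hx, rfl⟩ _ ⟨y, hy, rfl⟩
  · intro x hx
    exact hθ.2.2 _ fun h => hx ((mem_map hι).1 h)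
  · funext g
    by_cases hr : g ∈ ι.range
    · obtain ⟨k, rfl⟩ := hr
      rw [ez_apply hι]
    · rw [ez_off ι _ hr]
      refine (hθ.2.2 g fun hg => hr ?_).symm
      obtain ⟨y, -, hy⟩ := hg
      exact ⟨y, hy⟩

private theorem sum_lin (hι : Function.Injective ι) (f : (C → ℂ) → ℂ) :
    ∑ᶠ θ' : Lin (P.map ι), f θ'.1 = ∑ᶠ θ : Lin P, f (ez ι θ.1) := by
  refine (finsum_eq_of_bijective (fun θ : Lin P => (⟨ez ι θ.1, lin_ez hι θ.2⟩ : Lin (P.map ι)))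
    ⟨?_, ?_⟩ fun θ => rfl).symm
  · intro θ θ' h
    exact Subtype.ext (ez_inj hι (congrArg Subtype.val h))
  · intro θ'
    obtain ⟨h1, h2⟩ := lin_map hι θ'.2
    exact ⟨⟨_, h1⟩, Subtype.ext h2⟩

private theorem tt_ez (hι : Function.Injective ι) (f : C → ℂ) (θ : K → ℂ) (n : K) :
    tt (P.map ι) (U.map ι) f (ez ι θ) (ι n) = tt P U (fun k => f (ι k)) θ n := by
  let eP : P ≃* P.map ι := P.equivMapOfInjective ι hι
  let eU : U ≃* U.map ι := U.equivMapOfInjective ι hι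
  have hP : ∀ x : P, ((eP x : P.map ι) : C) = ι x := fun x => rfl
  have hU : ∀ x : U, ((eU x : U.map ι) : C) = ι x := fun x => rfl
  unfold tt
  rw [Nat.card_congr eP.toEquiv, Nat.card_congr eU.toEquiv]
  congr 1
  rw [← finsum_comp_equiv eP.toEquiv]
  refine finsum_congr fun x => ?_
  rw [← finsum_comp_equiv eU.toEquiv]
  refine finsum_congr fun u => ?_
  simp only [MulEquiv.toEquiv_eq_coe, EquivLike.coe_coe, hP, hU]
  rw [← map_inv, ez_apply hι, ← map_mul, ← map_mul]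

end aux

theorem cover_res {K C : Type} [Group K] [Group C] [Finite K] [Finite C] {p : ℕ} [Fact p.Prime]
    {P U : Subgroup K} (hB : Bru p P U) (hFr : Frat P U) {F : (K → ℂ) → (K → ℂ)}
    (hF : CorF p P U F) (ι : K →* C)
    (hι : Function.Injective ι) (β : C → MulAut K) (hconj : ∀ c k, c * ι k * c⁻¹ = ι (β c k))
    (hidx : ¬ p ∣ ι.range.index) {χ : K → ℂ} (hχ : χ ∈ PI p K) {χh : C → ℂ} (hχh : χh ∈ Irr C)
    (hres : ∀ k, χh (ι k) = χ k) :
    ∃ ψh ∈ IrrS (Nm (P.map ι)), Rel p (P.map ι) (U.map ι) χh ψh ∧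
      (∃ θ ∈ Lin (P.map ι), tt (P.map ι) (U.map ι) χh θ 1 = tt (P.map ι) ⊥ ψh θ 1 ∧
        tt (P.map ι) ⊥ ψh θ 1 ≠ 0 ∧ ∃ d : ℕ, tt (P.map ι) ⊥ ψh θ 1 = d ∧ ¬ p ∣ d) ∧
      ∀ t ∈ Nm P, ψh (ι t) = F χ t := by
  classical
  have hB' : Bru p (P.map ι) (U.map ι) := bru_cover hB hFr ι hι β hconj hidx
  obtain ⟨F', hF'⟩ := exists_corF hB'
  have hχ1 : χh 1 = χ 1 := by
    have h := hres 1
    rwa [map_one] at h
  have hχp : χh ∈ PI p C := by
    refine ⟨hχh, ?_⟩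
    have h1 : deg χh = deg χ := by
      unfold deg
      rw [hχ1]
    rw [h1]
    exact hχ.2
  have hψ : F' χh ∈ IrrS (Nm (P.map ι)) := hF'.bij.mapsTo hχp
  have hχf : (fun k => χh (ι k)) = χ := funext hres
  refine ⟨F' χh, hψ, hF'.rel χh hχp, ?_, ?_⟩
  · obtain ⟨θ, hθ, hne⟩ := exists_theta hB' hψ
    obtain ⟨L, hL⟩ := exists_cmp hB'
    obtain ⟨κ, hS⟩ := summ_nm hB' hL
    exact ⟨θ, hθ, hF'.dim χh hχp θ hθ, hne, hS.dk hL hψ hθ hne⟩
  · let η : K → ℂ := fun k => if k ∈ Nm P then F' χh (ι k) else 0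
    have hbot : ∀ (f : C → ℂ) (θ : K → ℂ) (n : K),
        tt (P.map ι) ⊥ f (ez ι θ) (ι n) = tt P ⊥ (fun k => f (ι k)) θ n := by
      intro f θ n
      have h := tt_ez (P := P) (U := ⊥) hι f θ n
      rwa [Subgroup.map_bot] at h
    have hηt : ∀ (θ : K → ℂ) (n : K), n ∈ Nm P →
        tt P ⊥ η θ n = tt P ⊥ (fun k => F' χh (ι k)) θ n := by
      intro θ n hn
      unfold tt
      congr 1
      refine finsum_congr fun x => finsum_congr fun u => ?_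
      have h1 : (u : K) = 1 := (Subgroup.mem_bot).1 u.2
      have h2 : (u : K) * (x : K) * n ∈ Nm P := by
        rw [h1, one_mul]
        exact (Nm P).mul_mem (Subgroup.le_normalizer x.2) hn
      simp only [η, if_pos h2]
    have hηC : η ∈ CharS (Nm P) := by
      refine ⟨?_, fun x hx => if_neg hx⟩
      obtain ⟨V, i1, i2, i3, ρ, -, hρ⟩ := hψ.1
      let j : Nm P →* Nm (P.map ι) :=
        { toFun := fun x => ⟨ι x, nm_map x.2⟩
          map_one' := Subtype.ext (by simp)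
          map_mul' := fun x y => Subtype.ext (by simp) }
      refine ⟨V, i1, i2, i3, ρ.comp j, ?_⟩
      funext x
      have h1 : F' χh (j x : Nm (P.map ι)) = ρ.character (j x) := congrFun hρ (j x)
      have h2 : η x = F' χh (ι x) := if_pos x.2
      rw [h2]
      exact h1
    have h1 : η 1 = F χ 1 := by
      have e1 : η 1 = F' χh 1 := by
        have h2 : η 1 = F' χh (ι 1) := if_pos (Nm P).one_mem
        rw [h2, map_one]
      rw [e1, ← tt_bot_sum hB'.comm (F' χh), ← tt_bot_sum hB.comm (F χ),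
        sum_lin (P := P) hι (fun θ => tt (P.map ι) ⊥ (F' χh) θ 1)]
      refine finsum_congr fun θ => ?_
      rw [← hF'.dim χh hχp _ (lin_ez hι θ.2), ← hF.dim χ hχ _ θ.2]
      have h3 := tt_ez (P := P) (U := U) hι χh θ.1 1
      rw [map_one, hχf] at h3
      exact h3
    have h2 : ∀ θ ∈ Lin P, ∀ n ∈ NT P θ, Cg p (tt P ⊥ η θ n) (tt P ⊥ (F χ) θ n) := by
      intro θ hθ n hn
      rw [hηt θ n hn.1, ← hbot]
      refine (hF'.rel χh hχp _ (lin_ez hι hθ) _ (nt_map hι hn)).symm.trans ?_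
      rw [tt_ez hι, hχf]
      exact hF.rel χ hχ θ hθ n hn
    have h3 : η = F χ := char_eq hB (hF.bij.mapsTo hχ) hηC h1 h2
    intro t ht
    rw [← h3]
    exact (if_pos ht).symm

end Pool.Agent.Helper68.BR
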