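import Pool.Agent.Helper68.BR.CoverRes
import Pool.Agent.Helper42.IR.F.Cov
import Pool.Agent.Helper7.MK.Scalar
import Pool.Agent.Helper7.MK.Char

/-!
# BR-B05: the scalars on the centralizer

Notation as in BR-B04. Let `c` centralize `ι.range`. `c ∈ Nm (P.map ι)`, `cnj c θ = θ` for `θ ∈ Lin (P.map ι)`.
(1) `χh (g c) = lam χh g` for all `g ∈ C`, with `lam = χh c / χh 1`: `χh ∘ ι = χ` is irreducible, so in a representation with
character `χh` the operator of `c` commutes with the irreducible action of `ι K` and is a scalar (Schur).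
(2) `ψh (g c) = mu ψh g` for `g ∈ Nm (P.map ι)`: the same, since `t ↦ ψh (ι t) = F χ t` is irreducible on `Nm P`.
(3) the order of `c` is prime to `p`: otherwise a power `y` of `c` has order `p`; it centralizes `ι.range ≥ P.map ι`, so the group
generated by `P.map ι` and `y` is a `p`-group (commuting `p`-groups), and `P.map ι` is a Sylow `p`-subgroup of `C` (`bru_cover`); so
`y ∈ P.map ι ≤ ι.range`, so `y = ι z` with `z ∈ Z(K)` of order `p`, against `hz`.
(4) `lam`, `mu` are roots of unity of order prime to `p` (`lam ^ k = 1` where `c ^ k = 1`: `χh (c ^ j) = lam ^ j χh 1`).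
(5) With `θ` from the third clause of `cover_res` (value `d` at `1`, `p ∤ d`): `tt χh θ c = lam tt χh θ 1 = lam d` (the sum over `u x c`) and
`tt ψh θ c = mu d`; `Rel` at `n = c ∈ NT`: `Cg (lam d) (mu d)`, so `Cg lam mu` (`d` is a unit), and two roots of unity of order prime
to `p` which are congruent are equal (`lam / mu = ζ`, `ζ ^ k = 1`, `Cg ζ 1`; if `ζ ≠ 1` then `1 + ζ + ... + ζ ^ (k-1) = 0` but it is
congruent to `k ≠ 0`).
So `χ 1 * ψh (g c) = χ 1 * mu * ψh g = ψh g * (lam χh 1) = ψh g * χh c`.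
-/

namespace Pool.Agent.Helper68.BR

open Pool.Agent.Helper42.INC Pool.Agent.Helper42.IR Pool.Agent.Helper42.IR.F

theorem root_cg {p : ℕ} [Fact p.Prime] {a b : ℂ} {k : ℕ} (hk : ¬ p ∣ k) (ha : a ^ k = 1)
    (hb : b ^ k = 1) (h : Cg p a b) : a = b := by
  by_contra hne
  have hk0 : k ≠ 0 := by
    rintro rfl
    exact hk (dvd_zero p)
  have hint : ∀ x : ℂ, x ^ k = 1 → x ∈ OO p := by
    intro x hx
    refine integral_mem ?_
    refine ⟨Polynomial.X ^ k - 1, Polynomial.monic_X_pow_sub_C 1 hk0, ?_⟩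
    simp [hx]
  obtain ⟨m, hm, hab⟩ := h
  set x : OO p := ⟨a, hint a ha⟩ with hx
  set y : OO p := ⟨b, hint b hb⟩ with hy
  have hxy : x - y = m := by
    apply Subtype.ext
    push_cast
    exact hab
  have hres : IsLocalRing.residue (OO p) x = IsLocalRing.residue (OO p) y := by
    rw [← sub_eq_zero, ← map_sub, hxy]
    exact (IsLocalRing.residue_eq_zero_iff m).2 hm
  have hy1 : y ^ k = 1 := by
    apply Subtype.ext
    push_cast
    exact hb
  have hx1 : x ^ k = 1 := by
    apply Subtype.ext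
    push_cast
    exact ha
  have hsum : ∑ i ∈ Finset.range k, x ^ i * y ^ (k - 1 - i) = 0 := by
    have h1 := (Commute.all x y).geom_sum₂_mul k
    rw [hx1, hy1, sub_self] at h1
    rcases mul_eq_zero.1 h1 with h2 | h2
    · exact h2
    · exfalso
      rw [sub_eq_zero] at h2
      exact hne (congrArg Subtype.val h2)
  have h2 := congrArg (IsLocalRing.residue (OO p)) hsum
  rw [map_sum, map_zero] at h2
  set r := IsLocalRing.residue (OO p) y with hr
  have h3 : ∀ i ∈ Finset.range k, IsLocalRing.residue (OO p) (x ^ i * y ^ (k - 1 - i)) = r ^ (k - 1) := by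
    intro i hi
    rw [Finset.mem_range] at hi
    rw [map_mul, map_pow, map_pow, hres, ← hr, ← pow_add]
    congr 1
    omega
  rw [Finset.sum_congr rfl h3, Finset.sum_const, Finset.card_range, nsmul_eq_mul] at h2
  have hr1 : r ^ k = 1 := by rw [hr, ← map_pow, hy1, map_one]
  have hr0 : r ≠ 0 := by
    intro h0
    rw [h0, zero_pow hk0] at hr1
    exact zero_ne_one hr1
  rcases mul_eq_zero.1 h2 with h4 | h4
  · exact hk ((CharP.cast_eq_zero_iff (kk p) p k).1 h4)
  · exact pow_ne_zero _ hr0 h4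

private theorem scal {K C : Type} [Group K] [Group C] [Finite K] [Finite C] (ι : K →* C) {f : C → ℂ}
    (hf : f ∈ Irr C) (hirr : (fun k => f (ι k)) ∈ Irr K) {c : C} (hc : ∀ k, c * ι k = ι k * c) :
    ∃ lam : ℂ, (∀ g, f (g * c) = lam * f g) ∧ f c = lam * f 1 ∧ lam ^ orderOf c = 1 := by
  obtain ⟨d, R, hR⟩ := (Pool.Agent.Helper7.MK.IsChar.of_irr hf).exists_matrix
  set H : Subgroup C := Subgroup.centralizer {c} with hH
  have hmem : ∀ k, ι k ∈ H := by
    intro k
    rw [hH, Subgroup.mem_centralizer_iff]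
    intro x hx
    rw [Set.mem_singleton_iff] at hx
    rw [hx]
    exact hc k
  have hcH : c ∈ H := by
    rw [hH, Subgroup.mem_centralizer_iff]
    intro x hx
    rw [Set.mem_singleton_iff] at hx
    rw [hx]
  have hcen : (⟨c, hcH⟩ : H) ∈ Subgroup.center H := by
    rw [Subgroup.mem_center_iff]
    intro g
    apply Subtype.ext
    have h1 := (Subgroup.mem_centralizer_iff.1 g.2) c (Set.mem_singleton c)
    exact h1.symm
  have h1 : (fun h : H => ((R.comp H.subtype) h).trace) ∈ Irr H := by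
    refine irr_of_res (ι.codRestrict H hmem) (R.comp H.subtype) ?_
    have h2 : (fun k => ((R.comp H.subtype) (ι.codRestrict H hmem k)).trace) = fun k => f (ι k) := by
      funext k
      exact (hR (ι k)).symm
    rw [h2]
    exact hirr
  have h2 := Pool.Agent.Helper7.MK.scalar_of_irr (R.comp H.subtype) h1 hcen
  set lam : ℂ := (((R.comp H.subtype) ⟨c, hcH⟩).trace / ((R.comp H.subtype) 1).trace) with hlam
  have h3 : R c = lam • (1 : Matrix (Fin d) (Fin d) ℂ) := h2
  have h4 : ∀ g, f (g * c) = lam * f g := by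
    intro g
    rw [hR, hR, map_mul, h3, mul_smul_comm, mul_one, Matrix.trace_smul, smul_eq_mul]
  have h5 : f c = lam * f 1 := by
    have := h4 1
    rwa [one_mul] at this
  refine ⟨lam, h4, h5, ?_⟩
  have h6 : ∀ n : ℕ, f (c ^ n) = lam ^ n * f 1 := by
    intro n
    induction n with
    | zero => rw [pow_zero, pow_zero, one_mul]
    | succ n ih => rw [pow_succ, h4, ih, pow_succ]; ring
  have h7 := h6 (orderOf c)
  rw [pow_orderOf_eq_one] at h7
  obtain ⟨n, hn, hn1⟩ := irr_one hf
  have h8 : f 1 ≠ 0 := by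
    rw [hn1]
    exact_mod_cast hn.ne'
  have h9 : (lam ^ orderOf c - 1) * f 1 = 0 := by rw [sub_mul, one_mul, ← h7, sub_self]
  rcases mul_eq_zero.1 h9 with h10 | h10
  · exact sub_eq_zero.1 h10
  · exact absurd h10 h8

private theorem order_c {K C : Type} [Group K] [Group C] [Finite K] [Finite C] {p : ℕ} [Fact p.Prime]
    {P : Subgroup K} (hz : ¬ p ∣ Nat.card (Subgroup.center K)) (ι : K →* C)
    (hι : Function.Injective ι) (hp : IsPGroup p (P.map ι)) (hi : ¬ p ∣ (P.map ι).index) {c : C}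
    (hc : ∀ k, c * ι k = ι k * c) : ¬ p ∣ orderOf c := by
  intro hd
  have hp0 : p.Prime := Fact.out
  have hm0 : orderOf c ≠ 0 := (orderOf_pos c).ne'
  set y : C := c ^ (orderOf c / p) with hy
  have hyo : orderOf y = p := by
    rw [hy]
    exact orderOf_pow_orderOf_div hm0 hd
  have hyc : ∀ k, y * ι k = ι k * y := by
    intro k
    have h1 : Commute c (ι k) := hc k
    exact h1.pow_left _
  have hyp : IsPGroup p (Subgroup.zpowers y) := by
    refine IsPGroup.of_card (n := 1) ?_
    rw [Nat.card_zpowers, hyo, pow_one]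
  have hnorm : Subgroup.zpowers y ≤ Subgroup.normalizer ((P.map ι : Subgroup C) : Set C) := by
    rw [Subgroup.zpowers_le]
    refine Subgroup.centralizer_le_normalizer (s := ((P.map ι : Subgroup C) : Set C)) ?_
    rw [Subgroup.mem_centralizer_iff]
    rintro x ⟨k, _, rfl⟩
    exact (hyc k).symm
  have h1 : IsPGroup p (Subgroup.zpowers y ⊔ P.map ι : Subgroup C) :=
    hyp.to_sup_of_normal_right' hp hnorm
  have h2 := (hp.toSylow hi).is_maximal' h1 (by
    rw [IsPGroup.toSylow_coe]
    exact le_sup_right)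
  have h3 : y ∈ P.map ι := by
    have h4 : y ∈ (Subgroup.zpowers y ⊔ P.map ι : Subgroup C) :=
      Subgroup.mem_sup_left (Subgroup.mem_zpowers y)
    rw [h2] at h4
    exact h4
  obtain ⟨z, _, hzy⟩ := h3
  have h4 : z ∈ Subgroup.center K := by
    rw [Subgroup.mem_center_iff]
    intro k
    apply hι
    rw [map_mul, map_mul]
    have h5 := hyc k
    rw [← hzy] at h5
    exact h5.symm
  have h5 : orderOf z = p := by
    rw [← orderOf_injective ι hι z]
    have h6 : ι z = y := hzy
    rw [h6, hyo]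
  apply hz
  have h6 : orderOf (⟨z, h4⟩ : Subgroup.center K) = p := by
    rw [Subgroup.orderOf_mk, h5]
  rw [← h6]
  exact orderOf_dvd_natCard _

private theorem tt_mul {G : Type} [Group G] [Finite G] (P U : Subgroup G) (χ θ : G → ℂ) {c : G} {lam : ℂ}
    (h : ∀ u ∈ U, ∀ x ∈ P, χ (u * x * c) = lam * χ (u * x)) :
    tt P U χ θ c = lam * tt P U χ θ 1 := by
  have := Fintype.ofFinite P
  have := Fintype.ofFinite U
  unfold tt
  simp only [finsum_eq_sum_of_fintype]
  have key : ∑ x : P, ∑ u : U, θ ((x : G)⁻¹) * χ ((u : G) * (x : G) * c) =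
      lam * ∑ x : P, ∑ u : U, θ ((x : G)⁻¹) * χ ((u : G) * (x : G) * 1) := by
    rw [Finset.mul_sum]
    refine Finset.sum_congr rfl fun x _ => ?_
    rw [Finset.mul_sum]
    refine Finset.sum_congr rfl fun u _ => ?_
    rw [h u u.2 x x.2, mul_one]
    ring
  rw [key]
  ring

theorem cover_sc {K C : Type} [Group K] [Group C] [Finite K] [Finite C] {p : ℕ} [Fact p.Prime]
    {P U : Subgroup K} (hB : Bru p P U) (hFr : Frat P U)
    (hz : ¬ p ∣ Nat.card (Subgroup.center K)) {F : (K → ℂ) → (K → ℂ)}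
    (hF : CorF p P U F) (ι : K →* C)
    (hι : Function.Injective ι) (β : C → MulAut K) (hconj : ∀ c k, c * ι k * c⁻¹ = ι (β c k))
    (hidx : ¬ p ∣ ι.range.index) {χ : K → ℂ} (hχ : χ ∈ PI p K) {χh : C → ℂ} (hχh : χh ∈ Irr C)
    (hres : ∀ k, χh (ι k) = χ k) :
    ∃ ψh ∈ IrrS (Nm (P.map ι)), (∀ t ∈ Nm P, ψh (ι t) = F χ t) ∧
      ∀ c ∈ Subgroup.centralizer (ι.range : Set C), ∀ g ∈ Nm (P.map ι),
        χ 1 * ψh (g * c) = ψh g * χh c := by
  obtain ⟨ψh, hψh, hrel, ⟨θ, hθ, he, hne, d, hd, hpd⟩, hext⟩ :=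
    cover_res hB hFr hF ι hι β hconj hidx hχ hχh hres
  refine ⟨ψh, hψh, hext, fun c hc g hg => ?_⟩
  have hB' := bru_cover hB hFr ι hι β hconj hidx
  have hcc : ∀ k, c * ι k = ι k * c := by
    intro k
    exact ((Subgroup.mem_centralizer_iff.1 hc) (ι k) ⟨k, rfl⟩).symm
  have hord := order_c hz ι hι hB'.pgroup hB'.index hcc
  -- the scalar of `χh`
  obtain ⟨lam, hl1, hl2, hl3⟩ := scal ι hχh (by
    have h1 : (fun k => χh (ι k)) = χ := funext hres
    rw [h1]
    exact hχ.1) hcc
  -- the scalar of `ψh`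
  have hcN : c ∈ Nm (P.map ι) := by
    refine Subgroup.centralizer_le_normalizer (s := ((P.map ι : Subgroup C) : Set C)) ?_
    rw [Subgroup.mem_centralizer_iff]
    rintro x ⟨k, _, rfl⟩
    exact (hcc k).symm
  have hιN : ∀ t ∈ Nm P, ι t ∈ Nm (P.map ι) := by
    intro t ht
    have h1 : ι t ∈ (Subgroup.normalizer (P : Set K)).map ι := Subgroup.mem_map_of_mem ι ht
    exact Subgroup.le_normalizer_map ι h1
  set j : Nm P →* Nm (P.map ι) := 
    { toFun := fun t => ⟨ι t, hιN t t.2⟩
      map_one' := by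
        apply Subtype.ext
        exact map_one ι
      map_mul' := fun a b => by
        apply Subtype.ext
        exact map_mul ι (a : K) (b : K) } with hj
  obtain ⟨mu, hm1, hm2, hm3⟩ := scal j hψh.1 (by
    have h1 : (fun k : Nm P => (fun h : Nm (P.map ι) => ψh h) (j k)) = fun k : Nm P => F χ k := by
      funext k
      exact hext k k.2
    rw [h1]
    exact (hF.bij.mapsTo hχ).1) (c := ⟨c, hcN⟩) (fun k => Subtype.ext (hcc k))
  have hm1' : ∀ g ∈ Nm (P.map ι), ψh (g * c) = mu * ψh g := fun g hg => hm1 ⟨g, hg⟩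
  have hm3' : mu ^ orderOf c = 1 := by
    rw [Subgroup.orderOf_mk] at hm3
    exact hm3
  have hPN : P.map ι ≤ Nm (P.map ι) := Subgroup.le_normalizer
  -- the congruence
  have hcx : ∀ x ∈ P.map ι, c * x = x * c := by
    rintro x ⟨k, _, rfl⟩
    exact hcc k
  have hcNT : c ∈ NT (P.map ι) θ := by
    refine Subgroup.mem_inf.2 ⟨hcN, mem_stab.2 ?_⟩
    funext x
    rw [cnj_apply]
    by_cases hx : x ∈ P.map ι
    · rw [mul_assoc, ← hcx x hx, inv_mul_cancel_left]
    · rw [hθ.2.2 x hx, hθ.2.2]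
      intro h1
      apply hx
      have h2 : c * (c⁻¹ * x * c) = (c⁻¹ * x * c) * c := hcx _ h1
      have h3 : c⁻¹ * x * c = x := by
        have h4 : c * (c⁻¹ * x * c) = x * c := by group
        rw [h4] at h2
        exact (mul_right_cancel h2).symm
      rwa [h3] at h1
  have hR := hrel θ hθ c hcNT
  rw [tt_mul _ _ _ _ (lam := lam) (fun u _ x _ => hl1 (u * x)), tt_mul _ _ _ _ (lam := mu) (fun u hu x hx =>
    hm1' (u * x) (by
      rw [(Subgroup.mem_bot).1 hu, one_mul]
      exact hPN hx)), he, hd] at hR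
  have hcg : Cg p lam mu := by
    obtain ⟨m, hm, h1⟩ := hR
    have hd0 : (d : ℂ) ≠ 0 := by
      intro h0
      rw [hd, h0] at hne
      exact hne rfl
    refine ⟨m * ⟨((d : ℂ))⁻¹, inv_nat_mem hpd⟩, Ideal.mul_mem_right _ _ hm, ?_⟩
    push_cast
    rw [← h1]
    field_simp
  have heq : lam = mu := root_cg hord hl3 hm3' hcg
  have h1 : χh 1 = χ 1 := by
    have := hres 1
    rwa [map_one] at this
  rw [hm1' g hg, hl2, h1, heq]
  ring

end Pool.Agent.Helper68.BR
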