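import Pool.Agent.Helper42.IR.F.Defs
import Pool.Agent.Helper42.IR.F.Pull
import Pool.Agent.Helper42.IR.PkgTop
import Pool.Agent.Helper42.IR.Val

/-!
# Project BR (MP_5ecade_al): common definitions

Congruence McKay for groups with a split Bruhat decomposition. Memo: memo_MP_5ecade_al_BR_helper68.md.

Functions on `G` are used for everything: `θ ∈ Lin P` is a linear character of `P` extended by zero,
characters of a subgroup `H` are functions on `G` vanishing off `H` (`IrrS H`, IR/Defs.lean),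
`cnj g f x = f (g⁻¹ x g)`, `stab f` its stabilizer.
-/

namespace Pool.Agent.Helper68.BR

open Pool.Agent.Helper42.INC Pool.Agent.Helper42.IR

section defs

variable {G : Type} [Group G]

/-- the normalizer of `P` -/
abbrev Nm (P : Subgroup G) : Subgroup G := Subgroup.normalizer (P : Set G)

/-- `P` is an abelian Sylow `p`-subgroup, normalizes `U`, has no nontrivial fixed points on `U`, and
`G = U N U` with `N` the normalizer of `P` -/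
structure Bru (p : ℕ) (P U : Subgroup G) : Prop where
  pgroup : IsPGroup p P
  index : ¬ p ∣ P.index
  comm : ∀ a ∈ P, ∀ b ∈ P, a * b = b * a
  norm : ∀ x ∈ P, ∀ u ∈ U, x * u * x⁻¹ ∈ U
  fix : ∀ u ∈ U, (∀ x ∈ P, x * u = u * x) → u = 1
  cover : ∀ g : G, ∃ u ∈ U, ∃ n ∈ Nm P, ∃ u' ∈ U, g = u * n * u'

/-- every automorphism which preserves `P` maps `U` to a conjugate of `U` under the normalizer of `P` -/
def Frat (P U : Subgroup G) : Prop :=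
  ∀ α : MulAut G, (∀ x, α x ∈ P ↔ x ∈ P) → ∃ n ∈ Nm P, ∀ x, n⁻¹ * α x * n ∈ U ↔ x ∈ U

/-- linear characters of `P`, as functions on `G` vanishing off `P` -/
def Lin (P : Subgroup G) : Set (G → ℂ) :=
  {θ | θ 1 = 1 ∧ (∀ x ∈ P, ∀ y ∈ P, θ (x * y) = θ x * θ y) ∧ ∀ x, x ∉ P → θ x = 0}

/-- the stabilizer of `θ` in the normalizer of `P` -/
def NT (P : Subgroup G) (θ : G → ℂ) : Subgroup G := Nm P ⊓ stab θ

/-- `(|P| |U|)⁻¹ ∑ θ(x⁻¹) χ(u x n)`: the trace of `n` on the fixed vectors of `U` in the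
`θ`-eigenspace of `P`, compressed -/
noncomputable def tt (P U : Subgroup G) (χ θ : G → ℂ) (n : G) : ℂ :=
  ((Nat.card P : ℂ) * (Nat.card U : ℂ))⁻¹ *
    ∑ᶠ x : P, ∑ᶠ u : U, θ ((x : G)⁻¹) * χ ((u : G) * (x : G) * n)

variable {V : Type} [AddCommGroup V] [Module ℂ V]

/-- the fixed vectors of `U` on which `P` acts through `θ` -/
def VT (P U : Subgroup G) (ρ : Representation ℂ G V) (θ : G → ℂ) : Submodule ℂ V where
  carrier := {v | (∀ u ∈ U, ρ u v = v) ∧ ∀ x ∈ P, ρ x v = θ x • v}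
  zero_mem' := ⟨fun u _ => map_zero _, fun x _ => by rw [map_zero, smul_zero]⟩
  add_mem' := by
    rintro a b ⟨h1, h2⟩ ⟨h3, h4⟩
    refine ⟨fun u hu => ?_, fun x hx => ?_⟩
    · rw [map_add, h1 u hu, h3 u hu]
    · rw [map_add, h2 x hx, h4 x hx, smul_add]
  smul_mem' := by
    rintro c a ⟨h1, h2⟩
    refine ⟨fun u hu => ?_, fun x hx => ?_⟩
    · rw [map_smul, h1 u hu]
    · rw [map_smul, h2 x hx, smul_comm]

theorem mem_VT {P U : Subgroup G} {ρ : Representation ℂ G V} {θ : G → ℂ} {v : V} :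
    v ∈ VT P U ρ θ ↔ (∀ u ∈ U, ρ u v = v) ∧ ∀ x ∈ P, ρ x v = θ x • v := Iff.rfl

/-- the projection `(|P| |U|)⁻¹ ∑ θ(x⁻¹) u x` onto `VT P U ρ θ` -/
noncomputable def pr (P U : Subgroup G) (ρ : Representation ℂ G V) (θ : G → ℂ) : V →ₗ[ℂ] V :=
  ((Nat.card P : ℂ) * (Nat.card U : ℂ))⁻¹ •
    ∑ᶠ x : P, ∑ᶠ u : U, θ ((x : G)⁻¹) • ρ ((u : G) * (x : G))

end defs

section cong

variable (p : ℕ) [Fact p.Prime]

/-- congruence of complex numbers modulo the maximal ideal of `OO p` -/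
def Cg (a b : ℂ) : Prop := ∃ m ∈ IsLocalRing.maximalIdeal (OO p), a - b = (m : ℂ)

/-- `a` is in `OO p` with residue `r` -/
def Red (a : ℂ) (r : kk p) : Prop := ∃ z : OO p, (z : ℂ) = a ∧ IsLocalRing.residue (OO p) z = r

variable {p}

theorem Cg.refl (a : ℂ) : Cg p a a := ⟨0, Ideal.zero_mem _, by simp⟩

theorem Cg.symm {a b : ℂ} (h : Cg p a b) : Cg p b a := by
  obtain ⟨m, hm, h⟩ := h
  exact ⟨-m, neg_mem hm, by rw [← neg_sub, h]; push_cast; ring⟩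

theorem Cg.trans {a b c : ℂ} (h : Cg p a b) (h' : Cg p b c) : Cg p a c := by
  obtain ⟨m, hm, h⟩ := h
  obtain ⟨m', hm', h'⟩ := h'
  exact ⟨m + m', add_mem hm hm', by push_cast; rw [← h, ← h']; ring⟩

theorem Red.cg {a b : ℂ} {r : kk p} (h : Red p a r) (h' : Red p b r) : Cg p a b := by
  obtain ⟨z, rfl, hz⟩ := h
  obtain ⟨w, rfl, hw⟩ := h'
  refine ⟨z - w, ?_, by push_cast; ring⟩
  rw [← IsLocalRing.residue_eq_zero_iff, map_sub, hz, hw, sub_self]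

theorem Red.of_cg {a b : ℂ} {r : kk p} (h : Red p b r) (h' : Cg p a b) : Red p a r := by
  obtain ⟨z, rfl, hz⟩ := h
  obtain ⟨m, hm, hab⟩ := h'
  refine ⟨z + m, ?_, ?_⟩
  · push_cast
    rw [← hab]; ring
  · rw [map_add, hz, IsLocalRing.residue_eq_zero_iff m |>.2 hm, add_zero]

theorem Red.unique {a : ℂ} {r s : kk p} (h : Red p a r) (h' : Red p a s) : r = s := by
  obtain ⟨z, hz, rfl⟩ := h
  obtain ⟨w, hw, rfl⟩ := h'
  have : z = w := Subtype.ext (hz.trans hw.symm)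
  rw [this]

theorem Red.nat (m : ℕ) : Red p (m : ℂ) (m : kk p) := ⟨(m : OO p), by simp, by simp⟩

theorem Red.zero : Red p 0 (0 : kk p) := ⟨0, by simp, by simp⟩

theorem Red.add {a b : ℂ} {r s : kk p} (h : Red p a r) (h' : Red p b s) :
    Red p (a + b) (r + s) := by
  obtain ⟨z, rfl, rfl⟩ := h
  obtain ⟨w, rfl, rfl⟩ := h'
  exact ⟨z + w, by push_cast; rfl, map_add _ _ _⟩

theorem Red.mul {a b : ℂ} {r s : kk p} (h : Red p a r) (h' : Red p b s) :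
    Red p (a * b) (r * s) := by
  obtain ⟨z, rfl, rfl⟩ := h
  obtain ⟨w, rfl, rfl⟩ := h'
  exact ⟨z * w, by push_cast; rfl, map_mul _ _ _⟩

theorem Red.sum {ι : Type} (s : Finset ι) {f : ι → ℂ} {r : ι → kk p} (h : ∀ i ∈ s, Red p (f i) (r i)) :
    Red p (∑ i ∈ s, f i) (∑ i ∈ s, r i) := by
  classical
  induction s using Finset.induction_on with
  | empty => simpa using Red.zero
  | insert a s ha ih =>
    rw [Finset.sum_insert ha, Finset.sum_insert ha]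
    exact (h a (Finset.mem_insert_self _ _)).add (ih fun i hi => h i (Finset.mem_insert_of_mem hi))

end cong

section lat

variable {G : Type} [Group G] {V : Type} [AddCommGroup V] [Module ℂ V]

/-- bases of the spaces `VT P U ρ θ` adapted to `OO p`: the lattice with basis `b θ` is spanned over
`OO p` by the vectors `pr θ (ρ g w)` -/
structure Lat (p : ℕ) [Fact p.Prime] (P U : Subgroup G) (ρ : Representation ℂ G V) where
  w : V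
  d : (G → ℂ) → ℕ
  b : ∀ θ : G → ℂ, Module.Basis (Fin (d θ)) ℂ (VT P U ρ θ)
  gen : ∀ θ ∈ Lin P, ∀ j, ∃ g, (b θ j : V) = pr P U ρ θ (ρ g w)
  int : ∀ θ ∈ Lin P, ∀ g, ∃ c : Fin (d θ) → OO p,
    pr P U ρ θ (ρ g w) = ∑ j, (c j : ℂ) • (b θ j : V)

variable {p : ℕ} [Fact p.Prime] {P U : Subgroup G} {ρ : Representation ℂ G V}

/-- the lattice in `VT P U ρ θ` -/
def Lat.LL (Λ : Lat p P U ρ) (θ : G → ℂ) : AddSubgroup V where
  carrier := {v | ∃ c : Fin (Λ.d θ) → OO p, v = ∑ j, (c j : ℂ) • (Λ.b θ j : V)}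
  zero_mem' := ⟨0, by simp⟩
  add_mem' := by
    rintro a b ⟨c, rfl⟩ ⟨c', rfl⟩
    refine ⟨c + c', ?_⟩
    rw [← Finset.sum_add_distrib]
    refine Finset.sum_congr rfl fun j _ => ?_
    rw [← add_smul, Pi.add_apply]
    push_cast
    rfl
  neg_mem' := by
    rintro a ⟨c, rfl⟩
    refine ⟨-c, ?_⟩
    rw [← Finset.sum_neg_distrib]
    refine Finset.sum_congr rfl fun j _ => ?_
    rw [← neg_smul, Pi.neg_apply]
    push_cast
    rfl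

theorem Lat.mem_LL (Λ : Lat p P U ρ) {θ : G → ℂ} {v : V} :
    v ∈ Λ.LL θ ↔ ∃ c : Fin (Λ.d θ) → OO p, v = ∑ j, (c j : ℂ) • (Λ.b θ j : V) := Iff.rfl

open Classical in
/-- the matrix over `OO p` of the operator `pr θ' ∘ ρ g : VT θ → VT θ'` (zero if it is not integral) -/
noncomputable def Lat.M (Λ : Lat p P U ρ) (θ' θ : G → ℂ) (g : G) :
    Matrix (Fin (Λ.d θ')) (Fin (Λ.d θ)) (OO p) :=
  if h : ∃ M : Matrix (Fin (Λ.d θ')) (Fin (Λ.d θ)) (OO p),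
      ∀ j, pr P U ρ θ' (ρ g (Λ.b θ j : V)) = ∑ i, (M i j : ℂ) • (Λ.b θ' i : V)
  then h.choose else 0

/-- the same matrix over `ℂ` -/
noncomputable def Lat.C (Λ : Lat p P U ρ) (θ' θ : G → ℂ) (g : G) :
    Matrix (Fin (Λ.d θ')) (Fin (Λ.d θ)) ℂ :=
  (Λ.M θ' θ g).map (algebraMap (OO p) ℂ)

/-- its reduction -/
noncomputable def Lat.K (Λ : Lat p P U ρ) (θ' θ : G → ℂ) (g : G) :
    Matrix (Fin (Λ.d θ')) (Fin (Λ.d θ)) (kk p) :=
  (Λ.M θ' θ g).map (IsLocalRing.residue (OO p))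

theorem Lat.M_spec (Λ : Lat p P U ρ) {θ' θ : G → ℂ} {g : G}
    (h : ∃ M : Matrix (Fin (Λ.d θ')) (Fin (Λ.d θ)) (OO p),
      ∀ j, pr P U ρ θ' (ρ g (Λ.b θ j : V)) = ∑ i, (M i j : ℂ) • (Λ.b θ' i : V)) (j : Fin (Λ.d θ)) :
    pr P U ρ θ' (ρ g (Λ.b θ j : V)) = ∑ i, (Λ.M θ' θ g i j : ℂ) • (Λ.b θ' i : V) := by
  classical
  unfold Lat.M
  rw [dif_pos h]
  exact h.choose_spec j

end lat

section summ

variable {G : Type} [Group G]

/-- everything we need to know about the functions `tt P U χ θ` for `χ ∈ S` -/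
structure Summ (p : ℕ) [Fact p.Prime] (P U L : Subgroup G) (S : Set (G → ℂ)) (κ : ℕ) : Prop where
  fin : S.Finite
  nat : ∀ χ ∈ S, ∃ n : ℕ, χ 1 = n
  rep : ∀ θ ∈ Lin P, ∃ (d : (G → ℂ) → ℕ)
    (T : ∀ χ : G → ℂ, ↥(L ⊓ stab θ) →* Matrix (Fin (d χ)) (Fin (d χ)) (kk p)), ∀ χ ∈ S,
      tt P U χ θ 1 = d χ ∧ (∀ l : ↥(L ⊓ stab θ), Red p (tt P U χ θ l) (T χ l).trace) ∧
      (∃ c : kk p, ∀ A : Matrix (Fin (d χ)) (Fin (d χ)) (kk p),
        ∑ᶠ l : ↥(L ⊓ stab θ), T χ l * A * T χ l⁻¹ = (c * A.trace) • (1 : Matrix _ _ (kk p))) ∧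
      ∀ χ' ∈ S, χ ≠ χ' → ∀ A : Matrix (Fin (d χ')) (Fin (d χ)) (kk p),
        ∑ᶠ l : ↥(L ⊓ stab θ), T χ' l * A * T χ l⁻¹ = 0
  zero : ∀ χ ∈ S, ∀ θ ∈ Lin P, tt P U χ θ 1 = 0 → ∀ n, tt P U χ θ n = 0
  orbit : ∀ χ ∈ S, ∀ θ ∈ Lin P, ∀ θ' ∈ Lin P, tt P U χ θ 1 ≠ 0 → tt P U χ θ' 1 ≠ 0 →
    ∃ g ∈ Nm P, cnj g θ = θ'
  conj : ∀ χ ∈ S, ∀ θ ∈ Lin P, ∀ g ∈ Nm P, tt P U χ (cnj g θ) 1 = tt P U χ θ 1 ∧
    ∀ n ∈ NT P θ, Cg p (tt P U χ (cnj g θ) (g * n * g⁻¹)) (tt P U χ θ n)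
  sum : ∀ χ ∈ S, Cg p (χ 1) (∑ᶠ θ : Lin P, tt P U χ θ.1 1)
  reg1 : ∀ θ ∈ Lin P, ∑ᶠ χ : S, χ.1 1 * tt P U χ.1 θ 1 = κ
  reg0 : ∀ θ ∈ Lin P, ∀ l ∈ L, l ≠ 1 → ∑ᶠ χ : S, χ.1 1 * tt P U χ.1 θ l = 0
  kap : ¬ p ∣ κ

/-- `L` is a complement of `P` in its normalizer -/
structure Cmp (p : ℕ) (P L : Subgroup G) : Prop where
  le : L ≤ Nm P
  inf : ∀ x ∈ L, x ∈ P → x = 1
  sup : ∀ n ∈ Nm P, ∃ l ∈ L, ∃ x ∈ P, n = x * l
  card : ¬ p ∣ Nat.card L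

/-- irreducible characters of degree prime to `p` -/
def PI (p : ℕ) (G : Type) [Group G] : Set (G → ℂ) := {χ | χ ∈ Irr G ∧ ¬ p ∣ deg χ}

/-- `χ` (a character of `G`) and `ψ` (a character of the normalizer of `P`) correspond -/
def Rel (p : ℕ) [Fact p.Prime] (P U : Subgroup G) (χ ψ : G → ℂ) : Prop :=
  ∀ θ ∈ Lin P, ∀ n ∈ NT P θ, Cg p (tt P U χ θ n) (tt P ⊥ ψ θ n)

/-- `F` is the correspondence of `(P, U)` -/
structure CorF (p : ℕ) [Fact p.Prime] (P U : Subgroup G) (F : (G → ℂ) → (G → ℂ)) : Prop where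
  bij : Set.BijOn F (PI p G) (IrrS (Nm P))
  rel : ∀ χ ∈ PI p G, Rel p P U χ (F χ)
  uniq : ∀ χ ∈ PI p G, ∀ ψ ∈ IrrS (Nm P), Rel p P U χ ψ → ψ = F χ
  dim : ∀ χ ∈ PI p G, ∀ θ ∈ Lin P, tt P U χ θ 1 = tt P ⊥ (F χ) θ 1
  cg : ∀ χ ∈ PI p G, Cg p (χ 1) (F χ 1)
  pdeg : ∀ ψ ∈ IrrS (Nm P), ¬ p ∣ deg ψ

end summ

end Pool.Agent.Helper68.BR
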