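import Pool.Agent.Helper68.BR.Corr

/-!
# BR-B02: equivariance

By `Frat` there is `n ∈ N` with `n⁻¹ α(x) n ∈ U ↔ x ∈ U`; `β x = n⁻¹ α(x) n` is an automorphism of `G` preserving `P` and `U` (and
`N`). As `χ` is a class function `χ (α x) = χ (β x)`; as `F χ ∈ IrrS N` is invariant under conjugation by `n` (for all arguments: a
class function on `N`, zero off `N`) `F χ (α x) = F χ (β x)`. So we may replace `α` by `β`.
`tt_aut`: substitute in the sums: `tt P U (χ ∘ β) θ m = tt P U χ (θ ∘ β⁻¹) (β m)`, and the same for `⊥`. `θ ∘ β⁻¹ ∈ Lin P`,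
`m ∈ NT P θ → β m ∈ NT P (θ ∘ β⁻¹)`. So `Rel p P U χ (F χ)` gives `Rel p P U (χ ∘ β) (F χ ∘ β)`; `χ ∘ β ∈ PI p G`
(`irr_comp`), `F χ ∘ β ∈ IrrS N`; conclude by `CorF.uniq`.
-/

namespace Pool.Agent.Helper68.BR

open Pool.Agent.Helper42.INC Pool.Agent.Helper42.IR

variable {G : Type} [Group G] [Finite G] {p : ℕ} [Fact p.Prime] {P U : Subgroup G}

omit [Finite G] in
private theorem aut_inv_mem {H : Subgroup G} {β : MulAut G} (h : ∀ x, β x ∈ H ↔ x ∈ H) (x : G) :
    β⁻¹ x ∈ H ↔ x ∈ H := by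
  rw [← h (β⁻¹ x), MulAut.apply_inv_self]

omit [Finite G] in
private theorem aut_bot (β : MulAut G) (x : G) : β x ∈ (⊥ : Subgroup G) ↔ x ∈ (⊥ : Subgroup G) := by
  rw [Subgroup.mem_bot, Subgroup.mem_bot]
  exact map_eq_one_iff β β.injective

/-- the restriction of an automorphism which preserves `H` -/
private def resA (H : Subgroup G) (β : MulAut G) (h : ∀ x, β x ∈ H ↔ x ∈ H) : H ≃* H where
  toFun x := ⟨β x, (h x).2 x.2⟩
  invFun x := ⟨β⁻¹ x, (aut_inv_mem h x).2 x.2⟩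
  left_inv x := Subtype.ext (MulAut.inv_apply_self G β x)
  right_inv x := Subtype.ext (MulAut.apply_inv_self G β x)
  map_mul' x y := Subtype.ext (map_mul β (x : G) y)

theorem tt_aut (χ θ : G → ℂ) (β : MulAut G) (hP : ∀ x, β x ∈ P ↔ x ∈ P)
    (hU : ∀ x, β x ∈ U ↔ x ∈ U) (m : G) :
    tt P U (fun x => χ (β x)) θ m = tt P U χ (fun x => θ (β⁻¹ x)) (β m) := by
  unfold tt
  congr 1
  refine Eq.trans (finsum_congr fun x => ?_) (finsum_comp_equiv (resA P β hP).toEquiv)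
  refine Eq.trans (finsum_congr fun u => ?_) (finsum_comp_equiv (resA U β hU).toEquiv)
  have h1 : (((resA P β hP).toEquiv x : P) : G) = β x := rfl
  have h2 : (((resA U β hU).toEquiv u : U) : G) = β u := rfl
  rw [h1, h2]
  have h3 : β⁻¹ (β (x : G))⁻¹ = (x : G)⁻¹ := by
    rw [← map_inv, MulAut.inv_apply_self]
  simp only [h3, map_mul]

private theorem irr_cls {K : Type} [Group K] {f : K → ℂ} (hf : f ∈ Irr K) (g x : K) :
    f (g * x * g⁻¹) = f x := by
  obtain ⟨V, _, _, _, ρ, hρ, rfl⟩ := hf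
  exact Representation.char_conj ρ x g

private theorem nm_aut {β : MulAut G} (hP : ∀ x, β x ∈ P ↔ x ∈ P) (x : G) :
    β x ∈ Nm P ↔ x ∈ Nm P := by
  rw [Subgroup.mem_normalizer_iff, Subgroup.mem_normalizer_iff]
  constructor
  · intro h y
    have h1 := h (β y)
    rw [← map_inv, ← map_mul, ← map_mul] at h1
    rw [hP, hP] at h1
    exact h1
  · intro h y
    have h1 := h (β⁻¹ y)
    rw [aut_inv_mem hP, ← hP (x * β⁻¹ y * x⁻¹), map_mul, map_mul, map_inv,
      MulAut.apply_inv_self] at h1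
    exact h1

theorem corF_aut (hB : Bru p P U) (hFr : Frat P U) {F : (G → ℂ) → (G → ℂ)} (hF : CorF p P U F)
    (α : MulAut G) (hα : ∀ x, α x ∈ P ↔ x ∈ P) {χ : G → ℂ} (hχ : χ ∈ PI p G) :
    F (fun x => χ (α x)) = fun x => F χ (α x) := by
  obtain ⟨n, hn, hnU⟩ := hFr α hα
  set β : MulAut G := MulAut.conj n⁻¹ * α with hβ
  have hβx : ∀ x, β x = n⁻¹ * α x * n := by
    intro x
    rw [hβ, MulAut.mul_apply, MulAut.conj_apply, inv_inv]
  have hβU : ∀ x, β x ∈ U ↔ x ∈ U := fun x => by rw [hβx]; exact hnU x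
  have hn' := Subgroup.mem_normalizer_iff.1 ((Nm P).inv_mem hn)
  have hβP : ∀ x, β x ∈ P ↔ x ∈ P := by
    intro x
    have h1 := hn' (α x)
    rw [inv_inv] at h1
    rw [hβx]
    exact h1.symm.trans (hα x)
  have hNm : ∀ x, β x ∈ Nm P ↔ x ∈ Nm P := nm_aut hβP
  have hαx : ∀ x, α x = n * β x * n⁻¹ := by
    intro x
    rw [hβx]; group
  have hχc : (fun x => χ (α x)) = fun x => χ (β x) := by
    funext x
    rw [hαx, irr_cls hχ.1]
  have hFS : F χ ∈ IrrS (Nm P) := hF.bij.mapsTo hχ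
  have hFc : (fun x => F χ (α x)) = fun x => F χ (β x) := by
    funext x
    by_cases hx : β x ∈ Nm P
    · have h1 := irr_cls hFS.1 ⟨n, hn⟩ ⟨β x, hx⟩
      rw [hαx]
      exact h1
    · have hx' : α x ∉ Nm P := by
        intro h
        apply hx
        rw [hβx]
        exact (Nm P).mul_mem ((Nm P).mul_mem ((Nm P).inv_mem hn) h) hn
      rw [hFS.2 _ hx, hFS.2 _ hx']
  rw [hχc, hFc]
  have hPI : (fun x => χ (β x)) ∈ PI p G := by
    refine ⟨irr_comp β hχ.1, ?_⟩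
    have : deg (fun x => χ (β x)) = deg χ := by
      unfold deg
      simp only [map_one]
    rw [this]
    exact hχ.2
  have hIS : (fun x => F χ (β x)) ∈ IrrS (Nm P) := by
    refine ⟨irr_comp (resA (Nm P) β hNm) hFS.1, ?_⟩
    intro x hx
    exact hFS.2 _ (fun h => hx ((hNm x).1 h))
  refine (hF.uniq _ hPI _ hIS ?_).symm
  intro θ hθ m hm
  rw [tt_aut χ θ β hβP hβU m, tt_aut (F χ) θ β hβP (aut_bot β) m]
  refine hF.rel χ hχ _ ?_ _ ?_
  · obtain ⟨h1, h2, h3⟩ := hθ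
    refine ⟨?_, ?_, ?_⟩
    · simp only [map_one]; exact h1
    · intro x hx y hy
      simp only [map_mul]
      exact h2 _ ((aut_inv_mem hβP x).2 hx) _ ((aut_inv_mem hβP y).2 hy)
    · intro x hx
      exact h3 _ (fun h => hx ((aut_inv_mem hβP x).1 h))
  · obtain ⟨h1, h2⟩ := Subgroup.mem_inf.1 hm
    refine Subgroup.mem_inf.2 ⟨(hNm m).2 h1, ?_⟩
    rw [mem_stab] at h2 ⊢
    funext x
    have h3 := congrFun h2 (β⁻¹ x)
    rw [cnj_apply] at h3
    rw [cnj_apply]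
    simp only [map_mul, map_inv, MulAut.inv_apply_self]
    exact h3

end Pool.Agent.Helper68.BR
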