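import Mathlib

/-!
# BR-B07: an abelian Sylow subgroup of a perfect group is contained in the commutator subgroup of its normalizer

`N` the normalizer of `P`, `D = ⁅N, N⁆ ⊓ P` and `A = P ⧸ D.subgroupOf P` (abelian, as `P` is), `ϕ : P →* A` the
quotient map. The transfer (Mathlib `MonoidHom.transfer ϕ : G →* A`, needs `CommGroup A`; or use the transfer of homomorphisms
`P →* ℂˣ`: it suffices to show that every homomorphism `ϕ : P →* ℂˣ` trivial on `⁅N, N⁆ ⊓ P` is trivial) is trivial as `G` is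
perfect. For `x ∈ P` the formula `MonoidHom.transfer_eq_prod_quotient_orbitRel_zpowers_quot` expresses it as a product of
`ϕ (g⁻¹ x ^ k g)` with `g⁻¹ x ^ k g ∈ P` and `∑ k = |G : P|` (the `k` are the lengths of the cycles of `x` on `G ⧸ P`: see
the proof of `MonoidHom.transfer_eq_pow` in Mathlib). As `P` is abelian, Burnside's lemma (Mathlib
`Sylow.conj_eq_normalizer_conj_of_mem`) gives `n ∈ N` with `g⁻¹ x ^ k g = n⁻¹ x ^ k n`, which is
`x ^ k` times an element of `⁅N, N⁆ ⊓ P`. So `1 = ϕ x ^ |G : P|`, and `ϕ x` has `p`-power order: `ϕ x = 1`.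
-/

namespace Pool.Agent.Helper68.BR

open scoped commutatorElement in
private theorem conj_mem {G : Type} [Group G] (N : Subgroup G) {a n : G} (ha : a ∈ N) (hn : n ∈ N) :
    a⁻¹ * (n⁻¹ * a * n) ∈ ⁅N, N⁆ := by
  have h4 : ⁅a⁻¹, n⁻¹⁆ = a⁻¹ * (n⁻¹ * a * n) := by
    rw [commutatorElement_def]
    group
  rw [← h4]
  exact Subgroup.commutator_mem_commutator (N.inv_mem ha) (N.inv_mem hn)

theorem le_commutator_normalizer {G : Type} [Group G] [Finite G] {p : ℕ} [Fact p.Prime]
    (hperf : ⁅(⊤ : Subgroup G), (⊤ : Subgroup G)⁆ = ⊤) (P : Sylow p G)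
    (hc : ∀ a ∈ P, ∀ b ∈ P, a * b = b * a) :
    (P : Subgroup G) ≤
      ⁅Subgroup.normalizer (P : Set G), Subgroup.normalizer (P : Set G)⁆ := by
  classical
  have hcomm : IsMulCommutative P := ⟨⟨fun a b => Subtype.ext (hc a a.2 b b.2)⟩⟩
  set N : Subgroup G := Subgroup.normalizer (P : Set G) with hN
  have hPN : (P : Subgroup G) ≤ N := Subgroup.le_normalizer
  set E : Subgroup P := ⁅N, N⁆.subgroupOf (P : Subgroup G) with hE
  let cg : CommGroup P := { (inferInstance : Group P) with mul_comm := fun a b => Subtype.ext (hc a a.2 b b.2) }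
  let ϕ : P →* P ⧸ E := QuotientGroup.mk' E
  let T : G →* P ⧸ E := MonoidHom.transfer ϕ
  have hT : ∀ g : G, T g = 1 := by
    intro g
    have h1 : g ∈ ⁅(⊤ : Subgroup G), (⊤ : Subgroup G)⁆ := by rw [hperf]; exact Subgroup.mem_top g
    have h2 : ⁅(⊤ : Subgroup G), (⊤ : Subgroup G)⁆ ≤ T.ker := by
      rw [Subgroup.commutator_le]
      intro a _ b _
      rw [MonoidHom.mem_ker, map_commutatorElement, commutatorElement_eq_one_iff_mul_comm]
      exact mul_comm _ _
    exact h2 h1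
  intro x hx
  have hfin : Fintype (Quotient (MulAction.orbitRel (Subgroup.zpowers x) (G ⧸ (P : Subgroup G)))) :=
    Fintype.ofFinite _
  have h1 := MonoidHom.transfer_eq_prod_quotient_orbitRel_zpowers_quot ϕ x
  have h2 : ∀ (k : ℕ) (g : G) (hg : g⁻¹ * x ^ k * g ∈ (P : Subgroup G)),
      ϕ ⟨g⁻¹ * x ^ k * g, hg⟩ = ϕ ⟨x, hx⟩ ^ k := by
    intro k g hg
    have hxk : x ^ k ∈ (P : Subgroup G) := Subgroup.pow_mem _ hx k
    obtain ⟨n, hn, hnk⟩ := P.conj_eq_normalizer_conj_of_mem (x ^ k) g hxk hg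
    rw [← map_pow]
    change QuotientGroup.mk' E _ = QuotientGroup.mk' E _
    rw [eq_comm, QuotientGroup.mk'_apply, QuotientGroup.mk'_apply, QuotientGroup.eq, hE, Subgroup.mem_subgroupOf]
    have h3 := conj_mem N (hPN hxk) hn
    rw [← hnk] at h3
    exact h3
  have h3 : T x = ϕ ⟨x, hx⟩ ^ (P : Subgroup G).index := by
    have h4 : T x = ∏ q : Quotient (MulAction.orbitRel (Subgroup.zpowers x) (G ⧸ (P : Subgroup G))),
        ϕ ⟨x, hx⟩ ^ Function.minimalPeriod (x • ·) q.out := by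
      refine h1.trans (Finset.prod_congr rfl fun q _ => ?_)
      exact h2 _ _ _
    rw [h4, Finset.prod_pow_eq_pow_sum, Subgroup.index_eq_sum_minimalPeriod (P : Subgroup G) x]
  rw [hT x] at h3
  have hpg : IsPGroup p (P ⧸ E) := P.2.to_quotient E
  have h4 : ϕ ⟨x, hx⟩ = 1 := by
    have h5 := (hpg.powEquiv' P.not_dvd_index).injective
    apply h5
    change ϕ ⟨x, hx⟩ ^ (P : Subgroup G).index = 1 ^ (P : Subgroup G).index
    rw [one_pow]
    exact h3.symm
  have h5 : (⟨x, hx⟩ : P) ∈ E := (QuotientGroup.eq_one_iff _).1 h4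
  rw [hE, Subgroup.mem_subgroupOf] at h5
  exact h5

end Pool.Agent.Helper68.BR
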