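import Pool.Agent.Helper68.BR.MatchPP
import Pool.Agent.Helper68.BR.MatchP
import Pool.Agent.Helper42.IR.F.GlueM

/-!
# BR-B09: `Good p K`

Adapt `hII` (Pool/Agent/Helper42/IR/F/HII.lean) and `good_of_matched` (GoodOf.lean; copy the private lemmas `mem_normalizer_of`,
`preserves_Q`, `irrN`, `irrN_ext`, `deg_res`, here without `NN`, `T = normalizer Q`).

Let `Q : Sylow p K`. All Sylow subgroups are conjugate, so `bru_conj` gives `U` with `Bru p Q U`, `Frat Q U`
(replace `(P, U)` by `(g P g⁻¹, g U g⁻¹)`). `F` from `exists_corF`. `T = normalizer Q`.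
* `T ≠ ⊤`: otherwise `Q` is normal. Its image in the simple group `S` is trivial or `S`; in the first case `Q ≤ Z(K)`, but
  `p ∤ |Z(K)|`, so `Q = 1`, against `hp`; in the second case `K = Q Z(K)` is abelian (`Q` is), so `S` is abelian, against `hS'`.
* an automorphism preserving `Q` preserves `T`; one preserving `T` preserves `Q` (the unique Sylow `p`-subgroup of `T`).
* the bijection `IrrP p K → IrrP p T`, `θ ↦ (fun t => F θ t)`: `IrrP p K` and `PI p K` agree; `IrrS T` and `Irr T` correspond by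
  restriction and `ext0`, all with degree prime to `p` (`CorF.pdeg`). `CorF.bij`.
* equivariance: `corF_aut`. degrees: `CorF.cg` (`Cg` of two natural numbers gives the congruence modulo `p`: `dvd_of_mem`).
* matched: `matched_of_on` with `matched_pp` for `q ≠ p` and `matched_pgroup` (with `agree'`, `corF_aut`) for `q = p`.
-/

namespace Pool.Agent.Helper68.BR

open Pool.Agent.Helper42.INC Pool.Agent.Helper42.IR Pool.Agent.Helper42.IR.F
open Pool.Agent.Helper7.MK

section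

variable {K : Type} [Group K] {p : ℕ}

private lemma mem_normalizer_of {Q : Subgroup K} {α : MulAut K} (hα : ∀ x, α x ∈ Q ↔ x ∈ Q) (x : K) :
    α x ∈ Subgroup.normalizer (Q : Set K) ↔ x ∈ Subgroup.normalizer (Q : Set K) := by
  rw [Subgroup.mem_normalizer_iff, Subgroup.mem_normalizer_iff]
  constructor
  · intro h y
    have h1 : α y ∈ Q ↔ α x * α y * (α x)⁻¹ ∈ Q := h (α y)
    rw [← hα y, h1, ← map_mul, ← map_inv, ← map_mul]
    exact hα _
  · intro h y
    have h1 : α⁻¹ y ∈ Q ↔ x * α⁻¹ y * x⁻¹ ∈ Q := h (α⁻¹ y)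
    have e1 : α (α⁻¹ y) = y := MulAut.apply_inv_self K α y
    have h2 : y ∈ Q ↔ α⁻¹ y ∈ Q := by
      rw [← hα (α⁻¹ y), e1]
    rw [h2, h1, ← hα (x * α⁻¹ y * x⁻¹), map_mul, map_mul, map_inv, e1]

private lemma preserves_Q [Finite K] [Fact p.Prime] (Q : Sylow p K) {α : MulAut K}
    (hα : ∀ x, α x ∈ Subgroup.normalizer (Q : Set K) ↔ x ∈ Subgroup.normalizer (Q : Set K))
    {x : K} (hx : x ∈ (Q : Subgroup K)) : α x ∈ (Q : Subgroup K) := by
  set Q' : Subgroup K := (Q : Subgroup K).map α.toMonoidHom with hQ'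
  have hP' : IsPGroup p Q' := Q.isPGroup'.map _
  have hle : Q' ≤ Subgroup.normalizer ((Q : Subgroup K) : Set K) := by
    rintro _ ⟨y, hy, rfl⟩
    exact (hα y).2 (Subgroup.le_normalizer hy)
  have hsup : IsPGroup p (Q' ⊔ (Q : Subgroup K) : Subgroup K) :=
    hP'.to_sup_of_normal_right' Q.isPGroup' hle
  have heq := Q.is_maximal' hsup le_sup_right
  have h1 : α x ∈ (Q' ⊔ (Q : Subgroup K) : Subgroup K) :=
    Subgroup.mem_sup_left ⟨x, hx, rfl⟩
  rwa [heq] at h1

end

theorem bru_conj {K : Type} [Group K] [Finite K] {p : ℕ} [Fact p.Prime] {P U : Subgroup K}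
    (hB : Bru p P U) (hFr : Frat P U) (Q : Sylow p K) :
    ∃ U' : Subgroup K, Bru p (Q : Subgroup K) U' ∧ Frat (Q : Subgroup K) U' := by
  obtain ⟨g, hg⟩ := MulAction.exists_smul_eq K (hB.pgroup.toSylow hB.index) Q
  have hQ : ∀ x, x ∈ (Q : Subgroup K) ↔ g⁻¹ * x * g ∈ P := by
    intro x
    rw [← hg, Sylow.coe_subgroup_smul, Subgroup.mem_pointwise_smul_iff_inv_smul_mem, ← map_inv,
      MulAut.smul_def, MulAut.conj_apply, inv_inv]
    exact Iff.rfl
  have hQ' : ∀ x, x ∈ P → g * x * g⁻¹ ∈ (Q : Subgroup K) := by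
    intro x hx
    rw [hQ]
    have e : g⁻¹ * (g * x * g⁻¹) * g = x := by group
    rwa [e]
  set U' : Subgroup K := U.comap (MulAut.conj g⁻¹).toMonoidHom with hU0
  have hU : ∀ x, x ∈ U' ↔ g⁻¹ * x * g ∈ U := by
    intro x
    rw [hU0, Subgroup.mem_comap]
    have e : (MulAut.conj g⁻¹).toMonoidHom x = g⁻¹ * x * g := by
      change MulAut.conj g⁻¹ x = _
      rw [MulAut.conj_apply, inv_inv]
    rw [e]
  have hU' : ∀ x, x ∈ U → g * x * g⁻¹ ∈ U' := by
    intro x hx
    rw [hU]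
    have e : g⁻¹ * (g * x * g⁻¹) * g = x := by group
    rwa [e]
  have hN : ∀ n, n ∈ Nm P → g * n * g⁻¹ ∈ Nm (Q : Subgroup K) := by
    intro n hn
    rw [Subgroup.mem_normalizer_iff] at hn ⊢
    intro x
    have h1 : g⁻¹ * x * g ∈ P ↔ n * (g⁻¹ * x * g) * n⁻¹ ∈ P := hn (g⁻¹ * x * g)
    rw [hQ, hQ, h1]
    have e : g⁻¹ * (g * n * g⁻¹ * x * (g * n * g⁻¹)⁻¹) * g = n * (g⁻¹ * x * g) * n⁻¹ := by group
    rw [e]
  refine ⟨U', ⟨Q.2, Q.not_dvd_index, ?_, ?_, ?_, ?_⟩, ?_⟩
  · intro a ha b hb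
    have h1 := hB.comm _ ((hQ a).1 ha) _ ((hQ b).1 hb)
    have e1 : a * b = g * (g⁻¹ * a * g * (g⁻¹ * b * g)) * g⁻¹ := by group
    have e2 : b * a = g * (g⁻¹ * b * g * (g⁻¹ * a * g)) * g⁻¹ := by group
    rw [e1, h1, ← e2]
  · intro x hx u hu
    rw [hU]
    have h1 := hB.norm _ ((hQ x).1 hx) _ ((hU u).1 hu)
    have e : g⁻¹ * (x * u * x⁻¹) * g = g⁻¹ * x * g * (g⁻¹ * u * g) * (g⁻¹ * x * g)⁻¹ := by group
    rwa [e]
  · intro u hu h
    have h1 := hB.fix _ ((hU u).1 hu) (by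
      intro x hx
      have h2 := h _ (hQ' x hx)
      have e1 : x * (g⁻¹ * u * g) = g⁻¹ * (g * x * g⁻¹ * u) * g := by group
      have e2 : g⁻¹ * u * g * x = g⁻¹ * (u * (g * x * g⁻¹)) * g := by group
      rw [e1, e2, h2])
    have e : u = g * (g⁻¹ * u * g) * g⁻¹ := by group
    rw [e, h1, mul_one, mul_inv_cancel]
  · intro x
    obtain ⟨u, hu, n, hn, u', hu', hx⟩ := hB.cover (g⁻¹ * x * g)
    refine ⟨g * u * g⁻¹, hU' u hu, g * n * g⁻¹, hN n hn, g * u' * g⁻¹, hU' u' hu', ?_⟩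
    have e1 : x = g * (g⁻¹ * x * g) * g⁻¹ := by group
    rw [e1, hx]
    group
  · intro α hα
    obtain ⟨n, hn, h1⟩ := hFr (MulAut.conj g⁻¹ * α * MulAut.conj g) (by
      intro x
      have e1 : (MulAut.conj g⁻¹ * α * MulAut.conj g) x = g⁻¹ * α (g * x * g⁻¹) * g := by
        rw [MulAut.mul_apply, MulAut.mul_apply, MulAut.conj_apply, MulAut.conj_apply, inv_inv]
      have e2 : g⁻¹ * (g * x * g⁻¹) * g = x := by group
      have h2 := hα (g * x * g⁻¹)
      change α (g * x * g⁻¹) ∈ (Q : Subgroup K) ↔ g * x * g⁻¹ ∈ (Q : Subgroup K) at h2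
      rw [hQ, hQ, e2] at h2
      rw [e1]
      exact h2)
    refine ⟨g * n * g⁻¹, hN n hn, fun x => ?_⟩
    have h2 := h1 (g⁻¹ * x * g)
    have e1 : (MulAut.conj g⁻¹ * α * MulAut.conj g) (g⁻¹ * x * g) = g⁻¹ * α x * g := by
      rw [MulAut.mul_apply, MulAut.mul_apply, MulAut.conj_apply, MulAut.conj_apply, inv_inv]
      congr 3
      group
    rw [e1] at h2
    rw [hU, hU, ← h2]
    have e2 : g⁻¹ * ((g * n * g⁻¹)⁻¹ * α x * (g * n * g⁻¹)) * g = n⁻¹ * (g⁻¹ * α x * g) * n := by group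
    rw [e2]

theorem good_of_bru {p : ℕ} [Fact p.Prime] (K : Type) [Group K] [Finite K]
    (hperf : ⁅(⊤ : Subgroup K), (⊤ : Subgroup K)⁆ = ⊤)
    (hz : ¬ p ∣ Nat.card (Subgroup.center K)) (hp : p ∣ Nat.card K) (S : Type) [Group S]
    (hS : IsSimpleGroup S) (hS' : ¬ ∀ a b : S, a * b = b * a)
    (e : Nonempty ((K ⧸ Subgroup.center K) ≃* S)) {P U : Subgroup K} (hB : Bru p P U)
    (hFr : Frat P U) : Good p K := by
  intro Q
  have hp0 : p.Prime := Fact.out
  obtain ⟨U', hB', hFr'⟩ := bru_conj hB hFr Q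
  obtain ⟨F, hF⟩ := exists_corF hB'
  have hPI : ∀ {θ : K → ℂ}, θ ∈ IrrP p K → θ ∈ PI p K := by
    rintro θ ⟨h1, n, hn, hd⟩
    exact ⟨h1, by rwa [deg_eq hn]⟩
  -- the normalizer is proper
  have hT : Subgroup.normalizer ((Q : Subgroup K) : Set K) ≠ ⊤ := by
    intro hT
    have hnor : (Q : Subgroup K).Normal := Subgroup.normalizer_eq_top_iff.1 hT
    obtain ⟨e⟩ := e
    set π : K →* S := e.toMonoidHom.comp (QuotientGroup.mk' (Subgroup.center K)) with hπ
    have hsur : Function.Surjective π := by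
      rw [hπ]
      exact e.surjective.comp (QuotientGroup.mk'_surjective _)
    have hker : ∀ x, π x = 1 → x ∈ Subgroup.center K := by
      intro x hx
      have h1 : e (QuotientGroup.mk' (Subgroup.center K) x) = 1 := hx
      rw [e.map_eq_one_iff] at h1
      exact (QuotientGroup.eq_one_iff x).1 h1
    have hnor' : ((Q : Subgroup K).map π).Normal := hnor.map π hsur
    rcases hS.eq_bot_or_eq_top_of_normal _ hnor' with h1 | h1
    · have hQZ : (Q : Subgroup K) ≤ Subgroup.center K := by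
        intro x hx
        apply hker
        have h2 : π x ∈ (Q : Subgroup K).map π := Subgroup.mem_map_of_mem π hx
        rw [h1] at h2
        exact Subgroup.mem_bot.1 h2
      exact hz ((Q.dvd_card_of_dvd_card hp).trans (Subgroup.card_dvd_of_le hQZ))
    · apply hS'
      intro a b
      have ha : a ∈ (Q : Subgroup K).map π := by rw [h1]; exact Subgroup.mem_top a
      have hb : b ∈ (Q : Subgroup K).map π := by rw [h1]; exact Subgroup.mem_top b
      obtain ⟨x, hx, rfl⟩ := ha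
      obtain ⟨y, hy, rfl⟩ := hb
      rw [← map_mul, ← map_mul, hB'.comm x hx y hy]
  refine ⟨Subgroup.normalizer ((Q : Subgroup K) : Set K), le_rfl, hT,
    fun α hα x => mem_normalizer_of hα x, ?_⟩
  -- the bijection
  have hmem : ∀ θ : IrrP p K, (fun t : Subgroup.normalizer ((Q : Subgroup K) : Set K) =>
      F θ.1 t) ∈ IrrP p (Subgroup.normalizer ((Q : Subgroup K) : Set K)) := by
    intro θ
    have h4 := hF.bij.mapsTo (hPI θ.2)
    have h5 : (fun t : Subgroup.normalizer ((Q : Subgroup K) : Set K) => F θ.1 t) ∈ Irr _ := h4.1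
    exact ⟨h5, deg (F θ.1), by
      have h6 := deg_cast h5
      have h7 : deg (fun t : Subgroup.normalizer ((Q : Subgroup K) : Set K) => F θ.1 t) = deg (F θ.1) := rfl
      rw [h7] at h6
      exact h6.symm, hF.pdeg _ h4⟩
  let f : IrrP p K → IrrP p (Subgroup.normalizer ((Q : Subgroup K) : Set K)) :=
    fun θ => ⟨fun t => F θ.1 t, hmem θ⟩
  have hf : Function.Bijective f := by
    constructor
    · intro θ θ' he
      have h4 := hF.bij.mapsTo (hPI θ.2)
      have h5 := hF.bij.mapsTo (hPI θ'.2)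
      apply Subtype.ext
      apply hF.bij.injOn (hPI θ.2) (hPI θ'.2)
      funext x
      by_cases hx : x ∈ Subgroup.normalizer ((Q : Subgroup K) : Set K)
      · exact congrFun (congrArg Subtype.val he) ⟨x, hx⟩
      · rw [h4.2 x hx, h5.2 x hx]
    · intro φ
      have h4 : ext0 (Subgroup.normalizer ((Q : Subgroup K) : Set K)) φ.1 ∈
          IrrS (Nm (Q : Subgroup K)) := by
        refine ⟨?_, fun x hx => ext0_notMem _ hx⟩
        have h5 : (fun h : Nm (Q : Subgroup K) => ext0 (Subgroup.normalizer ((Q : Subgroup K) : Set K)) φ.1 h) = φ.1 := by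
          funext t
          exact ext0_mem φ.1 t
        rw [h5]
        exact φ.2.1
      obtain ⟨χ, hχ, he⟩ := hF.bij.surjOn h4
      refine ⟨⟨χ, hχ.1, deg χ, (deg_cast hχ.1).symm, hχ.2⟩, ?_⟩
      apply Subtype.ext
      funext t
      change F χ t = φ.1 t
      rw [he]
      exact ext0_mem φ.1 t
  have hαQ : ∀ α : MulAut K, (∀ x, α x ∈ Subgroup.normalizer ((Q : Subgroup K) : Set K) ↔
      x ∈ Subgroup.normalizer ((Q : Subgroup K) : Set K)) → ∀ x, α x ∈ (Q : Subgroup K) ↔ x ∈ (Q : Subgroup K) := by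
    intro α hα x
    constructor
    · intro hx
      have hα' : ∀ x, α⁻¹ x ∈ Subgroup.normalizer ((Q : Subgroup K) : Set K) ↔
          x ∈ Subgroup.normalizer ((Q : Subgroup K) : Set K) := by
        intro y
        rw [← hα (α⁻¹ y), MulAut.apply_inv_self]
      have h4 := preserves_Q Q hα' hx
      rwa [MulAut.inv_apply_self] at h4
    · exact preserves_Q Q hα
  refine ⟨Equiv.ofBijective f hf, ?_, ?_, ?_⟩
  · intro α hα θ θ' hθ t t' htt
    have h4 : θ'.1 = fun x => θ.1 (α x) := funext hθ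
    have h5 := corF_aut hB' hFr' hF α (hαQ α hα) (hPI θ.2)
    change F θ'.1 t = F θ.1 t'
    rw [h4, h5, htt]
  · intro θ
    have h4 := hF.bij.mapsTo (hPI θ.2)
    have h5 : (fun t : Subgroup.normalizer ((Q : Subgroup K) : Set K) => F θ.1 t) ∈ Irr _ := h4.1
    have h6 : (deg (F θ.1) : ℂ) = F θ.1 1 := by
      have h6' := deg_cast h5
      exact h6'
    have h7 : (deg θ.1 : ℂ) = θ.1 1 := deg_cast θ.2.1
    obtain ⟨m, hm, h8⟩ := hF.cg θ.1 (hPI θ.2)
    rw [← h6, ← h7] at h8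
    have h9 : ((deg θ.1 : ℕ) : OO p) - ((deg (F θ.1) : ℕ) : OO p) = m := by
      apply Subtype.ext
      push_cast
      exact h8
    have h10 : ((deg θ.1 : ℕ) : kk p) = ((deg (F θ.1) : ℕ) : kk p) := by
      have h11 := congrArg (IsLocalRing.residue (OO p)) h9
      rw [(IsLocalRing.residue_eq_zero_iff m).2 hm, map_sub, map_natCast, map_natCast, sub_eq_zero] at h11
      exact h11
    have h11 : (deg θ.1 : ZMod p) = (deg (F θ.1) : ZMod p) := by
      rw [CharP.natCast_eq_natCast (kk p) p] at h10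
      exact (ZMod.natCast_eq_natCast_iff _ _ _).2 h10
    change (deg (F θ.1) : ZMod p) ^ 2 = (deg θ.1 : ZMod p) ^ 2
    rw [h11]
  · intro θ
    have hθ := hPI θ.2
    have h4 := hF.bij.mapsTo hθ
    have hφI : (fun t : Subgroup.normalizer ((Q : Subgroup K) : Set K) => F θ.1 t) ∈ Irr _ := h4.1
    change MatchedAut (Subgroup.normalizer ((Q : Subgroup K) : Set K)) θ.1 (fun t => F θ.1 t)
    apply matched_of_on hθ.1 hφI
    intro q hq R0 hR0 hR0q
    have hTr : ∀ r ∈ R0, ∀ x, r x ∈ Subgroup.normalizer ((Q : Subgroup K) : Set K) ↔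
        x ∈ Subgroup.normalizer ((Q : Subgroup K) : Set K) := fun r hr => (hR0 hr).1
    have hinv : ∀ r ∈ R0, ∀ k, θ.1 (r k) = θ.1 k := fun r hr => (hR0 hr).2
    have hQr : ∀ r ∈ R0, ∀ x, r x ∈ (Q : Subgroup K) ↔ x ∈ (Q : Subgroup K) := fun r hr => hαQ r (hTr r hr)
    by_cases hqp : q = p
    · subst hqp
      refine matched_pgroup hperf Q (fun a ha b hb => hB'.comm a ha b hb) hθ.1 hθ.2 hφI (hF.pdeg _ h4)
        (fun z hzK => agree' hperf hz hB' hFr' hF hθ hzK) R0 hR0q hTr hinv ?_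
      intro r hr t t' ht
      have h5 := corF_aut hB' hFr' hF r (hQr r hr) hθ
      have h6 : (fun x => θ.1 (r x)) = θ.1 := funext (hinv r hr)
      rw [h6] at h5
      have h7 := congrFun h5 (t : K)
      change F θ.1 (t' : K) = F θ.1 (t : K)
      rw [ht, h7]
    · have hR : ¬ p ∣ Nat.card R0 := by
        obtain ⟨n, hn⟩ := by
          have _h : Fact q.Prime := ⟨hq⟩
          exact IsPGroup.iff_card.1 hR0q
        rw [hn]
        intro hd
        have h5 := hp0.dvd_of_dvd_pow hd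
        exact hqp ((Nat.prime_dvd_prime_iff_eq hp0 hq).1 h5).symm
      exact matched_pp hperf hz hB' hFr' hF hθ R0 hR hQr hinv

end Pool.Agent.Helper68.BR
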