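import Mathlib

/-!
# BR-A01: sums over a set with the action of a `p`-group

`f : X → V` is constant on the orbits of the `p`-group `Q`. The orbits of length one are the points of `F`;
every other orbit has length divisible by `p` (`MulAction.card_orbit_dvd...`: the length divides `|Q| = p ^ k`
and is not `1`), so its contribution to the sum is `p • (something)`.

Proof suggestion: `X ≃ Σ ω : orbits, ω` (`MulAction.selfEquivSigmaOrbits`), `f` descends to the quotient
`MulAction.orbitRel.Quotient Q X`; or strong induction on the cardinality of a `Q`-stable finset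
`s` (remove the orbit of one point).
-/

namespace Pool.Agent.Helper68.BR

theorem sum_fixed {p : ℕ} [Fact p.Prime] {Q X V : Type} [Group Q] [Finite Q] [MulAction Q X]
    [Fintype X] (hQ : IsPGroup p Q) [AddCommGroup V] (f : X → V)
    (hinv : ∀ (q : Q) (x : X), f (q • x) = f x) (F : Finset X)
    (hF : ∀ x, x ∈ F ↔ ∀ q : Q, q • x = x) :
    ∃ a : V, ∑ x, f x = ∑ x ∈ F, f x + p • a := by
  classical
  have hfin : Finite (MulAction.orbitRel.Quotient Q X) := Quotient.finite _
  letI : Fintype (MulAction.orbitRel.Quotient Q X) := Fintype.ofFinite _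
  have hcompl : ∑ x, f x = ∑ x ∈ F, f x + ∑ x ∈ Fᶜ, f x := (Finset.sum_add_sum_compl F f).symm
  have key : ∀ ω : MulAction.orbitRel.Quotient Q X, ∃ a : V,
      ∑ x ∈ Fᶜ with (Quotient.mk (MulAction.orbitRel Q X) x) = ω, f x = p • a := by
    intro ω
    by_cases h : ∃ x ∈ Fᶜ, Quotient.mk (MulAction.orbitRel Q X) x = ω
    · obtain ⟨x, hx, rfl⟩ := h
      have hset : (Fᶜ.filter fun y => Quotient.mk (MulAction.orbitRel Q X) y =
          Quotient.mk (MulAction.orbitRel Q X) x) = (MulAction.orbit Q x).toFinset := by
        ext y
        rw [Finset.mem_filter, Set.mem_toFinset, Finset.mem_compl]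
        have h1 : Quotient.mk (MulAction.orbitRel Q X) y =
            Quotient.mk (MulAction.orbitRel Q X) x ↔ y ∈ MulAction.orbit Q x := by
          rw [Quotient.eq]
          exact MulAction.orbitRel_apply
        rw [h1]
        constructor
        · exact fun h => h.2
        · intro hy
          refine ⟨?_, hy⟩
          obtain ⟨q, rfl⟩ := hy
          intro hq
          rw [Finset.mem_compl] at hx
          apply hx
          have h2 : (q : Q) • x = x := by
            have h3 := (hF _).1 hq q⁻¹
            rw [inv_smul_smul] at h3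
            exact h3.symm
          change q • x ∈ F at hq
          rwa [h2] at hq
      rw [hset]
      have hconst : ∀ y ∈ (MulAction.orbit Q x).toFinset, f y = f x := by
        intro y hy
        rw [Set.mem_toFinset] at hy
        obtain ⟨q, rfl⟩ := hy
        exact hinv q x
      rw [Finset.sum_congr rfl hconst, Finset.sum_const, Set.toFinset_card]
      obtain ⟨k, hk⟩ := hQ.card_orbit x
      have hk0 : k ≠ 0 := by
        rintro rfl
        rw [pow_zero] at hk
        rw [Finset.mem_compl] at hx
        apply hx
        rw [hF]
        intro q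
        have hsub : Subsingleton (MulAction.orbit Q x) := by
          rw [← Finite.card_le_one_iff_subsingleton, hk]
        have h4 := congrArg Subtype.val (Subsingleton.elim
          (⟨q • x, MulAction.mem_orbit x q⟩ : MulAction.orbit Q x)
          ⟨x, MulAction.mem_orbit_self x⟩)
        exact h4
      obtain ⟨k, rfl⟩ := Nat.exists_eq_succ_of_ne_zero hk0
      refine ⟨(p ^ k) • f x, ?_⟩
      rw [← Nat.card_eq_fintype_card, hk, smul_smul, Nat.succ_eq_add_one, pow_succ']
    · refine ⟨0, ?_⟩
      rw [smul_zero]
      apply Finset.sum_eq_zero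
      intro x hx
      rw [Finset.mem_filter] at hx
      exact absurd ⟨x, hx.1, hx.2⟩ h
  choose a ha using key
  refine ⟨∑ ω, a ω, ?_⟩
  rw [hcompl, Finset.smul_sum, ← Finset.sum_fiberwise Fᶜ
    (fun x => (Quotient.mk (MulAction.orbitRel Q X) x : MulAction.orbitRel.Quotient Q X)) f]
  congr 1
  exact Finset.sum_congr rfl fun ω _ => ha ω

end Pool.Agent.Helper68.BR
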