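import Pool.Agent.Helper68.BR.Defs
import Pool.Agent.Helper68.BR.SumFixed

/-!
# BR-A02: elementary group theory of `Bru p P U`

* `card_U`: `P` acts on `U` by conjugation with the only fixed point `1` (`fix`), so `|U| ≡ 1 mod p`
  (`sum_fixed` with `V = ℤ`, `f = 1`; or `IsPGroup.card_modEq_card_fixedPoints`).
* `inf_PU`: `x ∈ P ∩ U` commutes with `P` (`comm`), so `x = 1` by `fix`.
* `inf_NU`: `u ∈ U` normalizing `P`: for `x ∈ P` the element `u x u⁻¹ x⁻¹` is in `P` and, being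
  `u (x u⁻¹ x⁻¹)`, in `U`; so it is `1`; so `u` commutes with `P` and `u = 1` by `fix`.
* `inf_NUP`: `u x ∈ N`, `x ∈ P` gives `u ∈ N`, so `u = 1`.
* `exists_cmp`: Schur-Zassenhaus in `↥(Nm P)`: `P.subgroupOf (Nm P)` is normal with order a power of `p` and
  index dividing `|G : P|`, prime to `p` (Mathlib `Subgroup.exists_right_complement'_of_coprime`); map the
  complement to `G`; its order is `|N : P|`.
* `exists_kappa`: the set `{u x}` is the subgroup `U ⊔ P` of order `|U| |P|` (`inf_PU`, `norm`); `κ` is its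
  index, which divides `|G : P|`.
* `bru_bot`: `U = ⊥` in the group `↥(Nm P)`.
-/

namespace Pool.Agent.Helper68.BR

open Pool.Agent.Helper42.INC Pool.Agent.Helper42.IR

variable {G : Type} [Group G] [Finite G] {p : ℕ} [Fact p.Prime] {P U : Subgroup G}

theorem card_U (hB : Bru p P U) : Nat.card U ≡ 1 [MOD p] := by
  letI act : MulAction P U :=
    { smul := fun x u => ⟨(x : G) * u * (x : G)⁻¹, hB.norm x x.2 u u.2⟩
      one_smul := fun u => Subtype.ext (by
        show ((1 : P) : G) * u * ((1 : P) : G)⁻¹ = u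
        simp)
      mul_smul := fun x y u => Subtype.ext (by
        show ((x * y : P) : G) * u * ((x * y : P) : G)⁻¹ = (x : G) * ((y : G) * u * (y : G)⁻¹) * (x : G)⁻¹
        push_cast
        group) }
  have h1 := hB.pgroup.card_modEq_card_fixedPoints (α := U)
  have h2 : Nat.card (MulAction.fixedPoints P U) = 1 := by
    rw [Nat.card_eq_one_iff_unique]
    refine ⟨⟨fun a b => ?_⟩, ⟨⟨1, fun x => Subtype.ext ?_⟩⟩⟩
    · have key : ∀ c : MulAction.fixedPoints P U, ((c : U) : G) = 1 := by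
        intro c
        refine hB.fix _ (c : U).2 fun x hx => ?_
        have h3 : (x : G) * ((c : U) : G) * x⁻¹ = ((c : U) : G) :=
          congrArg Subtype.val (c.2 ⟨x, hx⟩)
        rw [mul_inv_eq_iff_eq_mul] at h3
        exact h3
      exact Subtype.ext (Subtype.ext (by rw [key, key]))
    · show (x : G) * ((1 : U) : G) * (x : G)⁻¹ = ((1 : U) : G)
      simp
  rw [h2] at h1
  exact h1

theorem not_dvd_card_U (hB : Bru p P U) : ¬ p ∣ Nat.card U := by
  intro h
  have h1 := card_U hB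
  have h2 := (Nat.modEq_zero_iff_dvd.2 h).symm.trans h1
  have h3 := (Nat.modEq_zero_iff_dvd.1 h2.symm)
  exact (Fact.out (p := p.Prime)).one_lt.ne' (Nat.dvd_one.1 h3)

theorem inf_PU (hB : Bru p P U) {x : G} (hx : x ∈ P) (hu : x ∈ U) : x = 1 :=
  hB.fix x hu fun y hy => hB.comm y hy x hx

theorem inf_NU (hB : Bru p P U) {x : G} (hx : x ∈ Nm P) (hu : x ∈ U) : x = 1 := by
  refine hB.fix x hu fun y hy => ?_
  have h1 : x * y * x⁻¹ ∈ P := (Subgroup.mem_normalizer_iff.1 hx y).1 hy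
  have h2 : x * y * x⁻¹ * y⁻¹ ∈ P := P.mul_mem h1 (P.inv_mem hy)
  have h3 : x * y * x⁻¹ * y⁻¹ ∈ U := by
    have h4 := U.mul_mem hu (hB.norm y hy _ (U.inv_mem hu))
    have e : x * (y * x⁻¹ * y⁻¹) = x * y * x⁻¹ * y⁻¹ := by group
    rwa [e] at h4
  have h5 := inf_PU hB h2 h3
  rw [mul_inv_eq_one, mul_inv_eq_iff_eq_mul] at h5
  exact h5.symm

theorem inf_NUP (hB : Bru p P U) {u x : G} (hu : u ∈ U) (hx : x ∈ P) (h : u * x ∈ Nm P) : u = 1 := by
  refine inf_NU hB ?_ hu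
  have h1 := (Nm P).mul_mem h ((Nm P).inv_mem (Subgroup.le_normalizer hx))
  rwa [mul_inv_cancel_right] at h1

private theorem not_dvd_index_subgroupOf (hB : Bru p P U) : ¬ p ∣ (P.subgroupOf (Nm P)).index := by
  intro h
  refine hB.index (h.trans ?_)
  have := Subgroup.relIndex_mul_index (H := P) (K := Nm P) Subgroup.le_normalizer
  exact ⟨_, this.symm⟩

theorem exists_cmp (hB : Bru p P U) : ∃ L : Subgroup G, Cmp p P L := by
  have hpr := (Fact.out (p := p.Prime))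
  have hP' : IsPGroup p (P.subgroupOf (Nm P)) := hB.pgroup.comap_subtype
  obtain ⟨n, hn⟩ := IsPGroup.iff_card.1 hP'
  have hco : Nat.Coprime (Nat.card (P.subgroupOf (Nm P))) (P.subgroupOf (Nm P)).index := by
    rw [hn]
    exact Nat.Coprime.pow_left n ((Nat.Prime.coprime_iff_not_dvd hpr).2 (not_dvd_index_subgroupOf hB))
  obtain ⟨H, hH⟩ := Subgroup.exists_right_complement'_of_coprime hco
  refine ⟨H.map (Nm P).subtype, ?_, ?_, ?_, ?_⟩
  · exact Subgroup.map_subtype_le H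
  · rintro _ ⟨h, hh, rfl⟩ hP
    have h1 : h ∈ P.subgroupOf (Nm P) ⊓ H := ⟨hP, hh⟩
    rw [hH.disjoint.eq_bot, Subgroup.mem_bot] at h1
    rw [h1]
    rfl
  · intro n hn
    obtain ⟨⟨x, l⟩, hxl, -⟩ := hH.existsUnique ⟨n, hn⟩
    refine ⟨_, ⟨l, l.2, rfl⟩, _, x.2, ?_⟩
    exact (congrArg Subtype.val hxl).symm
  · rw [Subgroup.card_map_of_injective (Subgroup.subtype_injective _)]
    have h1 := hH.symm.index_eq_card
    rw [← h1]
    exact not_dvd_index_subgroupOf hB

theorem exists_kappa (hB : Bru p P U) :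
    ∃ κ : ℕ, ¬ p ∣ κ ∧ Nat.card G = κ * (Nat.card P * Nat.card U) := by
  obtain ⟨H, hH⟩ : ∃ H : Subgroup G, ∀ g, g ∈ H ↔ ∃ u ∈ U, ∃ x ∈ P, g = u * x := by
    refine ⟨{
      carrier := {g | ∃ u ∈ U, ∃ x ∈ P, g = u * x}
      one_mem' := ⟨1, U.one_mem, 1, P.one_mem, by simp⟩
      mul_mem' := ?_
      inv_mem' := ?_ }, fun g => Iff.rfl⟩
    · rintro _ _ ⟨u, hu, x, hx, rfl⟩ ⟨v, hv, y, hy, rfl⟩
      exact ⟨_, U.mul_mem hu (hB.norm x hx v hv), _, P.mul_mem hx hy, by group⟩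
    · rintro _ ⟨u, hu, x, hx, rfl⟩
      refine ⟨_, hB.norm x⁻¹ (P.inv_mem hx) u⁻¹ (U.inv_mem hu), _, P.inv_mem hx, by group⟩
  have hcard : Nat.card H = Nat.card P * Nat.card U := by
    rw [mul_comm, ← Nat.card_prod]
    refine (Nat.card_congr (Equiv.ofBijective (fun a : U × P =>
      (⟨(a.1 : G) * a.2, (hH _).2 ⟨_, a.1.2, _, a.2.2, rfl⟩⟩ : H)) ⟨?_, ?_⟩)).symm
    · rintro ⟨u, x⟩ ⟨v, y⟩ h
      have h1 : (u : G) * x = v * y := congrArg Subtype.val h
      have h2 : (v : G)⁻¹ * u = y * (x : G)⁻¹ := by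
        rw [eq_mul_inv_iff_mul_eq, mul_assoc, h1, inv_mul_cancel_left]
      have h3 : (v : G)⁻¹ * u = 1 := by
        refine inf_PU hB ?_ (U.mul_mem (U.inv_mem v.2) u.2)
        rw [h2]
        exact P.mul_mem y.2 (P.inv_mem x.2)
      have h4 : (u : G) = v := (inv_mul_eq_one.1 h3).symm
      rw [h4] at h1
      have h5 : (x : G) = y := mul_left_cancel h1
      exact Prod.ext (Subtype.ext h4) (Subtype.ext h5)
    · rintro ⟨g, hg⟩
      obtain ⟨u, hu, x, hx, rfl⟩ := (hH g).1 hg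
      exact ⟨(⟨u, hu⟩, ⟨x, hx⟩), rfl⟩
  have hPH : P ≤ H := fun x hx => (hH x).2 ⟨1, U.one_mem, x, hx, (one_mul x).symm⟩
  refine ⟨H.index, fun h => hB.index (h.trans (Subgroup.index_dvd_of_le hPH)), ?_⟩
  rw [← hcard, mul_comm]
  exact (Subgroup.card_mul_index H).symm

theorem bru_bot (hB : Bru p P U) :
    Bru p (P.subgroupOf (Nm P)) (⊥ : Subgroup (Nm P)) where
  pgroup := hB.pgroup.comap_subtype
  index := not_dvd_index_subgroupOf hB
  comm := fun a ha b hb => Subtype.ext (hB.comm a ha b hb)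
  norm := fun x _ u hu => by
    rw [Subgroup.mem_bot] at hu ⊢
    rw [hu, mul_one, mul_inv_cancel]
  fix := fun u hu _ => (Subgroup.mem_bot).1 hu
  cover := fun g => ⟨1, Subgroup.one_mem _, g, by
    show g ∈ Subgroup.normalizer ((P.subgroupOf (Nm P) : Subgroup (Nm P)) : Set (Nm P))
    rw [Subgroup.normalizer_eq_top]
    trivial, 1, Subgroup.one_mem _, by simp⟩

end Pool.Agent.Helper68.BR
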