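import Mathlib

/-!
# BR-A19: matching matrix representations over a field by the Schur relations

`k` a field of characteristic `p`, `H` a finite group of order prime to `p`. `A = 1` in `hT`: `|H| = c d` in `k`, so
`c ≠ 0` and `d ≠ 0` in `k`. Assume that no `j` has the property. Fix `j` with `e j > 0`. For every `A` (of size
`d × e j`) the matrix `f = ∑ h, T h * A * S j h⁻¹` satisfies `T g * f = f * S j g`. If `f ≠ 0` for some `A`: for `B`
(size `e j × d`) put `g = ∑ h, S j h * B * T h⁻¹`; `f * g = ∑ h, f * S j h * B * T h⁻¹ = ∑ h, T h * (f * B) * T h⁻¹ =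
(c * tr (f * B)) • 1` and `g * f = ∑ h, S j h * (B * f) * S j h⁻¹ = (c_j * tr (B * f)) • 1`, where `c_j ≠ 0` as well; choose
`B` with `tr (f * B) ≠ 0` (an elementary matrix). So `f` is invertible on both sides, `e j = d`, and
`(S j h).trace = (f⁻¹ T h f).trace = (T h).trace`: contradiction. So all these `f` are zero; taking `A = E_{ab}` and
summing the `(a, b)` entries: `∑ h, (T h).trace * (S j h⁻¹).trace = 0` for all `j` (also for `e j = 0`). Hence
`0 = ∑ j, w j * ∑ h, (T h).trace * (S j h⁻¹).trace = ∑ h, (T h).trace * (∑ j, w j * (S j h⁻¹).trace) = (T 1).trace * κ =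
d * κ ≠ 0`, a contradiction. `trace_orth`: the last computations in general.
-/

namespace Pool.Agent.Helper68.BR

variable {k : Type} [Field k] {p : ℕ} [Fact p.Prime] [CharP k p] {H : Type} [Group H] [Finite H]

theorem trace_self (hH : ¬ p ∣ Nat.card H) {d : ℕ} (T : H →* Matrix (Fin d) (Fin d) k)
    (hd : 0 < d) (hT : ∃ c : k, ∀ A : Matrix (Fin d) (Fin d) k,
      ∑ᶠ h, T h * A * T h⁻¹ = (c * A.trace) • (1 : Matrix _ _ k)) :
    (d : k) ≠ 0 ∧ ∑ᶠ h, (T h).trace * (T h⁻¹).trace ≠ 0 := by
  classical
  haveI := Fintype.ofFinite H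
  obtain ⟨c, hc⟩ := hT
  have hc' : ∀ A : Matrix (Fin d) (Fin d) k,
      ∑ h, T h * A * T h⁻¹ = (c * A.trace) • (1 : Matrix _ _ k) := by
    intro A; rw [← hc A, finsum_eq_sum_of_fintype]
  have hcard : ((Fintype.card H : ℕ) : k) ≠ 0 := by
    rw [← Nat.card_eq_fintype_card]
    intro h
    exact hH ((CharP.cast_eq_zero_iff k p _).1 h)
  have h1 : ((Fintype.card H : ℕ) : k) = c * d := by
    have h3 : ∀ h : H, T h * 1 * T h⁻¹ = 1 := by
      intro h; rw [mul_one, ← map_mul, mul_inv_cancel, map_one]
    have h2 := hc' 1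
    simp only [h3, Finset.sum_const, Finset.card_univ] at h2
    have h2 := congrArg (fun M : Matrix (Fin d) (Fin d) k => M ⟨0, hd⟩ ⟨0, hd⟩) h2
    simp only [Matrix.smul_apply, Matrix.one_apply_eq, Matrix.trace_one,
      smul_eq_mul, mul_one, nsmul_eq_mul, Fintype.card_fin] at h2
    exact h2
  have hd0 : (d : k) ≠ 0 := by
    intro h; apply hcard; rw [h1, h, mul_zero]
  refine ⟨hd0, ?_⟩
  rw [finsum_eq_sum_of_fintype]
  have h4 : ∑ h, (T h).trace * (T h⁻¹).trace = c * d := by
    have key : ∀ a b : Fin d, ∑ h, T h a a * T h⁻¹ b b = if a = b then c else 0 := by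
      intro a b
      have h5 := congrArg (fun M : Matrix (Fin d) (Fin d) k => M a b) (hc' (Matrix.single a b (1 : k)))
      simp only [Matrix.sum_apply, Matrix.smul_apply] at h5
      have h6 : ∀ h : H, (T h * Matrix.single a b (1 : k) * T h⁻¹) a b = T h a a * T h⁻¹ b b := by
        intro h
        rw [Matrix.mul_apply, Finset.sum_eq_single b]
        · rw [Matrix.mul_single_apply_same, mul_one]
        · intro j _ hj
          rw [Matrix.mul_single_apply_of_ne _ _ _ _ _ (hj), zero_mul]
        · intro h; exact absurd (Finset.mem_univ _) h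
      simp only [h6] at h5
      rw [h5]
      by_cases hab : a = b
      · subst hab; simp
      · simp [hab]
    calc ∑ h, (T h).trace * (T h⁻¹).trace = ∑ h, ∑ a, ∑ b, T h a a * T h⁻¹ b b := by
          refine Finset.sum_congr rfl fun h _ => ?_
          simp only [Matrix.trace, Matrix.diag_apply, Finset.sum_mul_sum]
      _ = ∑ a, ∑ b, ∑ h, T h a a * T h⁻¹ b b := by
          rw [Finset.sum_comm]
          refine Finset.sum_congr rfl fun a _ => ?_
          rw [Finset.sum_comm]
      _ = c * d := by
          simp only [key, Finset.sum_ite_eq, Finset.mem_univ, if_true, Finset.sum_const,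
            Finset.card_univ, Fintype.card_fin, nsmul_eq_mul]
          ring
  rw [h4, ← h1]
  exact hcard

theorem trace_orth {d e : ℕ} (T : H →* Matrix (Fin d) (Fin d) k)
    (S : H →* Matrix (Fin e) (Fin e) k)
    (h : ∀ A : Matrix (Fin d) (Fin e) k, ∑ᶠ h, T h * A * S h⁻¹ = 0) :
    ∑ᶠ h, (T h).trace * (S h⁻¹).trace = 0 := by
  classical
  haveI := Fintype.ofFinite H
  rw [finsum_eq_sum_of_fintype]
  have key : ∀ (a : Fin d) (b : Fin e), ∑ g, T g a a * S g⁻¹ b b = 0 := by
    intro a b
    have h1 := h (Matrix.single a b (1 : k))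
    rw [finsum_eq_sum_of_fintype] at h1
    have h5 := congrArg (fun M : Matrix (Fin d) (Fin e) k => M a b) h1
    simp only [Matrix.sum_apply] at h5
    have h6 : ∀ g : H, (T g * Matrix.single a b (1 : k) * S g⁻¹) a b = T g a a * S g⁻¹ b b := by
      intro g
      rw [Matrix.mul_apply, Finset.sum_eq_single b]
      · rw [Matrix.mul_single_apply_same, mul_one]
      · intro j _ hj
        rw [Matrix.mul_single_apply_of_ne _ _ _ _ _ (hj), zero_mul]
      · intro h; exact absurd (Finset.mem_univ _) h
    simp only [h6] at h5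
    simpa using h5
  calc ∑ g, (T g).trace * (S g⁻¹).trace = ∑ g, ∑ a, ∑ b, T g a a * S g⁻¹ b b := by
        refine Finset.sum_congr rfl fun g _ => ?_
        simp only [Matrix.trace, Matrix.diag_apply, Finset.sum_mul_sum]
    _ = ∑ a, ∑ b, ∑ g, T g a a * S g⁻¹ b b := by
        rw [Finset.sum_comm]
        refine Finset.sum_congr rfl fun a _ => ?_
        rw [Finset.sum_comm]
    _ = 0 := by simp only [key, Finset.sum_const_zero]

theorem exists_match (hH : ¬ p ∣ Nat.card H) {d : ℕ} (T : H →* Matrix (Fin d) (Fin d) k)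
    (hd : 0 < d) (hT : ∃ c : k, ∀ A : Matrix (Fin d) (Fin d) k,
      ∑ᶠ h, T h * A * T h⁻¹ = (c * A.trace) • (1 : Matrix _ _ k))
    {J : Type} [Finite J] (e : J → ℕ) (S : ∀ j, H →* Matrix (Fin (e j)) (Fin (e j)) k)
    (hS : ∀ j, ∃ c : k, ∀ A : Matrix (Fin (e j)) (Fin (e j)) k,
      ∑ᶠ h, S j h * A * S j h⁻¹ = (c * A.trace) • (1 : Matrix _ _ k))
    (w : J → k) (κ : k) (hκ : κ ≠ 0) (h1 : ∑ᶠ j, w j * (S j 1).trace = κ)
    (h0 : ∀ h : H, h ≠ 1 → ∑ᶠ j, w j * (S j h).trace = 0) :
    ∃ j, e j = d ∧ ∀ h, (S j h).trace = (T h).trace := by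
  classical
  haveI := Fintype.ofFinite H
  haveI := Fintype.ofFinite J
  obtain ⟨hd0, -⟩ := trace_self (p := p) hH T hd hT
  by_contra hcon
  push_neg at hcon
  have hcard : ((Fintype.card H : ℕ) : k) ≠ 0 := by
    rw [← Nat.card_eq_fintype_card]
    intro h
    exact hH ((CharP.cast_eq_zero_iff k p _).1 h)
  -- the intertwiners vanish
  have hz : ∀ j, ∀ A : Matrix (Fin d) (Fin (e j)) k, ∑ᶠ h, T h * A * S j h⁻¹ = 0 := by
    intro j A
    by_contra hne
    set f := ∑ᶠ h, T h * A * S j h⁻¹ with hf
    have hf' : f = ∑ h, T h * A * S j h⁻¹ := by rw [hf, finsum_eq_sum_of_fintype]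
    have hint : ∀ g : H, T g * f = f * S j g := by
      intro g
      rw [hf', Matrix.mul_sum, Matrix.sum_mul]
      refine Fintype.sum_equiv (Equiv.mulLeft g) _ _ fun h => ?_
      simp only [Equiv.coe_mulLeft, mul_inv_rev, map_mul]
      have : S j g⁻¹ * S j g = 1 := by rw [← map_mul, inv_mul_cancel, map_one]
      simp only [Matrix.mul_assoc, this, Matrix.mul_one]
    -- a nonzero entry
    obtain ⟨a, b, hab⟩ : ∃ a b, f a b ≠ 0 := by
      by_contra h
      push_neg at h
      exact hne (by ext a b; simpa using h a b)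
    have hej : 0 < e j := lt_of_le_of_lt (Nat.zero_le _) b.2
    set B : Matrix (Fin (e j)) (Fin d) k := Matrix.single b a 1 with hB
    set g : Matrix (Fin (e j)) (Fin d) k := ∑ h, S j h * B * T h⁻¹ with hg
    obtain ⟨c, hc⟩ := hT
    obtain ⟨c', hc'⟩ := hS j
    have hcd : ((Fintype.card H : ℕ) : k) = c * d := by
      have h3 : ∀ h : H, T h * 1 * T h⁻¹ = 1 := by
        intro h; rw [mul_one, ← map_mul, mul_inv_cancel, map_one]
      have h2 := hc 1
      rw [finsum_eq_sum_of_fintype] at h2
      simp only [h3, Finset.sum_const, Finset.card_univ] at h2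
      have h2 := congrArg (fun M : Matrix (Fin d) (Fin d) k => M ⟨0, hd⟩ ⟨0, hd⟩) h2
      simp only [Matrix.smul_apply, Matrix.one_apply_eq, Matrix.trace_one,
        smul_eq_mul, mul_one, nsmul_eq_mul, Fintype.card_fin] at h2
      exact h2
    have hcd' : ((Fintype.card H : ℕ) : k) = c' * (e j : k) := by
      have h3 : ∀ h : H, S j h * 1 * S j h⁻¹ = 1 := by
        intro h; rw [mul_one, ← map_mul, mul_inv_cancel, map_one]
      have h2 := hc' 1
      rw [finsum_eq_sum_of_fintype] at h2
      simp only [h3, Finset.sum_const, Finset.card_univ] at h2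
      have h2 := congrArg (fun M : Matrix (Fin (e j)) (Fin (e j)) k => M ⟨0, hej⟩ ⟨0, hej⟩) h2
      simp only [Matrix.smul_apply, Matrix.one_apply_eq, Matrix.trace_one,
        smul_eq_mul, mul_one, nsmul_eq_mul, Fintype.card_fin] at h2
      exact h2
    have hc0 : c ≠ 0 := by intro h; apply hcard; rw [hcd, h, zero_mul]
    have hc'0 : c' ≠ 0 := by intro h; apply hcard; rw [hcd', h, zero_mul]
    have htr : (f * B).trace = f a b := by
      rw [Matrix.trace, Finset.sum_eq_single a]
      · rw [Matrix.diag_apply, hB, Matrix.mul_single_apply_same, mul_one]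
      · intro i _ hi
        rw [Matrix.diag_apply, hB, Matrix.mul_single_apply_of_ne _ _ _ _ _ hi]
      · intro h; exact absurd (Finset.mem_univ _) h
    have hfg : f * g = (c * f a b) • (1 : Matrix _ _ k) := by
      rw [← htr, ← hc (f * B), finsum_eq_sum_of_fintype, hg, Matrix.mul_sum]
      refine Finset.sum_congr rfl fun h _ => ?_
      rw [← Matrix.mul_assoc, ← Matrix.mul_assoc, ← hint h, ← Matrix.mul_assoc (T h) f B]
    have hint' : ∀ h : H, S j h * B * T h⁻¹ * f = S j h * (B * f) * S j h⁻¹ := by
      intro h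
      rw [Matrix.mul_assoc, hint h⁻¹]
      simp only [Matrix.mul_assoc]
    have hgf : g * f = (c' * f a b) • (1 : Matrix _ _ k) := by
      rw [← htr, Matrix.trace_mul_comm, ← hc' (B * f), finsum_eq_sum_of_fintype, hg,
        Matrix.sum_mul]
      exact Finset.sum_congr rfl fun h _ => hint' h
    -- traces
    have hT' : ∀ h, (S j h).trace = (T h).trace := by
      intro h
      have e1 : (f * S j h * g).trace = (c' * f a b) * (S j h).trace := by
        rw [Matrix.trace_mul_comm, ← Matrix.mul_assoc, hgf, Matrix.smul_mul, Matrix.one_mul,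
          Matrix.trace_smul, smul_eq_mul]
      have e2 : (f * S j h * g).trace = (c * f a b) * (T h).trace := by
        rw [← hint h, Matrix.mul_assoc, hfg, Matrix.mul_smul, Matrix.mul_one,
          Matrix.trace_smul, smul_eq_mul]
      have hcc : c' = c := by
        -- from g f g
        have e3 : g * f * g = (c' * f a b) • g := by rw [hgf, Matrix.smul_mul, Matrix.one_mul]
        have e4 : g * f * g = (c * f a b) • g := by
          rw [Matrix.mul_assoc, hfg, Matrix.mul_smul, Matrix.mul_one]
        have hg0 : g ≠ 0 := by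
          intro h0
          rw [h0, Matrix.mul_zero] at hfg
          have := congrArg (fun M : Matrix (Fin d) (Fin d) k => M ⟨0, hd⟩ ⟨0, hd⟩) hfg
          simp only [Matrix.zero_apply, Matrix.smul_apply, Matrix.one_apply_eq, smul_eq_mul,
            mul_one] at this
          exact (mul_ne_zero hc0 hab) this.symm
        obtain ⟨i, l, hil⟩ : ∃ i l, g i l ≠ 0 := by
          by_contra h
          push_neg at h
          exact hg0 (by ext a b; simpa using h a b)
        have e5 := congrArg (fun M : Matrix (Fin (e j)) (Fin d) k => M i l) (e3.symm.trans e4)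
        simp only [Matrix.smul_apply, smul_eq_mul] at e5
        exact mul_right_cancel₀ hab (mul_right_cancel₀ hil e5)
      rw [hcc] at e1
      exact mul_left_cancel₀ (mul_ne_zero hc0 hab) (e1.symm.trans e2)
    -- the dimensions
    have hdim : e j = d := by
      apply le_antisymm
      · have hinj : Function.Injective (Matrix.mulVecLin f) := by
          intro x y hxy
          have : Matrix.mulVec g (Matrix.mulVec f x) = Matrix.mulVec g (Matrix.mulVec f y) :=
            congrArg _ hxy
          rw [Matrix.mulVec_mulVec, Matrix.mulVec_mulVec, hgf, Matrix.smul_mulVec,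
            Matrix.smul_mulVec, Matrix.one_mulVec, Matrix.one_mulVec] at this
          exact smul_right_injective _ (mul_ne_zero hc'0 hab) this
        have := LinearMap.finrank_le_finrank_of_injective hinj
        simpa using this
      · have hinj : Function.Injective (Matrix.mulVecLin g) := by
          intro x y hxy
          have : Matrix.mulVec f (Matrix.mulVec g x) = Matrix.mulVec f (Matrix.mulVec g y) :=
            congrArg _ hxy
          rw [Matrix.mulVec_mulVec, Matrix.mulVec_mulVec, hfg, Matrix.smul_mulVec,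
            Matrix.smul_mulVec, Matrix.one_mulVec, Matrix.one_mulVec] at this
          exact smul_right_injective _ (mul_ne_zero hc0 hab) this
        have := LinearMap.finrank_le_finrank_of_injective hinj
        simpa using this
    obtain ⟨h, hh⟩ := hcon j hdim
    exact hh (hT' h)
  have horth : ∀ j, ∑ h, (T h).trace * (S j h⁻¹).trace = 0 := by
    intro j
    have := trace_orth T (S j) (hz j)
    rwa [finsum_eq_sum_of_fintype] at this
  have hsum : ∑ j, w j * ∑ h, (T h).trace * (S j h⁻¹).trace = (T 1).trace * κ := by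
    have h3 : ∀ h : H, ∑ j, w j * (S j h⁻¹).trace = if h = 1 then κ else 0 := by
      intro h
      by_cases hh : h = 1
      · subst hh
        rw [if_pos rfl, inv_one, ← h1, finsum_eq_sum_of_fintype]
      · rw [if_neg hh, ← h0 h⁻¹ (fun h' => hh (inv_eq_one.1 h')), finsum_eq_sum_of_fintype]
    calc ∑ j, w j * ∑ h, (T h).trace * (S j h⁻¹).trace
        = ∑ j, ∑ h, (T h).trace * (w j * (S j h⁻¹).trace) := by
          refine Finset.sum_congr rfl fun j _ => ?_
          rw [Finset.mul_sum]
          exact Finset.sum_congr rfl fun h _ => by ring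
      _ = ∑ h, (T h).trace * ∑ j, w j * (S j h⁻¹).trace := by
          rw [Finset.sum_comm]
          exact Finset.sum_congr rfl fun h _ => by rw [Finset.mul_sum]
      _ = (T 1).trace * κ := by
          simp only [h3, mul_ite, mul_zero, Finset.sum_ite_eq', Finset.mem_univ, if_true]
  simp only [horth, mul_zero, Finset.sum_const_zero, map_one, Matrix.trace_one,
    Fintype.card_fin] at hsum
  exact mul_ne_zero hd0 hκ hsum.symm

end Pool.Agent.Helper68.BR
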