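import Pool.Agent.Helper68.BR.Tr
import Pool.Agent.Helper68.BR.Match

/-!
# BR-A20: consequences of `Summ`: separation, matching at one `θ`

`p ∤ |L ⊓ stab θ|` (it divides `|L|`, `Cmp.card`).
* `Summ.inj`: let `d, T` be from `hS.rep θ`; `d χ ≠ 0`, so `d χ > 0`. Suppose `χ ≠ χ'`. By `Red.unique`/`Red.of_cg`
  `(T χ l).trace = (T χ' l).trace` for all `l`. By `trace_orth` (for `T χ'`, `T χ`, from the last clause of `rep`) and
  this equality `∑ (T χ l).trace * (T χ l⁻¹).trace = 0`, contradicting `trace_self`.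
* `Summ.exists_at`: `exists_match` with `H = ↥(L ⊓ stab θ)`, `T = T χ` (from `hS.rep`), `J = S'`, `e, S` from `hS'.rep`, and
  `w ψ = (n : kk p)` where `ψ 1 = n` (`hS'.nat`), `κ' ` as element of `kk p` (nonzero by `hS'.kap`); the hypotheses `h1`, `h0`
  follow from `hS'.reg1`, `hS'.reg0` by `Red.sum`, `Red.mul`, `Red.nat`, `Red.unique`
  (`tt P U' ψ θ 1 = e ψ`, `Red p (tt P U' ψ θ l) (T' ψ l).trace`; `∑ᶠ` over the finite type `S'`). `e ψ = d χ` gives the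
  first claim, the equality of the traces with `Red.cg` the second.
* `Summ.dk`: `(d : kk p) ≠ 0` from `trace_self`.
-/

namespace Pool.Agent.Helper68.BR

open Pool.Agent.Helper42.INC Pool.Agent.Helper42.IR

variable {G : Type} [Group G] [Finite G] {p : ℕ} [Fact p.Prime] {P U U' L : Subgroup G}
  {S S' : Set (G → ℂ)} {κ κ' : ℕ} {χ χ' θ : G → ℂ}

omit [Finite G] [Fact p.Prime] in
private theorem card_inf_stab (hL : Cmp p P L) (θ : G → ℂ) :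
    ¬ p ∣ Nat.card ↥(L ⊓ stab θ) := fun h =>
  hL.card (h.trans (Subgroup.card_dvd_of_le inf_le_left))

private theorem pos_of_ne {d : ℕ} {a : ℂ} (h : a = d) (hne : a ≠ 0) : 0 < d := by
  rcases Nat.eq_zero_or_pos d with h0 | h0
  · exfalso
    apply hne
    rw [h, h0, Nat.cast_zero]
  · exact h0

theorem Summ.inj (hS : Summ p P U L S κ) (hL : Cmp p P L) (hχ : χ ∈ S) (hχ' : χ' ∈ S)
    (hθ : θ ∈ Lin P) (hne : tt P U χ θ 1 ≠ 0)
    (h : ∀ l ∈ L, cnj l θ = θ → Cg p (tt P U χ θ l) (tt P U χ' θ l)) : χ = χ' := by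
  by_contra hcc
  obtain ⟨d, T, hT⟩ := hS.rep θ hθ
  obtain ⟨h1, h2, h3, h4⟩ := hT χ hχ
  obtain ⟨h1', h2', h3', h4'⟩ := hT χ' hχ'
  have hd : 0 < d χ := pos_of_ne h1 hne
  have htr : ∀ l : ↥(L ⊓ stab θ), (T χ l).trace = (T χ' l).trace := by
    intro l
    have h5 : Cg p (tt P U χ θ l) (tt P U χ' θ l) := h l l.2.1 l.2.2
    exact (h2 l).unique ((h2' l).of_cg h5)
  have h6 := (trace_self (p := p) (card_inf_stab hL θ) (T χ) hd h3).2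
  apply h6
  have h7 := trace_orth (T χ') (T χ) (h4 χ' hχ' hcc)
  rw [← h7]
  exact finsum_congr fun l => by rw [htr l]

theorem Summ.exists_at (hS : Summ p P U L S κ) (hS' : Summ p P U' L S' κ') (hL : Cmp p P L)
    (hχ : χ ∈ S) (hθ : θ ∈ Lin P) (hne : tt P U χ θ 1 ≠ 0) :
    ∃ ψ ∈ S', tt P U' ψ θ 1 = tt P U χ θ 1 ∧
      ∀ l ∈ L, cnj l θ = θ → Cg p (tt P U χ θ l) (tt P U' ψ θ l) := by
  classical
  obtain ⟨d, T, hT⟩ := hS.rep θ hθ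
  obtain ⟨h1, h2, h3, h4⟩ := hT χ hχ
  obtain ⟨e, R, hR⟩ := hS'.rep θ hθ
  have hd : 0 < d χ := pos_of_ne h1 hne
  have hfin : Finite S' := hS'.fin
  have hft : Fintype S' := Fintype.ofFinite S'
  choose n hn using fun ψ : S' => hS'.nat ψ.1 ψ.2
  have hκ : ((κ' : ℕ) : kk p) ≠ 0 := fun h0 => hS'.kap ((CharP.cast_eq_zero_iff (kk p) p _).1 h0)
  have key : ∀ l : ↥(L ⊓ stab θ), Red p (∑ᶠ ψ : S', ψ.1 1 * tt P U' ψ.1 θ l)
      (∑ᶠ ψ : S', ((n ψ : ℕ) : kk p) * (R ψ.1 l).trace) := by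
    intro l
    rw [finsum_eq_sum_of_fintype, finsum_eq_sum_of_fintype]
    refine Red.sum _ fun ψ _ => ?_
    rw [hn ψ]
    exact (Red.nat (n ψ)).mul ((hR ψ.1 ψ.2).2.1 l)
  obtain ⟨ψ, h5, h6⟩ := exists_match (p := p) (card_inf_stab hL θ) (T χ) hd h3
    (fun ψ : S' => e ψ.1) (fun ψ : S' => R ψ.1) (fun ψ => (hR ψ.1 ψ.2).2.2.1)
    (fun ψ => ((n ψ : ℕ) : kk p)) ((κ' : ℕ) : kk p) hκ (by
      have h7 := key 1
      have h8 : ∑ᶠ ψ : S', ψ.1 1 * tt P U' ψ.1 θ ((1 : ↥(L ⊓ stab θ)) : G) = κ' := by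
        rw [Subgroup.coe_one]
        exact hS'.reg1 θ hθ
      rw [h8] at h7
      exact h7.unique (Red.nat κ')) (by
      intro l hl
      have h7 := key l
      have h8 : ∑ᶠ ψ : S', ψ.1 1 * tt P U' ψ.1 θ l = 0 :=
        hS'.reg0 θ hθ l l.2.1 (fun h => hl (Subtype.ext h))
      rw [h8] at h7
      exact h7.unique Red.zero)
  refine ⟨ψ.1, ψ.2, ?_, fun l hl hlθ => ?_⟩
  · rw [(hR ψ.1 ψ.2).1, h1]
    exact congrArg (fun m : ℕ => (m : ℂ)) h5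
  · have h7 := h2 ⟨l, hl, hlθ⟩
    have h8 := (hR ψ.1 ψ.2).2.1 ⟨l, hl, hlθ⟩
    rw [← h6 ⟨l, hl, hlθ⟩] at h7
    exact h7.cg h8

theorem Summ.dk (hS : Summ p P U L S κ) (hL : Cmp p P L) (hχ : χ ∈ S) (hθ : θ ∈ Lin P)
    (hne : tt P U χ θ 1 ≠ 0) : ∃ d : ℕ, tt P U χ θ 1 = d ∧ ¬ p ∣ d := by
  obtain ⟨d, T, hT⟩ := hS.rep θ hθ
  obtain ⟨h1, h2, h3, h4⟩ := hT χ hχ
  have hd : 0 < d χ := pos_of_ne h1 hne
  have h6 := (trace_self (p := p) (card_inf_stab hL θ) (T χ) hd h3).1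
  exact ⟨d χ, h1, fun h => h6 ((CharP.cast_eq_zero_iff (kk p) p _).2 h)⟩

end Pool.Agent.Helper68.BR
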