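import Pool.Agent.Helper68.BR.Avg
import Pool.Agent.Helper68.BR.Cosets

/-!
# BR-A12: Schur relations modulo `p`

`Φ g = M' θ θ g * A * M θ θ g⁻¹` (matrices over `OO p`, `A` over `OO p`). By `C_left`, `C_right` it is invariant under left and
right multiplication of `g` by `u x`: the scalars are `θ x` and `θ (x⁻¹) = (θ x)⁻¹`
(`(g (u x))⁻¹ = x⁻¹ u⁻¹ g⁻¹ = (x⁻¹ u⁻¹ x) x⁻¹ g⁻¹`, `(u x g)⁻¹ = g⁻¹ (x⁻¹ u⁻¹ x) x⁻¹`, with `x⁻¹ u⁻¹ x ∈ U`). `coset_sum` gives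
`∑ Φ g = (|P| |U|) • (∑_{l ∈ L} Φ l + p • a)`; for `l ∈ L`, `l ∉ stab θ`: `M' θ θ l = 0` (`C_ne`). With `exists_kappa`
(`|G| = κ |P| |U|`) and `avg_same` (over `ℂ`, cancel `|P| |U| ≠ 0`):
`∑_{l ∈ L ⊓ stab θ} Φ l + p • a = (κ tr A / χ(1)) • 1`.
If `d = 0` everything is trivial. If `d > 0` take `A = E_00`: the `(0,0)` entry shows
`κ / χ(1) ∈ OO p`, with residue `c` say; for general `A` over `kk p` lift `A` to `OO p` (the residue map is surjective)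
and take residues. `schur_diff`: the same with `avg_diff`.
-/

namespace Pool.Agent.Helper68.BR

open Pool.Agent.Helper42.INC Pool.Agent.Helper42.IR

variable {G : Type} [Group G] [Finite G] {p : ℕ} [Fact p.Prime] {P U L : Subgroup G}
  {θ η : G → ℂ} {V : Type} [AddCommGroup V] [Module ℂ V] [FiniteDimensional ℂ V]
  {ρ : Representation ℂ G V} {V' : Type} [AddCommGroup V'] [Module ℂ V'] [FiniteDimensional ℂ V']
  {ρ' : Representation ℂ G V'}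

private theorem alg_inj {m n : ℕ} : Function.Injective
    (fun M : Matrix (Fin m) (Fin n) (OO p) => M.map (algebraMap (OO p) ℂ)) :=
  Matrix.map_injective (IsFractionRing.injective (OO p) ℂ)

omit [Finite G] [FiniteDimensional ℂ V] [FiniteDimensional ℂ V'] in
private theorem key_map (Λ : Lat p P U ρ) (Λ' : Lat p P U ρ')
    (A : Matrix (Fin (Λ'.d θ)) (Fin (Λ.d θ)) (OO p)) (g g' : G) :
    (Λ'.M θ θ g * A * Λ.M θ θ g').map (algebraMap (OO p) ℂ) =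
      Λ'.C θ θ g * A.map (algebraMap (OO p) ℂ) * Λ.C θ θ g' := by
  rw [Matrix.map_mul, Matrix.map_mul]
  rfl

omit [Finite G] [FiniteDimensional ℂ V] [FiniteDimensional ℂ V'] in
private theorem key_mapK (Λ : Lat p P U ρ) (Λ' : Lat p P U ρ')
    (A : Matrix (Fin (Λ'.d θ)) (Fin (Λ.d θ)) (OO p)) (g g' : G) :
    (Λ'.M θ θ g * A * Λ.M θ θ g').map (IsLocalRing.residue (OO p)) =
      Λ'.K θ θ g * A.map (IsLocalRing.residue (OO p)) * Λ.K θ θ g' := by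
  rw [Matrix.map_mul, Matrix.map_mul]
  rfl

omit [Finite G] in
private theorem th_inv (hθ : θ ∈ Lin P) {x : G} (hx : x ∈ P) : θ x * θ x⁻¹ = 1 := by
  rw [← hθ.2.1 x hx _ (P.inv_mem hx), mul_inv_cancel, hθ.1]

private theorem key_sum (hB : Bru p P U) (hL : Cmp p P L) (Λ : Lat p P U ρ) (Λ' : Lat p P U ρ')
    (hθ : θ ∈ Lin P) (A : Matrix (Fin (Λ'.d θ)) (Fin (Λ.d θ)) (OO p)) :
    ∃ a : Matrix (Fin (Λ'.d θ)) (Fin (Λ.d θ)) (OO p),
      ∑ᶠ g, Λ'.C θ θ g * A.map (algebraMap (OO p) ℂ) * Λ.C θ θ g⁻¹ =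
        (Nat.card P * Nat.card U) •
          ((∑ᶠ l : ↥(L ⊓ stab θ), Λ'.M θ θ l * A * Λ.M θ θ (l : G)⁻¹) +
            p • a).map (algebraMap (OO p) ℂ) := by
  set Φ : G → Matrix (Fin (Λ'.d θ)) (Fin (Λ.d θ)) (OO p) :=
    fun g => Λ'.M θ θ g * A * Λ.M θ θ g⁻¹ with hΦ
  have hmap : ∀ g, (Φ g).map (algebraMap (OO p) ℂ) =
      Λ'.C θ θ g * A.map (algebraMap (OO p) ℂ) * Λ.C θ θ g⁻¹ := fun g => key_map Λ Λ' A g g⁻¹
  have hU : ∀ u ∈ U, ∀ x ∈ P, x⁻¹ * u⁻¹ * x ∈ U := by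
    intro u hu x hx
    have := hB.norm x⁻¹ (P.inv_mem hx) u⁻¹ (U.inv_mem hu)
    rwa [inv_inv] at this
  have hsm : ∀ x ∈ P, ∀ (X : Matrix (Fin (Λ'.d θ)) (Fin (Λ'.d θ)) ℂ)
      (Y : Matrix (Fin (Λ'.d θ)) (Fin (Λ.d θ)) ℂ) (Z : Matrix (Fin (Λ.d θ)) (Fin (Λ.d θ)) ℂ),
      (θ x • X) * Y * (θ x⁻¹ • Z) = X * Y * Z := by
    intro x hx X Y Z
    rw [Matrix.smul_mul, Matrix.smul_mul, Matrix.mul_smul, smul_smul, th_inv hθ hx, one_smul]
  have hl : ∀ u ∈ U, ∀ x ∈ P, ∀ g, Φ (u * x * g) = Φ g := by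
    intro u hu x hx g
    apply alg_inj (p := p)
    change (Φ (u * x * g)).map (algebraMap (OO p) ℂ) = (Φ g).map (algebraMap (OO p) ℂ)
    rw [hmap, hmap]
    have h1 : (u * x * g)⁻¹ = g⁻¹ * ((x⁻¹ * u⁻¹ * x) * x⁻¹) := by group
    rw [h1, C_left hB Λ' hθ hθ hu hx, C_right hB Λ hθ hθ (hU u hu x hx) (P.inv_mem hx)]
    exact hsm x hx _ _ _
  have hr : ∀ u ∈ U, ∀ x ∈ P, ∀ g, Φ (g * (u * x)) = Φ g := by
    intro u hu x hx g
    apply alg_inj (p := p)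
    change (Φ (g * (u * x))).map (algebraMap (OO p) ℂ) = (Φ g).map (algebraMap (OO p) ℂ)
    rw [hmap, hmap]
    have h1 : (g * (u * x))⁻¹ = (x⁻¹ * u⁻¹ * x) * x⁻¹ * g⁻¹ := by group
    rw [h1, C_right hB Λ' hθ hθ hu hx, C_left hB Λ hθ hθ (hU u hu x hx) (P.inv_mem hx)]
    exact hsm x hx _ _ _
  obtain ⟨a, ha⟩ := coset_sum hB hL Φ hl hr
  refine ⟨a, ?_⟩
  have hsum : ∑ᶠ l : L, Φ l = ∑ᶠ l : ↥(L ⊓ stab θ), Φ l := by
    have e1 : ∑ᶠ l : L, Φ l = ∑ᶠ l ∈ (L : Set G), Φ l :=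
      finsum_set_coe_eq_finsum_mem (L : Set G)
    have e2 : ∑ᶠ l : ↥(L ⊓ stab θ), Φ l = ∑ᶠ l ∈ ((L ⊓ stab θ : Subgroup G) : Set G), Φ l :=
      finsum_set_coe_eq_finsum_mem ((L ⊓ stab θ : Subgroup G) : Set G)
    rw [e1, e2]
    apply finsum_mem_inter_support_eq
    ext l
    simp only [Set.mem_inter_iff, SetLike.mem_coe, Subgroup.mem_inf, Function.mem_support]
    constructor
    · rintro ⟨h1, h2⟩
      refine ⟨⟨h1, ?_⟩, h2⟩
      by_contra h3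
      apply h2
      apply alg_inj (p := p)
      change (Φ l).map (algebraMap (OO p) ℂ) =
        (0 : Matrix (Fin (Λ'.d θ)) (Fin (Λ.d θ)) (OO p)).map (algebraMap (OO p) ℂ)
      rw [hmap, C_ne hB Λ' hθ hθ (hL.le h1) (fun h => h3 (mem_stab.2 h)), Matrix.zero_mul,
        Matrix.zero_mul, Matrix.map_zero _ (map_zero _)]
    · rintro ⟨⟨h1, -⟩, h2⟩
      exact ⟨h1, h2⟩
  rw [hsum] at ha
  have hF : ∀ X : Matrix (Fin (Λ'.d θ)) (Fin (Λ.d θ)) (OO p),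
      X.map (algebraMap (OO p) ℂ) =
        (algebraMap (OO p) ℂ).toAddMonoidHom.mapMatrix X := fun X => rfl
  have h2 : (∑ᶠ g, Φ g).map (algebraMap (OO p) ℂ) =
      ∑ᶠ g, Λ'.C θ θ g * A.map (algebraMap (OO p) ℂ) * Λ.C θ θ g⁻¹ := by
    rw [hF, AddMonoidHom.map_finsum _ (Set.toFinite _)]
    exact finsum_congr fun g => hmap g
  rw [← h2, ha, hF, map_nsmul, ← hF]

private theorem key_red (Λ : Lat p P U ρ) (Λ' : Lat p P U ρ')
    (A a : Matrix (Fin (Λ'.d θ)) (Fin (Λ.d θ)) (OO p)) :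
    ((∑ᶠ l : ↥(L ⊓ stab θ), Λ'.M θ θ l * A * Λ.M θ θ (l : G)⁻¹) +
      p • a).map (IsLocalRing.residue (OO p)) =
      ∑ᶠ l : ↥(L ⊓ stab θ), Λ'.K θ θ l * A.map (IsLocalRing.residue (OO p)) *
        Λ.K θ θ (l : G)⁻¹ := by
  have hF : ∀ X : Matrix (Fin (Λ'.d θ)) (Fin (Λ.d θ)) (OO p),
      X.map (IsLocalRing.residue (OO p)) =
        (IsLocalRing.residue (OO p)).toAddMonoidHom.mapMatrix X := fun X => rfl
  have h0 : p • (IsLocalRing.residue (OO p)).toAddMonoidHom.mapMatrix a = 0 := by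
    ext i j
    rw [Matrix.smul_apply, nsmul_eq_mul, CharP.cast_eq_zero, zero_mul]
    rfl
  rw [hF, map_add, map_nsmul, h0, add_zero, AddMonoidHom.map_finsum _ (Set.toFinite _)]
  exact finsum_congr fun l => key_mapK Λ Λ' A l (l : G)⁻¹

private theorem key_lift {m n : ℕ} (A : Matrix (Fin m) (Fin n) (kk p)) :
    ∃ B : Matrix (Fin m) (Fin n) (OO p), B.map (IsLocalRing.residue (OO p)) = A := by
  have h : ∀ i j, ∃ b : OO p, IsLocalRing.residue (OO p) b = A i j := fun i j =>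
    IsLocalRing.residue_surjective _
  choose f hf using h
  exact ⟨Matrix.of f, by ext i j; exact hf i j⟩

theorem schur_same (hB : Bru p P U) (hL : Cmp p P L) (hρ : ρ.IsIrreducible) (Λ : Lat p P U ρ)
    (hθ : θ ∈ Lin P) :
    ∃ c : kk p, ∀ A : Matrix (Fin (Λ.d θ)) (Fin (Λ.d θ)) (kk p),
      ∑ᶠ l : ↥(L ⊓ stab θ), Λ.K θ θ l * A * Λ.K θ θ (l : G)⁻¹ =
        (c * A.trace) • (1 : Matrix _ _ (kk p)) := by
  obtain ⟨κ, hκ, hG⟩ := exists_kappa hB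
  have hPU : ((Nat.card P * Nat.card U : ℕ) : ℂ) ≠ 0 := by
    have h1 : Nat.card P * Nat.card U ≠ 0 := by
      intro h
      rw [h, mul_zero] at hG
      exact Nat.card_pos.ne' hG
    exact_mod_cast h1
  -- the identity over the valuation ring, seen in `ℂ`
  have hid : ∀ A : Matrix (Fin (Λ.d θ)) (Fin (Λ.d θ)) (OO p), ∃ a,
      ((∑ᶠ l : ↥(L ⊓ stab θ), Λ.M θ θ l * A * Λ.M θ θ (l : G)⁻¹) +
        p • a).map (algebraMap (OO p) ℂ) =
        ((κ : ℂ) / ρ.character 1 * ((A.trace : OO p) : ℂ)) •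
          (1 : Matrix (Fin (Λ.d θ)) (Fin (Λ.d θ)) ℂ) := by
    intro A
    obtain ⟨a, ha⟩ := key_sum hB hL Λ Λ hθ A
    refine ⟨a, ?_⟩
    rw [avg_same hB hρ Λ hθ hθ, ← Nat.cast_smul_eq_nsmul ℂ] at ha
    have htr : (A.map (algebraMap (OO p) ℂ)).trace = ((A.trace : OO p) : ℂ) := by
      rw [Matrix.trace, Matrix.trace]
      have : ((∑ i, A.diag i : OO p) : ℂ) = algebraMap (OO p) ℂ (∑ i, A.diag i) := rfl
      rw [this, map_sum]
      rfl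
    rw [htr, hG] at ha
    have h2 := congrArg (fun X => ((Nat.card P * Nat.card U : ℕ) : ℂ)⁻¹ • X) ha
    simp only [smul_smul] at h2
    rw [inv_mul_cancel₀ hPU, one_smul] at h2
    rw [← h2]
    congr 1
    have h3 : ((κ * (Nat.card P * Nat.card U) : ℕ) : ℂ) =
        (κ : ℂ) * ((Nat.card P * Nat.card U : ℕ) : ℂ) := by push_cast; ring
    rw [h3]
    calc ((Nat.card P * Nat.card U : ℕ) : ℂ)⁻¹ *
          ((κ : ℂ) * ((Nat.card P * Nat.card U : ℕ) : ℂ) * ((A.trace : OO p) : ℂ) /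
            ρ.character 1)
        = (((Nat.card P * Nat.card U : ℕ) : ℂ)⁻¹ * ((Nat.card P * Nat.card U : ℕ) : ℂ)) *
          ((κ : ℂ) * ((A.trace : OO p) : ℂ) / ρ.character 1) := by ring
      _ = (κ : ℂ) / ρ.character 1 * ((A.trace : OO p) : ℂ) := by
          rw [inv_mul_cancel₀ hPU, one_mul]; ring
  by_cases hd : Λ.d θ = 0
  · refine ⟨0, fun A => ?_⟩
    ext i
    exact absurd i.2 (by omega)
  let i0 : Fin (Λ.d θ) := ⟨0, Nat.pos_of_ne_zero hd⟩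
  obtain ⟨a0, ha0⟩ := hid (Matrix.diagonal (Pi.single i0 1))
  have htr0 : (Matrix.diagonal (Pi.single i0 (1 : OO p)) :
      Matrix (Fin (Λ.d θ)) (Fin (Λ.d θ)) (OO p)).trace = 1 := by
    rw [Matrix.trace_diagonal, Finset.sum_pi_single']
    simp
  rw [htr0] at ha0
  set S0 := (∑ᶠ l : ↥(L ⊓ stab θ), Λ.M θ θ l *
    (Matrix.diagonal (Pi.single i0 (1 : OO p)) : Matrix (Fin (Λ.d θ)) (Fin (Λ.d θ)) (OO p)) *
      Λ.M θ θ (l : G)⁻¹) + p • a0 with hS0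
  set z : OO p := S0 i0 i0 with hz
  have hzC : (z : ℂ) = (κ : ℂ) / ρ.character 1 := by
    have h1 := congrFun (congrFun ha0 i0) i0
    rw [Matrix.map_apply, Matrix.smul_apply, Matrix.one_apply_eq] at h1
    have h2 : ((1 : OO p) : ℂ) = 1 := rfl
    rw [h2, mul_one, smul_eq_mul, mul_one] at h1
    exact h1
  refine ⟨IsLocalRing.residue (OO p) z, fun A => ?_⟩
  obtain ⟨B, rfl⟩ := key_lift A
  obtain ⟨a, ha⟩ := hid B
  have hS : (∑ᶠ l : ↥(L ⊓ stab θ), Λ.M θ θ l * B * Λ.M θ θ (l : G)⁻¹) + p • a =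
      (z * B.trace) • (1 : Matrix (Fin (Λ.d θ)) (Fin (Λ.d θ)) (OO p)) := by
    apply alg_inj (p := p)
    change ((∑ᶠ l : ↥(L ⊓ stab θ), Λ.M θ θ l * B * Λ.M θ θ (l : G)⁻¹) +
      p • a).map (algebraMap (OO p) ℂ) =
      ((z * B.trace) • (1 : Matrix (Fin (Λ.d θ)) (Fin (Λ.d θ)) (OO p))).map (algebraMap (OO p) ℂ)
    rw [ha, ← hzC]
    ext i j
    rw [Matrix.map_apply, Matrix.smul_apply, Matrix.smul_apply, smul_eq_mul, smul_eq_mul, map_mul,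
      map_mul]
    by_cases hij : i = j
    · subst hij
      rw [Matrix.one_apply_eq, Matrix.one_apply_eq, map_one]
      rfl
    · rw [Matrix.one_apply_ne hij, Matrix.one_apply_ne hij, map_zero, mul_zero, mul_zero]
  rw [← key_red Λ Λ B a, hS]
  ext i j
  rw [Matrix.map_apply, Matrix.smul_apply, Matrix.smul_apply, smul_eq_mul, smul_eq_mul, map_mul,
    map_mul]
  have htr : (B.map (IsLocalRing.residue (OO p))).trace = IsLocalRing.residue (OO p) B.trace := by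
    rw [Matrix.trace, Matrix.trace, map_sum]
    rfl
  rw [htr]
  by_cases hij : i = j
  · subst hij
    rw [Matrix.one_apply_eq, Matrix.one_apply_eq, map_one]
  · rw [Matrix.one_apply_ne hij, Matrix.one_apply_ne hij, map_zero, mul_zero]

theorem schur_diff (hB : Bru p P U) (hL : Cmp p P L) (hρ : ρ.IsIrreducible)
    (hρ' : ρ'.IsIrreducible) (hne : ρ.character ≠ ρ'.character) (Λ : Lat p P U ρ)
    (Λ' : Lat p P U ρ') (hθ : θ ∈ Lin P) (A : Matrix (Fin (Λ'.d θ)) (Fin (Λ.d θ)) (kk p)) :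
    ∑ᶠ l : ↥(L ⊓ stab θ), Λ'.K θ θ l * A * Λ.K θ θ (l : G)⁻¹ = 0 := by
  obtain ⟨κ, hκ, hG⟩ := exists_kappa hB
  have hPU : ((Nat.card P * Nat.card U : ℕ) : ℂ) ≠ 0 := by
    have h1 : Nat.card P * Nat.card U ≠ 0 := by
      intro h
      rw [h, mul_zero] at hG
      exact Nat.card_pos.ne' hG
    exact_mod_cast h1
  obtain ⟨B, rfl⟩ := key_lift A
  obtain ⟨a, ha⟩ := key_sum hB hL Λ Λ' hθ B
  rw [avg_diff hB hρ hρ' hne Λ Λ' hθ, ← Nat.cast_smul_eq_nsmul ℂ] at ha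
  have h1 := (smul_eq_zero.1 ha.symm).resolve_left hPU
  have hS : (∑ᶠ l : ↥(L ⊓ stab θ), Λ'.M θ θ l * B * Λ.M θ θ (l : G)⁻¹) + p • a = 0 := by
    apply alg_inj (p := p)
    change ((∑ᶠ l : ↥(L ⊓ stab θ), Λ'.M θ θ l * B * Λ.M θ θ (l : G)⁻¹) +
      p • a).map (algebraMap (OO p) ℂ) =
      (0 : Matrix (Fin (Λ'.d θ)) (Fin (Λ.d θ)) (OO p)).map (algebraMap (OO p) ℂ)
    rw [h1, Matrix.map_zero _ (map_zero _)]
  rw [← key_red Λ Λ' B a, hS, Matrix.map_zero _ (map_zero _)]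

end Pool.Agent.Helper68.BR
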