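import Pool.Agent.Helper68.BR.Pr
import Pool.Agent.Helper42.IR.LatBasis

/-!
# BR-A07: existence of adapted bases

`ρ` irreducible, so `V ≠ 0` (`isIrreducible_iff`, INC/Basic); take `w ≠ 0`. The vectors `ρ g w` span `V`
(their span is invariant and nonzero). For `θ ∈ Lin P` the family `g ↦ ⟨pr θ (ρ g w), _⟩` of vectors of
`VT P U ρ θ` (`pr_mem`) spans `VT` over `ℂ` (`pr θ` is linear and the identity on `VT`, `pr_eq`).
`exists_lattice_basis` (IR/LatBasis.lean) gives `n` and `b`. For the other `θ` take any basis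
(`Module.finBasis`). Use `Classical.choice` / `choose` for the dependence on `θ`.
-/

namespace Pool.Agent.Helper68.BR

open Pool.Agent.Helper42.INC Pool.Agent.Helper42.IR

variable {G : Type} [Group G] [Finite G] {p : ℕ} [Fact p.Prime] {P U : Subgroup G}

theorem exists_lat (hB : Bru p P U) {V : Type} [AddCommGroup V] [Module ℂ V]
    [FiniteDimensional ℂ V] (ρ : Representation ℂ G V) (hρ : ρ.IsIrreducible) :
    Nonempty (Lat p P U ρ) := by
  classical
  obtain ⟨hnt, hirr⟩ := (isIrreducible_iff ρ).1 hρ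
  obtain ⟨w, hw⟩ := exists_ne (0 : V)
  have hspan : Submodule.span ℂ (Set.range fun g => ρ g w) = ⊤ := by
    have hinv : ∀ g, ∀ v ∈ Submodule.span ℂ (Set.range fun g => ρ g w),
        ρ g v ∈ Submodule.span ℂ (Set.range fun g => ρ g w) := by
      intro g v hv
      induction hv using Submodule.span_induction with
      | mem x hx =>
        obtain ⟨h, rfl⟩ := hx
        refine Submodule.subset_span ⟨g * h, ?_⟩
        simp only [map_mul, Module.End.mul_apply]
      | zero => rw [map_zero]; exact zero_mem _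
      | add x y _ _ ihx ihy => rw [map_add]; exact add_mem ihx ihy
      | smul c x _ ihx => rw [map_smul]; exact Submodule.smul_mem _ _ ihx
    rcases hirr _ hinv with h | h
    · exfalso
      apply hw
      have h1 : w ∈ Submodule.span ℂ (Set.range fun g => ρ g w) :=
        Submodule.subset_span ⟨1, by simp only [map_one, Module.End.one_apply]⟩
      rw [h] at h1
      exact (Submodule.mem_bot ℂ).1 h1
    · exact h
  have key : ∀ θ : G → ℂ, ∃ (n : ℕ) (b : Module.Basis (Fin n) ℂ (VT P U ρ θ)), θ ∈ Lin P →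
      (∀ j, ∃ g, (b j : V) = pr P U ρ θ (ρ g w)) ∧
      ∀ g, ∃ c : Fin n → OO p, pr P U ρ θ (ρ g w) = ∑ j, (c j : ℂ) • (b j : V) := by
    intro θ
    by_cases hθ : θ ∈ Lin P
    · let v : G → VT P U ρ θ := fun g => ⟨pr P U ρ θ (ρ g w), pr_mem hB hθ _⟩
      have hv : Submodule.span ℂ (Set.range v) = ⊤ := by
        rw [eq_top_iff]
        rintro ⟨x, hx⟩ -
        have h1 : x ∈ Submodule.span ℂ (Set.range fun g => ρ g w) := by
          rw [hspan]
          exact Submodule.mem_top
        let L : V →ₗ[ℂ] VT P U ρ θ :=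
          LinearMap.codRestrict _ (pr P U ρ θ) (fun y => pr_mem hB hθ y)
        have h2 : L x ∈ (Submodule.span ℂ (Set.range fun g => ρ g w)).map L :=
          Submodule.mem_map_of_mem h1
        rw [Submodule.map_span, ← Set.range_comp] at h2
        have h3 : L x = ⟨x, hx⟩ := Subtype.ext (pr_eq hB hθ hx)
        rw [h3] at h2
        exact h2
      obtain ⟨n, b, hb1, hb2⟩ := exists_lattice_basis (p := p) v hv
      refine ⟨n, b, fun _ => ⟨fun j => ?_, fun g => ?_⟩⟩
      · obtain ⟨g, hg⟩ := hb1 j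
        exact ⟨g, by rw [hg]⟩
      · refine ⟨fun j => ⟨b.repr (v g) j, hb2 g j⟩, ?_⟩
        have h1 : (∑ j, b.repr (v g) j • b j : VT P U ρ θ) = v g := b.sum_repr (v g)
        have h2 := congrArg (Submodule.subtype (VT P U ρ θ)) h1
        rw [map_sum] at h2
        simp only [map_smul, Submodule.subtype_apply] at h2
        exact h2.symm
    · exact ⟨_, Module.finBasis ℂ (VT P U ρ θ), fun h => absurd h hθ⟩
  choose n b hb using key
  exact ⟨⟨w, n, b, fun θ hθ j => (hb θ hθ).1 j, fun θ hθ g => (hb θ hθ).2 g⟩⟩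

end Pool.Agent.Helper68.BR
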