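import Pool.Agent.Helper68.BR.RelSL

/-!
# BR-C08: lifts

Trivialities about `Lf f y g : f y = QuotientGroup.mk g` (`QuotientGroup.eq`, `QuotientGroup.mk_surjective`); `PSL_n(k)` is
`SpecialLinearGroup (Fin n) k ⧸ Subgroup.center _` (an `abbrev`).
`lf_conj`: `dg_conj`. `yy_ker`, `yy_unique`: `tv_center`.
-/

namespace Pool.Agent.Helper68.BR

open Matrix

variable {n : ℕ} {k : Type} [Field k] {K : Type} [Group K]
  {f : K →* ProjectiveSpecialLinearGroup (Fin n) k} {y y' : K}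
  {g g' : SpecialLinearGroup (Fin n) k} {i j : Fin n}

theorem Lf.mul (h : Lf f y g) (h' : Lf f y' g') : Lf f (y * y') (g * g') := by
  have h1 : f y = QuotientGroup.mk g := h
  have h2 : f y' = QuotientGroup.mk g' := h'
  change f (y * y') = QuotientGroup.mk (g * g')
  rw [map_mul, h1, h2]
  rfl

theorem Lf.inv (h : Lf f y g) : Lf f y⁻¹ g⁻¹ := by
  have h1 : f y = QuotientGroup.mk g := h
  change f y⁻¹ = QuotientGroup.mk g⁻¹
  rw [map_inv, h1]
  rfl

theorem lf_one : Lf f y 1 ↔ y ∈ f.ker := by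
  rw [MonoidHom.mem_ker]
  exact Iff.rfl

theorem exists_lf (hf : Function.Surjective f) (g : SpecialLinearGroup (Fin n) k) :
    ∃ y, Lf f y g := hf (QuotientGroup.mk g)

theorem exists_lf' (f : K →* ProjectiveSpecialLinearGroup (Fin n) k) (y : K) : ∃ g, Lf f y g := by
  obtain ⟨g, hg⟩ := QuotientGroup.mk_surjective (f y)
  exact ⟨g, hg.symm⟩

theorem Lf.ker (h : Lf f y g) (h' : Lf f y' g) : ∃ c ∈ f.ker, y = y' * c := by
  have h1 : f y = QuotientGroup.mk g := h
  have h2 : f y' = QuotientGroup.mk g := h'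
  refine ⟨y'⁻¹ * y, ?_, by group⟩
  rw [MonoidHom.mem_ker, map_mul, map_inv, h1, h2, inv_mul_cancel]

theorem Lf.mul_ker (h : Lf f y g) {c : K} (hc : c ∈ f.ker) : Lf f (y * c) g := by
  have h1 : f y = QuotientGroup.mk g := h
  change f (y * c) = QuotientGroup.mk g
  rw [map_mul, MonoidHom.mem_ker.1 hc, mul_one, h1]

theorem Lf.center (h : Lf f y g) (h' : Lf f y g') :
    ∃ c ∈ Subgroup.center (SpecialLinearGroup (Fin n) k), g = g' * c := by
  have h1 : f y = QuotientGroup.mk g := h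
  have h2 : f y = QuotientGroup.mk g' := h'
  refine ⟨g'⁻¹ * g, ?_, by group⟩
  exact QuotientGroup.eq.1 (h2.symm.trans h1)

theorem lf_conj (h : i ≠ j) {x : K} {z : SpecialLinearGroup (Fin n) k} (hx : Lf f x z)
    (hz : z ∈ DG n k) {s : k} (hy : Lf f y (tv h s)) :
    Lf f (x * y * x⁻¹) (tv h (z.1 i i * (z.1 j j)⁻¹ * s)) := by
  rw [← dg_conj h hz s]
  exact (hx.mul hy).mul hx.inv

theorem yy_ker (h : i ≠ j) {s : k} (hy : Lf f y (tv h s)) (hk : y ∈ f.ker) : s = 0 := by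
  have h1 : Lf f y (tv h 0) := by
    have h2 : tv h (0 : k) = 1 := SpecialLinearGroup.transvection_coeff_zero h
    rw [h2]
    exact lf_one.2 hk
  obtain ⟨c, hc, he⟩ := hy.center h1
  exact tv_center h hc he

theorem ker_le_yy (h : i ≠ j) : f.ker ≤ YY f h := by
  intro y hy
  refine ⟨0, ?_⟩
  have h2 : tv h (0 : k) = 1 := SpecialLinearGroup.transvection_coeff_zero h
  rw [h2]
  exact lf_one.2 hy

end Pool.Agent.Helper68.BR
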