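import Pool.Agent.Helper68.BR.Defs

/-!
# BR-A04: linear characters of `P`

`θ ∈ Lin P` is a linear character of `P` extended by zero.
* `lin_red`: `θ x` is a root of unity of `p`-power order, so integral (`integral_mem`), and its residue `r`
  has `r ^ (p ^ k) = 1` in characteristic `p`, so `r = 1` (`(r - 1) ^ (p ^ k) = 0`).
* `lin_orth`: `x ↦ θ (x⁻¹) θ' x` is a nontrivial linear character of `P`; multiply the sum by its value at `y`.
* `lin_sum`, `lin_card`: duality of the finite abelian group `P` (Mathlib: homomorphisms `P →* ℂˣ`,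
  `CommGroup.card_monoidHom_of_hasEnoughRootsOfUnity` or similar, and `CommGroup.exists_apply_ne_one...`: a
  character with value `≠ 1` at `x`; multiply the sum over the dual group by its value). `Lin P` is in
  bijection with `P →* ℂˣ`. (Alternatively use `Irr P`: all degrees are one.)
* `mem_NT`: unfold; `P_le_NT`: `P` is abelian, so `cnj x θ = θ` for `x ∈ P`.
-/

namespace Pool.Agent.Helper68.BR

open Pool.Agent.Helper42.INC Pool.Agent.Helper42.IR

variable {G : Type} [Group G] {p : ℕ} [Fact p.Prime] {P U : Subgroup G} {θ θ' : G → ℂ}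

private theorem lb_mul_inv (hθ : θ ∈ Lin P) {x : G} (hx : x ∈ P) : θ x⁻¹ * θ x = 1 := by
  rw [← hθ.2.1 x⁻¹ (P.inv_mem hx) x hx, inv_mul_cancel, hθ.1]

private theorem lb_pow (hθ : θ ∈ Lin P) {x : G} (hx : x ∈ P) (n : ℕ) : θ (x ^ n) = θ x ^ n := by
  induction n with
  | zero => rw [pow_zero, pow_zero, hθ.1]
  | succ n ih => rw [pow_succ, pow_succ, hθ.2.1 _ (P.pow_mem hx n) _ hx, ih]

theorem lin_ne (hθ : θ ∈ Lin P) {x : G} (hx : x ∈ P) : θ x ≠ 0 := by
  intro h0
  have h := lb_mul_inv hθ hx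
  rw [h0, mul_zero] at h
  exact zero_ne_one h

theorem lin_inv (hθ : θ ∈ Lin P) {x : G} (hx : x ∈ P) : θ x⁻¹ = (θ x)⁻¹ := by
  exact eq_inv_of_mul_eq_one_left (lb_mul_inv hθ hx)

theorem lin_cnj (hθ : θ ∈ Lin P) {n : G} (hn : n ∈ Nm P) : cnj n θ ∈ Lin P := by
  have hn' : ∀ h : G, h ∈ P ↔ n⁻¹ * h * n ∈ P := Subgroup.mem_normalizer_iff''.1 hn
  refine ⟨?_, ?_, ?_⟩
  · rw [cnj_apply]
    have : n⁻¹ * 1 * n = 1 := by group
    rw [this, hθ.1]
  · intro x hx y hy
    rw [cnj_apply, cnj_apply, cnj_apply]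
    have : n⁻¹ * (x * y) * n = (n⁻¹ * x * n) * (n⁻¹ * y * n) := by group
    rw [this, hθ.2.1 _ ((hn' x).1 hx) _ ((hn' y).1 hy)]
  · intro x hx
    rw [cnj_apply]
    exact hθ.2.2 _ fun h => hx ((hn' x).2 h)

theorem lin_finite [Finite G] : (Lin P).Finite := by
  have hsub : Lin P ⊆ Set.pi Set.univ fun _ : G => {z : ℂ | z = 0 ∨ z ^ Nat.card G = 1} := by
    intro θ hθ x _
    by_cases hx : x ∈ P
    · right
      rw [← lb_pow hθ hx, pow_card_eq_one', hθ.1]
    · left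
      exact hθ.2.2 x hx
  refine Set.Finite.subset (Set.Finite.pi fun _ => ?_) hsub
  have h1 : {z : ℂ | z = 0 ∨ z ^ Nat.card G = 1} ⊆
      ((insert 0 (Polynomial.nthRoots (Nat.card G) (1 : ℂ)).toFinset : Finset ℂ) : Set ℂ) := by
    rintro z (rfl | hz)
    · simp
    · rw [Finset.coe_insert]
      right
      rw [Finset.mem_coe, Multiset.mem_toFinset, Polynomial.mem_nthRoots Nat.card_pos]
      exact hz
  exact (Finset.finite_toSet _).subset h1

theorem lin_red [Finite G] (hP : IsPGroup p P) (hθ : θ ∈ Lin P) {x : G} (hx : x ∈ P) :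
    Red p (θ x) 1 := by
  obtain ⟨k, hk⟩ := hP ⟨x, hx⟩
  have hk' : x ^ p ^ k = 1 := by
    have := congrArg Subtype.val hk
    simpa using this
  have hpow : θ x ^ p ^ k = 1 := by rw [← lb_pow hθ hx, hk', hθ.1]
  have hpp : p.Prime := Fact.out
  have hint : IsIntegral ℤ (θ x) := by
    refine IsIntegral.of_pow (pow_pos hpp.pos k) ?_
    rw [hpow]
    exact isIntegral_one
  refine ⟨⟨θ x, integral_mem hint⟩, rfl, ?_⟩
  set z : OO p := ⟨θ x, integral_mem hint⟩ with hz
  have h1 : z ^ p ^ k = 1 := by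
    apply Subtype.ext
    rw [SubmonoidClass.coe_pow]
    exact hpow
  have h2 : (IsLocalRing.residue (OO p) z - 1) ^ p ^ k = 0 := by
    rw [sub_pow_char_pow, one_pow, ← map_pow, h1, map_one, sub_self]
  exact sub_eq_zero.1 (pow_eq_zero_iff (pow_ne_zero k hpp.ne_zero) |>.1 h2)

theorem lin_orth [Finite G] (hθ : θ ∈ Lin P) (hθ' : θ' ∈ Lin P) (hne : θ ≠ θ') :
    ∑ᶠ x : P, θ ((x : G)⁻¹) * θ' x = 0 := by
  classical
  have : Fintype P := Fintype.ofFinite P
  rw [finsum_eq_sum_of_fintype]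
  obtain ⟨y, hy⟩ : ∃ y, θ y ≠ θ' y := by
    by_contra h
    push Not at h
    exact hne (funext h)
  have hyP : y ∈ P := by
    by_contra h
    exact hy (by rw [hθ.2.2 y h, hθ'.2.2 y h])
  let f : P →* ℂ :=
    { toFun := fun x => θ ((x : G)⁻¹) * θ' x
      map_one' := by
        rw [Subgroup.coe_one, inv_one, hθ.1, hθ'.1, one_mul]
      map_mul' := fun a b => by
        rw [Subgroup.coe_mul, mul_inv_rev, hθ.2.1 _ (P.inv_mem b.2) _ (P.inv_mem a.2),
          hθ'.2.1 _ a.2 _ b.2]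
        ring }
  refine sum_hom_units_eq_zero f fun h1 => hy ?_
  have h2 : θ y⁻¹ * θ' y = 1 := DFunLike.congr_fun h1 ⟨y, hyP⟩
  have h3 := lb_mul_inv hθ hyP
  exact mul_left_cancel₀ (lin_ne hθ (P.inv_mem hyP)) (h3.trans h2.symm)

/-- linear characters as homomorphisms -/
private noncomputable def lbEquiv (P : Subgroup G) : Lin P ≃ (P →* ℂˣ) where
  toFun θ :=
    { toFun := fun x => Units.mk0 (θ.1 x) (lin_ne θ.2 x.2)
      map_one' := by
        apply Units.ext
        exact θ.2.1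
      map_mul' := fun x y => by
        apply Units.ext
        exact θ.2.2.1 x x.2 y y.2 }
  invFun χ := by
    classical
    exact ⟨fun x => if h : x ∈ P then (χ ⟨x, h⟩ : ℂ) else 0, by
      refine ⟨?_, ?_, ?_⟩
      · beta_reduce
        rw [dif_pos P.one_mem]
        have : (⟨1, P.one_mem⟩ : P) = 1 := rfl
        rw [this, map_one, Units.val_one]
      · intro x hx y hy
        beta_reduce
        rw [dif_pos (P.mul_mem hx hy), dif_pos hx, dif_pos hy]
        have : (⟨x * y, P.mul_mem hx hy⟩ : P) = ⟨x, hx⟩ * ⟨y, hy⟩ := rfl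
        rw [this, map_mul, Units.val_mul]
      · intro x hx
        exact dif_neg hx⟩
  left_inv θ := by
    apply Subtype.ext
    funext x
    by_cases h : x ∈ P
    · simp only [dif_pos h]
      rfl
    · simp only [dif_neg h]
      exact (θ.2.2.2 x h).symm
  right_inv χ := by
    apply MonoidHom.ext
    intro x
    apply Units.ext
    exact dif_pos (c := (x : G) ∈ P) x.2

private theorem lbEquiv_apply (θ : Lin P) (x : P) : ((lbEquiv P θ x : ℂˣ) : ℂ) = θ.1 x := rfl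

theorem lin_sum [Finite G] (hc : ∀ a ∈ P, ∀ b ∈ P, a * b = b * a) {x : G} (hx : x ∈ P)
    (hx1 : x ≠ 1) : ∑ᶠ θ : Lin P, θ.1 x⁻¹ = 0 := by
  classical
  let _ : CommGroup P := { (inferInstance : Group P) with
    mul_comm := fun a b => Subtype.ext (hc a a.2 b b.2) }
  obtain ⟨φ, hφ⟩ := CommGroup.exists_apply_ne_one_of_hasEnoughRootsOfUnity P ℂ
    (a := (⟨x, hx⟩ : P)) (fun h => hx1 (congrArg Subtype.val h))
  have hfin : Finite (P →* ℂˣ) := by
    have : Finite (Lin P) := (lin_finite (P := P)).to_subtype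
    exact Finite.of_equiv _ (lbEquiv P)
  have : Fintype (P →* ℂˣ) := Fintype.ofFinite _
  have h1 : ∑ᶠ θ : Lin P, θ.1 x⁻¹ = ∑ᶠ χ : P →* ℂˣ, ((χ (⟨x, hx⟩ : P)⁻¹ : ℂˣ) : ℂ) := by
    rw [← finsum_comp_equiv (lbEquiv P)]
    rfl
  rw [h1, finsum_eq_sum_of_fintype]
  let f : (P →* ℂˣ) →* ℂ :=
    { toFun := fun χ => ((χ (⟨x, hx⟩ : P)⁻¹ : ℂˣ) : ℂ)
      map_one' := by simp
      map_mul' := fun a b => by simp }
  refine sum_hom_units_eq_zero f fun h2 => hφ ?_
  have h3 : ((φ (⟨x, hx⟩ : P)⁻¹ : ℂˣ) : ℂ) = 1 := DFunLike.congr_fun h2 φ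
  have h4 : φ (⟨x, hx⟩ : P)⁻¹ = 1 := Units.ext h3
  rw [map_inv] at h4
  exact inv_eq_one.1 h4

theorem lin_card [Finite G] (hc : ∀ a ∈ P, ∀ b ∈ P, a * b = b * a) :
    Nat.card (Lin P) = Nat.card P := by
  let _ : CommGroup P := { (inferInstance : Group P) with
    mul_comm := fun a b => Subtype.ext (hc a a.2 b b.2) }
  rw [Nat.card_congr (lbEquiv P)]
  exact CommGroup.card_monoidHom_of_hasEnoughRootsOfUnity P ℂ

theorem P_le_NT (hc : ∀ a ∈ P, ∀ b ∈ P, a * b = b * a) (hθ : θ ∈ Lin P) : P ≤ NT P θ := by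
  intro x hx
  rw [NT, Subgroup.mem_inf]
  refine ⟨Subgroup.le_normalizer hx, mem_stab.2 ?_⟩
  funext y
  rw [cnj_apply]
  by_cases hy : y ∈ P
  · have : x⁻¹ * y * x = y := by
      rw [mul_assoc, hc y hy x hx, ← mul_assoc, inv_mul_cancel, one_mul]
    rw [this]
  · have : x⁻¹ * y * x ∉ P := by
      intro h
      apply hy
      have h1 := P.mul_mem (P.mul_mem hx h) (P.inv_mem hx)
      have h2 : x * (x⁻¹ * y * x) * x⁻¹ = y := by group
      rwa [h2] at h1
    rw [hθ.2.2 _ hy, hθ.2.2 _ this]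

end Pool.Agent.Helper68.BR
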