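import Pool.Agent.Helper68.BR.CoverSc
import Pool.Agent.Helper68.BR.Equi
import Pool.Agent.Helper42.IR.F.Cov
import Pool.Agent.Helper42.IR.F.ROne

/-!
# BR-B06: matched characters, groups of automorphisms of order prime to `p`

Exactly as `matched_pprime` and `agree` in Pool/Agent/Helper42/IR/F/PPrime.lean (read it), with `cover_lemmaE` replaced by `cover_sc`:
`X` a matrix representation affording `θ` (`exists_matrix` there is private: copy it), `exists_cover` for `a = R0.subtype` gives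
`C, ι, τ, Z`; `χh c = (Z c).trace` is in `Irr C` (`irr_of_res`), `χh (ι k) = θ k`; `β c = act R0.subtype (τ c)`;
`cover_sc` gives `ψh ∈ IrrS (Nm (P.map ι))` (so in `CharS`); `matched_of_cover`.
`agree'`: from `matched_pp` for `R0 = ⊥`, as `agree` there.
-/

namespace Pool.Agent.Helper68.BR

open Pool.Agent.Helper42.INC Pool.Agent.Helper42.IR Pool.Agent.Helper42.IR.F

variable {K : Type} [Group K] [Finite K] {p : ℕ} [Fact p.Prime] {P U : Subgroup K}
  {F : (K → ℂ) → (K → ℂ)} {θ : K → ℂ}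

omit [Finite K] in
/-- matrix form of an irreducible character -/
private lemma mp_matrix {χ : K → ℂ} (h : χ ∈ Irr K) :
    ∃ (m : ℕ) (X : K →* Matrix (Fin m) (Fin m) ℂ), (∀ k, (X k).trace = χ k) ∧ χ 1 = m := by
  obtain ⟨V, _, _, _, ρ, -, rfl⟩ := h
  let b := Module.finBasis ℂ V
  refine ⟨Module.finrank ℂ V,
    (LinearMap.toMatrixAlgEquiv b : (V →ₗ[ℂ] V) →* _).comp ρ, fun k => ?_, ?_⟩
  · rw [Representation.character, LinearMap.trace_eq_matrix_trace ℂ b]
    rfl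
  · rw [Representation.char_one]

private lemma mp_charS {G : Type} [Group G] {H : Subgroup G} {f : G → ℂ} (h : f ∈ IrrS H) :
    f ∈ CharS H := by
  obtain ⟨⟨V, i1, i2, i3, ρ, -, hρ⟩, h2⟩ := h
  exact ⟨⟨V, i1, i2, i3, ρ, hρ⟩, h2⟩

theorem matched_pp (hperf : ⁅(⊤ : Subgroup K), (⊤ : Subgroup K)⁆ = ⊤)
    (hz : ¬ p ∣ Nat.card (Subgroup.center K)) (hB : Bru p P U) (hFr : Frat P U)
    (hF : CorF p P U F) (hθ : θ ∈ PI p K) (R0 : Subgroup (MulAut K)) (hR : ¬ p ∣ Nat.card R0)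
    (hQ : ∀ r ∈ R0, ∀ x, r x ∈ P ↔ x ∈ P) (hinv : ∀ r ∈ R0, ∀ k, θ (r k) = θ k) :
    MatchedOn (Subgroup.normalizer (P : Set K)) θ (fun t => F θ t) R0 := by
  have hθI : θ ∈ Irr K := hθ.1
  obtain ⟨m, X, hX, hm⟩ := mp_matrix hθI
  have hpm : ¬ p ∣ m := by
    have h := hθ.2
    rwa [deg_eq hm] at h
  have hfin : Finite (MulAut K) := inferInstance
  have hinv' : ∀ (r : R0) (k : K), θ (R0.subtype r k) = θ k := fun r k => hinv r.1 r.2 k
  obtain ⟨C, _, _, ι, τ, Z, hι, hτ, -, hconj, hZX, hidx⟩ :=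
    exists_cover R0.subtype X hθI hX hperf hinv' (p := p) hR hpm
  have hZ : ∀ k, (Z (ι k)).trace = θ k := fun k => by rw [hZX, hX]
  have hχh : (fun c => (Z c).trace) ∈ Irr C := by
    apply irr_of_res ι
    have e : (fun k => (Z (ι k)).trace) = θ := by
      funext k
      exact hZ k
    rw [e]
    exact hθI
  obtain ⟨ψh, hψh, hres, hsc⟩ := cover_sc hB hFr hz hF ι hι (fun c => act R0.subtype (τ c))
    hconj hidx hθ hχh hZ
  exact matched_of_cover R0 hQ hθI (hF.bij.mapsTo hθ).1 ι τ Z hι hτ hconj hZ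
    (mp_charS hψh) (fun t => hres t t.2) hsc

theorem agree' (hperf : ⁅(⊤ : Subgroup K), (⊤ : Subgroup K)⁆ = ⊤)
    (hz : ¬ p ∣ Nat.card (Subgroup.center K)) (hB : Bru p P U) (hFr : Frat P U)
    (hF : CorF p P U F) (hθ : θ ∈ PI p K) {z : K} (hzK : z ∈ Subgroup.center K) :
    θ z * F θ 1 = θ 1 * F θ z := by
  have hp : p.Prime := Fact.out
  obtain ⟨d, D, R, h1, -, h3⟩ := matched_pp hperf hz hB hFr hF hθ (⊥ : Subgroup (MulAut K))
    (by rw [Subgroup.card_bot]; exact hp.one_lt.ne' ∘ Nat.dvd_one.1)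
    (by intro r hr x; rw [Subgroup.mem_bot.1 hr]; rfl)
    (by intro r hr k; rw [Subgroup.mem_bot.1 hr]; rfl)
  have hzc : ∀ x, x * z = z * x := Subgroup.mem_center_iff.1 hzK
  have hzN : z ∈ Subgroup.normalizer (P : Set K) := by
    rw [Subgroup.mem_normalizer_iff]
    intro x
    have : z * x * z⁻¹ = x := by rw [← hzc x]; group
    rw [this]
  have hD : D (z, ⟨z, hzN⟩) = 1 := by
    have h4 := h3 1 ⟨z, hzN⟩ (by
      ext x
      change x = z * x * z⁻¹
      rw [← hzc x]; group)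
    rw [← h4, map_one]
  have e1 : D (z, 1) = D (1, (⟨z, hzN⟩ : Subgroup.normalizer (P : Set K))⁻¹) * D (z, ⟨z, hzN⟩) := by
    rw [← map_mul]
    congr 1
    ext <;> simp
  have e2 := congrArg Matrix.trace e1
  rw [hD, mul_one, h1, h1] at e2
  simpa using e2

end Pool.Agent.Helper68.BR
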