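import Pool.Agent.Helper68.BR.Stab

/-!
# BR-A09: the reductions are multiplicative

`n, m ∈ N`, `θ' = cnj m θ`, `θ'' = cnj (n m) θ = cnj n θ'`. Put `F u = M θ'' θ (n u m)` (matrices over `OO p`),
`u ∈ U`. For `x ∈ P`: `n (x u x⁻¹) m = (n x n⁻¹) (n u m) (m⁻¹ x⁻¹ m)` with `n x n⁻¹`, `m⁻¹ x⁻¹ m ∈ P`, so by `C_left` and
`C_right` (with `u = 1`) `F (x u x⁻¹) = θ''(n x n⁻¹) θ(m⁻¹ x⁻¹ m) F u`, and
`θ''(n x n⁻¹) = θ ((n m)⁻¹ n x n⁻¹ (n m)) = θ (m⁻¹ x m)`; the product of the two scalars is `1`. (Compare over `ℂ`; the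
map from matrices over `OO p` to matrices over `ℂ` is injective.) By `sum_fixed` (`Q = P` acting on `U` by
conjugation, the only fixed point is `1`): `∑_u F u = F 1 + p • a`. By `C_sandwich` the left side is
`|U| • (M θ'' θ' n * M θ' θ m)`. Reduce modulo the maximal ideal: `|U|` has residue `1` (`card_U`), `p` has
residue `0`. So `K θ'' θ' n * K θ' θ m = K θ'' θ (n m)`.
-/

namespace Pool.Agent.Helper68.BR

open Pool.Agent.Helper42.INC Pool.Agent.Helper42.IR

variable {G : Type} [Group G] [Finite G] {p : ℕ} [Fact p.Prime] {P U : Subgroup G}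
  {θ θ' θ'' : G → ℂ} {V : Type} [AddCommGroup V] [Module ℂ V] {ρ : Representation ℂ G V}

private theorem inj_map {a b : ℕ} :
    Function.Injective (fun M : Matrix (Fin a) (Fin b) (OO p) => M.map (algebraMap (OO p) ℂ)) := by
  intro M N h
  ext i j
  exact congrFun (congrFun h i) j

theorem K_one (hB : Bru p P U) (Λ : Lat p P U ρ) (hθ : θ ∈ Lin P) : Λ.K θ θ 1 = 1 := by
  have h1 : Λ.M θ θ 1 = 1 := by
    apply inj_map
    have h2 := C_one hB Λ hθ
    unfold Lat.C at h2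
    simp only
    rw [h2, Matrix.map_one _ (map_zero _) (map_one _)]
  unfold Lat.K
  rw [h1, Matrix.map_one _ (map_zero _) (map_one _)]

private theorem C_conj (hB : Bru p P U) (Λ : Lat p P U ρ) (hθ : θ ∈ Lin P) {n m : G}
    (hn : n ∈ Nm P) (hm : m ∈ Nm P) (h1 : cnj m θ = θ') (h2 : cnj n θ' = θ'') (x : G) (hx : x ∈ P)
    (u : G) : Λ.C θ'' θ (n * (x * u * x⁻¹) * m) = Λ.C θ'' θ (n * u * m) := by
  have hθ' : θ' ∈ Lin P := h1 ▸ lin_cnj hθ hm
  have hθ'' : θ'' ∈ Lin P := h2 ▸ lin_cnj hθ' hn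
  have hnx : n * x * n⁻¹ ∈ P := (Subgroup.mem_normalizer_iff.1 hn x).1 hx
  have hmx : m⁻¹ * x * m ∈ P := (Subgroup.mem_normalizer_iff''.1 hm x).1 hx
  have hmx' : m⁻¹ * x⁻¹ * m ∈ P := (Subgroup.mem_normalizer_iff''.1 hm x⁻¹).1 (P.inv_mem hx)
  have e1 : n * (x * u * x⁻¹) * m = 1 * (n * x * n⁻¹) * ((n * u * m) * (1 * (m⁻¹ * x⁻¹ * m))) := by
    group
  rw [e1, C_left hB Λ hθ hθ'' U.one_mem hnx, C_right hB Λ hθ hθ'' U.one_mem hmx', smul_smul]
  have e2 : θ'' (n * x * n⁻¹) = θ (m⁻¹ * x * m) := by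
    rw [← h2, ← h1, cnj_apply, cnj_apply]
    congr 1
    group
  have e3 : m⁻¹ * x⁻¹ * m = (m⁻¹ * x * m)⁻¹ := by group
  rw [e2, e3, lin_inv hθ hmx, mul_inv_cancel₀ (lin_ne hθ hmx), one_smul]

theorem K_mul (hB : Bru p P U) (Λ : Lat p P U ρ) (hθ : θ ∈ Lin P) {n m : G} (hn : n ∈ Nm P)
    (hm : m ∈ Nm P) (h1 : cnj m θ = θ') (h2 : cnj n θ' = θ'') :
    Λ.K θ'' θ (n * m) = Λ.K θ'' θ' n * Λ.K θ' θ m := by
  classical
  have hθ' : θ' ∈ Lin P := h1 ▸ lin_cnj hθ hm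
  have hθ'' : θ'' ∈ Lin P := h2 ▸ lin_cnj hθ' hn
  let _ : Fintype U := Fintype.ofFinite U
  let _ : MulAction P U :=
    { smul := fun q u => ⟨(q : G) * u * (q : G)⁻¹, hB.norm q q.2 u u.2⟩
      one_smul := fun u => Subtype.ext (by
        change ((1 : P) : G) * (u : G) * ((1 : P) : G)⁻¹ = u
        simp)
      mul_smul := fun a b u => Subtype.ext (by
        change ((a * b : P) : G) * (u : G) * ((a * b : P) : G)⁻¹ =
          (a : G) * ((b : G) * u * (b : G)⁻¹) * (a : G)⁻¹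
        push_cast
        group) }
  have hsm : ∀ (q : P) (u : U), ((q • u : U) : G) = (q : G) * u * (q : G)⁻¹ := fun q u => rfl
  let F : U → Matrix (Fin (Λ.d θ'')) (Fin (Λ.d θ)) (OO p) := fun u => Λ.M θ'' θ (n * u * m)
  have hinv : ∀ (q : P) (u : U), F (q • u) = F u := by
    intro q u
    apply inj_map
    have h3 := C_conj hB Λ hθ hn hm h1 h2 (q : G) q.2 (u : G)
    unfold Lat.C at h3
    simpa only [F, hsm] using h3
  have hfix : ∀ u : U, u ∈ ({1} : Finset U) ↔ ∀ q : P, q • u = u := by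
    intro u
    rw [Finset.mem_singleton]
    constructor
    · rintro rfl q
      apply Subtype.ext
      rw [hsm]
      simp
    · intro h
      apply Subtype.ext
      refine hB.fix u u.2 fun x hx => ?_
      have h3 := congrArg (Subtype.val) (h ⟨x, hx⟩)
      rw [hsm] at h3
      simp only at h3
      rw [mul_inv_eq_iff_eq_mul] at h3
      exact h3
  obtain ⟨a, ha⟩ := sum_fixed hB.pgroup F hinv {1} hfix
  rw [Finset.sum_singleton] at ha
  have hs : ∑ u, F u = (Nat.card U) • (Λ.M θ'' θ' n * Λ.M θ' θ m) := by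
    apply inj_map
    have h3 := C_sandwich hB Λ hθ hθ'' hm h1 n
    rw [finsum_eq_sum_of_fintype] at h3
    unfold Lat.C at h3
    have h4 : (∑ u, F u).map (algebraMap (OO p) ℂ) =
        ∑ u, (F u).map (algebraMap (OO p) ℂ) := by
      ext i j
      simp [Matrix.sum_apply]
    have h5 : ((Nat.card U) • (Λ.M θ'' θ' n * Λ.M θ' θ m)).map (algebraMap (OO p) ℂ) =
        (Nat.card U : ℂ) • ((Λ.M θ'' θ' n).map (algebraMap (OO p) ℂ) *
          (Λ.M θ' θ m).map (algebraMap (OO p) ℂ)) := by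
      rw [← Matrix.map_mul]
      ext i j
      simp only [Matrix.map_apply, Matrix.smul_apply, nsmul_eq_mul, map_mul, map_natCast,
        smul_eq_mul]
    change (∑ u, F u).map (algebraMap (OO p) ℂ) =
      ((Nat.card U) • (Λ.M θ'' θ' n * Λ.M θ' θ m)).map (algebraMap (OO p) ℂ)
    rw [h4, h5]
    exact h3
  rw [hs] at ha
  have h6 : ((Nat.card U) • (Λ.M θ'' θ' n * Λ.M θ' θ m)).map (IsLocalRing.residue (OO p)) =
      (F 1 + p • a).map (IsLocalRing.residue (OO p)) := by rw [ha]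
  have h7 : ((Nat.card U) • (Λ.M θ'' θ' n * Λ.M θ' θ m)).map (IsLocalRing.residue (OO p)) =
      (Nat.card U : kk p) • (Λ.K θ'' θ' n * Λ.K θ' θ m) := by
    unfold Lat.K
    rw [← Matrix.map_mul]
    ext i j
    simp only [Matrix.map_apply, Matrix.smul_apply, nsmul_eq_mul, map_mul, map_natCast,
      smul_eq_mul]
  have h8 : (F 1 + p • a).map (IsLocalRing.residue (OO p)) = Λ.K θ'' θ (n * m) := by
    unfold Lat.K
    ext i j
    simp [F]
  rw [h7, h8] at h6
  have h9 : (Nat.card U : kk p) = 1 := by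
    have h10 := (CharP.cast_eq_iff_mod_eq (kk p) p).2 (card_U hB)
    simpa using h10
  rw [h9, one_smul] at h6
  exact h6.symm

end Pool.Agent.Helper68.BR
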