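import Pool.Agent.Helper68.BR.Avg

/-!
# BR-A13: the eigenvalues form one orbit

If `cnj t θ ≠ η` for all `t ∈ N` then `C η θ g = 0` for all `g` (`C_zero`), so by `avg_same` with `A = E_00` (`d θ > 0`, trace `1`)
`(|G| / χ(1)) • 1 = 0` as a matrix of size `d η`, so `d η = 0` (`χ(1) ≠ 0`: it is the dimension of `V ≠ 0`).
-/

namespace Pool.Agent.Helper68.BR

open Pool.Agent.Helper42.INC Pool.Agent.Helper42.IR

variable {G : Type} [Group G] [Finite G] {p : ℕ} [Fact p.Prime] {P U : Subgroup G}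
  {θ η : G → ℂ} {V : Type} [AddCommGroup V] [Module ℂ V] [FiniteDimensional ℂ V]
  {ρ : Representation ℂ G V}

theorem one_orbit (hB : Bru p P U) (hρ : ρ.IsIrreducible) (Λ : Lat p P U ρ) (hθ : θ ∈ Lin P)
    (hη : η ∈ Lin P) (h1 : 0 < Λ.d θ) (h2 : 0 < Λ.d η) : ∃ t ∈ Nm P, cnj t θ = η := by
  by_contra hne
  have hne' : ∀ t ∈ Nm P, cnj t θ ≠ η := fun t ht he => hne ⟨t, ht, he⟩
  have hC : ∀ g, Λ.C η θ g = 0 := C_zero hB Λ hθ hη hne'
  have h3 := avg_same hB hρ Λ hθ hη (Matrix.single ⟨0, h1⟩ ⟨0, h1⟩ (1 : ℂ))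
  simp only [hC, Matrix.zero_mul, finsum_zero, Matrix.trace_single_eq_same, mul_one] at h3
  have h4 := congrFun (congrFun h3 ⟨0, h2⟩) ⟨0, h2⟩
  rw [Matrix.smul_apply, Matrix.one_apply_eq, Matrix.zero_apply, smul_eq_mul, mul_one] at h4
  have hV : Nontrivial V := by
    refine ⟨⟨((Λ.b θ ⟨0, h1⟩ : VT P U ρ θ) : V), 0, fun h => ?_⟩⟩
    exact (Λ.b θ).ne_zero ⟨0, h1⟩ (Subtype.ext h)
  have h5 : ρ.character 1 ≠ 0 := by
    rw [Representation.char_one]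
    exact_mod_cast (Module.finrank_pos (R := ℂ) (M := V)).ne'
  have h6 : (Nat.card G : ℂ) ≠ 0 := by
    exact_mod_cast Nat.card_pos.ne'
  exact div_ne_zero h6 h5 h4.symm

end Pool.Agent.Helper68.BR
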