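import Pool.Agent.Helper68.BR.Grp
import Pool.Agent.Helper68.BR.LinB

/-!
# BR-A05: the projections `pr P U ρ θ`

Let `e = |U|⁻¹ ∑ ρ u` and `e_θ = |P|⁻¹ ∑ θ(x⁻¹) ρ x`. `pr θ = e e_θ = e_θ e` (`P` normalizes `U`, so `ρ x` commutes
with `e`). `e ρ u = ρ u e = e`, `e_θ ρ x = ρ x e_θ = θ x e_θ`, `e_θ' e_θ = 0` for `θ ≠ θ'` (`lin_orth`).
* `pr_t`: for `t ∈ N`: `ρ t e_θ = e_{tθ} ρ t` with `tθ = cnj t θ` (`(tθ)(x) = θ(t⁻¹ x t)`, substitute in the sum).
  So `pr (tθ) (ρ t (pr θ v)) = e e_{tθ} ρ t e_θ e v = e e_{tθ} ρ t e v`, which is the right side.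
* `pr_g`: write `g = u₁ t u₂` (`cover`); for `v ∈ VT θ`: `ρ u₂ v = v`, `pr θ' (ρ u₁ z) = pr θ' z`; and `ρ t v` is a
  `cnj t θ`-eigenvector of `P`, so `pr θ' (ρ t v) = e e_θ' (ρ t v) = 0` if `cnj t θ ≠ θ'`.
* `pr_t_mem` : for `v ∈ VT θ`, `t ∈ N`, `x ∈ P`: `ρ x (ρ t v) = θ (t⁻¹ x t) • ρ t v`.
-/

namespace Pool.Agent.Helper68.BR

open Pool.Agent.Helper42.INC Pool.Agent.Helper42.IR

variable {G : Type} [Group G] [Finite G] {p : ℕ} [Fact p.Prime] {P U : Subgroup G}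
  {θ θ' : G → ℂ} {V : Type} [AddCommGroup V] [Module ℂ V] {ρ : Representation ℂ G V}

/-- sum over `U` -/
private noncomputable def prA (U : Subgroup G) (ρ : Representation ℂ G V) [Fintype U] :
    V →ₗ[ℂ] V := ∑ u : U, ρ (u : G)

/-- weighted sum over `P` -/
private noncomputable def prB (P : Subgroup G) (ρ : Representation ℂ G V) (θ : G → ℂ) [Fintype P] :
    V →ₗ[ℂ] V := ∑ x : P, θ ((x : G)⁻¹) • ρ (x : G)

private theorem prA_apply [Fintype U] (v : V) : prA U ρ v = ∑ u : U, ρ (u : G) v := by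
  rw [prA, LinearMap.sum_apply]

private theorem prB_apply [Fintype P] (v : V) :
    prB P ρ θ v = ∑ x : P, θ ((x : G)⁻¹) • ρ (x : G) v := by
  rw [prB, LinearMap.sum_apply]
  rfl

private theorem pr_def [Fintype P] [Fintype U] (v : V) :
    pr P U ρ θ v = ((Nat.card P : ℂ) * (Nat.card U : ℂ))⁻¹ • prA U ρ (prB P ρ θ v) := by
  rw [pr, LinearMap.smul_apply]
  congr 1
  rw [finsum_eq_sum_of_fintype, LinearMap.sum_apply, prB_apply, map_sum]
  refine Finset.sum_congr rfl fun x _ => ?_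
  rw [finsum_eq_sum_of_fintype, LinearMap.sum_apply, map_smul, prA_apply, Finset.smul_sum]
  refine Finset.sum_congr rfl fun u _ => ?_
  rw [LinearMap.smul_apply, map_mul, Module.End.mul_apply]

private theorem prA_left [Fintype U] {u : G} (hu : u ∈ U) (v : V) :
    ρ u (prA U ρ v) = prA U ρ v := by
  rw [prA_apply, map_sum, ← Equiv.sum_comp (Equiv.mulLeft (⟨u, hu⟩ : U))
    (fun w : U => ρ (w : G) v)]
  refine Finset.sum_congr rfl fun w _ => ?_
  rw [Equiv.coe_mulLeft, Subgroup.coe_mul, map_mul, Module.End.mul_apply]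

private theorem prA_right [Fintype U] {u : G} (hu : u ∈ U) (v : V) :
    prA U ρ (ρ u v) = prA U ρ v := by
  rw [prA_apply, prA_apply, ← Equiv.sum_comp (Equiv.mulRight (⟨u, hu⟩ : U))
    (fun w : U => ρ (w : G) v)]
  refine Finset.sum_congr rfl fun w _ => ?_
  rw [Equiv.coe_mulRight, Subgroup.coe_mul, map_mul, Module.End.mul_apply]

private theorem prB_left [Fintype P] (hθ : θ ∈ Lin P) {x : G} (hx : x ∈ P) (v : V) :
    ρ x (prB P ρ θ v) = θ x • prB P ρ θ v := by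
  rw [prB_apply, map_sum, Finset.smul_sum, ← Equiv.sum_comp (Equiv.mulLeft (⟨x, hx⟩ : P))
    (fun w : P => θ x • θ ((w : G)⁻¹) • ρ (w : G) v)]
  refine Finset.sum_congr rfl fun w _ => ?_
  rw [Equiv.coe_mulLeft, Subgroup.coe_mul, map_mul, Module.End.mul_apply, map_smul, smul_smul]
  congr 1
  have h1 : θ ((w : G)⁻¹) = θ x * θ ((x * (w : G))⁻¹) := by
    rw [← hθ.2.1 _ hx _ (P.inv_mem (P.mul_mem hx w.2)), mul_inv_rev]
    by_cases hc : True
    · have hw := w.2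
      have h2 : θ (x * ((w : G)⁻¹ * x⁻¹)) = θ x * (θ ((w : G)⁻¹) * θ x⁻¹) := by
        rw [hθ.2.1 _ hx _ (P.mul_mem (P.inv_mem hw) (P.inv_mem hx)),
          hθ.2.1 _ (P.inv_mem hw) _ (P.inv_mem hx)]
      rw [h2, lin_inv hθ hx]
      have h3 := lin_ne hθ hx
      field_simp
    · exact absurd trivial hc
  exact h1

private theorem prB_right [Fintype P] (hθ : θ ∈ Lin P) {x : G} (hx : x ∈ P) (v : V) :
    prB P ρ θ (ρ x v) = θ x • prB P ρ θ v := by
  rw [prB_apply, prB_apply, Finset.smul_sum, ← Equiv.sum_comp (Equiv.mulRight (⟨x, hx⟩ : P))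
    (fun w : P => θ x • θ ((w : G)⁻¹) • ρ (w : G) v)]
  refine Finset.sum_congr rfl fun w _ => ?_
  rw [Equiv.coe_mulRight, Subgroup.coe_mul, map_mul, Module.End.mul_apply, smul_smul]
  congr 1
  have hw := w.2
  rw [show ((w : G) * ((⟨x, hx⟩ : P) : G))⁻¹ = x⁻¹ * (w : G)⁻¹ from mul_inv_rev _ _,
    hθ.2.1 _ (P.inv_mem hx) _ (P.inv_mem hw), lin_inv hθ hx]
  have h3 := lin_ne hθ hx
  field_simp

/-- conjugation on `U` -/
private def cjU (hB : Bru p P U) {x : G} (hx : x ∈ P) : U ≃ U where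
  toFun u := ⟨x * u * x⁻¹, hB.norm x hx u u.2⟩
  invFun u := ⟨x⁻¹ * u * x, by
    have := hB.norm x⁻¹ (P.inv_mem hx) u u.2
    rwa [inv_inv] at this⟩
  left_inv u := by
    apply Subtype.ext
    change x⁻¹ * (x * u * x⁻¹) * x = u
    group
  right_inv u := by
    apply Subtype.ext
    change x * (x⁻¹ * u * x) * x⁻¹ = u
    group

private theorem prA_comm (hB : Bru p P U) [Fintype U] {x : G} (hx : x ∈ P) (v : V) :
    ρ x (prA U ρ v) = prA U ρ (ρ x v) := by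
  rw [prA_apply, prA_apply, map_sum, ← Equiv.sum_comp (cjU hB hx)
    (fun w : U => ρ (w : G) (ρ x v))]
  refine Finset.sum_congr rfl fun w _ => ?_
  have h1 : ρ ((cjU hB hx w : U) : G) (ρ x v) = ρ ((x * w * x⁻¹) * x) v := by
    rw [map_mul _ (x * w * x⁻¹) x, Module.End.mul_apply]
    rfl
  rw [h1, inv_mul_cancel_right, map_mul, Module.End.mul_apply]

private theorem prAB (hB : Bru p P U) [Fintype P] [Fintype U] (v : V) :
    prA U ρ (prB P ρ θ v) = prB P ρ θ (prA U ρ v) := by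
  rw [prB_apply, prB_apply, map_sum]
  refine Finset.sum_congr rfl fun x _ => ?_
  rw [map_smul, prA_comm hB x.2]

private theorem prA_fix [Fintype U] {v : V} (hv : ∀ u ∈ U, ρ u v = v) :
    prA U ρ v = (Nat.card U : ℂ) • v := by
  have h : ∀ u : U, ρ (u : G) v = v := fun u => hv u u.2
  rw [prA_apply, Finset.sum_congr rfl fun u _ => h u, Finset.sum_const, Finset.card_univ,
    Nat.card_eq_fintype_card, Nat.cast_smul_eq_nsmul]

private theorem prB_fix [Fintype P] (hθ : θ ∈ Lin P) {v : V} (hv : ∀ x ∈ P, ρ x v = θ x • v) :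
    prB P ρ θ v = (Nat.card P : ℂ) • v := by
  have h : ∀ x : P, θ ((x : G)⁻¹) • ρ (x : G) v = v := by
    intro x
    rw [hv x x.2, smul_smul, lin_inv hθ x.2, inv_mul_cancel₀ (lin_ne hθ x.2), one_smul]
  rw [prB_apply, Finset.sum_congr rfl fun x _ => h x, Finset.sum_const, Finset.card_univ,
    Nat.card_eq_fintype_card, Nat.cast_smul_eq_nsmul]

private theorem prB_zero [Fintype P] (hθ : θ ∈ Lin P) (hθ' : θ' ∈ Lin P) (hne : θ ≠ θ') {v : V}
    (hv : ∀ x ∈ P, ρ x v = θ x • v) : prB P ρ θ' v = 0 := by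
  have h : ∀ x : P, θ' ((x : G)⁻¹) • ρ (x : G) v = (θ' ((x : G)⁻¹) * θ x) • v := by
    intro x
    rw [hv x x.2, smul_smul]
  rw [prB_apply, Finset.sum_congr rfl fun x _ => h x, ← Finset.sum_smul,
    ← finsum_eq_sum_of_fintype, lin_orth hθ' hθ (Ne.symm hne), zero_smul]

private theorem prB_t [Fintype P] {t : G} (ht : t ∈ Nm P) (v : V) :
    ρ t (prB P ρ θ v) = prB P ρ (cnj t θ) (ρ t v) := by
  have ht' : ∀ h : G, h ∈ P ↔ t * h * t⁻¹ ∈ P := Subgroup.mem_normalizer_iff.1 ht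
  have ht'' : ∀ h : G, h ∈ P ↔ t⁻¹ * h * t ∈ P := Subgroup.mem_normalizer_iff''.1 ht
  let e : P ≃ P :=
    { toFun := fun x => ⟨t * x * t⁻¹, (ht' x).1 x.2⟩
      invFun := fun x => ⟨t⁻¹ * x * t, (ht'' x).1 x.2⟩
      left_inv := fun x => by
        apply Subtype.ext
        change t⁻¹ * (t * x * t⁻¹) * t = x
        group
      right_inv := fun x => by
        apply Subtype.ext
        change t * (t⁻¹ * x * t) * t⁻¹ = x
        group }
  rw [prB_apply, prB_apply, map_sum, ← Equiv.sum_comp e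
    (fun w : P => cnj t θ ((w : G)⁻¹) • ρ (w : G) (ρ t v))]
  refine Finset.sum_congr rfl fun x _ => ?_
  have h1 : ρ ((e x : P) : G) (ρ t v) = ρ ((t * x * t⁻¹) * t) v := by
    rw [map_mul _ (t * x * t⁻¹) t, Module.End.mul_apply]
    rfl
  have h2 : cnj t θ (((e x : P) : G)⁻¹) = θ ((x : G)⁻¹) := by
    rw [cnj_apply]
    congr 1
    change t⁻¹ * (t * x * t⁻¹)⁻¹ * t = (x : G)⁻¹
    group
  rw [h1, h2, inv_mul_cancel_right, map_mul, Module.End.mul_apply, map_smul]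

private theorem card_ne (H : Subgroup G) : (Nat.card H : ℂ) ≠ 0 :=
  Nat.cast_ne_zero.2 Nat.card_pos.ne'

theorem pr_mem (hB : Bru p P U) (hθ : θ ∈ Lin P) (v : V) : pr P U ρ θ v ∈ VT P U ρ θ := by
  have : Fintype P := Fintype.ofFinite P
  have : Fintype U := Fintype.ofFinite U
  rw [mem_VT]
  refine ⟨fun u hu => ?_, fun x hx => ?_⟩
  · rw [pr_def, map_smul, prA_left hu]
  · rw [pr_def, map_smul, prA_comm hB hx, prB_left hθ hx, map_smul, smul_comm]

theorem pr_eq (hB : Bru p P U) (hθ : θ ∈ Lin P) {v : V} (hv : v ∈ VT P U ρ θ) :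
    pr P U ρ θ v = v := by
  have : Fintype P := Fintype.ofFinite P
  have : Fintype U := Fintype.ofFinite U
  have h1 : ((Nat.card P : ℂ) * (Nat.card U : ℂ))⁻¹ * (Nat.card P : ℂ) * (Nat.card U : ℂ) = 1 := by
    rw [mul_assoc]
    exact inv_mul_cancel₀ (mul_ne_zero (card_ne P) (card_ne U))
  rw [pr_def, prB_fix hθ hv.2, map_smul, prA_fix hv.1, smul_smul, smul_smul, h1, one_smul]

theorem pr_u (hB : Bru p P U) (hθ : θ ∈ Lin P) {u : G} (hu : u ∈ U) (v : V) :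
    pr P U ρ θ (ρ u v) = pr P U ρ θ v := by
  have : Fintype P := Fintype.ofFinite P
  have : Fintype U := Fintype.ofFinite U
  rw [pr_def, pr_def, prAB hB, prAB hB, prA_right hu]

theorem pr_x (hB : Bru p P U) (hθ : θ ∈ Lin P) {x : G} (hx : x ∈ P) (v : V) :
    pr P U ρ θ (ρ x v) = θ x • pr P U ρ θ v := by
  have : Fintype P := Fintype.ofFinite P
  have : Fintype U := Fintype.ofFinite U
  rw [pr_def, pr_def, prB_right hθ hx, map_smul, smul_comm]

theorem pr_ne (hB : Bru p P U) (hθ : θ ∈ Lin P) (hθ' : θ' ∈ Lin P) (hne : θ ≠ θ') {v : V}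
    (hv : ∀ x ∈ P, ρ x v = θ x • v) : pr P U ρ θ' v = 0 := by
  have : Fintype P := Fintype.ofFinite P
  have : Fintype U := Fintype.ofFinite U
  rw [pr_def, prB_zero hθ hθ' hne hv, map_zero, smul_zero]

theorem pr_t_mem (hθ : θ ∈ Lin P) {t : G} (ht : t ∈ Nm P) {v : V} (hv : v ∈ VT P U ρ θ) :
    ∀ x ∈ P, ρ x (ρ t v) = cnj t θ x • ρ t v := by
  have ht'' : ∀ h : G, h ∈ P ↔ t⁻¹ * h * t ∈ P := Subgroup.mem_normalizer_iff''.1 ht
  intro x hx
  have h1 : ρ x (ρ t v) = ρ t (ρ (t⁻¹ * x * t) v) := by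
    rw [← Module.End.mul_apply, ← Module.End.mul_apply, ← map_mul, ← map_mul]
    congr 2
    group
  rw [h1, hv.2 _ ((ht'' x).1 hx), map_smul, cnj_apply]

theorem pr_t (hB : Bru p P U) (hθ : θ ∈ Lin P) {t : G} (ht : t ∈ Nm P) (v : V) :
    pr P U ρ (cnj t θ) (ρ t (pr P U ρ θ v)) =
      (Nat.card U : ℂ)⁻¹ • ∑ᶠ u : U, pr P U ρ (cnj t θ) (ρ (t * u) v) := by
  have : Fintype P := Fintype.ofFinite P
  have : Fintype U := Fintype.ofFinite U
  have hθt := lin_cnj hθ ht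
  have h1 : ρ t (pr P U ρ θ v) = ((Nat.card P : ℂ) * (Nat.card U : ℂ))⁻¹ •
      prB P ρ (cnj t θ) (ρ t (prA U ρ v)) := by
    rw [pr_def, prAB hB, map_smul, prB_t ht]
  have h2 : ∀ w : V, pr P U ρ (cnj t θ) (prB P ρ (cnj t θ) w) =
      (Nat.card P : ℂ) • pr P U ρ (cnj t θ) w := by
    intro w
    rw [pr_def, pr_def, prB_fix hθt (fun x hx => prB_left hθt hx w), map_smul, smul_comm]
  have h3 : pr P U ρ (cnj t θ) (ρ t (prA U ρ v)) =
      ∑ᶠ u : U, pr P U ρ (cnj t θ) (ρ (t * u) v) := by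
    rw [finsum_eq_sum_of_fintype, prA_apply, map_sum, map_sum]
    refine Finset.sum_congr rfl fun u _ => ?_
    rw [map_mul, Module.End.mul_apply]
  rw [h1, map_smul, h2, h3, smul_smul]
  congr 1
  have h4 := card_ne P
  have h5 := card_ne U
  field_simp

theorem pr_g (hB : Bru p P U) (hθ : θ ∈ Lin P) (hθ' : θ' ∈ Lin P) (g : G) :
    ∃ t ∈ Nm P, (cnj t θ ≠ θ' → ∀ v ∈ VT P U ρ θ, pr P U ρ θ' (ρ g v) = 0) ∧
      (cnj t θ = θ' → ∀ v ∈ VT P U ρ θ, pr P U ρ θ' (ρ g v) = pr P U ρ θ' (ρ t v)) := by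
  obtain ⟨u₁, hu₁, t, ht, u₂, hu₂, hg⟩ := hB.cover g
  refine ⟨t, ht, ?_, ?_⟩
  · intro hne v hv
    have h1 : ρ g v = ρ u₁ (ρ t v) := by
      rw [hg, map_mul, map_mul, Module.End.mul_apply, Module.End.mul_apply, hv.1 u₂ hu₂]
    rw [h1, pr_u hB hθ' hu₁]
    exact pr_ne hB (lin_cnj hθ ht) hθ' hne (pr_t_mem hθ ht hv)
  · intro _ v hv
    have h1 : ρ g v = ρ u₁ (ρ t v) := by
      rw [hg, map_mul, map_mul, Module.End.mul_apply, Module.End.mul_apply, hv.1 u₂ hu₂]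
    rw [h1, pr_u hB hθ' hu₁]

end Pool.Agent.Helper68.BR
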