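import Pool.Agent.Helper68.BR.UTMem

/-!
# BR-C06: relations in `SL_n(k)`

Matrix computations with `1 + s E_ij` (`SpecialLinearGroup.transvection_coe`, `transvection_inv`, `Matrix.single_mul_single_same`,
`Matrix.single_mul_single_of_ne`). The center of `SL_n(k)` consists of scalar matrices (`Matrix.SpecialLinearGroup.mem_center_iff`).
* `mon_TP`: for monomial `m` and diagonal `z` the matrix `m z m⁻¹` is diagonal with the permuted entries: show `m z = z' m` with
  `z' i i = z (σ i) (σ i)`; the order does not change under conjugation.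
* `dg_of_comm`: if `g` commutes with `z` up to a central factor `c` (`g z = c z g`) for unitriangular `g` and diagonal `z`, the diagonal
  entries give `c = 1` (scalar), and then `g i j (z j j - z i i) = 0`.
-/

namespace Pool.Agent.Helper68.BR

open Matrix
open scoped commutatorElement

variable {n : ℕ} {k : Type} [Field k] {i j a b : Fin n}

private theorem rs_coe_mul (a b : SpecialLinearGroup (Fin n) k) : (a * b).1 = a.1 * b.1 := rfl

private theorem rs_dg_mul {z : SpecialLinearGroup (Fin n) k} (hz : z ∈ DG n k)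
    (A : Matrix (Fin n) (Fin n) k) (a b : Fin n) : (z.1 * A) a b = z.1 a a * A a b := by
  rw [Matrix.mul_apply, Finset.sum_eq_single a]
  · intro l _ hl
    rw [hz a l hl.symm, zero_mul]
  · intro h; exact absurd (Finset.mem_univ _) h

private theorem rs_mul_dg {z : SpecialLinearGroup (Fin n) k} (hz : z ∈ DG n k)
    (A : Matrix (Fin n) (Fin n) k) (a b : Fin n) : (A * z.1) a b = A a b * z.1 b b := by
  rw [Matrix.mul_apply, Finset.sum_eq_single b]
  · intro l _ hl
    rw [hz l b hl, mul_zero]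
  · intro h; exact absurd (Finset.mem_univ _) h

private theorem rs_scalar {c : SpecialLinearGroup (Fin n) k}
    (hc : c ∈ Subgroup.center (SpecialLinearGroup (Fin n) k)) :
    ∃ r : k, c.1 = Matrix.diagonal (fun _ => r) := by
  obtain ⟨r, -, hr⟩ := Matrix.SpecialLinearGroup.mem_center_iff.1 hc
  refine ⟨r, ?_⟩
  rw [← Matrix.scalar_apply]
  exact hr.symm

private theorem rs_tv_apply {i j : Fin n} (h : i ≠ j) (s : k) (a b : Fin n) :
    (tv h s).1 a b = (if a = b then 1 else 0) + (if i = a ∧ j = b then s else 0) := by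
  rw [SpecialLinearGroup.transvection_coe, Matrix.add_apply, Matrix.one_apply, Matrix.single_apply]

theorem tv_comm (h : i ≠ j) (h' : j ≠ b) (h'' : i ≠ b) (s t : k) :
    tv h s * tv h' t * (tv h s)⁻¹ * (tv h' t)⁻¹ = tv h'' (s * t) := by
  rw [mul_inv_eq_iff_eq_mul, mul_inv_eq_iff_eq_mul]
  apply Subtype.ext
  rw [rs_coe_mul, rs_coe_mul, rs_coe_mul]
  simp only [SpecialLinearGroup.transvection_coe, Matrix.add_mul, Matrix.mul_add, Matrix.one_mul,
    Matrix.mul_one]
  have e1 : Matrix.single i b (s * t) * Matrix.single j b t = (0 : Matrix (Fin n) (Fin n) k) :=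
    Matrix.single_mul_single_of_ne _ _ _ _ h'.symm _
  have e2 : Matrix.single i b (s * t) * Matrix.single i j s = (0 : Matrix (Fin n) (Fin n) k) :=
    Matrix.single_mul_single_of_ne _ _ _ _ h''.symm _
  have e3 : Matrix.single j b t * Matrix.single i j s = (0 : Matrix (Fin n) (Fin n) k) :=
    Matrix.single_mul_single_of_ne _ _ _ _ h''.symm _
  rw [Matrix.single_mul_single_same, e1, e2, e3]
  simp only [Matrix.zero_mul, add_zero, zero_add]
  abel

theorem tv_commute (h : i ≠ j) (h' : a ≠ b) (h1 : j ≠ a) (h2 : i ≠ b) (s t : k) :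
    tv h s * tv h' t = tv h' t * tv h s := by
  apply Subtype.ext
  rw [rs_coe_mul, rs_coe_mul]
  simp only [SpecialLinearGroup.transvection_coe, Matrix.add_mul, Matrix.mul_add, Matrix.one_mul,
    Matrix.mul_one]
  have e1 : Matrix.single i j s * Matrix.single a b t = (0 : Matrix (Fin n) (Fin n) k) :=
    Matrix.single_mul_single_of_ne _ _ _ _ h1 _
  have e2 : Matrix.single a b t * Matrix.single i j s = (0 : Matrix (Fin n) (Fin n) k) :=
    Matrix.single_mul_single_of_ne _ _ _ _ h2.symm _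
  rw [e1, e2]
  abel

theorem dg_ne {z : SpecialLinearGroup (Fin n) k} (hz : z ∈ DG n k) (i : Fin n) : z.1 i i ≠ 0 := by
  intro h0
  have h1 : z.1.det = 0 := by
    refine Matrix.det_eq_zero_of_row_eq_zero i fun j => ?_
    by_cases hij : i = j
    · subst hij; exact h0
    · exact hz i j hij
  rw [z.2] at h1
  exact one_ne_zero h1

theorem dg_conj (h : i ≠ j) {z : SpecialLinearGroup (Fin n) k} (hz : z ∈ DG n k) (s : k) :
    z * tv h s * z⁻¹ = tv h (z.1 i i * (z.1 j j)⁻¹ * s) := by
  rw [mul_inv_eq_iff_eq_mul]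
  apply Subtype.ext
  rw [rs_coe_mul, rs_coe_mul]
  ext a b
  rw [rs_dg_mul hz, rs_mul_dg hz, rs_tv_apply, rs_tv_apply]
  by_cases hab : a = b
  · subst hab
    have h3 : ¬ (i = a ∧ j = a) := fun h4 => h (h4.1.trans h4.2.symm)
    rw [if_neg h3, if_neg h3]
    ring
  · rw [if_neg hab]
    by_cases h3 : i = a ∧ j = b
    · rw [if_pos h3, if_pos h3, h3.1, h3.2]
      have h4 := dg_ne hz b
      field_simp
      ring
    · rw [if_neg h3, if_neg h3]
      ring

theorem dg_comm {z w : SpecialLinearGroup (Fin n) k} (hz : z ∈ DG n k) (hw : w ∈ DG n k) :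
    z * w = w * z := by
  apply Subtype.ext
  rw [rs_coe_mul, rs_coe_mul]
  ext a b
  rw [rs_dg_mul hz, rs_mul_dg hz]
  by_cases hab : a = b
  · subst hab
    exact mul_comm _ _
  · rw [hw a b hab]
    ring

theorem mon_TP {p : ℕ} {m z : SpecialLinearGroup (Fin n) k} (hm : IsMon m) (hz : z ∈ TP n k p) :
    m * z * m⁻¹ ∈ TP n k p := by
  obtain ⟨σ, hσ⟩ := hm
  obtain ⟨hzd, N, hN⟩ := hz
  refine ⟨?_, N, by rw [conj_pow, hN, mul_one, mul_inv_cancel]⟩
  intro a c hac
  have hne : m.1 c (σ c) ≠ 0 := by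
    intro h0
    have h1 : m.1.det = 0 := by
      refine Matrix.det_eq_zero_of_row_eq_zero c fun j => ?_
      by_cases hj : j = σ c
      · rw [hj]; exact h0
      · exact hσ c j hj
    rw [m.2] at h1
    exact one_ne_zero h1
  have h1 : (m * z * m⁻¹).1 * m.1 = m.1 * z.1 := by
    have h2 : (m * z * m⁻¹) * m = m * z := by group
    exact congrArg Subtype.val h2
  have h2 := congrFun (congrFun h1 a) (σ c)
  rw [rs_mul_dg hzd, Matrix.mul_apply, Finset.sum_eq_single c, hσ a (σ c), zero_mul] at h2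
  · exact (mul_eq_zero.1 h2).resolve_right hne
  · intro h3
    exact hac (σ.injective h3.symm)
  · intro l _ hl
    rw [hσ l (σ c), mul_zero]
    intro h3
    exact hl (σ.injective h3.symm)
  · intro h; exact absurd (Finset.mem_univ _) h

private theorem rs_conj_apply {z g : SpecialLinearGroup (Fin n) k} (hz : z ∈ DG n k)
    (a b : Fin n) : (z * g * z⁻¹).1 a b = z.1 a a * g.1 a b * (z.1 b b)⁻¹ := by
  have h1 : (z * g * z⁻¹).1 * z.1 = z.1 * g.1 := by
    have h2 : (z * g * z⁻¹) * z = z * g := by group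
    exact congrArg Subtype.val h2
  have h2 := congrFun (congrFun h1 a) b
  rw [rs_mul_dg hz, rs_dg_mul hz] at h2
  have h3 := dg_ne hz b
  rw [← h2]
  field_simp

theorem dg_UT {z g : SpecialLinearGroup (Fin n) k} (hz : z ∈ DG n k) (hg : g ∈ UT n k) :
    z * g * z⁻¹ ∈ UT n k := by
  obtain ⟨h1, h2⟩ := mem_UT.1 hg
  refine mem_UT.2 ⟨fun i => ?_, fun i j hij => ?_⟩
  · rw [rs_conj_apply hz, h1, mul_one, mul_inv_cancel₀ (dg_ne hz i)]
  · rw [rs_conj_apply hz, h2 i j hij, mul_zero, zero_mul]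

theorem UT_center {g : SpecialLinearGroup (Fin n) k} (hg : g ∈ UT n k)
    (hc : g ∈ Subgroup.center (SpecialLinearGroup (Fin n) k)) : g = 1 := by
  obtain ⟨h1, h2⟩ := mem_UT.1 hg
  obtain ⟨r, hr⟩ := rs_scalar hc
  apply Subtype.ext
  ext i j
  change g.1 i j = (1 : Matrix (Fin n) (Fin n) k) i j
  by_cases hij : i = j
  · subst hij
    rw [h1, Matrix.one_apply_eq]
  · rw [hr, Matrix.diagonal_apply_ne _ hij, Matrix.one_apply_ne hij]

theorem tv_center (h : i ≠ j) {s t : k} {c : SpecialLinearGroup (Fin n) k}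
    (hc : c ∈ Subgroup.center (SpecialLinearGroup (Fin n) k)) (he : tv h s = tv h t * c) :
    s = t := by
  obtain ⟨r, hr⟩ := rs_scalar hc
  have h1 : (tv h s).1 = (tv h t).1 * c.1 := congrArg Subtype.val he
  rw [hr] at h1
  have h2 := congrFun (congrFun h1 i) i
  have h3 := congrFun (congrFun h1 i) j
  have hji : ¬ (i = i ∧ j = i) := fun h4 => h h4.2.symm
  rw [Matrix.mul_diagonal, rs_tv_apply, rs_tv_apply, if_pos rfl, if_neg hji, if_neg hji] at h2
  rw [Matrix.mul_diagonal, rs_tv_apply, rs_tv_apply, if_neg h, if_pos ⟨rfl, rfl⟩,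
    if_pos ⟨rfl, rfl⟩] at h3
  have h4 : r = 1 := by linear_combination -h2
  rw [h4] at h3
  linear_combination h3

theorem dg_of_comm {z g c : SpecialLinearGroup (Fin n) k} (hz : z ∈ DG n k) (hg : g ∈ UT n k)
    (hc : c ∈ Subgroup.center (SpecialLinearGroup (Fin n) k)) (h : g * z = z * g * c) :
    ∀ i j, z.1 i i ≠ z.1 j j → g.1 i j = 0 := by
  intro i j hij
  obtain ⟨h1, h2⟩ := mem_UT.1 hg
  obtain ⟨r, hr⟩ := rs_scalar hc
  have h3 : g.1 * z.1 = z.1 * g.1 * c.1 := congrArg Subtype.val h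
  rw [hr] at h3
  have h4 := congrFun (congrFun h3 i) i
  have h5 := congrFun (congrFun h3 i) j
  rw [Matrix.mul_diagonal, rs_mul_dg hz, rs_dg_mul hz] at h4 h5
  rw [h1] at h4
  have h6 : z.1 i i * (r - 1) = 0 := by linear_combination -h4
  have h7 : r = 1 := by
    have := (mul_eq_zero.1 h6).resolve_left (dg_ne hz i)
    linear_combination this
  rw [h7] at h5
  have h8 : g.1 i j * (z.1 j j - z.1 i i) = 0 := by linear_combination h5
  rcases mul_eq_zero.1 h8 with h9 | h9
  · exact h9
  · exact absurd (sub_eq_zero.1 h9).symm hij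

end Pool.Agent.Helper68.BR
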