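import Pool.Agent.Helper68.BR.Pr

/-!
# BR-A08: the operators `pr θ' ∘ ρ g` preserve the lattices

`LL_stable`: let `v ∈ LL θ`. By `pr_g` there is `t ∈ N` such that `pr θ' (ρ g v)` is `0` or (if `cnj t θ = θ'`)
`pr θ' (ρ t v)`. In the second case we may assume `v = b θ j = pr θ (ρ g' w)` (`Lat.gen`, linearity: `LL` is
closed under multiplication by elements of `OO p`), and `pr_t` gives
`pr θ' (ρ t v) = |U|⁻¹ ∑_u pr θ' (ρ (t u g') w)`, which is in `LL θ'` by `Lat.int` and since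
`|U|⁻¹ ∈ OO p` (`inv_nat_mem`, `not_dvd_card_U`).
`exists_M`: apply `LL_stable` to the `b θ j`. `M_spec`: `Lat.M_spec` (Defs).
`repr_M`: the coordinates: uniqueness of coordinates with respect to a basis of `VT`.
`C_*`: translate `pr_x`, `pr_u`, `ρ x v = θ x • v`, `pr_t`, `pr_g` into matrices (compare the coordinates of both
sides applied to `b θ j`, basis `b θ'`). In `C_sandwich` both `θ'' ∈ Lin P` arbitrary:
`pr θ'' (ρ n (pr (cnj m θ) (ρ m v))) = |U|⁻¹ ∑_u pr θ'' (ρ (n u m) v)` for `v ∈ VT θ`: because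
`pr (cnj m θ) (ρ m v) = |U|⁻¹ ∑_u ρ (u m) v` (`ρ m v` is an eigenvector of `P` for `cnj m θ`, `pr_t_mem`).
-/

namespace Pool.Agent.Helper68.BR

open Pool.Agent.Helper42.INC Pool.Agent.Helper42.IR

variable {G : Type} [Group G] [Finite G] {p : ℕ} [Fact p.Prime] {P U : Subgroup G}
  {θ θ' θ'' : G → ℂ} {V : Type} [AddCommGroup V] [Module ℂ V] {ρ : Representation ℂ G V}

omit [Finite G] in
private theorem st_smul (Λ : Lat p P U ρ) {z : ℂ} (hz : z ∈ OO p) {v : V} (hv : v ∈ Λ.LL θ) :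
    z • v ∈ Λ.LL θ := by
  obtain ⟨c, rfl⟩ := hv
  refine ⟨fun j => ⟨z, hz⟩ * c j, ?_⟩
  rw [Finset.smul_sum]
  refine Finset.sum_congr rfl fun j _ => ?_
  rw [smul_smul]
  rfl

omit [Finite G] in
private theorem st_basis (Λ : Lat p P U ρ) (j : Fin (Λ.d θ)) : (Λ.b θ j : V) ∈ Λ.LL θ := by
  classical
  refine ⟨fun i => if i = j then 1 else 0, ?_⟩
  rw [Finset.sum_eq_single j]
  · simp
  · intro i _ hi
    simp [hi]
  · intro h
    exact absurd (Finset.mem_univ j) h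

theorem LL_stable (hB : Bru p P U) (Λ : Lat p P U ρ) (hθ : θ ∈ Lin P) (hθ' : θ' ∈ Lin P) {v : V}
    (hv : v ∈ Λ.LL θ) (g : G) : pr P U ρ θ' (ρ g v) ∈ Λ.LL θ' := by
  obtain ⟨t, ht, h0, h1⟩ := pr_g (ρ := ρ) hB hθ hθ' g
  have key : ∀ j, pr P U ρ θ' (ρ g (Λ.b θ j : V)) ∈ Λ.LL θ' := by
    intro j
    by_cases hne : cnj t θ = θ'
    · rw [h1 hne _ (Λ.b θ j).2]
      obtain ⟨g', hg'⟩ := Λ.gen θ hθ j
      rw [hg']
      subst hne
      rw [pr_t hB hθ ht]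
      refine st_smul Λ (inv_nat_mem (not_dvd_card_U hB)) ?_
      have : Fintype U := Fintype.ofFinite U
      rw [finsum_eq_sum_of_fintype]
      refine AddSubgroup.sum_mem _ fun u _ => ?_
      have h2 : ρ (t * u) (ρ g' Λ.w) = ρ (t * u * g') Λ.w := by
        rw [map_mul ρ (t * u) g', Module.End.mul_apply]
      rw [h2]
      exact Λ.int _ hθ' _
    · rw [h0 hne _ (Λ.b θ j).2]
      exact AddSubgroup.zero_mem _
  obtain ⟨c, rfl⟩ := hv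
  rw [map_sum, map_sum]
  refine AddSubgroup.sum_mem _ fun j _ => ?_
  rw [map_smul, map_smul]
  exact st_smul Λ (c j).2 (key j)

theorem M_spec (hB : Bru p P U) (Λ : Lat p P U ρ) (hθ : θ ∈ Lin P) (hθ' : θ' ∈ Lin P) (g : G)
    (j : Fin (Λ.d θ)) :
    pr P U ρ θ' (ρ g (Λ.b θ j : V)) = ∑ i, Λ.C θ' θ g i j • (Λ.b θ' i : V) := by
  have h : ∀ j, ∃ c : Fin (Λ.d θ') → OO p,
      pr P U ρ θ' (ρ g (Λ.b θ j : V)) = ∑ i, (c i : ℂ) • (Λ.b θ' i : V) :=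
    fun j => LL_stable hB Λ hθ hθ' (st_basis Λ j) g
  choose c hc using h
  exact Λ.M_spec ⟨fun i j => c j i, fun j => hc j⟩ j

omit [Finite G] in
private theorem st_coord (Λ : Lat p P U ρ) {a a' : Fin (Λ.d θ) → ℂ}
    (h : ∑ i, a i • (Λ.b θ i : V) = ∑ i, a' i • (Λ.b θ i : V)) : a = a' := by
  refine (Λ.b θ).equivFun.symm.injective ?_
  rw [Module.Basis.equivFun_symm_apply, Module.Basis.equivFun_symm_apply]
  apply Subtype.ext
  push_cast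
  exact h

private theorem st_ext (hB : Bru p P U) (Λ : Lat p P U ρ) (hθ : θ ∈ Lin P) (hθ' : θ' ∈ Lin P) (g : G)
    {A : Matrix (Fin (Λ.d θ')) (Fin (Λ.d θ)) ℂ}
    (h : ∀ j, pr P U ρ θ' (ρ g (Λ.b θ j : V)) = ∑ i, A i j • (Λ.b θ' i : V)) :
    Λ.C θ' θ g = A := by
  ext i j
  have h1 := (M_spec hB Λ hθ hθ' g j).symm.trans (h j)
  exact congrFun (st_coord Λ h1) i

theorem C_one (hB : Bru p P U) (Λ : Lat p P U ρ) (hθ : θ ∈ Lin P) : Λ.C θ θ 1 = 1 := by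
  classical
  refine st_ext hB Λ hθ hθ 1 fun j => ?_
  rw [map_one, Module.End.one_apply, pr_eq hB hθ (Λ.b θ j).2, Finset.sum_eq_single j]
  · rw [Matrix.one_apply_eq, one_smul]
  · intro i _ hi
    rw [Matrix.one_apply_ne hi, zero_smul]
  · intro h
    exact absurd (Finset.mem_univ j) h

theorem C_left (hB : Bru p P U) (Λ : Lat p P U ρ) (hθ : θ ∈ Lin P) (hθ' : θ' ∈ Lin P) {u x : G}
    (hu : u ∈ U) (hx : x ∈ P) (g : G) : Λ.C θ' θ (u * x * g) = θ' x • Λ.C θ' θ g := by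
  refine st_ext hB Λ hθ hθ' _ fun j => ?_
  rw [map_mul, map_mul, Module.End.mul_apply, Module.End.mul_apply, pr_u hB hθ' hu,
    pr_x hB hθ' hx, M_spec hB Λ hθ hθ' g j, Finset.smul_sum]
  refine Finset.sum_congr rfl fun i _ => ?_
  rw [smul_smul, Matrix.smul_apply, smul_eq_mul]

theorem C_right (hB : Bru p P U) (Λ : Lat p P U ρ) (hθ : θ ∈ Lin P) (hθ' : θ' ∈ Lin P) {u x : G}
    (hu : u ∈ U) (hx : x ∈ P) (g : G) : Λ.C θ' θ (g * (u * x)) = θ x • Λ.C θ' θ g := by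
  refine st_ext hB Λ hθ hθ' _ fun j => ?_
  rw [map_mul, map_mul, Module.End.mul_apply, Module.End.mul_apply, (Λ.b θ j).2.2 x hx, map_smul,
    (Λ.b θ j).2.1 u hu, map_smul, map_smul, M_spec hB Λ hθ hθ' g j, Finset.smul_sum]
  refine Finset.sum_congr rfl fun i _ => ?_
  rw [smul_smul, Matrix.smul_apply, smul_eq_mul]

private theorem st_zero (hB : Bru p P U) (Λ : Lat p P U ρ) (hθ : θ ∈ Lin P) (hθ' : θ' ∈ Lin P)
    {g : G} (h : ∀ v ∈ VT P U ρ θ, pr P U ρ θ' (ρ g v) = 0) : Λ.C θ' θ g = 0 := by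
  refine st_ext hB Λ hθ hθ' _ fun j => ?_
  rw [h _ (Λ.b θ j).2]
  simp

theorem C_ne (hB : Bru p P U) (Λ : Lat p P U ρ) (hθ : θ ∈ Lin P) (hθ' : θ' ∈ Lin P) {t : G}
    (ht : t ∈ Nm P) (hne : cnj t θ ≠ θ') : Λ.C θ' θ t = 0 :=
  st_zero hB Λ hθ hθ' fun _ hv => pr_ne hB (lin_cnj hθ ht) hθ' hne (pr_t_mem hθ ht hv)

theorem C_zero (hB : Bru p P U) (Λ : Lat p P U ρ) (hθ : θ ∈ Lin P) (hθ' : θ' ∈ Lin P)
    (hne : ∀ t ∈ Nm P, cnj t θ ≠ θ') (g : G) : Λ.C θ' θ g = 0 := by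
  obtain ⟨t, ht, h0, -⟩ := pr_g (ρ := ρ) hB hθ hθ' g
  exact st_zero hB Λ hθ hθ' (h0 (hne t ht))

private theorem st_pr (hθ : θ ∈ Lin P) {v : V} (hv : ∀ x ∈ P, ρ x v = θ x • v) :
    (Nat.card U : ℂ) • pr P U ρ θ v = ∑ᶠ u : U, ρ (u : G) v := by
  have : Fintype P := Fintype.ofFinite P
  have : Fintype U := Fintype.ofFinite U
  have hP : (Nat.card P : ℂ) ≠ 0 := Nat.cast_ne_zero.2 Nat.card_pos.ne'
  have hU : (Nat.card U : ℂ) ≠ 0 := Nat.cast_ne_zero.2 Nat.card_pos.ne'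
  have h1 : ∀ x : P, (∑ᶠ u : U, θ ((x : G)⁻¹) • ρ ((u : G) * (x : G))) v =
      ∑ u : U, ρ (u : G) v := by
    intro x
    rw [finsum_eq_sum_of_fintype, LinearMap.sum_apply]
    refine Finset.sum_congr rfl fun u _ => ?_
    rw [LinearMap.smul_apply, map_mul, Module.End.mul_apply, hv x x.2, map_smul, smul_smul,
      lin_inv hθ x.2, inv_mul_cancel₀ (lin_ne hθ x.2), one_smul]
  rw [pr, LinearMap.smul_apply, finsum_eq_sum_of_fintype, LinearMap.sum_apply,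
    Finset.sum_congr rfl fun x _ => h1 x, Finset.sum_const, Finset.card_univ,
    ← Nat.card_eq_fintype_card, ← Nat.cast_smul_eq_nsmul ℂ, smul_smul, smul_smul,
    finsum_eq_sum_of_fintype]
  have h2 : (Nat.card U : ℂ) * ((Nat.card P : ℂ) * (Nat.card U : ℂ))⁻¹ * (Nat.card P : ℂ) = 1 := by
    field_simp
  rw [h2, one_smul]

theorem C_sandwich (hB : Bru p P U) (Λ : Lat p P U ρ) (hθ : θ ∈ Lin P) (hθ'' : θ'' ∈ Lin P)
    {m : G} (hm : m ∈ Nm P) (h1 : cnj m θ = θ') (n : G) :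
    ∑ᶠ u : U, Λ.C θ'' θ (n * u * m) = (Nat.card U : ℂ) • (Λ.C θ'' θ' n * Λ.C θ' θ m) := by
  have : Fintype U := Fintype.ofFinite U
  have hθ' : θ' ∈ Lin P := h1 ▸ lin_cnj hθ hm
  rw [finsum_eq_sum_of_fintype]
  ext i j
  refine congrFun (st_coord Λ (a := fun i => (∑ u : U, Λ.C θ'' θ (n * u * m)) i j)
    (a' := fun i => ((Nat.card U : ℂ) • (Λ.C θ'' θ' n * Λ.C θ' θ m)) i j) ?_) i
  have h2 : ∑ k, (∑ u : U, Λ.C θ'' θ (n * u * m)) k j • (Λ.b θ'' k : V) =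
      ∑ u : U, pr P U ρ θ'' (ρ (n * u * m) (Λ.b θ j : V)) := by
    rw [Finset.sum_congr rfl fun (u : U) _ => M_spec hB Λ hθ hθ'' (n * (u : G) * m) j,
      Finset.sum_comm]
    refine Finset.sum_congr rfl fun k _ => ?_
    rw [Matrix.sum_apply, Finset.sum_smul]
  have hv : ∀ x ∈ P, ρ x (ρ m (Λ.b θ j : V)) = θ' x • ρ m (Λ.b θ j : V) := by
    rw [← h1]
    exact pr_t_mem hθ hm (Λ.b θ j).2
  have h3 : ∑ u : U, pr P U ρ θ'' (ρ (n * u * m) (Λ.b θ j : V)) =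
      pr P U ρ θ'' (ρ n ((Nat.card U : ℂ) • pr P U ρ θ' (ρ m (Λ.b θ j : V)))) := by
    rw [st_pr hθ' hv, finsum_eq_sum_of_fintype, map_sum, map_sum]
    refine Finset.sum_congr rfl fun u _ => ?_
    rw [map_mul, map_mul, Module.End.mul_apply, Module.End.mul_apply]
  have h4 : ∑ k, ((Nat.card U : ℂ) • (Λ.C θ'' θ' n * Λ.C θ' θ m)) k j • (Λ.b θ'' k : V) =
      pr P U ρ θ'' (ρ n ((Nat.card U : ℂ) • pr P U ρ θ' (ρ m (Λ.b θ j : V)))) := by
    rw [M_spec hB Λ hθ hθ' m j, map_smul, map_smul, map_sum, map_sum, Finset.smul_sum]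
    have h5 : ∀ l, pr P U ρ θ'' (ρ n (Λ.C θ' θ m l j • (Λ.b θ' l : V))) =
        ∑ k, (Λ.C θ' θ m l j * Λ.C θ'' θ' n k l) • (Λ.b θ'' k : V) := by
      intro l
      rw [map_smul, map_smul, M_spec hB Λ hθ' hθ'' n l, Finset.smul_sum]
      refine Finset.sum_congr rfl fun k _ => ?_
      rw [smul_smul]
    have h6 : ∀ l, (Nat.card U : ℂ) • pr P U ρ θ'' (ρ n (Λ.C θ' θ m l j • (Λ.b θ' l : V))) =
        ∑ k, (Nat.card U : ℂ) • ((Λ.C θ' θ m l j * Λ.C θ'' θ' n k l) • (Λ.b θ'' k : V)) := by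
      intro l
      rw [h5 l, Finset.smul_sum]
    rw [Finset.sum_congr rfl fun l _ => h6 l, Finset.sum_comm]
    refine Finset.sum_congr rfl fun k _ => ?_
    rw [Matrix.smul_apply, Matrix.mul_apply, smul_eq_mul, Finset.mul_sum, Finset.sum_smul]
    refine Finset.sum_congr rfl fun l _ => ?_
    rw [smul_smul, mul_comm (Λ.C θ'' θ' n k l)]
  exact h2.trans (h3.trans h4.symm)

end Pool.Agent.Helper68.BR
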