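import Pool.Agent.Helper68.BR.Tr

/-!
# BR-A15: the congruence for the degree and the regular character

* `sum_cg`: by `tt_sum` the right side is `|U|⁻¹ ∑_u χ u`. The values `χ u` are in `OO p` (sums of roots of unity,
  `integral_mem`); `u ↦ χ u ∈ OO p` is invariant under conjugation by `P`, whose only fixed point on `U` is `1`
  (`Bru.fix`), so by `sum_fixed` `∑_u χ u = χ 1 + p a`; and `|U| ≡ 1 mod p` (`card_U`), `|U|` a unit.
* `reg_one`, `reg_zero`: `∑_χ χ(1) χ(g) = |G|` for `g = 1` and `0` otherwise (`sum_deg_sq` in INC/Basic for `g = 1`;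
  for `g ≠ 1` column orthogonality: search the library for the regular character, or use `expand` in INC/Basic for
  the class function which is `|G|` at `1` and `0` elsewhere). So the sum is `(|P| |U|)⁻¹ |G|` times the number
  (weighted by `θ (x⁻¹)`) of the pairs `(x, u)` with `u x l = 1`. If `u x l = 1` with `l ∈ L` then `u x = l⁻¹ ∈ N`, so
  `u = 1` (`inf_NUP`), `l⁻¹ = x ∈ P`, so `l = 1` (`Cmp.inf`) and `x = 1`.
-/

namespace Pool.Agent.Helper68.BR

open Pool.Agent.Helper42.INC Pool.Agent.Helper42.IR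

variable {G : Type} [Group G] [Finite G] {p : ℕ} [Fact p.Prime] {P U L : Subgroup G} {θ : G → ℂ}

private theorem char_integral' {M : Type} [Group M] [Finite M] {V : Type} [AddCommGroup V]
    [Module ℂ V] [FiniteDimensional ℂ V] (ρ : Representation ℂ M V) (g : M) :
    IsIntegral ℤ (ρ.character g) := by
  have h1 : ρ.character g = (LinearMap.charpoly (ρ g)).roots.sum :=
    Module.End.trace_eq_sum_roots_charpoly_of_splits (IsAlgClosed.splits _)
  rw [h1]
  have h2 : ∀ s : Multiset ℂ, (∀ z ∈ s, IsIntegral ℤ z) → IsIntegral ℤ s.sum := by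
    intro s
    induction s using Multiset.induction_on with
    | empty => intro _; simpa using isIntegral_zero
    | cons a s ih =>
      intro hs
      rw [Multiset.sum_cons]
      exact (hs a (Multiset.mem_cons_self a s)).add
        (ih fun z hz => hs z (Multiset.mem_cons_of_mem hz))
  apply h2
  intro z hz
  have hz1 : (LinearMap.charpoly (ρ g)).IsRoot z := Polynomial.isRoot_of_mem_roots hz
  have hz2 : Module.End.HasEigenvalue (ρ g) z :=
    (Module.End.hasEigenvalue_iff_isRoot_charpoly (ρ g) z).2 hz1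
  obtain ⟨v, hv⟩ := hz2.exists_hasEigenvector
  have hv1 : ∀ k : ℕ, (ρ (g ^ k)) v = z ^ k • v := by
    intro k
    induction k with
    | zero => simp
    | succ k ih =>
      rw [pow_succ', map_mul, Module.End.mul_apply, ih, map_smul, hv.apply_eq_smul, smul_smul,
        pow_succ]
  have hcard : 0 < Nat.card M := Nat.card_pos
  have h3 := hv1 (Nat.card M)
  rw [pow_card_eq_one', map_one, Module.End.one_apply] at h3
  have h4 : (z ^ Nat.card M - 1) • v = 0 := by
    rw [sub_smul, one_smul, ← h3, sub_self]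
  have h5 : z ^ Nat.card M - 1 = 0 := (smul_eq_zero.1 h4).resolve_right hv.2
  refine ⟨Polynomial.X ^ Nat.card M - 1, ?_, ?_⟩
  · exact Polynomial.monic_X_pow_sub_C (1 : ℤ) hcard.ne'
  · simpa using h5

private theorem irr_mem_OO {χ : G → ℂ} (hχ : χ ∈ Irr G) (g : G) : χ g ∈ OO p := by
  obtain ⟨V, _, _, _, ρ, hρ, rfl⟩ := hχ
  exact integral_mem (char_integral' ρ g)

theorem sum_cg (hB : Bru p P U) {χ : G → ℂ} (hχ : χ ∈ Irr G) :
    Cg p (χ 1) (∑ᶠ θ : Lin P, tt P U χ θ.1 1) := by
  classical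
  have hfU : Fintype U := Fintype.ofFinite U
  rw [tt_sum hB χ, finsum_eq_sum_of_fintype]
  let _ : MulAction P U :=
    { smul := fun x u => ⟨(x : G) * u * (x : G)⁻¹, hB.norm x x.2 u u.2⟩
      one_smul := fun u => Subtype.ext (by
        change ((1 : P) : G) * (u : G) * ((1 : P) : G)⁻¹ = u
        simp)
      mul_smul := fun x y u => Subtype.ext (by
        change ((x * y : P) : G) * (u : G) * ((x * y : P) : G)⁻¹ =
          (x : G) * ((y : G) * (u : G) * (y : G)⁻¹) * (x : G)⁻¹
        rw [Subgroup.coe_mul]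
        group) }
  have hsm : ∀ (x : P) (u : U), ((x • u : U) : G) = (x : G) * u * (x : G)⁻¹ := fun _ _ => rfl
  let f : U → OO p := fun u => ⟨χ u, irr_mem_OO hχ u⟩
  obtain ⟨a, ha⟩ := sum_fixed (p := p) hB.pgroup f (fun x u => Subtype.ext (by
      change χ ((x • u : U) : G) = χ u
      rw [hsm]
      exact Irr.isClass hχ (x : G) (u : G))) {1} (fun u => by
      rw [Finset.mem_singleton]
      constructor
      · rintro rfl x
        refine Subtype.ext ?_
        rw [hsm]
        simp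
      · intro h
        refine Subtype.ext (hB.fix u u.2 fun x hx => ?_)
        have h1 := congrArg (Subtype.val : U → G) (h ⟨x, hx⟩)
        rw [hsm] at h1
        exact mul_inv_eq_iff_eq_mul.1 h1)
  have h1 : ∑ u : U, χ u = χ 1 + p * (a : ℂ) := by
    have h2 := congrArg (Subtype.val : OO p → ℂ) ha
    rw [Finset.sum_singleton] at h2
    have h3 : ((∑ u : U, f u : OO p) : ℂ) = ∑ u : U, χ u := by
      rw [AddSubmonoidClass.coe_finsetSum]
    rw [← h3, h2]
    push_cast
    rw [nsmul_eq_mul]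
    rfl
  obtain ⟨m, hm⟩ : ∃ m : ℕ, Nat.card U = 1 + p * m := by
    have h2 : p ∣ Nat.card U - 1 := (Nat.modEq_iff_dvd' (Nat.card_pos (α := U))).1 (card_U hB).symm
    obtain ⟨m, hm⟩ := h2
    have h3 : 0 < Nat.card U := Nat.card_pos
    exact ⟨m, by omega⟩
  have hU0 : (Nat.card U : ℂ) ≠ 0 := by
    have h3 : 0 < Nat.card U := Nat.card_pos
    exact_mod_cast h3.ne'
  have hinv : (Nat.card U : ℂ)⁻¹ ∈ OO p := inv_nat_mem (not_dvd_card_U hB)
  have hmem : (Nat.card U : ℂ)⁻¹ * (m * χ 1 - a) ∈ OO p :=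
    mul_mem hinv (sub_mem (mul_mem (natCast_mem _ m) (irr_mem_OO hχ 1)) a.2)
  refine ⟨((p : ℕ) : OO p) * ⟨_, hmem⟩, Ideal.mul_mem_right _ _ (p_mem p), ?_⟩
  rw [h1]
  push_cast
  have h4 : (Nat.card U : ℂ) = 1 + p * m := by
    rw [hm]
    push_cast
    rfl
  field_simp
  rw [h4]
  ring

open Classical in
private theorem col (g : G) :
    ∑ᶠ χ : Irr G, χ.1 1 * χ.1 g = if g = 1 then (Nat.card G : ℂ) else 0 := by
  have := Fintype.ofFinite G
  have := Fintype.ofFinite (Irr G)
  set δ : G → ℂ := fun x => if x = 1 then (Nat.card G : ℂ) else 0 with hδ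
  have hδc : IsClass δ := by
    intro g x
    simp only [hδ, conj_eq_one_iff]
  have hB : ∀ χ ∈ Irr G, B δ χ = χ 1 := by
    intro χ _
    rw [B_eq, Finset.sum_eq_single 1]
    · simp only [hδ, if_true, inv_one]
      rw [← mul_assoc, inv_mul_cancel₀, one_mul]
      exact_mod_cast Nat.card_pos.ne'
    · intro x _ hx; simp only [hδ, if_neg hx]; simp
    · intro h; exact absurd (Finset.mem_univ _) h
  have h := congrFun (expand δ hδc) g
  simp only [Finset.sum_apply, Pi.smul_apply, smul_eq_mul] at h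
  rw [finsum_eq_sum_of_fintype]
  rw [show (if g = 1 then (Nat.card G : ℂ) else 0) = δ g from rfl, h]
  exact Finset.sum_congr rfl fun χ _ => by rw [hB χ.1 χ.2]

private theorem reg_gen (θ : G → ℂ) (n : G) :
    ∑ᶠ χ : Irr G, χ.1 1 * tt P U χ.1 θ n = ((Nat.card P : ℂ) * (Nat.card U : ℂ))⁻¹ *
      ∑ᶠ x : P, ∑ᶠ u : U, θ ((x : G)⁻¹) *
        (∑ᶠ χ : Irr G, χ.1 1 * χ.1 ((u : G) * (x : G) * n)) := by
  classical
  have : Fintype P := Fintype.ofFinite P
  have : Fintype U := Fintype.ofFinite U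
  have : Fintype (Irr G) := Fintype.ofFinite (Irr G)
  unfold tt
  simp only [finsum_eq_sum_of_fintype]
  calc ∑ χ : Irr G, χ.1 1 * (((Nat.card P : ℂ) * (Nat.card U : ℂ))⁻¹ *
        ∑ x : P, ∑ u : U, θ ((x : G)⁻¹) * χ.1 ((u : G) * (x : G) * n))
      = ∑ χ : Irr G, ((Nat.card P : ℂ) * (Nat.card U : ℂ))⁻¹ *
        ∑ x : P, ∑ u : U, θ ((x : G)⁻¹) * (χ.1 1 * χ.1 ((u : G) * (x : G) * n)) := by
        refine Finset.sum_congr rfl fun χ _ => ?_
        rw [mul_left_comm, Finset.mul_sum]
        congr 1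
        refine Finset.sum_congr rfl fun x _ => ?_
        rw [Finset.mul_sum]
        exact Finset.sum_congr rfl fun u _ => by ring
    _ = _ := by
        rw [← Finset.mul_sum, Finset.sum_comm]
        congr 1
        refine Finset.sum_congr rfl fun x _ => ?_
        rw [Finset.sum_comm]
        refine Finset.sum_congr rfl fun u _ => ?_
        rw [Finset.mul_sum]

theorem reg_one (hB : Bru p P U) {κ : ℕ} (hκ : Nat.card G = κ * (Nat.card P * Nat.card U))
    (hθ : θ ∈ Lin P) : ∑ᶠ χ : Irr G, χ.1 1 * tt P U χ.1 θ 1 = κ := by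
  classical
  have : Fintype P := Fintype.ofFinite P
  have : Fintype U := Fintype.ofFinite U
  rw [reg_gen]
  simp only [col]
  simp only [finsum_eq_sum_of_fintype]
  have hP0 : (Nat.card P : ℂ) ≠ 0 := by
    have h3 : 0 < Nat.card P := Nat.card_pos
    exact_mod_cast h3.ne'
  have hU0 : (Nat.card U : ℂ) ≠ 0 := by
    have h3 : 0 < Nat.card U := Nat.card_pos
    exact_mod_cast h3.ne'
  have h1 : ∑ x : P, ∑ u : U, θ ((x : G)⁻¹) *
      (if (u : G) * (x : G) * 1 = 1 then (Nat.card G : ℂ) else 0) = Nat.card G := by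
    have key : ∀ (x : P) (u : U), (u : G) * (x : G) * 1 = 1 → u = 1 ∧ x = 1 := by
      intro x u h
      rw [mul_one] at h
      have h2 : (u : G) = 1 := inf_NUP hB u.2 x.2 (by rw [h]; exact Subgroup.one_mem _)
      rw [h2, one_mul] at h
      exact ⟨Subtype.ext h2, Subtype.ext h⟩
    rw [Finset.sum_eq_single (1 : P)]
    · rw [Finset.sum_eq_single (1 : U)]
      · rw [if_pos (by simp), Subgroup.coe_one, inv_one, hθ.1, one_mul]
      · intro u _ hu
        rw [if_neg fun h => hu (key _ _ h).1, mul_zero]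
      · intro h
        exact absurd (Finset.mem_univ _) h
    · intro x _ hx
      refine Finset.sum_eq_zero fun u _ => ?_
      rw [if_neg fun h => hx (key _ _ h).2, mul_zero]
    · intro h
      exact absurd (Finset.mem_univ _) h
  rw [h1, hκ]
  push_cast
  field_simp

theorem reg_zero (hB : Bru p P U) (hL : Cmp p P L) (hθ : θ ∈ Lin P) {l : G} (hl : l ∈ L)
    (hl1 : l ≠ 1) : ∑ᶠ χ : Irr G, χ.1 1 * tt P U χ.1 θ l = 0 := by
  classical
  have : Fintype P := Fintype.ofFinite P
  have : Fintype U := Fintype.ofFinite U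
  rw [reg_gen]
  simp only [col]
  simp only [finsum_eq_sum_of_fintype]
  rw [Finset.sum_eq_zero, mul_zero]
  intro x _
  refine Finset.sum_eq_zero fun u _ => ?_
  rw [if_neg, mul_zero]
  intro h
  have h1 : (u : G) * (x : G) = l⁻¹ := mul_eq_one_iff_eq_inv.1 h
  have h2 : (u : G) = 1 := inf_NUP hB u.2 x.2 (by rw [h1]; exact hL.le (L.inv_mem hl))
  rw [h2, one_mul] at h1
  exact hl1 (inv_eq_one.1 (hL.inf l⁻¹ (L.inv_mem hl) (by rw [← h1]; exact x.2)))

end Pool.Agent.Helper68.BR
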