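import Pool.Agent.Helper68.BR.Key
import Pool.Agent.Helper68.BR.Orb
import Pool.Agent.Helper68.BR.Conj
import Pool.Agent.Helper68.BR.SumReg
import Pool.Agent.Helper68.BR.LatE

/-!
# BR-A17: the summary for all irreducible characters of `G`

For every `χ ∈ Irr G` choose `ρ` irreducible with character `χ` and `Λ` (`exists_lat`); `T χ l = K θ θ l` for
`l ∈ L ⊓ stab θ` is a homomorphism (`K_mul`, `K_one`, `cnj l θ = θ`, `L ≤ N`). For `χ ∉ Irr G` take `d χ = 0` and `T χ` the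
trivial homomorphism. `trace_K`, `d_eq`, `d_zero`, `schur_same`, `schur_diff`, `one_orbit` (`tt χ θ 1 = d θ ≠ 0`),
`conj_tt`, `sum_cg`, `reg_one`, `reg_zero`. `nat`: `irr_one`. The set `Irr G` is finite (INC/Basic: there is a `Finite`/`Fintype` instance or
`irr_linearIndependent`).
-/

namespace Pool.Agent.Helper68.BR

open Pool.Agent.Helper42.INC Pool.Agent.Helper42.IR

variable {G : Type} [Group G] [Finite G] {p : ℕ} [Fact p.Prime] {P U L : Subgroup G}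

/-- the package of a representation with a lattice, as a predicate on `(d, T)` -/
private inductive IsK (p : ℕ) [Fact p.Prime] (P U L : Subgroup G) (χ θ : G → ℂ) :
    (d : ℕ) → (↥(L ⊓ stab θ) →* Matrix (Fin d) (Fin d) (kk p)) → Prop
  | mk (V : Type) [AddCommGroup V] [Module ℂ V] [FiniteDimensional ℂ V]
      (ρ : Representation ℂ G V) (hρ : ρ.IsIrreducible) (hχ : χ = ρ.character)
      (Λ : Lat p P U ρ) (T : ↥(L ⊓ stab θ) →* Matrix (Fin (Λ.d θ)) (Fin (Λ.d θ)) (kk p))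
      (hT : ∀ l, T l = Λ.K θ θ (l : G)) : IsK p P U L χ θ (Λ.d θ) T

private theorem exists_K (hB : Bru p P U) (hL : Cmp p P L) {θ : G → ℂ} (hθ : θ ∈ Lin P)
    (χ : G → ℂ) : ∃ (d : ℕ) (T : ↥(L ⊓ stab θ) →* Matrix (Fin d) (Fin d) (kk p)),
      χ ∈ Irr G → IsK p P U L χ θ d T := by
  by_cases h : χ ∈ Irr G
  · obtain ⟨V, i1, i2, i3, ρ, hρ, hχ⟩ := h
    obtain ⟨Λ⟩ := exists_lat (p := p) hB ρ hρ
    let T : ↥(L ⊓ stab θ) →* Matrix (Fin (Λ.d θ)) (Fin (Λ.d θ)) (kk p) :=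
      { toFun := fun l => Λ.K θ θ (l : G)
        map_one' := by
          change Λ.K θ θ ((1 : ↥(L ⊓ stab θ)) : G) = 1
          rw [Subgroup.coe_one]
          exact K_one hB Λ hθ
        map_mul' := by
          intro a b
          change Λ.K θ θ ((a * b : ↥(L ⊓ stab θ)) : G) = _
          rw [Subgroup.coe_mul]
          exact K_mul hB Λ hθ (hL.le a.2.1) (hL.le b.2.1) (mem_stab.1 b.2.2) (mem_stab.1 a.2.2) }
    exact ⟨Λ.d θ, T, fun _ => IsK.mk V ρ hρ hχ Λ T (fun _ => rfl)⟩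
  · exact ⟨0, 1, fun h' => absurd h' h⟩

private theorem isK_one (hB : Bru p P U) {χ θ : G → ℂ} (hθ : θ ∈ Lin P) {d : ℕ}
    {T : ↥(L ⊓ stab θ) →* Matrix (Fin d) (Fin d) (kk p)} (h : IsK p P U L χ θ d T)
    (hL : Cmp p P L) :
    tt P U χ θ 1 = d ∧ (∀ l : ↥(L ⊓ stab θ), Red p (tt P U χ θ l) (T l).trace) ∧
      (∃ c : kk p, ∀ A : Matrix (Fin d) (Fin d) (kk p),
        ∑ᶠ l : ↥(L ⊓ stab θ), T l * A * T l⁻¹ = (c * A.trace) • (1 : Matrix _ _ (kk p))) := by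
  obtain ⟨V, ρ, hρ, hχ, Λ, T, hT⟩ := h
  subst hχ
  refine ⟨d_eq hB Λ hθ, fun l => ?_, ?_⟩
  · rw [hT]
    exact trace_K hB Λ hθ l
  · obtain ⟨c, hc⟩ := schur_same hB hL hρ Λ hθ
    refine ⟨c, fun A => ?_⟩
    rw [← hc A]
    refine finsum_congr fun l => ?_
    rw [hT, hT, Subgroup.coe_inv]

private theorem isK_two (hB : Bru p P U) (hL : Cmp p P L) {χ χ' θ : G → ℂ} (hθ : θ ∈ Lin P)
    {d d' : ℕ} {T : ↥(L ⊓ stab θ) →* Matrix (Fin d) (Fin d) (kk p)}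
    {T' : ↥(L ⊓ stab θ) →* Matrix (Fin d') (Fin d') (kk p)} (h : IsK p P U L χ θ d T)
    (h' : IsK p P U L χ' θ d' T') (hne : χ ≠ χ') (A : Matrix (Fin d') (Fin d) (kk p)) :
    ∑ᶠ l : ↥(L ⊓ stab θ), T' l * A * T l⁻¹ = 0 := by
  obtain ⟨V, ρ, hρ, hχ, Λ, T, hT⟩ := h
  obtain ⟨V', ρ', hρ', hχ', Λ', T', hT'⟩ := h'
  subst hχ hχ'
  rw [← schur_diff hB hL hρ hρ' hne Λ Λ' hθ A]
  refine finsum_congr fun l => ?_
  rw [hT, hT', Subgroup.coe_inv]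

theorem summ_top (hB : Bru p P U) (hL : Cmp p P L) {κ : ℕ} (hκ : ¬ p ∣ κ)
    (hG : Nat.card G = κ * (Nat.card P * Nat.card U)) : Summ p P U L (Irr G) κ := by
  refine ⟨Set.toFinite _, ?_, ?_, ?_, ?_, ?_, fun χ hχ => sum_cg hB hχ,
    fun θ hθ => reg_one hB hG hθ, fun θ hθ l hl hl1 => reg_zero hB hL hθ hl hl1, hκ⟩
  · intro χ hχ
    obtain ⟨n, -, hn⟩ := irr_one hχ
    exact ⟨n, hn⟩
  · intro θ hθ
    choose d T hT using exists_K (p := p) (U := U) hB hL hθ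
    refine ⟨d, T, fun χ hχ => ?_⟩
    obtain ⟨h1, h2, h3⟩ := isK_one hB hθ (hT χ hχ) hL
    exact ⟨h1, h2, h3, fun χ' hχ' hne A => isK_two hB hL hθ (hT χ hχ) (hT χ' hχ') hne A⟩
  · rintro χ ⟨V, i1, i2, i3, ρ, hρ, rfl⟩ θ hθ h n
    obtain ⟨Λ⟩ := exists_lat (p := p) hB ρ hρ
    exact d_zero hB Λ hθ h n
  · rintro χ ⟨V, i1, i2, i3, ρ, hρ, rfl⟩ θ hθ θ' hθ' h h'
    obtain ⟨Λ⟩ := exists_lat (p := p) hB ρ hρ
    rw [d_eq hB Λ hθ] at h
    rw [d_eq hB Λ hθ'] at h'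
    refine one_orbit hB hρ Λ hθ hθ' ?_ ?_
    · rcases Nat.eq_zero_or_pos (Λ.d θ) with h0 | h0
      · rw [h0, Nat.cast_zero] at h
        exact absurd rfl h
      · exact h0
    · rcases Nat.eq_zero_or_pos (Λ.d θ') with h0 | h0
      · rw [h0, Nat.cast_zero] at h'
        exact absurd rfl h'
      · exact h0
  · rintro χ ⟨V, i1, i2, i3, ρ, hρ, rfl⟩ θ hθ g hg
    obtain ⟨Λ⟩ := exists_lat (p := p) hB ρ hρ
    exact conj_tt hB Λ hθ hg

end Pool.Agent.Helper68.BR
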