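import Pool.Agent.Helper68.BR.Top

/-!
# BR-A18: the summary for the normalizer

`N = Nm P` as a group, `P' = P.subgroupOf N`, `U' = ⊥` (`bru_bot`), `L' = L.subgroupOf N` (a complement of `P'` in its
normalizer, which is all of `N`), `κ = |N : P|`. `summ_top` for `(P', ⊥, L')`, and translate: for `ψ ∈ IrrS N` (a function on `G`
vanishing off `N`) `ψ' = fun n : N => ψ n ∈ Irr N`, and `ψ ↦ ψ'` is a bijection `IrrS N → Irr N` (inverse `ext0`);
`θ ↦ θ' = fun n => θ n` is a bijection `Lin P → Lin P'` (inverse: extension by zero); `cnj`, `stab` correspond for elements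
of `N`; `tt P ⊥ ψ θ n = tt P' ⊥ ψ' θ' n` for `n ∈ N` (and both `ψ` terms vanish for `n ∉ N`: `tt P ⊥ ψ θ n = 0`).
`nat`: `irr_one` for `N`. It may be convenient to prove first a lemma `tt P ⊥ ψ θ (n : G) = tt P' ⊥ ψ' θ' n` and the correspondence of the sums
`∑ᶠ` over `Lin P`, over `IrrS N`, and over `↥(L ⊓ stab θ)` by `finsum_eq_of_bijective`. The homomorphisms `T` are
composed with the isomorphism `↥(L ⊓ stab θ) ≃* ↥(L' ⊓ stab θ')`.
-/

namespace Pool.Agent.Helper68.BR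

open Pool.Agent.Helper42.INC Pool.Agent.Helper42.IR

variable {G : Type} [Group G] [Finite G] {p : ℕ} [Fact p.Prime] {P U L : Subgroup G}

/-- restriction of a function to the normalizer -/
private def rs (P : Subgroup G) (f : G → ℂ) : Nm P → ℂ := fun n => f n

omit [Finite G] in
private theorem rs_apply (f : G → ℂ) (n : Nm P) : rs P f n = f n := rfl

private theorem tt_bot (P : Subgroup G) (f θ : G → ℂ) (n : G) :
    tt P ⊥ f θ n = (Nat.card P : ℂ)⁻¹ * ∑ᶠ x : P, θ ((x : G)⁻¹) * f ((x : G) * n) := by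
  unfold tt
  rw [Subgroup.card_bot, Nat.cast_one, mul_one]
  congr 1
  refine finsum_congr fun x => ?_
  rw [finsum_eq_single _ (1 : (⊥ : Subgroup G)) (fun u hu => absurd (Subsingleton.elim u 1) hu)]
  rw [Subgroup.coe_one, one_mul]

private theorem tt_res (P : Subgroup G) (f θ : G → ℂ) (n : Nm P) :
    tt P ⊥ f θ (n : G) = tt (P.subgroupOf (Nm P)) ⊥ (rs P f) (rs P θ) n := by
  have hle : P ≤ Nm P := Subgroup.le_normalizer
  rw [tt_bot, tt_bot, Nat.card_congr (Subgroup.subgroupOfEquivOfLe hle).toEquiv]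
  congr 1
  rw [← finsum_comp_equiv (Subgroup.subgroupOfEquivOfLe hle).toEquiv]
  rfl

private theorem tt_out (P : Subgroup G) {f : G → ℂ} (hf : ∀ x, x ∉ Nm P → f x = 0) (θ : G → ℂ)
    {n : G} (hn : n ∉ Nm P) : tt P ⊥ f θ n = 0 := by
  rw [tt_bot, finsum_eq_zero_of_forall_eq_zero, mul_zero]
  intro x
  rw [hf, mul_zero]
  intro h
  refine hn ?_
  have h1 := (Nm P).mul_mem ((Nm P).inv_mem (Subgroup.le_normalizer x.2)) h
  rwa [inv_mul_cancel_left] at h1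

omit [Finite G] in
private theorem rs_inj {f g : G → ℂ} (hf : ∀ x, x ∉ Nm P → f x = 0) (hg : ∀ x, x ∉ Nm P → g x = 0)
    (h : rs P f = rs P g) : f = g := by
  funext x
  by_cases hx : x ∈ Nm P
  · exact congrFun h ⟨x, hx⟩
  · rw [hf x hx, hg x hx]

omit [Finite G] in
private theorem lin_off {θ : G → ℂ} (hθ : θ ∈ Lin P) : ∀ x, x ∉ Nm P → θ x = 0 :=
  fun x hx => hθ.2.2 x fun h => hx (Subgroup.le_normalizer h)

omit [Finite G] in
private theorem lin_rs {θ : G → ℂ} (hθ : θ ∈ Lin P) : rs P θ ∈ Lin (P.subgroupOf (Nm P)) :=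
  ⟨hθ.1, fun x hx y hy => hθ.2.1 x hx y hy, fun x hx => hθ.2.2 x fun h => hx h⟩

omit [Finite G] in
open Classical in
/-- extension by zero -/
private noncomputable def ez (P : Subgroup G) (f : Nm P → ℂ) : G → ℂ :=
  fun x => if h : x ∈ Nm P then f ⟨x, h⟩ else 0

omit [Finite G] in
private theorem ez_off (f : Nm P → ℂ) : ∀ x, x ∉ Nm P → ez P f x = 0 := fun _ hx => dif_neg hx

omit [Finite G] in
private theorem rs_ez (f : Nm P → ℂ) : rs P (ez P f) = f := by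
  funext n
  exact dif_pos (c := (n : G) ∈ Nm P) n.2

omit [Finite G] in
private theorem ez_coe (f : Nm P → ℂ) {x : G} (hx : x ∈ Nm P) : ez P f x = f ⟨x, hx⟩ := dif_pos hx

omit [Finite G] in
private theorem lin_ez {f : Nm P → ℂ} (hf : f ∈ Lin (P.subgroupOf (Nm P))) : ez P f ∈ Lin P := by
  refine ⟨?_, fun x hx y hy => ?_, fun x hx => ?_⟩
  · rw [ez_coe f (Nm P).one_mem]
    exact hf.1
  · have hx' : x ∈ Nm P := Subgroup.le_normalizer hx
    have hy' : y ∈ Nm P := Subgroup.le_normalizer hy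
    rw [ez_coe f hx', ez_coe f hy', ez_coe f ((Nm P).mul_mem hx' hy')]
    exact hf.2.1 ⟨x, hx'⟩ hx ⟨y, hy'⟩ hy
  · by_cases h : x ∈ Nm P
    · rw [ez_coe f h]
      exact hf.2.2 ⟨x, h⟩ hx
    · exact ez_off f x h

/-- the bijection of linear characters -/
private noncomputable def linEq (P : Subgroup G) : Lin P ≃ Lin (P.subgroupOf (Nm P)) :=
  Equiv.ofBijective (fun θ => ⟨rs P θ.1, lin_rs θ.2⟩) ⟨fun a b h => Subtype.ext
    (rs_inj (lin_off a.2) (lin_off b.2) (congrArg Subtype.val h)), fun b =>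
    ⟨⟨ez P b.1, lin_ez b.2⟩, Subtype.ext (rs_ez b.1)⟩⟩

/-- the bijection of irreducible characters -/
private noncomputable def irrEq (P : Subgroup G) : IrrS (Nm P) ≃ Irr (Nm P) :=
  Equiv.ofBijective (fun θ => ⟨rs P θ.1, θ.2.1⟩) ⟨fun a b h => Subtype.ext
    (rs_inj a.2.2 b.2.2 (congrArg Subtype.val h)), fun b =>
    ⟨⟨ez P b.1, by
      refine ⟨?_, ez_off b.1⟩
      change rs P (ez P b.1) ∈ _
      rw [rs_ez]
      exact b.2⟩, Subtype.ext (rs_ez b.1)⟩⟩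

omit [Finite G] in
private theorem rs_cnj (n : Nm P) (f : G → ℂ) : cnj n (rs P f) = rs P (cnj (n : G) f) := rfl

omit [Finite G] in
private theorem cnj_off {f : G → ℂ} (hf : ∀ x, x ∉ Nm P → f x = 0) {n : G} (hn : n ∈ Nm P) :
    ∀ x, x ∉ Nm P → cnj n f x = 0 := by
  intro x hx
  rw [cnj_apply]
  apply hf
  intro h
  apply hx
  have h1 := (Nm P).mul_mem ((Nm P).mul_mem hn h) ((Nm P).inv_mem hn)
  have e : n * (n⁻¹ * x * n) * n⁻¹ = x := by group
  rwa [e] at h1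

omit [Finite G] in
private theorem cnj_iff {f g : G → ℂ} (hf : ∀ x, x ∉ Nm P → f x = 0)
    (hg : ∀ x, x ∉ Nm P → g x = 0) (n : Nm P) :
    cnj n (rs P f) = rs P g ↔ cnj (n : G) f = g := by
  rw [rs_cnj]
  exact ⟨fun h => rs_inj (cnj_off hf n.2) hg h, fun h => by rw [h]⟩

omit [Finite G] in
private theorem mem_nm (n : Nm P) : n ∈ Nm (P.subgroupOf (Nm P)) := by
  show n ∈ Subgroup.normalizer ((P.subgroupOf (Nm P) : Subgroup (Nm P)) : Set (Nm P))
  rw [Subgroup.normalizer_eq_top]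
  trivial

/-- the isomorphism of stabilizers -/
private def stEq (hL : L ≤ Nm P) {θ : G → ℂ} (hθ : θ ∈ Lin P) :
    ↥(L ⊓ stab θ) ≃* ↥(L.subgroupOf (Nm P) ⊓ stab (rs P θ)) where
  toFun := fun l => ⟨⟨l.1, hL l.2.1⟩, l.2.1, (cnj_iff (lin_off hθ) (lin_off hθ) _).2 l.2.2⟩
  invFun := fun b => ⟨((b : Nm P) : G), b.2.1, (cnj_iff (lin_off hθ) (lin_off hθ) _).1 b.2.2⟩
  left_inv := fun _ => rfl
  right_inv := fun _ => rfl
  map_mul' := fun _ _ => rfl

private theorem stEq_coe (hL : L ≤ Nm P) {θ : G → ℂ} (hθ : θ ∈ Lin P) (l : ↥(L ⊓ stab θ)) :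
    (((stEq hL hθ l : ↥(L.subgroupOf (Nm P) ⊓ stab (rs P θ))) : Nm P) : G) = l := rfl

private theorem cmp_nm (hL : Cmp p P L) : Cmp p (P.subgroupOf (Nm P)) (L.subgroupOf (Nm P)) where
  le := fun n _ => mem_nm n
  inf := fun x hx hx' => Subtype.ext (hL.inf x hx hx')
  sup := fun n _ => by
    obtain ⟨l, hl, x, hx, h⟩ := hL.sup n n.2
    exact ⟨⟨l, hL.le hl⟩, hl, ⟨x, Subgroup.le_normalizer hx⟩, hx, Subtype.ext h⟩
  card := by
    rw [Nat.card_congr (Subgroup.subgroupOfEquivOfLe hL.le).toEquiv]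
    exact hL.card

theorem summ_nm (hB : Bru p P U) (hL : Cmp p P L) : ∃ κ : ℕ, Summ p P ⊥ L (IrrS (Nm P)) κ := by
  obtain ⟨κ, hκ, hcard⟩ := exists_kappa (bru_bot hB)
  have hS := summ_top (bru_bot hB) (cmp_nm hL) hκ hcard
  have hirr : ∀ χ ∈ IrrS (Nm P), rs P χ ∈ Irr (Nm P) := fun χ h => h.1
  have tt1 : ∀ f θ : G → ℂ, tt P ⊥ f θ 1 = tt (P.subgroupOf (Nm P)) ⊥ (rs P f) (rs P θ) 1 :=
    fun f θ => tt_res P f θ 1
  refine ⟨κ, ?_⟩
  refine
    { fin := ?_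
      nat := ?_
      rep := ?_
      zero := ?_
      orbit := ?_
      conj := ?_
      sum := ?_
      reg1 := ?_
      reg0 := ?_
      kap := hκ }
  · have : Finite (Irr (Nm P)) := hS.fin.to_subtype
    have : Finite (IrrS (Nm P)) := Finite.of_equiv _ (irrEq P).symm
    exact Set.toFinite _
  · intro χ hχ
    exact hS.nat _ (hirr χ hχ)
  · intro θ hθ
    obtain ⟨d, T, h⟩ := hS.rep (rs P θ) (lin_rs hθ)
    refine ⟨fun χ => d (rs P χ), fun χ => (T (rs P χ)).comp (stEq hL.le hθ).toMonoidHom, ?_⟩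
    intro χ hχ
    obtain ⟨h1, h2, ⟨c, h3⟩, h4⟩ := h (rs P χ) (hirr χ hχ)
    refine ⟨?_, fun l => ?_, ⟨c, fun A => ?_⟩, fun χ' hχ' hne A => ?_⟩
    · rw [tt1, h1]
    · have h5 := h2 (stEq hL.le hθ l)
      rw [← tt_res P χ θ] at h5
      exact h5
    · rw [← h3 A, ← finsum_comp_equiv (stEq hL.le hθ).toEquiv]
      refine finsum_congr fun l => ?_
      simp
    · rw [← h4 (rs P χ') (hirr χ' hχ') (fun he => hne (rs_inj hχ.2 hχ'.2 he)) A,
        ← finsum_comp_equiv (stEq hL.le hθ).toEquiv]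
      refine finsum_congr fun l => ?_
      simp
  · intro χ hχ θ hθ h0 n
    by_cases hn : n ∈ Nm P
    · rw [tt1] at h0
      have := hS.zero _ (hirr χ hχ) _ (lin_rs hθ) h0 ⟨n, hn⟩
      rw [← tt_res P χ θ ⟨n, hn⟩] at this
      exact this
    · exact tt_out P hχ.2 θ hn
  · intro χ hχ θ hθ θ' hθ' h1 h2
    rw [tt1] at h1 h2
    obtain ⟨g, -, hg⟩ := hS.orbit _ (hirr χ hχ) _ (lin_rs hθ) _ (lin_rs hθ') h1 h2
    exact ⟨g, g.2, (cnj_iff (lin_off hθ) (lin_off hθ') g).1 hg⟩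
  · intro χ hχ θ hθ g hg
    obtain ⟨h1, h2⟩ := hS.conj _ (hirr χ hχ) _ (lin_rs hθ) ⟨g, hg⟩ (mem_nm _)
    rw [rs_cnj] at h1 h2
    refine ⟨?_, fun n hn => ?_⟩
    · rw [tt1, tt1]
      exact h1
    · have hn1 : n ∈ Nm P := hn.1
      have h3 := h2 ⟨n, hn1⟩ ⟨mem_nm _, (cnj_iff (lin_off hθ) (lin_off hθ) _).2 hn.2⟩
      rw [← tt_res P χ θ ⟨n, hn1⟩, ← tt_res P χ (cnj g θ)] at h3
      exact h3
  · intro χ hχ
    have h1 := hS.sum _ (hirr χ hχ)
    have h2 : ∑ᶠ θ : Lin P, tt P ⊥ χ θ.1 1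
        = ∑ᶠ θ : Lin (P.subgroupOf (Nm P)), tt (P.subgroupOf (Nm P)) ⊥ (rs P χ) θ.1 1 := by
      rw [← finsum_comp_equiv (linEq P)]
      exact finsum_congr fun θ => tt1 χ θ.1
    rw [h2]
    exact h1
  · intro θ hθ
    rw [← hS.reg1 _ (lin_rs hθ), ← finsum_comp_equiv (irrEq P)]
    refine finsum_congr fun χ => ?_
    rw [tt1]
    rfl
  · intro θ hθ l hl hl1
    rw [← hS.reg0 _ (lin_rs hθ) ⟨l, hL.le hl⟩ hl (fun h => hl1 (congrArg Subtype.val h)),
      ← finsum_comp_equiv (irrEq P)]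
    refine finsum_congr fun χ => ?_
    have h1 := tt_res P χ.1 θ ⟨l, hL.le hl⟩
    have h2 : tt P ⊥ χ.1 θ l = tt P ⊥ χ.1 θ ((⟨l, hL.le hl⟩ : Nm P) : G) := rfl
    rw [h2, h1]
    rfl

end Pool.Agent.Helper68.BR
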