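import Pool.Agent.Helper68.BR.CDefs

/-!
# BR-C01: the group of unitriangular matrices is generated by the upper transvections

→: closure induction; products of unitriangular matrices are unitriangular; the inverse of a generator is a generator
(`transvection_inv`), so one may use `Subgroup.closure_induction''` or the inverse of a (block) triangular matrix.
←: downward induction on `m`: if `g` is unitriangular and `g i j = 0` for all `i < j` with `j ≥ m` then `g ∈ UT`. (For `m = 0` or `1`:
`g = 1`.) Step from `m` to `m + 1` (column index `m`): row `m` of `g` is the unit vector `e_m` (its entries right of the diagonal are in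
columns `> m`), so left multiplication by `tv (i < m) (- g i m)` changes only the entry `(i, m)`, to `0`. The product over all `i < m`
makes column `m` trivial.
-/

namespace Pool.Agent.Helper68.BR

open Matrix

variable {n : ℕ} {k : Type} [Field k]

private def Uni (A : Matrix (Fin n) (Fin n) k) : Prop :=
  (∀ i, A i i = 1) ∧ ∀ i j, j < i → A i j = 0

private theorem uni_mul {A B : Matrix (Fin n) (Fin n) k} (hA : Uni A) (hB : Uni B) :
    Uni (A * B) := by
  constructor
  · intro i
    rw [Matrix.mul_apply, Finset.sum_eq_single i]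
    · rw [hA.1, hB.1, one_mul]
    · intro l _ hl
      rcases lt_or_gt_of_ne hl with h | h
      · rw [hA.2 i l h, zero_mul]
      · rw [hB.2 l i h, mul_zero]
    · intro h; exact absurd (Finset.mem_univ _) h
  · intro i j hij
    rw [Matrix.mul_apply]
    refine Finset.sum_eq_zero fun l _ => ?_
    rcases lt_or_ge l i with h | h
    · rw [hA.2 i l h, zero_mul]
    · rw [hB.2 l j (lt_of_lt_of_le hij h), mul_zero]

private theorem tv_apply {i j : Fin n} (h : i ≠ j) (s : k) (a b : Fin n) :
    (tv h s).1 a b = (if a = b then 1 else 0) + (if i = a ∧ j = b then s else 0) := by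
  rw [SpecialLinearGroup.transvection_coe, Matrix.add_apply, Matrix.one_apply, Matrix.single_apply]

private theorem uni_tv {i j : Fin n} (h : i < j) (s : k) : Uni (tv h.ne s).1 := by
  constructor
  · intro a
    rw [tv_apply, if_pos rfl, if_neg, add_zero]
    rintro ⟨h1, h2⟩
    exact h.ne (h1.trans h2.symm)
  · intro a b hab
    rw [tv_apply, if_neg hab.ne', if_neg, add_zero]
    rintro ⟨h1, h2⟩
    subst h1 h2
    exact absurd h (not_lt_of_gt hab)

private theorem tv_mul_apply {i j : Fin n} (h : i ≠ j) (s : k) (g : SpecialLinearGroup (Fin n) k)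
    (a b : Fin n) :
    (tv h s * g).1 a b = g.1 a b + (if a = i then s * g.1 j b else 0) := by
  change ((tv h s).1 * g.1) a b = _
  rw [SpecialLinearGroup.transvection_coe, Matrix.add_mul, Matrix.one_mul, Matrix.add_apply]
  congr 1
  by_cases ha : a = i
  · subst ha
    rw [if_pos rfl, Matrix.single_mul_apply_same]
  · rw [if_neg ha, Matrix.single_mul_apply_of_ne _ _ _ _ _ ha]

private theorem col_step (m : Fin n)
    (IH : ∀ g : SpecialLinearGroup (Fin n) k, Uni g.1 →
      (∀ i j : Fin n, i < j → m ≤ j → g.1 i j = 0) → g ∈ UT n k) :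
    ∀ t : ℕ, ∀ g : SpecialLinearGroup (Fin n) k, Uni g.1 →
      (∀ i j : Fin n, i < j → m < j → g.1 i j = 0) →
      (∀ i : Fin n, i < m → t ≤ i.val → g.1 i m = 0) → g ∈ UT n k := by
  intro t
  induction t with
  | zero =>
    intro g hg h1 h2
    refine IH g hg fun i j hij hj => ?_
    rcases eq_or_lt_of_le hj with h | h
    · subst h
      exact h2 i hij (Nat.zero_le _)
    · exact h1 i j hij h
  | succ t ih =>
    intro g hg h1 h2
    by_cases ht : t < m.val
    · have htn : t < n := lt_trans ht m.isLt
      have hi : (⟨t, htn⟩ : Fin n) < m := Fin.lt_def.2 ht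
      have key : tv hi.ne (-(g.1 ⟨t, htn⟩ m)) * g ∈ UT n k := by
        refine ih _ (uni_mul (uni_tv hi _) hg) ?_ ?_
        · intro i j hij hj
          rw [tv_mul_apply, h1 i j hij hj, h1 m j hj hj, mul_zero, ite_self, add_zero]
        · intro i him hti
          rw [tv_mul_apply, hg.1 m, mul_one]
          by_cases hit : i = ⟨t, htn⟩
          · subst hit
            rw [if_pos rfl, add_neg_cancel]
          · rw [if_neg hit, add_zero]
            refine h2 i him ?_
            rcases eq_or_lt_of_le hti with h | h
            · exact absurd (Fin.ext h.symm) hit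
            · exact h
      have h3 : tv hi.ne (-(g.1 ⟨t, htn⟩ m)) ∈ UT n k :=
        Subgroup.subset_closure ⟨_, _, hi, _, rfl⟩
      exact (Subgroup.mul_mem_cancel_left _ h3).1 key
    · refine ih g hg h1 fun i him hti => ?_
      exact absurd (Fin.lt_def.1 him) (by omega)

private theorem mem_of_cols : ∀ m : ℕ, m ≤ n → ∀ g : SpecialLinearGroup (Fin n) k, Uni g.1 →
    (∀ i j : Fin n, i < j → m ≤ j.val → g.1 i j = 0) → g ∈ UT n k := by
  intro m
  induction m with
  | zero =>
    intro _ g hg h
    have : g = 1 := by
      apply Subtype.ext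
      ext i j
      change g.1 i j = (1 : Matrix (Fin n) (Fin n) k) i j
      rcases lt_trichotomy i j with hij | hij | hij
      · rw [h i j hij (Nat.zero_le _), Matrix.one_apply_ne hij.ne]
      · subst hij
        rw [hg.1, Matrix.one_apply_eq]
      · rw [hg.2 i j hij, Matrix.one_apply_ne hij.ne']
    rw [this]
    exact Subgroup.one_mem _
  | succ m ih =>
    intro hm g hg h
    have hmn : m < n := hm
    refine col_step ⟨m, hmn⟩ ?_ n g hg ?_ ?_
    · intro g' hg' h'
      exact ih hmn.le g' hg' fun i j hij hj => h' i j hij (Fin.le_def.2 hj)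
    · intro i j hij hj
      exact h i j hij (Fin.lt_def.1 hj)
    · intro i _ hni
      exact absurd i.isLt (not_lt.2 hni)

private def UTS (n : ℕ) (k : Type) [Field k] : Subgroup (SpecialLinearGroup (Fin n) k) :=
  { carrier := {g | Uni g.1 ∧ Uni (g⁻¹).1}
    one_mem' := by
      have h : Uni (1 : Matrix (Fin n) (Fin n) k) :=
        ⟨fun i => Matrix.one_apply_eq i, fun i j hij => Matrix.one_apply_ne hij.ne'⟩
      refine ⟨h, ?_⟩
      rw [inv_one]
      exact h
    mul_mem' := by
      rintro a b ⟨ha, ha'⟩ ⟨hb, hb'⟩
      refine ⟨uni_mul ha hb, ?_⟩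
      rw [_root_.mul_inv_rev]
      exact uni_mul hb' ha'
    inv_mem' := by
      rintro a ⟨ha, ha'⟩
      refine ⟨ha', ?_⟩
      rw [inv_inv]
      exact ha }

theorem mem_UT {g : SpecialLinearGroup (Fin n) k} :
    g ∈ UT n k ↔ (∀ i, g.1 i i = 1) ∧ ∀ i j, j < i → g.1 i j = 0 := by
  constructor
  · intro hg
    have h1 : UT n k ≤ UTS n k := by
      refine (Subgroup.closure_le _).2 ?_
      rintro x ⟨i, j, h, s, rfl⟩
      refine ⟨uni_tv h s, ?_⟩
      rw [SpecialLinearGroup.transvection_inv]
      exact uni_tv h (-s)
    exact (h1 hg).1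
  · intro hg
    exact mem_of_cols n le_rfl g hg fun i j _ hj => absurd j.isLt (not_lt.2 hj)

end Pool.Agent.Helper68.BR
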