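import Pool.Agent.Helper68.BR.CommS
import Pool.Agent.Helper68.BR.CommD

/-!
# BR-C12: the canonical lifts of the root subgroups

Choose `z₀ ∈ TP` with `z₀ i i ≠ z₀ j j` (`exists_wt'`) and `x₀ ∈ P` lifting it (`PData.up`), `lam = z₀ i i / z₀ j j ≠ 1`.
`Y = YY f h` is commutative (`comm_same`) and normalized by `P` (`PData.down`, `lf_conj`). `φ : v ↦ x₀ v x₀⁻¹ v⁻¹` is a homomorphism
`Y → Y`; `R` = its range.
(a) `R ⊓ f.ker = ⊥`: `φ v` lifts `tv ((lam - 1) s)` if `v` lifts `tv s`; if it is in `f.ker` then `s = 0` (`yy_ker`), `v ∈ f.ker` is central,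
`φ v = 1`. (b) every `tv t` has a lift in `R`. (c) `x ∈ P`: `x φ(v) x⁻¹ = φ(x v x⁻¹)` (`x x₀ = x₀ x`), so `P` normalizes `R`.
(d) for `x ∈ P`, `v ∈ Y`: `v = v₀ c` with `v₀ ∈ R`, `c ∈ f.ker` central (b), so `x v x⁻¹ v⁻¹ = x v₀ x⁻¹ v₀⁻¹ ∈ R` by (c). Hence
`XX f P h = R` (closure), and everything follows.
-/

namespace Pool.Agent.Helper68.BR

open Matrix

variable {n : ℕ} {k : Type} [Field k] [Finite k] {K : Type} [Group K] {p : ℕ} [Fact p.Prime]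
  {f : K →* ProjectiveSpecialLinearGroup (Fin n) k} {P : Subgroup K} {i j : Fin n}

private theorem tp_dg {z : SpecialLinearGroup (Fin n) k} (hz : z ∈ TP n k p) : z ∈ DG n k := hz.1

private theorem conj_mem_yy (hP : PData p f P) (h : i ≠ j) {x v : K} (hx : x ∈ P)
    (hv : v ∈ YY f h) : x * v * x⁻¹ ∈ YY f h := by
  obtain ⟨z, hz, hxz⟩ := hP.down x hx
  obtain ⟨s, hs⟩ := hv
  exact ⟨_, lf_conj h hxz (tp_dg hz) hs⟩

private theorem phi_lift (h : i ≠ j) {x v : K} {z : SpecialLinearGroup (Fin n) k} (hz : z ∈ DG n k)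
    (hx : Lf f x z) {s : k} (hv : Lf f v (tv h s)) :
    Lf f (x * v * x⁻¹ * v⁻¹) (tv h ((z.1 i i * (z.1 j j)⁻¹ - 1) * s)) := by
  have h1 := (lf_conj h hx hz hv).mul hv.inv
  have h2 : tv h (z.1 i i * (z.1 j j)⁻¹ * s) * (tv h s)⁻¹ =
      tv h ((z.1 i i * (z.1 j j)⁻¹ - 1) * s) := by
    show SpecialLinearGroup.transvection h _ * (SpecialLinearGroup.transvection h _)⁻¹ =
      SpecialLinearGroup.transvection h _
    rw [SpecialLinearGroup.transvection_inv, ← SpecialLinearGroup.transvection_add]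
    congr 1
    ring
  rwa [h2] at h1

private theorem lam_ne {z : SpecialLinearGroup (Fin n) k} (hz : z ∈ DG n k)
    (hne : z.1 i i ≠ z.1 j j) : z.1 i i * (z.1 j j)⁻¹ - 1 ≠ 0 := by
  intro h0
  apply hne
  have h1 := sub_eq_zero.1 h0
  have h2 := dg_ne hz j
  calc z.1 i i = z.1 i i * (z.1 j j)⁻¹ * z.1 j j := by rw [mul_assoc, inv_mul_cancel₀ h2, mul_one]
    _ = z.1 j j := by rw [h1, one_mul]

private theorem up_aux (hf : Function.Surjective f) (h : i ≠ j) {x : K}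
    {z : SpecialLinearGroup (Fin n) k} (hz : z ∈ DG n k) (hx : Lf f x z)
    (hne : z.1 i i ≠ z.1 j j) (s : k) : ∃ u ∈ YY f h, Lf f (x * u * x⁻¹ * u⁻¹) (tv h s) := by
  have hl := lam_ne hz hne
  obtain ⟨u, hu⟩ := exists_lf hf (tv h ((z.1 i i * (z.1 j j)⁻¹ - 1)⁻¹ * s))
  refine ⟨u, ⟨_, hu⟩, ?_⟩
  have h1 := phi_lift h hz hx hu
  rwa [← mul_assoc, mul_inv_cancel₀ hl, one_mul] at h1

private theorem phi_hom (hn : 3 ≤ n) (hf : Function.Surjective f)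
    (hc : f.ker ≤ Subgroup.center K) (hP : PData p f P) (h : i ≠ j) {x v v' : K} (hx : x ∈ P)
    (hv : v ∈ YY f h) (hv' : v' ∈ YY f h) :
    x * (v * v') * x⁻¹ * (v * v')⁻¹ = (x * v * x⁻¹ * v⁻¹) * (x * v' * x⁻¹ * v'⁻¹) := by
  have h1 : x * v' * x⁻¹ * v'⁻¹ ∈ YY f h :=
    (YY f h).mul_mem (conj_mem_yy hP h hx hv') ((YY f h).inv_mem hv')
  have h2 := comm_same hn hf hc h ((YY f h).inv_mem hv) h1
  calc x * (v * v') * x⁻¹ * (v * v')⁻¹ = x * v * x⁻¹ * ((x * v' * x⁻¹ * v'⁻¹) * v⁻¹) := by group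
    _ = x * v * x⁻¹ * (v⁻¹ * (x * v' * x⁻¹ * v'⁻¹)) := by rw [h2]
    _ = _ := by group

private theorem phi_inv (hn : 3 ≤ n) (hf : Function.Surjective f)
    (hc : f.ker ≤ Subgroup.center K) (hP : PData p f P) (h : i ≠ j) {x v : K} (hx : x ∈ P)
    (hv : v ∈ YY f h) :
    x * v⁻¹ * x⁻¹ * (v⁻¹)⁻¹ = (x * v * x⁻¹ * v⁻¹)⁻¹ := by
  have h1 := phi_hom hn hf hc hP h hx ((YY f h).inv_mem hv) hv
  rw [inv_mul_cancel, mul_one, mul_inv_cancel, inv_one, mul_one] at h1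
  exact eq_inv_of_mul_eq_one_left h1.symm

/-- every element of `XX` is a value of `φ` -/
private theorem claim (hn : 3 ≤ n) (hf : Function.Surjective f)
    (hc : f.ker ≤ Subgroup.center K) (hP : PData p f P) (h : i ≠ j) {x₀ : K} (hx₀ : x₀ ∈ P)
    {z₀ : SpecialLinearGroup (Fin n) k} (hz₀ : z₀ ∈ DG n k) (hl : Lf f x₀ z₀)
    (hne : z₀.1 i i ≠ z₀.1 j j) {y : K} (hy : y ∈ XX f P h) :
    ∃ v ∈ YY f h, y = x₀ * v * x₀⁻¹ * v⁻¹ := by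
  unfold XX at hy
  induction hy using Subgroup.closure_induction with
  | mem y hy =>
    obtain ⟨x, hx, v, hv, rfl⟩ := hy
    obtain ⟨s, hs⟩ := hv
    obtain ⟨u, hu, hus⟩ := up_aux hf h hz₀ hl hne s
    obtain ⟨c, hc1, hc2⟩ := Lf.ker hs hus
    have hcc := Subgroup.mem_center_iff.1 (hc hc1)
    refine ⟨x * u * x⁻¹ * u⁻¹,
      (YY f h).mul_mem (conj_mem_yy hP h hx hu) ((YY f h).inv_mem hu), ?_⟩
    have hxx := hP.comm x hx x₀ hx₀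
    rw [phi_hom hn hf hc hP h hx₀ (conj_mem_yy hP h hx hu) ((YY f h).inv_mem hu),
      phi_inv hn hf hc hP h hx₀ hu]
    rw [hc2]
    have h1 : x * (x₀ * u * x₀⁻¹ * u⁻¹ * c) * x⁻¹ * (x₀ * u * x₀⁻¹ * u⁻¹ * c)⁻¹ =
        x * (x₀ * u * x₀⁻¹ * u⁻¹) * (c * x⁻¹) * c⁻¹ * (x₀ * u * x₀⁻¹ * u⁻¹)⁻¹ := by group
    rw [h1, ← hcc x⁻¹]
    have h2 : x * (x₀ * u * x₀⁻¹ * u⁻¹) * (x⁻¹ * c) * c⁻¹ * (x₀ * u * x₀⁻¹ * u⁻¹)⁻¹ =
        (x * x₀) * u * (x * x₀)⁻¹ * (x * u⁻¹ * x⁻¹) * (x₀ * u * x₀⁻¹ * u⁻¹)⁻¹ := by group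
    rw [h2, hxx]
    group
  | one =>
    exact ⟨1, (YY f h).one_mem, by group⟩
  | mul a b _ _ ha hb =>
    obtain ⟨v, hv, rfl⟩ := ha
    obtain ⟨v', hv', rfl⟩ := hb
    exact ⟨v * v', (YY f h).mul_mem hv hv', (phi_hom hn hf hc hP h hx₀ hv hv').symm⟩
  | inv a _ ha =>
    obtain ⟨v, hv, rfl⟩ := ha
    exact ⟨v⁻¹, (YY f h).inv_mem hv, (phi_inv hn hf hc hP h hx₀ hv).symm⟩

theorem xx_le (hP : PData p f P) (h : i ≠ j) : XX f P h ≤ YY f h := by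
  unfold XX
  rw [Subgroup.closure_le]
  rintro y ⟨x, hx, v, hv, rfl⟩
  exact (YY f h).mul_mem (conj_mem_yy hP h hx hv) ((YY f h).inv_mem hv)

theorem xx_comm {x v : K} (h : i ≠ j) (hx : x ∈ P) (hv : v ∈ YY f h) :
    x * v * x⁻¹ * v⁻¹ ∈ XX f P h := by
  unfold XX
  exact Subgroup.subset_closure ⟨x, hx, v, hv, rfl⟩

theorem xx_conj (hn : 3 ≤ n) (hp : 5 ≤ p) (hq : p ∣ Nat.card k - 1)
    (hf : Function.Surjective f) (hc : f.ker ≤ Subgroup.center K) (hP : PData p f P) (h : i ≠ j)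
    {x y : K} (hx : x ∈ P) (hy : y ∈ XX f P h) : x * y * x⁻¹ ∈ XX f P h := by
  unfold XX at hy ⊢
  induction hy using Subgroup.closure_induction with
  | mem y hy =>
    obtain ⟨x', hx', v, hv, rfl⟩ := hy
    refine Subgroup.subset_closure ⟨x', hx', x * v * x⁻¹, conj_mem_yy hP h hx hv, ?_⟩
    have hxx := hP.comm x hx x' hx'
    have h1 : x * (x' * v * x'⁻¹ * v⁻¹) * x⁻¹ = (x * x') * v * (x * x')⁻¹ * (x * v⁻¹ * x⁻¹) := by group
    rw [h1, hxx]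
    group
  | one =>
    rw [mul_one, mul_inv_cancel]
    exact Subgroup.one_mem _
  | mul a b _ _ ha hb =>
    have h1 : x * (a * b) * x⁻¹ = (x * a * x⁻¹) * (x * b * x⁻¹) := by group
    rw [h1]
    exact Subgroup.mul_mem _ ha hb
  | inv a _ ha =>
    have h1 : x * a⁻¹ * x⁻¹ = (x * a * x⁻¹)⁻¹ := by group
    rw [h1]
    exact Subgroup.inv_mem _ ha

theorem xx_ker (hn : 3 ≤ n) (hp : 5 ≤ p) (hq : p ∣ Nat.card k - 1)
    (hf : Function.Surjective f) (hc : f.ker ≤ Subgroup.center K) (hP : PData p f P) (h : i ≠ j)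
    {y : K} (hy : y ∈ XX f P h) (hk : y ∈ f.ker) : y = 1 := by
  obtain ⟨z₀, hz₀, hne⟩ := exists_wt' (n := n) (k := k) (p := p) hp hq h
  obtain ⟨x₀, hx₀, hl⟩ := hP.up z₀ hz₀
  obtain ⟨v, hv, rfl⟩ := claim hn hf hc hP h hx₀ (tp_dg hz₀) hl hne hy
  obtain ⟨s, hs⟩ := hv
  have h1 := phi_lift h (tp_dg hz₀) hl hs
  have h2 := yy_ker h h1 hk
  have h3 : s = 0 := (mul_eq_zero.1 h2).resolve_left (lam_ne (tp_dg hz₀) hne)
  have h4 : v ∈ f.ker := by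
    rw [← lf_one (f := f)]
    rw [h3] at hs
    have h5 : tv h (0 : k) = 1 := SpecialLinearGroup.transvection_coeff_zero _
    rwa [h5] at hs
  have h5 := Subgroup.mem_center_iff.1 (hc h4) x₀
  rw [h5]
  group

theorem xx_up (hn : 3 ≤ n) (hp : 5 ≤ p) (hq : p ∣ Nat.card k - 1)
    (hf : Function.Surjective f) (hc : f.ker ≤ Subgroup.center K) (hP : PData p f P) (h : i ≠ j)
    (s : k) : ∃ y ∈ XX f P h, Lf f y (tv h s) := by
  obtain ⟨z₀, hz₀, hne⟩ := exists_wt' (n := n) (k := k) (p := p) hp hq h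
  obtain ⟨x₀, hx₀, hl⟩ := hP.up z₀ hz₀
  obtain ⟨u, hu, hus⟩ := up_aux hf h (tp_dg hz₀) hl hne s
  exact ⟨_, xx_comm h hx₀ hu, hus⟩

end Pool.Agent.Helper68.BR
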